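import Pool.Agent.Lib.MP_32448b_gt.PC

set_option autoImplicit false

open Set Metric Topology Filter Function

namespace Pool.Agent.Lib.MP_32448b_gt

variable {Y : Type} [MetricSpace Y]

/-- At most two-to-one, with double points coming from non-cut points. -/
structure Tile.Adm (t : Tile Y) : Prop where
  two : ∀ p q r, t.g p = t.g q → t.g q = t.g r → p = q ∨ q = r ∨ p = r
  nc : ∀ p q, p ≠ q → t.g p = t.g q → IsPreconnected ({p}ᶜ : Set t.E)
  pf : PF {y | ∃ p q, p ≠ q ∧ t.g p = y ∧ t.g q = y}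

/-- `X` is covered exactly once by a null family of dendrites with their roots removed. -/
def Toothed (X : Set Y) : Prop :=
  ∃ (ι : Type) (_ : Countable ι) (H : ι → Tile Y) (e : ∀ i, (H i).E),
    Null (fun i => range (H i).g) ∧ (∀ y ∈ X, ∃ i x, x ≠ e i ∧ (H i).g x = y) ∧
    (∀ i x, x ≠ e i → (H i).g x ∈ X) ∧
    (∀ i l x x', x ≠ e i → x' ≠ e l → (H i).g x = (H l).g x' → i = l) ∧
    ∀ i x x', x ≠ e i → x' ≠ e i → (H i).g x = (H i).g x' → x = x'

theorem toothed_of (t : Tile Y) {Z : Set t.E} (hne : Z.Nonempty)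
    (hnc : ∀ z ∈ Z, IsPreconnected ({z}ᶜ : Set t.E)) (hpf : PF Z) (hi : InjOn t.g Zᶜ) :
    Toothed (t.g '' Zᶜ) := by
  obtain ⟨ι, _, P, e, h1, h2, h3, h4, h5, h6⟩ := exists_teeth hne hnc hpf
  have hne : ∀ {i} {x : P i}, x ≠ ⟨e i, h2 i⟩ → x.1 ≠ e i := fun h e => h (Subtype.ext e)
  refine ⟨ι, inferInstance, fun i => Tile.ofSD (h1 i) t.g t.cont, fun i => ⟨e i, h2 i⟩, ?_, ?_,
    fun i x hx => ⟨x.1, h5 i x.1 x.2 (hne hx), rfl⟩, fun i l x x' hx hx' h => ?_,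
    fun i x x' hx hx' h => Subtype.ext (hi (h5 i x.1 x.2 (hne hx)) (h5 i x'.1 x'.2 (hne hx')) h)⟩
  · simp only [Tile.range_ofSD]
    exact h3.image (CompactSpace.uniformContinuous_of_continuous t.cont)
  · rintro _ ⟨x, hx, rfl⟩
    obtain ⟨i, a, b⟩ := h4 x hx
    exact ⟨i, ⟨x, a⟩, fun h => b (congrArg Subtype.val h), rfl⟩
  · have := hi (h5 i x.1 x.2 (hne hx)) (h5 l x'.1 x'.2 (hne hx')) h
    exact h6 i l x.1 x.2 (hne hx) (this ▸ x'.2) (this ▸ hne hx')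

theorem Toothed.add {X : Set Y} (h : Toothed X) (B : Tile Y) (hs : Surjective B.g)
    (hf : ∀ y, (B.g ⁻¹' {y}).Finite) :
    ∃ T : Tile Y, (∀ y ∈ X, (T.g ⁻¹' {y}).ncard = (B.g ⁻¹' {y}).ncard + 1) ∧
      ∀ y, y ∉ X → (T.g ⁻¹' {y}).ncard = (B.g ⁻¹' {y}).ncard := by
  obtain ⟨ι, _, H, e, h1, h2, h3, h4, h5⟩ := h
  choose p hp using fun i => hs ((H i).g (e i))
  obtain ⟨T, j0, j, a1, -, a3, a4, a5, a6, -⟩ := exists_glue B H e p (fun i => (hp i).symm) h1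
  refine ⟨T, fun y hy => ?_, fun y hy => ?_⟩
  · obtain ⟨i, x, hx, rfl⟩ := h2 y hy
    have : T.g ⁻¹' {(H i).g x} = insert (j i x) (j0 '' (B.g ⁻¹' {(H i).g x})) := by
      ext w
      constructor
      · intro hw
        rcases a5 w with ⟨u, rfl⟩ | ⟨l, u, hu, rfl⟩
        · exact Or.inr ⟨u, (a3 u).symm.trans hw, rfl⟩
        · have h6 := (a4 l u).symm.trans hw
          obtain rfl := h4 l i u x hu hx h6
          exact Or.inl (congrArg _ (h5 l u x hu hx h6))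
      · rintro (rfl | ⟨u, hu, rfl⟩)
        · exact a4 i x
        · exact (a3 u).trans hu
    rw [this, ncard_insert_of_notMem (by rintro ⟨u, -, h⟩; exact a6 i x u hx h.symm) ((hf _).image _),
      ncard_image_of_injective _ a1]
  · have : T.g ⁻¹' {y} = j0 '' (B.g ⁻¹' {y}) := by
      ext w
      constructor
      · intro hw
        rcases a5 w with ⟨u, rfl⟩ | ⟨l, u, hu, rfl⟩
        · exact ⟨u, (a3 u).symm.trans hw, rfl⟩
        · exact absurd (((a4 l u).symm.trans hw : _ = y) ▸ h3 l u hu) hy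
      · rintro ⟨u, hu, rfl⟩
        exact (a3 u).trans hu
    rw [this, ncard_image_of_injective _ a1]

theorem Tile.Adm.exists_exact {t : Tile Y} (h : t.Adm) (hs : Surjective t.g)
    (hi : ¬ Injective t.g) (m : ℕ) : ∃ T : Tile Y, ∀ y, (T.g ⁻¹' {y}).ncard = m + 2 := by
  set X := {y | ∃ p q, p ≠ q ∧ t.g p = y ∧ t.g q = y} with hX
  have hcase : ∀ y, (y ∈ X ∧ ∃ p q, p ≠ q ∧ t.g ⁻¹' {y} = {p, q}) ∨
      (y ∉ X ∧ ∃ p, t.g ⁻¹' {y} = {p}) := by
    intro y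
    by_cases hy : y ∈ X
    · refine Or.inl ⟨hy, ?_⟩
      obtain ⟨p, q, hpq, hp, hq⟩ := hy
      refine ⟨p, q, hpq, Subset.antisymm (fun r hr => ?_) ?_⟩
      · rcases h.two p q r (hp.trans hq.symm) (hq.trans (Eq.symm hr)) with e | e | e
        · exact absurd e hpq
        · exact Or.inr e.symm
        · exact Or.inl e.symm
      · rintro _ (rfl | rfl)
        exacts [hp, hq]
    · obtain ⟨p, hp⟩ := hs y
      exact Or.inr ⟨hy, p, eq_singleton_iff_unique_mem.2 ⟨hp, fun q hq =>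
        by_contra fun hne => hy ⟨q, p, hne, hq, hp⟩⟩⟩
  have hf : ∀ y, (t.g ⁻¹' {y}).Finite := fun y => by
    rcases hcase y with ⟨-, p, q, -, e⟩ | ⟨-, p, e⟩ <;> rw [e] <;> simp
  have hpf : PF (t.g ⁻¹' X) := h.pf.preimage t.cont hf
  have hnc : ∀ z ∈ t.g ⁻¹' X, IsPreconnected ({z}ᶜ : Set t.E) := by
    rintro z ⟨p, q, hpq, hp, hq⟩
    by_cases hz : z = p
    · exact h.nc z q (hz ▸ hpq) hq.symm
    · exact h.nc z p hz hp.symm
  obtain ⟨a, b, hab, hne⟩ : ∃ a b, t.g a = t.g b ∧ a ≠ b := by simpa [Injective] using hi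
  have t1 : Toothed Xᶜ := by
    have := toothed_of t (Z := t.g ⁻¹' X) ⟨a, a, b, hne, rfl, hab.symm⟩ hnc hpf
      fun p hp q _ e => by_contra fun hne => hp ⟨p, q, hne, rfl, e.symm⟩
    rwa [← preimage_compl, image_preimage_eq _ hs] at this
  have t2 : Toothed (univ : Set Y) := by
    obtain ⟨σ, hσ⟩ := hs.hasRightInverse
    have hsub : {p | p ≠ σ (t.g p)} ⊆ t.g ⁻¹' X := fun p hp => ⟨p, _, hp, rfl, hσ _⟩
    have := toothed_of t (Z := {p | p ≠ σ (t.g p)}) (by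
      by_cases ha : a = σ (t.g a)
      · exact ⟨b, fun hb => hne (ha.trans (hab ▸ hb.symm))⟩
      · exact ⟨a, ha⟩) (fun z hz => hnc z (hsub hz)) (hpf.mono hsub)
      fun p hp q hq e => (not_not.1 hp).trans (e ▸ (not_not.1 hq).symm)
    suffices heq : t.g '' {p | p ≠ σ (t.g p)}ᶜ = univ from heq ▸ this
    exact eq_univ_of_forall fun y => ⟨σ y, fun h => h (by rw [hσ]), hσ y⟩
  induction m with
  | zero =>
    obtain ⟨T, h1, h2⟩ := t1.add t hs hf
    refine ⟨T, fun y => ?_⟩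
    rcases hcase y with ⟨hy, p, q, hpq, e⟩ | ⟨hy, p, e⟩
    · rw [h2 y (not_not.2 hy), e, ncard_pair hpq]
    · rw [h1 y hy, e, ncard_singleton]
  | succ m ih =>
    obtain ⟨T, hT⟩ := ih
    obtain ⟨T', h1, -⟩ := t2.add T
      (fun y => nonempty_of_ncard_ne_zero (s := T.g ⁻¹' {y}) (by rw [hT]; omega))
      fun y => finite_of_ncard_ne_zero (by rw [hT]; omega)
    exact ⟨T', fun y => by rw [h1 y (mem_univ y), hT]⟩

end Pool.Agent.Lib.MP_32448b_gt
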