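import Pool.Agent.Lib.MP_32448b_gt.Peano

set_option autoImplicit false

open Set Metric Topology Filter Function

namespace Pool.Agent.Lib.MP_32448b_gt

variable {X : Type*} [MetricSpace X]

/-- An arc from `x` to `y`, parametrised on the unit interval. -/
structure IsArc (α : ℝ → X) (x y : X) : Prop where
  cont : Continuous α
  inj : InjOn α (Icc 0 1)
  zero : α 0 = x
  one : α 1 = y

theorem exists_gap_set {γ : ℝ → X} (hγ : Continuous γ) :
    ∃ F : Set ℝ, F ⊆ Icc 0 1 ∧ (0 : ℝ) ∈ F ∧ (1 : ℝ) ∈ F ∧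
      (∀ m ∈ Icc (0 : ℝ) 1, ∃ a ∈ F, ∃ b ∈ F, a ≤ m ∧ m ≤ b ∧ γ a = γ b ∧ Disjoint (Ioo a b) F) ∧
      ∀ s ∈ F, ∀ t ∈ F, γ s = γ t → Disjoint (Ioo s t) F := by
  let S : Set (Set ℝ) := {F | IsClosed F ∧ F ⊆ Icc 0 1 ∧ (0 : ℝ) ∈ F ∧ (1 : ℝ) ∈ F ∧
    ∀ m ∈ Icc (0 : ℝ) 1, ∃ a ∈ F, ∃ b ∈ F, a ≤ m ∧ m ≤ b ∧ γ a = γ b ∧ Disjoint (Ioo a b) F}
  have h0 : Icc (0 : ℝ) 1 ∈ S :=
    ⟨isClosed_Icc, subset_rfl, by simp, by simp, fun m hm => ⟨m, hm, m, hm, le_rfl, le_rfl, rfl,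
      by simp⟩⟩
  obtain ⟨F, -, hF⟩ := zorn_superset_nonempty S (fun c hcS hc hne => by
    obtain ⟨F0, hF0⟩ := hne
    refine ⟨⋂₀ c, ⟨isClosed_sInter fun F hF => (hcS hF).1,
      (sInter_subset_of_mem hF0).trans (hcS hF0).2.1, fun F hF => (hcS hF).2.2.1,
      fun F hF => (hcS hF).2.2.2.1, fun m hm => ?_⟩, fun F hF => sInter_subset_of_mem hF⟩
    have : Nonempty c := ⟨⟨F0, hF0⟩⟩
    let Z : c → Set (ℝ × ℝ) := fun F => (F.1 ×ˢ F.1) ∩
      {p | p.1 ≤ m ∧ m ≤ p.2 ∧ γ p.1 = γ p.2 ∧ ∀ u ∈ ⋂₀ c, u ≤ p.1 ∨ p.2 ≤ u}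
    have hcl : IsClosed {p : ℝ × ℝ | p.1 ≤ m ∧ m ≤ p.2 ∧ γ p.1 = γ p.2 ∧
        ∀ u ∈ ⋂₀ c, u ≤ p.1 ∨ p.2 ≤ u} := by
      refine (isClosed_le continuous_fst continuous_const).inter
        ((isClosed_le continuous_const continuous_snd).inter
          ((isClosed_eq (hγ.comp continuous_fst) (hγ.comp continuous_snd)).inter ?_))
      have : {p : ℝ × ℝ | ∀ u ∈ ⋂₀ c, u ≤ p.1 ∨ p.2 ≤ u} =
          ⋂ u ∈ ⋂₀ c, ({p : ℝ × ℝ | u ≤ p.1} ∪ {p : ℝ × ℝ | p.2 ≤ u}) := by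
        ext p; simp
      change IsClosed {p : ℝ × ℝ | ∀ u ∈ ⋂₀ c, u ≤ p.1 ∨ p.2 ≤ u}
      rw [this]
      exact isClosed_biInter fun u _ => (isClosed_le continuous_const continuous_fst).union
        (isClosed_le continuous_snd continuous_const)
    have hcp : ∀ F : c, IsCompact F.1 := fun F =>
      isCompact_Icc.of_isClosed_subset (hcS F.2).1 (hcS F.2).2.1
    obtain ⟨⟨a, b⟩, hab⟩ := IsCompact.nonempty_iInter_of_directed_nonempty_isCompact_isClosed Z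
      (fun F G => by
        rcases hc.total F.2 G.2 with h | h
        · exact ⟨F, subset_rfl, inter_subset_inter_left _ (prod_mono h h)⟩
        · exact ⟨G, inter_subset_inter_left _ (prod_mono h h), subset_rfl⟩)
      (fun F => by
        obtain ⟨a, ha, b, hb, h1, h2, h3, h4⟩ := (hcS F.2).2.2.2.2 m hm
        refine ⟨(a, b), ⟨ha, hb⟩, h1, h2, h3, fun u hu => ?_⟩
        by_contra hcon
        push Not at hcon
        exact Set.disjoint_left.1 h4 hcon (hu _ F.2))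
      (fun F => ((hcp F).prod (hcp F)).inter_right hcl)
      (fun F => ((hcS F.2).1.prod (hcS F.2).1).inter hcl)
    rw [mem_iInter] at hab
    obtain ⟨-, h1, h2, h3, h4⟩ := hab ⟨F0, hF0⟩
    refine ⟨a, fun F hF => (hab ⟨F, hF⟩).1.1, b, fun F hF => (hab ⟨F, hF⟩).1.2, h1, h2, h3, ?_⟩
    rw [Set.disjoint_left]
    intro u hu hu'
    rcases h4 u hu' with h | h
    · exact absurd hu.1 (not_lt.2 h)
    · exact absurd hu.2 (not_lt.2 h)) _ h0
  obtain ⟨hFc, hFI, hF0, hF1, hFm⟩ := hF.1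
  refine ⟨F, hFI, hF0, hF1, hFm, fun s hs t ht hst => ?_⟩
  have hmem : F \ Ioo s t ∈ S := by
    refine ⟨hFc.sdiff isOpen_Ioo, sdiff_subset.trans hFI, ⟨hF0, fun h => ?_⟩, ⟨hF1, fun h => ?_⟩,
      fun m hm => ?_⟩
    · exact absurd h.1 (not_lt.2 (hFI hs).1)
    · exact absurd h.2 (not_lt.2 (hFI ht).2)
    by_cases hm' : m ∈ Icc s t
    · exact ⟨s, ⟨hs, by simp⟩, t, ⟨ht, by simp⟩, hm'.1, hm'.2, hst, disjoint_sdiff_right⟩
    obtain ⟨a, ha, b, hb, h1, h2, h3, h4⟩ := hFm m hm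
    rw [Set.disjoint_left] at h4
    refine ⟨a, ⟨ha, fun h => ?_⟩, b, ⟨hb, fun h => ?_⟩, h1, h2, h3,
      Set.disjoint_left.2 fun u hu hu' => h4 hu hu'.1⟩
    · have : t < m := by
        by_contra hc
        exact hm' ⟨by linarith [h.1], not_lt.1 hc⟩
      exact h4 ⟨h.2, by linarith⟩ ht
    · have : m < s := by
        by_contra hc
        exact hm' ⟨not_lt.1 hc, by linarith [h.2]⟩
      exact h4 ⟨by linarith, h.1⟩ hs
  have := hF.2 hmem sdiff_subset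
  rw [Set.disjoint_left]
  exact fun u hu hu' => (this hu').2 hu

theorem exists_monotone_path {γ : ℝ → X} (hγ : Continuous γ) :
    ∃ β : ℝ → X, ContinuousOn β (Icc 0 1) ∧ β 0 = γ 0 ∧ β 1 = γ 1 ∧
      β '' Icc 0 1 ⊆ γ '' Icc 0 1 ∧
      ∀ s ∈ Icc (0 : ℝ) 1, ∀ t ∈ Icc (0 : ℝ) 1, β s = β t → ∀ u ∈ Icc s t, β u = β s := by
  obtain ⟨F, hFI, hF0, hF1, hFm, hFg⟩ := exists_gap_set hγ
  choose! a ha b hb h1 h2 h3 h4 using hFm
  have hgap : ∀ m ∈ Icc (0 : ℝ) 1, ∀ u ∈ F, u ≤ a m ∨ b m ≤ u := fun m hm u hu => by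
    by_contra hcon
    push Not at hcon
    exact Set.disjoint_left.1 (h4 m hm) hcon hu
  have hF : ∀ m ∈ F, γ (a m) = γ m := fun m hm => by
    rcases hgap m (hFI hm) m hm with h | h
    · rw [le_antisymm (h1 m (hFI hm)) h]
    · rw [h3 m (hFI hm), le_antisymm h (h2 m (hFI hm))]
  refine ⟨fun m => γ (a m), ?_, hF 0 hF0, hF 1 hF1, ?_, ?_⟩
  · have huc := isCompact_Icc.uniformContinuousOn_of_continuous (hγ.continuousOn (s := Icc 0 1))
    rw [Metric.uniformContinuousOn_iff] at huc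
    rw [Metric.continuousOn_iff]
    intro t ht η hη
    obtain ⟨δ, hδ, H⟩ := huc η hη
    have key : ∀ m ∈ Icc (0 : ℝ) 1, ∀ m' ∈ Icc (0 : ℝ) 1, m ≤ m' → m' - m < δ →
        dist (γ (a m)) (γ (a m')) < η := by
      intro m hm m' hm' hmm hd
      by_cases h : b m ≤ a m'
      · rw [h3 m hm]
        refine H _ (hFI (hb m hm)) _ (hFI (ha m' hm')) ?_
        rw [Real.dist_eq, abs_lt]
        constructor <;> linarith [h1 m' hm', h2 m hm]
      · have e1 : a m' ≤ a m := (hgap m hm _ (ha m' hm')).resolve_right h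
        have e2 : γ (a m) = γ (a m') := by
          rcases hgap m' hm' _ (ha m hm) with h' | h'
          · rw [le_antisymm h' e1]
          · rw [h3 m' hm', le_antisymm h' (by linarith [h1 m hm, h2 m' hm'])]
        rw [e2]; simpa using hη
    refine ⟨δ, hδ, fun s hs hst => ?_⟩
    rw [Real.dist_eq, abs_lt] at hst
    rcases le_total s t with h | h
    · exact key s hs t ht h (by linarith)
    · rw [dist_comm]; exact key t ht s hs h (by linarith)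
  · rintro _ ⟨m, hm, rfl⟩
    exact ⟨a m, hFI (ha m hm), rfl⟩
  · intro s hs t ht hst u hu
    have huI : u ∈ Icc (0 : ℝ) 1 := ⟨hs.1.trans hu.1, hu.2.trans ht.2⟩
    dsimp only at hst ⊢
    have hd := hFg _ (ha s hs) _ (hb t ht) (hst.trans (h3 t ht))
    have : a u ≤ a s ∨ b t ≤ a u := by
      by_contra hcon
      push Not at hcon
      exact Set.disjoint_left.1 hd hcon (ha u huI)
    rcases this with h | h
    · rcases hgap u huI _ (ha s hs) with h' | h'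
      · rw [le_antisymm h h']
      · rw [h3 u huI, le_antisymm h' (by linarith [h1 s hs, h2 u huI, hu.1])]
    · rw [hst, h3 t ht, le_antisymm h (by linarith [h1 u huI, h2 t ht, hu.2])]

theorem exists_arc_of_monotone {β : ℝ → X} (hβ : ContinuousOn β (Icc 0 1)) (h01 : β 0 ≠ β 1)
    (hm : ∀ s ∈ Icc (0 : ℝ) 1, ∀ t ∈ Icc (0 : ℝ) 1, β s = β t → ∀ u ∈ Icc s t, β u = β s) :
    ∃ α : ℝ → X, IsArc α (β 0) (β 1) ∧ α '' Icc 0 1 ⊆ β '' Icc 0 1 := by
  set K : ℝ → Set X := fun t => β '' Icc 0 t with hK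
  have hKc : ∀ t ∈ Icc (0 : ℝ) 1, IsCompact (K t) := fun t ht =>
    isCompact_Icc.image_of_continuousOn (hβ.mono (Icc_subset_Icc_right ht.2))
  have hKn : ∀ t ∈ Icc (0 : ℝ) 1, (K t).Nonempty := fun t ht => ⟨β 0, 0, ⟨le_rfl, ht.1⟩, rfl⟩
  have hφ : ∀ t, ContinuousOn (fun u => infDist (β u) (K t)) (Icc 0 1) := fun t =>
    (continuous_infDist_pt (K t)).comp_continuousOn hβ
  set h : ℝ → ℝ := fun t => ∫ u in (0 : ℝ)..1, infDist (β u) (K t) with hh
  have hle : ∀ s ∈ Icc (0 : ℝ) 1, ∀ t, s ≤ t → ∀ p, infDist p (K t) ≤ infDist p (K s) :=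
    fun s hs t hst p => infDist_le_infDist_of_subset (image_mono (Icc_subset_Icc_right hst))
      (hKn s hs)
  have hlt : ∀ s ∈ Icc (0 : ℝ) 1, ∀ t ∈ Icc (0 : ℝ) 1, s ≤ t → β s ≠ β t → h t < h s := by
    intro s hs t ht hst hne
    refine intervalIntegral.integral_lt_integral_of_continuousOn_of_le_of_exists_lt one_pos
      (hφ t) (hφ s) (fun u _ => hle s hs t hst _) ⟨t, ht, ?_⟩
    rw [infDist_zero_of_mem (show β t ∈ K t from ⟨t, ⟨ht.1, le_rfl⟩, rfl⟩)]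
    refine ((hKc s hs).isClosed.notMem_iff_infDist_pos (hKn s hs)).1 ?_
    rintro ⟨u, hu, hut⟩
    exact hne ((hm u ⟨hu.1, hu.2.trans hs.2⟩ t ht hut s ⟨hu.2, hst⟩).trans hut)
  have hcont : ContinuousOn h (Icc 0 1) := by
    have huc := isCompact_Icc.uniformContinuousOn_of_continuous hβ
    rw [Metric.uniformContinuousOn_iff] at huc
    rw [Metric.continuousOn_iff]
    intro t ht η hη
    obtain ⟨δ, hδ, H⟩ := huc (η / 2) (by linarith)
    have key : ∀ m ∈ Icc (0 : ℝ) 1, ∀ m' ∈ Icc (0 : ℝ) 1, m ≤ m' → m' - m < δ →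
        dist (h m) (h m') < η := by
      intro m hm' m' hm'' hmm hd
      have hb : ∀ u ∈ Set.uIoc (0 : ℝ) 1, ‖infDist (β u) (K m) - infDist (β u) (K m')‖ ≤ η / 2 := by
        intro u _
        rw [Real.norm_eq_abs, abs_le]
        refine ⟨by linarith [hle m hm' m' hmm (β u)], ?_⟩
        obtain ⟨_, ⟨v, hv, rfl⟩, hv'⟩ := (hKc m' hm'').exists_infDist_eq_dist (hKn m' hm'') (β u)
        rw [hv']
        by_cases hvm : v ≤ m
        · have := infDist_le_dist_of_mem (x := β u) (show β v ∈ K m from ⟨v, ⟨hv.1, hvm⟩, rfl⟩)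
          linarith
        · have h1 := infDist_le_dist_of_mem (x := β u)
            (show β m ∈ K m from ⟨m, ⟨hm'.1, le_rfl⟩, rfl⟩)
          have h2 := H v ⟨hv.1, hv.2.trans hm''.2⟩ m hm' (by
            rw [Real.dist_eq, abs_lt]; constructor <;> linarith [hv.2])
          linarith [dist_triangle (β u) (β v) (β m)]
      have := intervalIntegral.norm_integral_le_of_norm_le_const hb
      rw [intervalIntegral.integral_sub ((hφ m).intervalIntegrable_of_Icc zero_le_one)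
        ((hφ m').intervalIntegrable_of_Icc zero_le_one)] at this
      rw [dist_eq_norm]
      simp only [sub_zero, abs_one, mul_one] at this
      exact this.trans_lt (by linarith)
    refine ⟨δ, hδ, fun s hs hst => ?_⟩
    rw [Real.dist_eq, abs_lt] at hst
    rcases le_total s t with h | h
    · exact key s hs t ht h (by linarith)
    · rw [dist_comm]; exact key t ht s hs h (by linarith)
  have heq : ∀ s ∈ Icc (0 : ℝ) 1, ∀ t ∈ Icc (0 : ℝ) 1, s ≤ t → β s = β t → h s = h t := by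
    intro s hs t ht hst he
    have : K s = K t := by
      refine (image_mono (Icc_subset_Icc_right hst)).antisymm ?_
      rintro _ ⟨u, hu, rfl⟩
      by_cases hus : u ≤ s
      · exact ⟨u, ⟨hu.1, hus⟩, rfl⟩
      · exact ⟨s, ⟨hs.1, le_rfl⟩, (hm s hs t ht he u ⟨(not_le.1 hus).le, hu.2⟩).symm⟩
    simp only [hh, this]
  have hiff : ∀ s ∈ Icc (0 : ℝ) 1, ∀ t ∈ Icc (0 : ℝ) 1, h s = h t ↔ β s = β t := by
    intro s hs t ht
    constructor
    · intro he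
      by_contra hne
      rcases le_total s t with h' | h'
      · exact (hlt s hs t ht h' hne).ne' he
      · exact (hlt t ht s hs h' (Ne.symm hne)).ne he
    · intro he
      rcases le_total s t with h' | h'
      · exact heq s hs t ht h' he
      · exact (heq t ht s hs h' he.symm).symm
  have hI0 : (0 : ℝ) ∈ Icc (0 : ℝ) 1 := by simp
  have hI1 : (1 : ℝ) ∈ Icc (0 : ℝ) 1 := by simp
  have hpos : 0 < h 0 - h 1 := sub_pos.2 (hlt 0 hI0 1 hI1 zero_le_one h01)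
  set k : ℝ → ℝ := fun t => (h 0 - h t) / (h 0 - h 1) with hk
  have hkc : ContinuousOn k (Icc 0 1) := (continuousOn_const.sub hcont).div_const _
  have hk0 : k 0 = 0 := by simp [hk]
  have hk1 : k 1 = 1 := by simp only [hk]; exact div_self hpos.ne'
  have hkiff : ∀ s ∈ Icc (0 : ℝ) 1, ∀ t ∈ Icc (0 : ℝ) 1, k s = k t ↔ β s = β t := by
    intro s hs t ht
    rw [← hiff s hs t ht]
    simp only [hk]
    rw [div_left_inj' hpos.ne']
    constructor <;> intro h' <;> linarith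
  have hsurj : ∀ r ∈ Icc (0 : ℝ) 1, ∃ t ∈ Icc (0 : ℝ) 1, k t = r := fun r hr =>
    intermediate_value_Icc zero_le_one hkc (by rwa [hk0, hk1])
  choose! σ hσ1 hσ2 using hsurj
  have hαc : ContinuousOn (fun r => β (σ r)) (Icc 0 1) := by
    rw [continuousOn_iff_isClosed]
    intro C hC
    refine ⟨k '' (Icc 0 1 ∩ β ⁻¹' C), ((isCompact_Icc.of_isClosed_subset
      (hβ.preimage_isClosed_of_isClosed isClosed_Icc hC) inter_subset_left).image_of_continuousOn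
      (hkc.mono inter_subset_left)).isClosed, ?_⟩
    ext r
    constructor
    · rintro ⟨h1, h2⟩
      exact ⟨⟨σ r, ⟨hσ1 r h2, h1⟩, hσ2 r h2⟩, h2⟩
    · rintro ⟨⟨t, ⟨ht, htC⟩, htr⟩, h2⟩
      refine ⟨?_, h2⟩
      change β (σ r) ∈ C
      rw [(hkiff _ (hσ1 r h2) t ht).1 ((hσ2 r h2).trans htr.symm)]
      exact htC
  have hproj : ∀ r ∈ Icc (0 : ℝ) 1, ((projIcc (0 : ℝ) 1 zero_le_one r : Icc (0 : ℝ) 1) : ℝ) = r :=
    fun r hr => by rw [projIcc_of_mem _ hr]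
  refine ⟨fun r => β (σ (projIcc (0 : ℝ) 1 zero_le_one r)), ⟨?_, ?_, ?_, ?_⟩, ?_⟩
  · exact hαc.comp_continuous (continuous_subtype_val.comp continuous_projIcc)
      fun r => (projIcc (0 : ℝ) 1 zero_le_one r).2
  · intro r hr r' hr' he
    simp only [hproj r hr, hproj r' hr'] at he
    rw [← hσ2 r hr, ← hσ2 r' hr']
    exact (hkiff _ (hσ1 r hr) _ (hσ1 r' hr')).2 he
  · simp only [hproj 0 hI0]
    exact (hkiff _ (hσ1 0 hI0) 0 hI0).1 (by rw [hσ2 0 hI0, hk0])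
  · simp only [hproj 1 hI1]
    exact (hkiff _ (hσ1 1 hI1) 1 hI1).1 (by rw [hσ2 1 hI1, hk1])
  · rintro _ ⟨r, hr, rfl⟩
    simp only [hproj r hr]
    exact ⟨σ r, hσ1 r hr, rfl⟩

theorem exists_arc {W : Set X} {x y : X} (h : JoinedIn W x y) (hxy : x ≠ y) :
    ∃ α : ℝ → X, IsArc α x y ∧ α '' Icc 0 1 ⊆ W := by
  obtain ⟨γ, hγ⟩ := h
  obtain ⟨β, hβ, h0, h1, hs, hm⟩ := exists_monotone_path γ.continuous_extend
  rw [γ.extend_zero] at h0
  rw [γ.extend_one] at h1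
  obtain ⟨α, hα, hαs⟩ := exists_arc_of_monotone hβ (by rwa [h0, h1]) hm
  rw [h0, h1] at hα
  refine ⟨α, hα, hαs.trans (hs.trans ?_)⟩
  rintro _ ⟨t, ht, rfl⟩
  rw [γ.extend_apply ht]
  exact hγ _

theorem sd_Icc {a b : ℝ} (hab : a ≤ b) : SD (Icc a b) := by
  refine ⟨isCompact_Icc, isConnected_Icc hab, ?_⟩
  have key : ∀ x y : ℝ, x < y → Sep (Icc a b) ((x + y) / 2) x y := fun x y hxy =>
    ⟨Iic ((x + y) / 2), Ici ((x + y) / 2), isClosed_Iic, isClosed_Ici,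
      fun w _ => le_total w _, fun w _ h1 h2 => le_antisymm h1 h2,
      by simp only [mem_Ici, not_le]; linarith, by simp only [mem_Iic, not_le]; linarith⟩
  intro x _ y _ hxy
  rcases lt_or_gt_of_ne hxy with h | h
  · exact ⟨_, key x y h⟩
  · exact ⟨_, (key y x h).symm⟩

theorem IsArc.sd {α : ℝ → X} {x y : X} (h : IsArc α x y) {a b : ℝ} (ha : 0 ≤ a) (hab : a ≤ b)
    (hb : b ≤ 1) : SD (α '' Icc a b) :=
  (sd_Icc hab).image h.cont.continuousOn (h.inj.mono (Icc_subset_Icc ha hb))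

/-- First hit of a closed set along a path. -/
theorem exists_hit {W S : Set X} (hS : IsClosed S) {p t : X} (hp : p ∉ S) (ht : t ∈ S)
    (h : JoinedIn W p t) : ∃ H : Set X, SD H ∧ p ∈ H ∧ H ⊆ W ∧ ∃ e, H ∩ S = {e} := by
  obtain ⟨α, hα, hW⟩ := exists_arc h (fun e => hp (e ▸ ht))
  have hc : IsCompact (Icc (0 : ℝ) 1 ∩ α ⁻¹' S) := isCompact_Icc.inter_right (hS.preimage hα.cont)
  obtain ⟨s, ⟨hs, hsS⟩, hmin⟩ := hc.exists_isLeast ⟨1, by simp, by simpa [hα.one] using ht⟩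
  refine ⟨α '' Icc 0 s, hα.sd le_rfl hs.1 hs.2, ⟨0, ⟨le_rfl, hs.1⟩, hα.zero⟩,
    (image_mono (Icc_subset_Icc_right hs.2)).trans hW, α s, ?_⟩
  ext w
  constructor
  · rintro ⟨⟨u, hu, rfl⟩, huS⟩
    rw [le_antisymm hu.2 (hmin ⟨⟨hu.1, hu.2.trans hs.2⟩, huS⟩)]
    rfl
  · rintro rfl
    exact ⟨⟨s, ⟨hs.1, le_rfl⟩, rfl⟩, hsS⟩

end Pool.Agent.Lib.MP_32448b_gt
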