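import Mathlib

set_option autoImplicit false

open Set Metric Topology Filter Function

namespace Pool.Agent.Lib.MP_32448b_gt

section Top
variable {X : Type*} [TopologicalSpace X] {Y : Type*} [TopologicalSpace Y]

/-- The point `z` separates `x` from `y` inside `T`. -/
def Sep (T : Set X) (z x y : X) : Prop :=
  ∃ P Q : Set X, IsClosed P ∧ IsClosed Q ∧ T ⊆ P ∪ Q ∧ (∀ w ∈ T, w ∈ P → w ∈ Q → w = z) ∧
    x ∉ Q ∧ y ∉ P

/-- A continuum in which any two points are separated by a third one. -/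
structure SD (T : Set X) : Prop where
  compact : IsCompact T
  conn : IsConnected T
  sep : ∀ x ∈ T, ∀ y ∈ T, x ≠ y → ∃ z, Sep T z x y

theorem Sep.symm {T : Set X} {z x y : X} (h : Sep T z x y) : Sep T z y x := by
  obtain ⟨P, Q, hP, hQ, hT, hz, hx, hy⟩ := h
  exact ⟨Q, P, hQ, hP, by rwa [union_comm], fun w hw h1 h2 => hz w hw h2 h1, hy, hx⟩

theorem Sep.mono {T T' : Set X} {z x y : X} (h : Sep T z x y) (hT : T' ⊆ T) : Sep T' z x y := by
  obtain ⟨P, Q, hP, hQ, hT', hz, hx, hy⟩ := h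
  exact ⟨P, Q, hP, hQ, hT.trans hT', fun w hw => hz w (hT hw), hx, hy⟩

theorem Sep.mem {T K : Set X} {z x y : X} (h : Sep T z x y) (hK : IsPreconnected K) (hKT : K ⊆ T)
    (hx : x ∈ K) (hy : y ∈ K) : z ∈ K ∧ z ≠ x ∧ z ≠ y := by
  obtain ⟨P, Q, hP, hQ, hT, hz, hxQ, hyP⟩ := h
  have hxP : x ∈ P := (hT (hKT hx)).resolve_right hxQ
  have hyQ : y ∈ Q := (hT (hKT hy)).resolve_left hyP
  obtain ⟨w, hwK, hwP, hwQ⟩ := isPreconnected_closed_iff.1 hK P Q hP hQ (hKT.trans hT)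
    ⟨x, hx, hxP⟩ ⟨y, hy, hyQ⟩
  obtain rfl := hz w (hKT hwK) hwP hwQ
  exact ⟨hwK, fun h => hxQ (h ▸ hwQ), fun h => hyP (h ▸ hwP)⟩

theorem SD.subset {T K : Set X} (h : SD T) (hKT : K ⊆ T) (hc : IsCompact K) (hK : IsConnected K) :
    SD K :=
  ⟨hc, hK, fun x hx y hy hxy => by
    obtain ⟨z, hz⟩ := h.sep x (hKT hx) y (hKT hy) hxy
    exact ⟨z, hz.mono hKT⟩⟩

theorem SD.nonempty {T : Set X} (h : SD T) : T.Nonempty := h.conn.nonempty

theorem SD.pre {T : Set X} (h : SD T) : IsPreconnected T := h.conn.isPreconnected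

theorem SD.closed [T2Space X] {T : Set X} (h : SD T) : IsClosed T := h.compact.isClosed

theorem sd_singleton (x : X) : SD ({x} : Set X) :=
  ⟨isCompact_singleton, isConnected_singleton, fun a ha b hb hab => by
    simp only [mem_singleton_iff] at ha hb
    exact absurd (ha.trans hb.symm) hab⟩

theorem Sep.image [T2Space Y] {T : Set X} (hT : IsCompact T) {g : X → Y} (hg : ContinuousOn g T)
    (hi : InjOn g T) {z x y : X} (hx : x ∈ T) (hy : y ∈ T) (h : Sep T z x y) :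
    Sep (g '' T) (g z) (g x) (g y) := by
  obtain ⟨P, Q, hP, hQ, hPQ, hz, hxQ, hyP⟩ := h
  refine ⟨g '' (T ∩ P), g '' (T ∩ Q),
    ((hT.inter_right hP).image_of_continuousOn (hg.mono inter_subset_left)).isClosed,
    ((hT.inter_right hQ).image_of_continuousOn (hg.mono inter_subset_left)).isClosed, ?_, ?_, ?_, ?_⟩
  · rintro _ ⟨w, hw, rfl⟩
    rcases hPQ hw with h | h
    · exact Or.inl ⟨w, ⟨hw, h⟩, rfl⟩
    · exact Or.inr ⟨w, ⟨hw, h⟩, rfl⟩
  · rintro _ - ⟨a, ⟨ha, haP⟩, rfl⟩ ⟨b, ⟨hb, hbQ⟩, hab⟩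
    obtain rfl := hi hb ha hab
    rw [hz b hb haP hbQ]
  · rintro ⟨b, ⟨hb, hbQ⟩, hab⟩
    obtain rfl := hi hb hx hab
    exact hxQ hbQ
  · rintro ⟨b, ⟨hb, hbP⟩, hab⟩
    obtain rfl := hi hb hy hab
    exact hyP hbP

theorem SD.image [T2Space Y] {T : Set X} (h : SD T) {g : X → Y} (hg : ContinuousOn g T)
    (hi : InjOn g T) : SD (g '' T) := by
  refine ⟨h.compact.image_of_continuousOn hg, h.conn.image g hg, ?_⟩
  rintro _ ⟨x, hx, rfl⟩ _ ⟨y, hy, rfl⟩ hxy
  obtain ⟨z, hz⟩ := h.sep x hx y hy (fun e => hxy (e ▸ rfl))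
  exact ⟨g z, hz.image h.compact hg hi hx hy⟩

theorem isPreconnected_of_image [T2Space X] [T2Space Y] {K : Set X} (hK : IsCompact K) {g : X → Y}
    (hg : ContinuousOn g K) (hi : InjOn g K) (h : IsPreconnected (g '' K)) : IsPreconnected K := by
  rw [isPreconnected_closed_iff] at h ⊢
  rintro P Q hP hQ hPQ ⟨a, haK, haP⟩ ⟨b, hbK, hbQ⟩
  obtain ⟨w, -, ⟨u, ⟨huK, huP⟩, rfl⟩, ⟨v, ⟨hvK, hvQ⟩, huv⟩⟩ := h (g '' (K ∩ P)) (g '' (K ∩ Q))
    ((hK.inter_right hP).image_of_continuousOn (hg.mono inter_subset_left)).isClosed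
    ((hK.inter_right hQ).image_of_continuousOn (hg.mono inter_subset_left)).isClosed
    (by
      rintro _ ⟨w, hw, rfl⟩
      rcases hPQ hw with h | h
      · exact Or.inl ⟨w, ⟨hw, h⟩, rfl⟩
      · exact Or.inr ⟨w, ⟨hw, h⟩, rfl⟩)
    ⟨g a, ⟨a, haK, rfl⟩, a, ⟨haK, haP⟩, rfl⟩ ⟨g b, ⟨b, hbK, rfl⟩, b, ⟨hbK, hbQ⟩, rfl⟩
  obtain rfl := hi hvK huK huv
  exact ⟨v, hvK, huP, hvQ⟩

theorem SD.of_image [T2Space X] [T2Space Y] {K : Set X} (hK : IsCompact K) {g : X → Y}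
    (hg : ContinuousOn g K) (hi : InjOn g K) (h : SD (g '' K)) : SD K := by
  have hc : IsConnected K := ⟨h.nonempty.of_image, isPreconnected_of_image hK hg hi h.pre⟩
  refine ⟨hK, hc, fun x hx y hy hxy => ?_⟩
  obtain ⟨z, hz⟩ := h.sep (g x) ⟨x, hx, rfl⟩ (g y) ⟨y, hy, rfl⟩ (fun e => hxy (hi hx hy e))
  obtain ⟨⟨w, hw, rfl⟩, -, -⟩ := hz.mem h.pre subset_rfl ⟨x, hx, rfl⟩ ⟨y, hy, rfl⟩
  obtain ⟨P, Q, hP, hQ, hPQ, hz, hxQ, hyP⟩ := hz
  refine ⟨w, K ∩ g ⁻¹' P, K ∩ g ⁻¹' Q, hg.preimage_isClosed_of_isClosed hK.isClosed hP,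
    hg.preimage_isClosed_of_isClosed hK.isClosed hQ, ?_, ?_, fun h => hxQ h.2, fun h => hyP h.2⟩
  · intro u hu
    rcases hPQ ⟨u, hu, rfl⟩ with h | h
    · exact Or.inl ⟨hu, h⟩
    · exact Or.inr ⟨hu, h⟩
  · intro u hu h1 h2
    exact hi hu hw (hz _ ⟨u, hu, rfl⟩ h1.2 h2.2)

theorem SD.univ_subtype [T2Space X] {T : Set X} (h : SD T) : SD (univ : Set T) := by
  haveI : CompactSpace T := isCompact_iff_compactSpace.1 h.compact
  refine SD.of_image isCompact_univ continuous_subtype_val.continuousOn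
    Subtype.val_injective.injOn ?_
  simpa using h

/-- A preconnected set cut by a one point separation stays preconnected on each side. -/
theorem pre_inter_side {K P Q : Set X} {z : X} (hK : IsPreconnected K) (hP : IsClosed P)
    (hQ : IsClosed Q) (hPQ : K ⊆ P ∪ Q) (hz : ∀ w ∈ K, w ∈ P → w ∈ Q → w = z) :
    IsPreconnected (K ∩ P) := by
  rw [isPreconnected_closed_iff] at hK ⊢
  have key : ∀ A B : Set X, IsClosed A → IsClosed B → K ∩ P ⊆ A ∪ B → (K ∩ P ∩ A).Nonempty →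
      (K ∩ P ∩ B).Nonempty → z ∉ B → (K ∩ P ∩ (A ∩ B)).Nonempty := by
    rintro A B hA hB hAB ⟨a, ⟨haK, haP⟩, haA⟩ ⟨b, ⟨hbK, hbP⟩, hbB⟩ hzB
    obtain ⟨w, hwK, hw1, hwB, hwP⟩ := hK (A ∪ Q) (B ∩ P) (hA.union hQ) (hB.inter hP)
      (fun w hw => by
        rcases hPQ hw with h | h
        · rcases hAB ⟨hw, h⟩ with h' | h'
          · exact Or.inl (Or.inl h')
          · exact Or.inr ⟨h', h⟩
        · exact Or.inl (Or.inr h))
      ⟨a, haK, Or.inl haA⟩ ⟨b, hbK, hbB, hbP⟩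
    rcases hw1 with h | h
    · exact ⟨w, ⟨hwK, hwP⟩, h, hwB⟩
    · exact absurd (hz w hwK hwP h ▸ hwB) hzB
  intro A B hA hB hAB ha hb
  by_cases hzB : z ∈ B
  · by_cases hzA : z ∈ A
    · by_cases hzK : z ∈ K ∩ P
      · exact ⟨z, hzK, hzA, hzB⟩
      · obtain ⟨a, ⟨haK, haP⟩, haA⟩ := ha
        have hKP : K ⊆ P := by
          intro w hw
          by_contra hwP
          obtain ⟨u, huK, huP, huQ⟩ := hK P Q hP hQ hPQ ⟨a, haK, haP⟩
            ⟨w, hw, (hPQ hw).resolve_left hwP⟩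
          exact hzK (hz u huK huP huQ ▸ ⟨huK, huP⟩)
        obtain ⟨b, ⟨hbK, -⟩, hbB⟩ := hb
        obtain ⟨u, huK, hu⟩ := hK A B hA hB (fun w hw => hAB ⟨hw, hKP hw⟩) ⟨a, haK, haA⟩
          ⟨b, hbK, hbB⟩
        exact ⟨u, ⟨huK, hKP huK⟩, hu⟩
    · obtain ⟨w, hw, h1, h2⟩ := key B A hB hA (by rwa [union_comm]) hb ha hzA
      exact ⟨w, hw, h2, h1⟩
  · exact key A B hA hB hAB ha hb hzB

/-- A directed intersection of compact preconnected sets is preconnected. -/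
theorem isPreconnected_iInter_directed [T2Space X] {ι : Type*} [Nonempty ι] {K : ι → Set X}
    (hd : Directed (· ⊇ ·) K) (hc : ∀ i, IsCompact (K i)) (hK : ∀ i, IsPreconnected (K i)) :
    IsPreconnected (⋂ i, K i) := by
  have hcl : IsClosed (⋂ i, K i) := isClosed_iInter fun i => (hc i).isClosed
  obtain ⟨i0⟩ := ‹Nonempty ι›
  have hcp : IsCompact (⋂ i, K i) := (hc i0).of_isClosed_subset hcl (iInter_subset _ i0)
  rw [isPreconnected_closed_iff]
  rintro P Q hP hQ hPQ ⟨a, ha, haP⟩ ⟨b, hb, hbQ⟩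
  by_contra hne
  have hdis : Disjoint ((⋂ i, K i) ∩ P) ((⋂ i, K i) ∩ Q) := by
    rw [Set.disjoint_left]
    rintro w ⟨hw, hwP⟩ ⟨-, hwQ⟩
    exact hne ⟨w, hw, hwP, hwQ⟩
  obtain ⟨U, V, hU, hV, hPU, hQV, hUV⟩ :=
    SeparatedNhds.of_isCompact_isCompact (hcp.inter_right hP) (hcp.inter_right hQ) hdis
  have hsub : ∃ i, K i ⊆ U ∪ V := by
    refine exists_subset_nhds_of_isCompact' hd hc (fun i => (hc i).isClosed) ?_
    intro x hx
    refine (hU.union hV).mem_nhds ?_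
    rcases hPQ hx with h | h
    · exact Or.inl (hPU ⟨hx, h⟩)
    · exact Or.inr (hQV ⟨hx, h⟩)
  obtain ⟨i, hi⟩ := hsub
  obtain ⟨w, -, hwU, hwV⟩ := hK i U V hU hV hi ⟨a, mem_iInter.1 ha i, hPU ⟨ha, haP⟩⟩
    ⟨b, mem_iInter.1 hb i, hQV ⟨hb, hbQ⟩⟩
  exact Set.disjoint_left.1 hUV hwU hwV

theorem isCompact_connectedComponentIn [T2Space X] {A : Set X} (hA : IsCompact A) (a : X) :
    IsCompact (connectedComponentIn A a) := by
  by_cases ha : a ∈ A
  · haveI : CompactSpace A := isCompact_iff_compactSpace.1 hA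
    rw [connectedComponentIn_eq_image ha]
    exact isClosed_connectedComponent.isCompact.image continuous_subtype_val
  · rw [connectedComponentIn_eq_empty ha]
    exact isCompact_empty

end Top

section Met
variable {X : Type*} [MetricSpace X] {Y : Type*} [MetricSpace Y]

/-- All pairs of points of `S` are closer than `ε`. -/
def Small (S : Set X) (ε : ℝ) : Prop := ∀ x ∈ S, ∀ y ∈ S, dist x y < ε

/-- A null family of sets. -/
def Null {ι : Type*} (S : ι → Set X) : Prop := ∀ ε > 0, {i | ¬ Small (S i) ε}.Finite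

theorem Small.mono {S S' : Set X} {ε : ℝ} (h : Small S ε) (hS : S' ⊆ S) : Small S' ε :=
  fun x hx y hy => h x (hS hx) y (hS hy)

theorem Small.le {S : Set X} {ε ε' : ℝ} (h : Small S ε) (hε : ε ≤ ε') : Small S ε' :=
  fun x hx y hy => (h x hx y hy).trans_le hε

theorem Small.union {S S' : Set X} {ε ε' : ℝ} (h : Small S ε) (h' : Small S' ε')
    (hne : (S ∩ S').Nonempty) : Small (S ∪ S') (ε + ε') := by
  obtain ⟨w, hw, hw'⟩ := hne
  have h1 := h w hw w hw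
  have h2 := h' w hw' w hw'
  rw [dist_self] at h1 h2
  rintro x (hx | hx) y (hy | hy)
  · linarith [h x hx y hy]
  · linarith [h x hx w hw, h' w hw' y hy, dist_triangle x w y]
  · linarith [h' x hx w hw', h w hw y hy, dist_triangle x w y]
  · linarith [h' x hx y hy]

theorem small_ball (x : X) (r : ℝ) : Small (ball x r) (2 * r) := fun a ha b hb => by
  rw [mem_ball] at ha hb
  linarith [dist_triangle_right a b x]

theorem Small.closure {S : Set X} {ε ε' : ℝ} (h : Small S ε) (hε : ε < ε') :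
    Small (closure S) ε' := by
  intro x hx y hy
  obtain ⟨a, ha, hxa⟩ := Metric.mem_closure_iff.1 hx ((ε' - ε) / 2) (by linarith)
  obtain ⟨b, hb, hyb⟩ := Metric.mem_closure_iff.1 hy ((ε' - ε) / 2) (by linarith)
  have := h a ha b hb
  linarith [dist_triangle4 x a b y, dist_comm y b]

theorem Null.mono {ι : Type*} {S S' : ι → Set X} (h : Null S) (hS : ∀ i, S' i ⊆ S i) : Null S' :=
  fun ε hε => (h ε hε).subset fun i hi hs => hi (hs.mono (hS i))

theorem Null.closure {ι : Type*} {S : ι → Set X} (h : Null S) : Null (fun i => closure (S i)) :=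
  fun ε hε => (h (ε / 2) (by linarith)).subset fun _ hi hs => hi (hs.closure (by linarith))

theorem Null.comp_inj {ι κ : Type*} {S : ι → Set X} (h : Null S) {φ : κ → ι} (hφ : Injective φ) :
    Null (fun k => S (φ k)) :=
  fun ε hε => (h ε hε).preimage hφ.injOn

theorem Null.image {ι : Type*} {S : ι → Set X} (h : Null S) {g : X → Y}
    (hg : UniformContinuous g) : Null (fun i => g '' S i) := by
  intro ε hε
  obtain ⟨δ, hδ, H⟩ := Metric.uniformContinuous_iff.1 hg ε hε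
  refine (h δ hδ).subset fun i hi hs => hi ?_
  rintro _ ⟨x, hx, rfl⟩ _ ⟨y, hy, rfl⟩
  exact H (hs x hx y hy)

theorem null_of_finite {ι : Type*} [Finite ι] (S : ι → Set X) : Null S :=
  fun _ _ => toFinite _

/-- A point in the closure of a union of closed sets is in one of them or is approached by
members outside any finite set of indices. -/
theorem mem_closure_iUnion_cases {ι : Type*} {f : ι → Set X} {S : Set ι}
    (hf : ∀ i ∈ S, IsClosed (f i)) {x : X} (hx : x ∈ closure (⋃ i ∈ S, f i)) :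
    (∃ i ∈ S, x ∈ f i) ∨
      ∀ F : Set ι, F.Finite → ∀ η > 0, ∃ i ∈ S, i ∉ F ∧ ∃ y ∈ f i, dist x y < η := by
  by_cases h : ∃ i ∈ S, x ∈ f i
  · exact Or.inl h
  right
  intro F hF η hη
  have hcl : IsClosed (⋃ i ∈ S ∩ F, f i) :=
    (hF.subset inter_subset_right).isClosed_biUnion fun i hi => hf i hi.1
  have hxn : x ∈ (⋃ i ∈ S ∩ F, f i)ᶜ := by
    simp only [mem_compl_iff, mem_iUnion, not_exists]
    exact fun i hi hxi => h ⟨i, hi.1, hxi⟩
  obtain ⟨y, ⟨hy1, hy2⟩, hy3⟩ := mem_closure_iff_nhds.1 hx _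
    (inter_mem (hcl.isOpen_compl.mem_nhds hxn) (ball_mem_nhds x hη))
  simp only [mem_iUnion] at hy3
  obtain ⟨i, hi, hyi⟩ := hy3
  refine ⟨i, hi, fun hiF => hy1 ?_, y, hyi, mem_ball'.1 hy2⟩
  simp only [mem_iUnion]
  exact ⟨i, ⟨hi, hiF⟩, hyi⟩

/-- Finitely many pairwise disjoint compact sets are uniformly separated. -/
theorem exists_sep_finite {ι : Type*} {S : Set ι} (hS : S.Finite) {K : ι → Set X}
    (hK : ∀ i ∈ S, IsCompact (K i)) :
    ∃ l > 0, ∀ i ∈ S, ∀ j ∈ S, ∀ x ∈ K i, ∀ y ∈ K j, dist x y < l → (K i ∩ K j).Nonempty := by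
  have key : ∀ p ∈ S ×ˢ S, ∀ᶠ l in 𝓝[>] (0 : ℝ),
      ∀ x ∈ K p.1, ∀ y ∈ K p.2, dist x y < l → (K p.1 ∩ K p.2).Nonempty := by
    rintro ⟨i, j⟩ ⟨hi, hj⟩
    by_cases hne : (K i ∩ K j).Nonempty
    · exact Eventually.of_forall fun _ _ _ _ _ _ => hne
    · have hd : Disjoint (K i) (K j) := disjoint_iff_inter_eq_empty.2 (not_nonempty_iff_eq_empty.1 hne)
      obtain ⟨r, hr, H⟩ := (hK i hi).exists_thickening_subset_open
        (hK j hj).isClosed.isOpen_compl (subset_compl_iff_disjoint_right.2 hd)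
      filter_upwards [Ioo_mem_nhdsGT hr] with l hl x hx y hy hxy
      exfalso
      exact H (mem_thickening_iff.2 ⟨x, hx, by rw [dist_comm]; exact hxy.trans hl.2⟩) hy
  have := (eventually_all_finite (hS.prod hS)).2 key
  obtain ⟨l, hl, hl0⟩ := (this.and self_mem_nhdsWithin).exists
  exact ⟨l, hl0, fun i hi j hj => hl (i, j) ⟨hi, hj⟩⟩

end Met

end Pool.Agent.Lib.MP_32448b_gt
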