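import Pool.Agent.Lib.MP_32448b_gt.Quot

set_option autoImplicit false

open Set Metric Topology Filter Function

namespace Pool.Agent.Lib.MP_32448b_gt

variable {Y : Type} [MetricSpace Y]

theorem exists_sep {K F : Set Y} (hK : IsCompact K) (hF : IsClosed F) (hd : Disjoint K F) :
    ∃ r > 0, ∀ x ∈ K, ∀ y ∈ F, r ≤ dist x y := by
  obtain ⟨r, hr, H⟩ := hK.exists_thickening_subset_open hF.isOpen_compl
    (subset_compl_iff_disjoint_right.2 hd)
  refine ⟨r, hr, fun x hx y hy => ?_⟩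
  by_contra h
  exact H (mem_thickening_iff.2 ⟨x, hx, by rw [dist_comm]; exact not_le.1 h⟩) hy

theorem Small.thickening {S : Set Y} {ε : ℝ} (h : Small S ε) (r : ℝ) :
    Small (thickening r S) (ε + 2 * r) := by
  intro x hx y hy
  obtain ⟨a, ha, h1⟩ := mem_thickening_iff.1 hx
  obtain ⟨b, hb, h2⟩ := mem_thickening_iff.1 hy
  linarith [h a ha b hb, dist_triangle4 x a b y, dist_comm y b]

theorem exists_clopen_nbhd {A U : Set Y} (hA : IsCompact A) {a : Y} (ha : a ∈ A) (hU : IsOpen U)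
    (h : connectedComponentIn A a ⊆ U) :
    ∃ B, IsClosed B ∧ IsClosed (A \ B) ∧ a ∈ B ∧ B ⊆ A ∧ B ⊆ U := by
  have : CompactSpace A := isCompact_iff_compactSpace.1 hA
  have : Nonempty {s : Set A // IsClopen s ∧ (⟨a, ha⟩ : A) ∈ s} := ⟨⟨univ, isClopen_univ, trivial⟩⟩
  obtain ⟨Z, hZ⟩ := exists_subset_nhds_of_isCompact'
    (V := fun s : {s : Set A // IsClopen s ∧ (⟨a, ha⟩ : A) ∈ s} => s.1) (U := (↑) ⁻¹' U)
    (fun s t => ⟨⟨s.1 ∩ t.1, s.2.1.inter t.2.1, s.2.2, t.2.2⟩, inter_subset_left,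
      inter_subset_right⟩) (fun s => s.2.1.isClosed.isCompact) (fun s => s.2.1.isClosed) (by
      rw [← connectedComponent_eq_iInter_isClopen]
      intro x hx
      refine (hU.preimage continuous_subtype_val).mem_nhds (h ?_)
      rw [connectedComponentIn_eq_image ha]
      exact ⟨x, hx, rfl⟩)
  have hemb := hA.isClosed.isClosedEmbedding_subtypeVal
  refine ⟨(↑) '' Z.1, hemb.isClosedMap _ Z.2.1.isClosed, ?_, ⟨_, Z.2.2, rfl⟩, ?_, ?_⟩
  · have : A \ (↑) '' Z.1 = (↑) '' (Z.1)ᶜ := by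
      rw [image_compl_eq_range_sdiff_image Subtype.val_injective, Subtype.range_coe]
    exact this ▸ hemb.isClosedMap _ Z.2.1.isOpen.isClosed_compl
  · rintro _ ⟨x, -, rfl⟩
    exact x.2
  · rintro _ ⟨x, hx, rfl⟩
    exact hZ hx

theorem exists_clopen_partition [CompactSpace Y] {A : Set Y} (hA : NC A) {e : ℝ} (he : 0 < e) :
    ∃ (𝒞 : Set (Set Y)) (L : Type) (B : L → Set Y) (r : L → ℝ), 𝒞.Finite ∧
      (∀ K ∈ 𝒞, SD K ∧ K ⊆ A) ∧ 𝒞.PairwiseDisjoint id ∧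
      (∀ l, 0 < r l ∧ B l ⊆ A ∧ Disjoint (B l) (⋃₀ 𝒞) ∧ (∀ x ∈ B l, ∀ y ∈ A \ B l, r l ≤ dist x y) ∧
        Small (thickening (r l / 2) (B l)) (4 * e)) ∧ Pairwise (Disjoint on B) ∧
      A ⊆ ⋃₀ 𝒞 ∪ ⋃ l, B l ∧ Null (fun l => thickening (r l / 2) (B l)) ∧
      ∀ η > 0, {l | ¬ thickening (r l / 2) (B l) ⊆ thickening η (⋃₀ 𝒞)}.Finite := by
  obtain ⟨C0, hC0, H0⟩ := hA.hit e he
  set 𝒞 := connectedComponentIn A '' (C0 ∩ A) with h𝒞
  have hfin : 𝒞.Finite := (hC0.subset inter_subset_left).image _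
  have hcc : ∀ a, IsCompact (connectedComponentIn A a) := isCompact_connectedComponentIn hA.compact
  set C := ⋃₀ 𝒞 with hC
  have hCc : IsCompact C := hfin.isCompact_sUnion (by rintro _ ⟨a, -, rfl⟩; exact hcc a)
  have hCA : C ⊆ A := sUnion_subset (by rintro _ ⟨a, -, rfl⟩; exact connectedComponentIn_subset _ _)
  have hdis : ∀ a ∈ A \ C, Disjoint (connectedComponentIn A a) C := by
    intro a ha
    rw [Set.disjoint_left]
    rintro w hw ⟨_, ⟨c, hc, rfl⟩, hwc⟩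
    refine ha.2 ⟨_, ⟨c, hc, rfl⟩, ?_⟩
    rw [connectedComponentIn_eq hwc, ← connectedComponentIn_eq hw]
    exact mem_connectedComponentIn ha.1
  have h1 : ∀ a ∈ A \ C, ∃ (δ : ℝ) (B : Set Y), 0 < δ ∧ δ ≤ e ∧
      (∀ x ∈ connectedComponentIn A a, ∀ c ∈ C, 2 * δ ≤ dist x c) ∧ IsClosed B ∧ IsClosed (A \ B) ∧
      a ∈ B ∧ B ⊆ A ∧ B ⊆ thickening δ (connectedComponentIn A a) := by
    intro a ha
    obtain ⟨ρ, hρ, H⟩ := exists_sep (hcc a) hCc.isClosed (hdis a ha)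
    have hδ : 0 < min e (ρ / 2) := lt_min he (half_pos hρ)
    obtain ⟨B, h1, h2, h3, h4, h5⟩ := exists_clopen_nbhd hA.compact ha.1 isOpen_thickening
      (self_subset_thickening hδ _)
    exact ⟨_, B, hδ, min_le_left _ _, fun x hx c hc => by
      linarith [H x hx c hc, min_le_right e (ρ / 2)], h1, h2, h3, h4, h5⟩
  choose! δ B hδ0 hδe hδC hB1 hB2 hB3 hB4 hB5 using h1
  have hBC : ∀ a ∈ A \ C, Disjoint (B a) C := by
    intro a ha
    rw [Set.disjoint_left]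
    intro w hw hwC
    obtain ⟨x, hx, hd⟩ := mem_thickening_iff.1 (hB5 a ha hw)
    linarith [hδC a ha x hx w hwC, dist_comm w x, hδ0 a ha]
  obtain ⟨t, htc, ht1, ht2⟩ := (HereditarilyLindelofSpace.isLindelof (A \ C)).elim_nhds_subcover
    (fun a => (A \ B a)ᶜ) fun a ha => (hB2 a ha).isOpen_compl.mem_nhds fun h => h.2 (hB3 a ha)
  have := htc.to_subtype
  obtain ⟨enc, henc⟩ := Countable.exists_injective_nat t
  have hlt : ∀ n : ℕ, {m : t | enc m < n}.Finite := fun n => (finite_lt_nat n).preimage henc.injOn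
  let B' : t → Set Y := fun l => B l \ ⋃ m ∈ {m : t | enc m < enc l}, B m
  have hB'1 : ∀ l, IsClosed (B' l) := by
    intro l
    have : B' l = B l ∩ ⋂ m ∈ {m : t | enc m < enc l}, (A \ B m) := by
      ext w
      simp only [B', Set.mem_sdiff, mem_iUnion, mem_inter_iff, mem_iInter, not_exists]
      exact ⟨fun h => ⟨h.1, fun m hm => ⟨hB4 _ (ht1 _ l.2) h.1, h.2 m hm⟩⟩,
        fun h => ⟨h.1, fun m hm => (h.2 m hm).2⟩⟩
    exact this ▸ (hB1 _ (ht1 _ l.2)).inter (isClosed_biInter fun m _ => hB2 _ (ht1 _ m.2))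
  have hB'2 : ∀ l, IsClosed (A \ B' l) := by
    intro l
    have : A \ B' l = (A \ B l) ∪ ⋃ m ∈ {m : t | enc m < enc l}, B m := by
      ext w
      constructor
      · rintro ⟨h1, h2⟩
        by_cases h : w ∈ B l
        · exact Or.inr (by_contra fun h' => h2 ⟨h, h'⟩)
        · exact Or.inl ⟨h1, h⟩
      · rintro (h | h)
        · exact ⟨h.1, fun h' => h.2 h'.1⟩
        · obtain ⟨m, -, hm⟩ := mem_iUnion₂.1 h
          exact ⟨hB4 _ (ht1 _ m.2) hm, fun h' => h'.2 h⟩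
    exact this ▸ (hB2 _ (ht1 _ l.2)).union ((hlt _).isClosed_biUnion fun m _ => hB1 _ (ht1 _ m.2))
  have hB'3 : Pairwise (Disjoint on B') := by
    intro l m hlm
    rw [Function.onFun, Set.disjoint_left]
    intro w h1 h2
    rcases lt_or_gt_of_ne (henc.ne hlm) with h | h
    · exact h2.2 (mem_biUnion (x := l) h h1.1)
    · exact h1.2 (mem_biUnion (x := m) h h2.1)
  have hB'4 : A \ C ⊆ ⋃ l, B' l := by
    intro w hw
    obtain ⟨a, ha, h⟩ := mem_iUnion₂.1 (ht2 hw)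
    obtain ⟨l, hl, hmin⟩ := exists_minimalFor_of_wellFoundedLT (fun l : t => w ∈ B l) enc
      ⟨⟨a, ha⟩, by_contra fun h' => h ⟨hw.1, h'⟩⟩
    refine mem_iUnion.2 ⟨l, hl, fun h' => ?_⟩
    obtain ⟨m, hm, hwm⟩ := mem_iUnion₂.1 h'
    exact absurd (hmin hwm (le_of_lt hm)) (not_le.2 hm)
  have h2 : ∀ l : t, ∃ r > 0, r ≤ e ∧ r ≤ 1 / ((enc l : ℝ) + 1) ∧
      ∀ x ∈ B' l, ∀ y ∈ A \ B' l, r ≤ dist x y := by
    intro l
    obtain ⟨ρ, hρ, H⟩ := exists_sep (hB'1 l).isCompact (hB'2 l) disjoint_sdiff_right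
    exact ⟨min ρ (min e (1 / ((enc l : ℝ) + 1))), lt_min hρ (lt_min he Nat.one_div_pos_of_nat),
      (min_le_right _ _).trans (min_le_left _ _), (min_le_right _ _).trans (min_le_right _ _),
      fun x hx y hy => (min_le_left _ _).trans (H x hx y hy)⟩
  choose r hr0 hre hrn hrd using h2
  have hrfin : ∀ η > 0, {l | η < r l}.Finite := by
    intro η hη
    obtain ⟨n, hn⟩ := exists_nat_one_div_lt hη
    refine (hlt n).subset fun l hl => ?_
    by_contra hcon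
    have : (1 : ℝ) / (enc l + 1) ≤ 1 / (n + 1) := Nat.one_div_le_one_div (not_lt.1 hcon)
    exact absurd (hn.trans hl) (not_lt.2 ((hrn l).trans this))
  have hsm : ∀ (l : t) (η : ℝ), Small (connectedComponentIn A l) η → δ l ≤ η → r l ≤ η →
      Small (thickening (r l / 2) (B' l)) (4 * η) := fun l η h1 h2 h3 =>
    (((h1.thickening (δ l)).mono (sdiff_subset.trans (hB5 _ (ht1 _ l.2)))).thickening _).le
      (by linarith)
  have hlim : ∀ η > 0, {l | ¬ thickening (r l / 2) (B' l) ⊆ thickening η C}.Finite := by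
    intro η hη
    obtain ⟨F, hF⟩ := (hA.compact.diff (isOpen_thickening (δ := η / 2) (E := C))).elim_finite_subcover
      (fun l => (A \ B' l)ᶜ) (fun l => (hB'2 l).isOpen_compl) (by
        intro w hw
        obtain ⟨l, hl⟩ := mem_iUnion.1 (hB'4 ⟨hw.1, fun h =>
          hw.2 (self_subset_thickening (half_pos hη) _ h)⟩)
        exact mem_iUnion.2 ⟨l, fun h => h.2 hl⟩)
    refine (F.finite_toSet.union (hrfin η hη)).subset fun l hl => ?_
    by_contra hcon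
    refine hl ?_
    have h3 : B' l ⊆ thickening (η / 2) C := by
      intro w hw
      by_contra h
      have hwA := hB4 _ (ht1 _ l.2) hw.1
      obtain ⟨m, hm, h'⟩ := mem_iUnion₂.1 (hF ⟨hwA, h⟩)
      have hml : m ≠ l := fun e => hcon (Or.inl (e ▸ hm))
      exact h' ⟨hwA, fun h'' => Set.disjoint_left.1 (hB'3 hml) h'' hw⟩
    have h4 : r l ≤ η := not_lt.1 fun h => hcon (Or.inr h)
    exact ((thickening_subset_of_subset _ h3).trans (thickening_thickening_subset _ _ _)).trans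
      (thickening_mono (by linarith) _)
  refine ⟨𝒞, t, B', r, hfin, ?_, ?_, fun l => ⟨hr0 l, sdiff_subset.trans (hB4 _ (ht1 _ l.2)),
    (hBC _ (ht1 _ l.2)).mono_left sdiff_subset, hrd l,
    hsm l e ?_ (hδe _ (ht1 _ l.2)) (hre l)⟩, hB'3, fun w hw => ?_, fun η hη => ?_, hlim⟩
  · rintro _ ⟨a, ha, rfl⟩
    exact ⟨hA.sd _ (connectedComponentIn_subset _ _) (hcc a)
      (isConnected_connectedComponentIn_iff.2 ha.2), connectedComponentIn_subset _ _⟩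
  · rintro _ ⟨a, -, rfl⟩ _ ⟨b, -, rfl⟩ hne
    rw [Function.onFun, Set.disjoint_left]
    intro w h1 h2
    exact hne ((connectedComponentIn_eq h1).trans (connectedComponentIn_eq h2).symm)
  · by_contra hs
    obtain ⟨c, hc, hcC⟩ := H0 _ (connectedComponentIn_subset _ _) (hcc l)
      isPreconnected_connectedComponentIn hs
    have hcA := connectedComponentIn_subset _ _ hc
    exact Set.disjoint_left.1 (hdis _ (ht1 _ l.2)) hc
      ⟨_, ⟨c, ⟨hcC, hcA⟩, rfl⟩, mem_connectedComponentIn hcA⟩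
  · by_cases h : w ∈ C
    · exact Or.inl h
    · exact Or.inr (hB'4 ⟨hw, h⟩)
  · have hη' : 0 < η / 4 := by linarith
    obtain ⟨C1, hC1, H1⟩ := hA.hit _ hη'
    obtain ⟨σ, hσ, Hσ⟩ := exists_sep (K := ⋃ c ∈ C1 ∩ (A \ C), connectedComponentIn A c)
      ((hC1.subset inter_subset_left).isCompact_biUnion fun c _ => hcc c) hCc.isClosed
      (by simp only [disjoint_iUnion_left]; exact fun c hc => hdis c hc.2)
    refine ((hlim _ (lt_min (half_pos hσ) hη')).union (hrfin _ hη')).subset fun l hl => ?_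
    by_contra hcon
    refine hl ?_
    have h3 := not_not.1 fun h => hcon (Or.inl h)
    have h4 : r l ≤ η / 4 := not_lt.1 fun h => hcon (Or.inr h)
    rcases (B' l).eq_empty_or_nonempty with h | ⟨b, hb⟩
    · simp [h, Small]
    obtain ⟨c, hc, hbc⟩ := mem_thickening_iff.1 (h3 (self_subset_thickening (half_pos (hr0 l)) _ hb))
    obtain ⟨x, hx, hbx⟩ := mem_thickening_iff.1 (hB5 _ (ht1 _ l.2) hb.1)
    have h5 := hδC _ (ht1 _ l.2) x hx c hc
    have h6 := dist_triangle_left x c b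
    have h7 := min_le_left (σ / 2) (η / 4)
    have h8 := min_le_right (σ / 2) (η / 4)
    refine (hsm l (η / 4) ?_ (by linarith) h4).le (by linarith)
    by_contra hs
    obtain ⟨c', hc', hcC⟩ := H1 _ (connectedComponentIn_subset _ _) (hcc l)
      isPreconnected_connectedComponentIn hs
    have := Hσ x (mem_biUnion (x := c') ⟨hcC, connectedComponentIn_subset _ _ hc',
      Set.disjoint_left.1 (hdis _ (ht1 _ l.2)) hc'⟩ (connectedComponentIn_eq hc' ▸ hx)) c hc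
    linarith

theorem dim_components {𝒮 : Set (Set Y)} (hf : 𝒮.Finite) (h : ∀ S ∈ 𝒮, Dim S) :
    {K | ∃ x ∈ ⋃₀ 𝒮, K = connectedComponentIn (⋃₀ 𝒮) x}.Finite ∧
      ∀ x ∈ ⋃₀ 𝒮, PCs (connectedComponentIn (⋃₀ 𝒮) x) ∧
        IsClosed (⋃₀ 𝒮 \ connectedComponentIn (⋃₀ 𝒮) x) ∧
        ∃ S ∈ 𝒮, S ⊆ connectedComponentIn (⋃₀ 𝒮) x := by
  have key : ∀ x, ∀ S ∈ 𝒮, ∀ w ∈ S, w ∈ connectedComponentIn (⋃₀ 𝒮) x →
      S ⊆ connectedComponentIn (⋃₀ 𝒮) x := fun x S hS w h1 h2 => by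
    rw [connectedComponentIn_eq h2]
    exact (h S hS).isPathConnected.isConnected.isPreconnected.subset_connectedComponentIn h1
      (subset_sUnion_of_mem hS)
  have heq : ∀ x, connectedComponentIn (⋃₀ 𝒮) x =
      ⋃₀ {S ∈ 𝒮 | S ⊆ connectedComponentIn (⋃₀ 𝒮) x} := fun x => by
    refine Subset.antisymm (fun w hw => ?_) (sUnion_subset fun S hS => hS.2)
    obtain ⟨S, hS, h1⟩ := connectedComponentIn_subset _ _ hw
    exact ⟨S, ⟨hS, key x S hS w h1 hw⟩, h1⟩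
  refine ⟨(hf.finite_subsets.image sUnion).subset ?_, fun x hx => ⟨?_, ?_, ?_⟩⟩
  · rintro _ ⟨x, -, rfl⟩
    exact ⟨_, sep_subset _ _, (heq x).symm⟩
  · exact ⟨_, hf.subset (sep_subset _ _), fun S hS => h S hS.1, (heq x).symm⟩
  · have : ⋃₀ 𝒮 \ connectedComponentIn (⋃₀ 𝒮) x =
        ⋃₀ {S ∈ 𝒮 | ¬ S ⊆ connectedComponentIn (⋃₀ 𝒮) x} := by
      ext w
      constructor
      · rintro ⟨⟨S, hS, h1⟩, h2⟩
        exact ⟨S, ⟨hS, fun h' => h2 (h' h1)⟩, h1⟩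
      · rintro ⟨S, hS, h1⟩
        exact ⟨⟨S, hS.1, h1⟩, fun h' => hS.2 (key x S hS.1 w h1 h')⟩
    rw [this]
    exact ((hf.subset (sep_subset _ _)).isCompact_sUnion fun S hS => (h S hS.1).compact).isClosed
  · obtain ⟨S, hS, h1⟩ := hx
    exact ⟨S, hS, key x S hS x h1 (mem_connectedComponentIn ⟨S, hS, h1⟩)⟩

theorem exists_blobs [CompactSpace Y] {M A : Set Y} (hM : PCs M) (hAM : A ⊆ M) (hA : NC A) {ε : ℝ}
    (hε : 0 < ε) :
    ∃ (𝒞 : Set (Set Y)) (J : Type) (B O : J → Set Y), 𝒞.Finite ∧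
      (∀ K ∈ 𝒞, SD K ∧ K ⊆ A) ∧ 𝒞.PairwiseDisjoint id ∧
      (∀ j, PCs (B j) ∧ IsConnected (B j) ∧ B j ⊆ M ∧ B j ⊆ O j ∧ IsOpen (O j) ∧ A ∩ O j ⊆ B j ∧
        (A ∩ B j).Nonempty ∧ Disjoint (O j) (⋃₀ 𝒞) ∧ Small (O j) ε) ∧ Pairwise (Disjoint on O) ∧
      A ⊆ ⋃₀ 𝒞 ∪ ⋃ j, B j ∧ Null O ∧ ∀ η > 0, {j | ¬ O j ⊆ thickening η (⋃₀ 𝒞)}.Finite := by
  obtain ⟨𝒞, L, B, r, h1, h2, h3, h4, h5, h6, h7, h8⟩ := exists_clopen_partition hA
    (show 0 < ε / 4 by linarith)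
  set V := fun l => thickening (r l / 2) (B l) with hV
  have hAV : ∀ l, A ∩ V l ⊆ B l := by
    rintro l w ⟨hwA, hw⟩
    obtain ⟨x, hx, hd⟩ := mem_thickening_iff.1 hw
    by_contra h
    linarith [(h4 l).2.2.2.1 x hx w ⟨hwA, h⟩, dist_comm w x, (h4 l).1]
  have hVd : Pairwise (Disjoint on V) := by
    intro l m hlm
    rw [Function.onFun, Set.disjoint_left]
    intro w hl hm
    obtain ⟨x, hx, hd⟩ := mem_thickening_iff.1 hl
    obtain ⟨y, hy, hd'⟩ := mem_thickening_iff.1 hm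
    have a1 := (h4 l).2.2.2.1 x hx y ⟨(h4 m).2.1 hy, Set.disjoint_right.1 (h5 hlm) hy⟩
    have a2 := (h4 m).2.2.2.1 y hy x ⟨(h4 l).2.1 hx, Set.disjoint_left.1 (h5 hlm) hx⟩
    linarith [dist_triangle_left x y w, dist_comm x y]
  choose 𝒮 h𝒮1 h𝒮2 h𝒮3 using fun l => hM.fine (half_pos (h4 l).1)
  set 𝒯 := fun l => {S ∈ 𝒮 l | (S ∩ B l).Nonempty} with h𝒯
  have hc := fun l => dim_components (𝒮 := 𝒯 l) ((h𝒮1 l).subset (sep_subset _ _))
    fun S hS => (h𝒮2 l S hS.1).1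
  have hNV : ∀ l, ⋃₀ 𝒯 l ⊆ V l := by
    rintro l w ⟨S, ⟨hS, b, hb1, hb2⟩, hw⟩
    exact mem_thickening_iff.2 ⟨b, hb2, (h𝒮2 l S hS).2 w hw b hb1⟩
  have hNM : ∀ l, ⋃₀ 𝒯 l ⊆ M := fun l => h𝒮3 l ▸ sUnion_mono (sep_subset _ _)
  have hBN : ∀ l, B l ⊆ ⋃₀ 𝒯 l := by
    intro l w hw
    obtain ⟨S, hS, h⟩ : w ∈ ⋃₀ 𝒮 l := (h𝒮3 l).symm ▸ hAM ((h4 l).2.1 hw)
    exact ⟨S, ⟨hS, w, h, hw⟩, h⟩
  let J := {p : L × Set Y // ∃ x ∈ ⋃₀ 𝒯 p.1, p.2 = connectedComponentIn (⋃₀ 𝒯 p.1) x}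
  have hK : ∀ j : J, PCs j.1.2 ∧ IsConnected j.1.2 ∧ j.1.2 ⊆ ⋃₀ 𝒯 j.1.1 ∧
      IsClosed (⋃₀ 𝒯 j.1.1 \ j.1.2) ∧ (A ∩ j.1.2).Nonempty := by
    rintro ⟨⟨l, K⟩, x, hx, e⟩
    dsimp only at e hx ⊢
    subst e
    obtain ⟨a1, a2, S, ⟨-, b, hb1, hb2⟩, hS⟩ := (hc l).2 x hx
    exact ⟨a1, isConnected_connectedComponentIn_iff.2 hx, connectedComponentIn_subset _ _, a2,
      b, (h4 l).2.1 hb2, hS hb1⟩
  have hρ : ∀ j : J, ∃ ρ > 0, ∀ x ∈ j.1.2, ∀ y ∈ (V j.1.1)ᶜ ∪ (⋃₀ 𝒯 j.1.1 \ j.1.2), ρ ≤ dist x y :=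
    fun j => exists_sep (hK j).1.compact (isOpen_thickening.isClosed_compl.union (hK j).2.2.2.1)
      (disjoint_union_right.2 ⟨disjoint_compl_right_iff_subset.2 ((hK j).2.2.1.trans (hNV _)),
        disjoint_sdiff_right⟩)
  choose ρ hρ0 hρ using hρ
  have hO : ∀ j : J, ∀ w ∈ thickening (ρ j / 2) j.1.2,
      w ∉ (V j.1.1)ᶜ ∪ (⋃₀ 𝒯 j.1.1 \ j.1.2) := by
    intro j w hw h
    obtain ⟨x, hx, hd⟩ := mem_thickening_iff.1 hw
    linarith [hρ j x hx w h, dist_comm w x, hρ0 j]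
  have hOV : ∀ j : J, thickening (ρ j / 2) j.1.2 ⊆ V j.1.1 := fun j w hw =>
    by_contra fun h => hO j w hw (Or.inl h)
  have hfib : ∀ F : Set L, F.Finite → {j : J | j.1.1 ∈ F}.Finite := by
    intro F hF
    refine Finite.preimage (f := fun j : J => j.1) (s := ⋃ l ∈ F, {l} ×ˢ
      {K | ∃ x ∈ ⋃₀ 𝒯 l, K = connectedComponentIn (⋃₀ 𝒯 l) x}) Subtype.val_injective.injOn
      (hF.biUnion fun l _ => (finite_singleton l).prod (hc l).1) |>.subset fun j hj => ?_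
    exact mem_biUnion hj ⟨rfl, j.2⟩
  refine ⟨𝒞, J, fun j => j.1.2, fun j => thickening (ρ j / 2) j.1.2, h1, h2, h3, fun j =>
    ⟨(hK j).1, (hK j).2.1, (hK j).2.2.1.trans (hNM _), self_subset_thickening (half_pos (hρ0 j)) _,
      isOpen_thickening, fun w hw => ?_, (hK j).2.2.2.2, ?_,
      ((h4 _).2.2.2.2.mono (hOV j)).le (by linarith)⟩, ?_, fun w hw => ?_,
    fun η hη => (hfib _ (h7 η hη)).subset fun j hj hs => hj (hs.mono (hOV j)),
    fun η hη => (hfib _ (h8 η hη)).subset fun j hj hs => hj ((hOV j).trans hs)⟩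
  · exact by_contra fun h => hO j w hw.2 (Or.inr ⟨hBN _ (hAV _ ⟨hw.1, hOV j hw.2⟩), h⟩)
  · rw [Set.disjoint_left]
    rintro w hw ⟨K, hK, hwK⟩
    exact Set.disjoint_left.1 (h4 _).2.2.1 (hAV _ ⟨(h2 K hK).2 hwK, hOV j hw⟩) ⟨K, hK, hwK⟩
  · have key : ∀ i j : J, i ≠ j → ∀ y ∈ j.1.2, y ∈ (V i.1.1)ᶜ ∪ (⋃₀ 𝒯 i.1.1 \ i.1.2) := by
      rintro ⟨⟨l, K⟩, x, hx, e⟩ ⟨⟨m, K'⟩, x', hx', e'⟩ hij y hy
      dsimp only at e e' hx hx' hy ⊢
      subst e e'
      by_cases hlm : l = m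
      · subst hlm
        refine Or.inr ⟨connectedComponentIn_subset _ _ hy, fun h => hij (Subtype.ext ?_)⟩
        exact Prod.ext rfl ((connectedComponentIn_eq h).trans (connectedComponentIn_eq hy).symm)
      · exact Or.inl (Set.disjoint_right.1 (hVd hlm) (hNV _ (connectedComponentIn_subset _ _ hy)))
    intro i j hij
    rw [Function.onFun, Set.disjoint_left]
    intro w hi hj
    obtain ⟨x, hx, hd⟩ := mem_thickening_iff.1 hi
    obtain ⟨y, hy, hd'⟩ := mem_thickening_iff.1 hj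
    linarith [hρ i x hx y (key i j hij y hy), hρ j y hy x (key j i hij.symm x hx),
      dist_triangle_left x y w, dist_comm x y]
  · refine (h6 hw).imp id fun h => ?_
    obtain ⟨l, hl⟩ := mem_iUnion.1 h
    exact mem_iUnion.2 ⟨⟨(l, _), w, hBN l hl, rfl⟩, mem_connectedComponentIn (hBN l hl)⟩

end Pool.Agent.Lib.MP_32448b_gt
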