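import Pool.Agent.Lib.MP_32448b_gt.Dend

set_option autoImplicit false

open Set Metric Topology Filter Function

namespace Pool.Agent.Lib.MP_32448b_gt

variable {X : Type*} [MetricSpace X]

theorem no_circle [Dend X] (g : Circle → X) (hg : Continuous g) : ¬ Injective g := by
  intro hi
  have huv : Circle.exp 0 ≠ Circle.exp Real.pi := fun e => by
    have := Circle.exp_injOn_Icc (a := 0) (b := Real.pi) (by linarith [Real.pi_pos])
      ⟨le_rfl, Real.pi_pos.le⟩ ⟨Real.pi_pos.le, le_rfl⟩ e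
    exact Real.pi_pos.ne this
  set u := Circle.exp 0
  set v := Circle.exp Real.pi
  obtain ⟨z, hz⟩ := Dend.sep (x := g u) (y := g v) fun e => huv (hi e)
  obtain ⟨⟨a, ha, rfl⟩, h1, h2⟩ := hz.mem
    ((isPreconnected_range (Circle.path u v).continuous).image g hg.continuousOn) (subset_univ _)
    ⟨u, ⟨0, (Circle.path u v).source⟩, rfl⟩ ⟨v, ⟨1, (Circle.path u v).target⟩, rfl⟩
  obtain ⟨⟨b, hb, hab⟩, -, -⟩ := hz.mem
    ((isPreconnected_range (Circle.path v u).continuous).image g hg.continuousOn) (subset_univ _)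
    ⟨u, ⟨1, (Circle.path v u).target⟩, rfl⟩ ⟨v, ⟨0, (Circle.path v u).source⟩, rfl⟩
  obtain rfl := hi hab
  have : b ∈ ({u, v} : Set Circle) := Circle.range_path_inter_range_path huv ▸ ⟨ha, hb⟩
  rcases this with rfl | rfl
  · exact h1 rfl
  · exact h2 rfl

theorem circle_of_two_arcs {α β : ℝ → X} {p q : X} (hα : IsArc α p q) (hβ : IsArc β p q)
    (h : ∀ s ∈ Icc (0 : ℝ) 1, ∀ t ∈ Icc (0 : ℝ) 1, α s = β t → s = 0 ∨ s = 1) :
    ∃ g : Circle → X, Continuous g ∧ Injective g := by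
  set G : ℝ → X := fun t => if t ≤ 1 / 2 then α (2 * t) else β (2 - 2 * t) with hG
  have hGc : Continuous G := by
    refine Continuous.if_le (hα.cont.comp (by fun_prop)) (hβ.cont.comp (by fun_prop))
      continuous_id continuous_const ?_
    rintro t rfl
    norm_num [hα.one, hβ.one]
  have hG01 : G 0 = G 1 := by norm_num [hG, hα.zero, hβ.zero]
  have hGi : InjOn G (Ico 0 1) := by
    have key : ∀ s ∈ Ico (0 : ℝ) 1, ∀ t ∈ Ico (0 : ℝ) 1, s ≤ 1 / 2 → ¬ t ≤ 1 / 2 →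
        α (2 * s) ≠ β (2 - 2 * t) := by
      intro s hs t ht h1 h2 e
      have ht' : 2 - 2 * t ∈ Icc (0 : ℝ) 1 := ⟨by linarith [ht.2], by linarith⟩
      rcases h _ ⟨by linarith [hs.1], by linarith⟩ _ ht' e with h3 | h3
      · rw [h3, hα.zero, ← hβ.zero] at e
        have := hβ.inj (by simp) ht' e
        linarith [ht.2]
      · rw [h3, hα.one, ← hβ.one] at e
        have := hβ.inj (by simp) ht' e
        linarith
    intro s hs t ht e
    simp only [hG] at e
    split_ifs at e with h1 h2 h2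
    · have := hα.inj ⟨by linarith [hs.1], by linarith⟩ ⟨by linarith [ht.1], by linarith⟩ e
      linarith
    · exact absurd e (key s hs t ht h1 h2)
    · exact absurd e.symm (key t ht s hs h2 h1)
    · have := hβ.inj ⟨by linarith [hs.2], by linarith⟩ ⟨by linarith [ht.2], by linarith⟩ e
      linarith
  have : Fact ((0 : ℝ) < 1) := ⟨one_pos⟩
  refine ⟨AddCircle.liftIco 1 0 G ∘ (AddCircle.homeomorphCircle one_ne_zero).symm,
    (AddCircle.liftIco_zero_continuous hG01 hGc.continuousOn).comp (Homeomorph.continuous _),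
    Injective.comp ?_ (Homeomorph.injective _)⟩
  intro a b hab
  obtain ⟨s, hs, rfl⟩ := AddCircle.eq_coe_Ico a
  obtain ⟨t, ht, rfl⟩ := AddCircle.eq_coe_Ico b
  rw [AddCircle.liftIco_zero_coe_apply hs, AddCircle.liftIco_zero_coe_apply ht] at hab
  rw [hGi hs ht hab]

theorem IsArc.sub {α : ℝ → X} {x y : X} (hα : IsArc α x y) {a b : ℝ} (ha : a ∈ Icc (0 : ℝ) 1)
    (hb : b ∈ Icc (0 : ℝ) 1) (hab : a ≠ b) :
    IsArc (fun t => α (a + t * (b - a))) (α a) (α b) := by
  have hmem : ∀ t ∈ Icc (0 : ℝ) 1, a + t * (b - a) ∈ Icc (0 : ℝ) 1 := fun t ht =>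
    ⟨by nlinarith [ha.1, hb.1, ht.1, ht.2], by nlinarith [ha.2, hb.2, ht.1, ht.2]⟩
  refine ⟨hα.cont.comp (by fun_prop), fun s hs t ht e => ?_, by simp, by simp⟩
  have := hα.inj (hmem s hs) (hmem t ht) e
  exact mul_right_cancel₀ (sub_ne_zero.2 hab.symm) (add_left_cancel this)

theorem dend_of_no_circle [CompactSpace X] [ConnectedSpace X] [LocallyConnectedSpace X]
    (h : ∀ g : Circle → X, Continuous g → ¬ Injective g) : Dend X := by
  have := lpc_of_peano (X := X)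
  have : PathConnectedSpace X := PathConnectedSpace.of_locallyPathConnectedSpace
  refine ⟨isCompact_univ, isConnected_univ, fun x _ y _ hxy => ?_⟩
  obtain ⟨α, hα, -⟩ := exists_arc (joinedIn_univ.2 (PathConnectedSpace.joined x y)) hxy
  have hI : (1 / 2 : ℝ) ∈ Icc (0 : ℝ) 1 := ⟨by norm_num, by norm_num⟩
  have hx : x ≠ α (1 / 2) := fun e => by
    have := hα.inj (by simp) hI (hα.zero.trans e); norm_num at this
  have hy : y ≠ α (1 / 2) := fun e => by
    have := hα.inj (by simp) hI (hα.one.trans e); norm_num at this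
  refine ⟨α (1 / 2), sep_of_not_mem_cc hx hy fun hcon => ?_⟩
  have hO : IsOpen (connectedComponentIn {α (1 / 2)}ᶜ x) :=
    isOpen_compl_singleton.connectedComponentIn
  have hp := hO.isConnected_iff_isPathConnected.1 (isConnected_connectedComponentIn_iff.2 hx)
  obtain ⟨β, hβ, hβO⟩ := exists_arc (hp.joinedIn x (mem_connectedComponentIn hx) y hcon) hxy
  have hK : IsClosed (β '' Icc 0 1) := (isCompact_Icc.image hβ.cont).isClosed
  have hmid : α (1 / 2) ∉ β '' Icc 0 1 := fun h' => connectedComponentIn_subset _ _ (hβO h') rfl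
  obtain ⟨s, ⟨hs, u, hu, hus⟩, hsmax⟩ := (isCompact_Icc.inter_right (hK.preimage hα.cont) :
    IsCompact (Icc (0 : ℝ) (1 / 2) ∩ α ⁻¹' (β '' Icc 0 1))).exists_isGreatest
    ⟨0, ⟨le_rfl, by norm_num⟩, 0, by simp, hβ.zero.trans hα.zero.symm⟩
  obtain ⟨t, ⟨ht, v, hv, hvt⟩, htmin⟩ := (isCompact_Icc.inter_right (hK.preimage hα.cont) :
    IsCompact (Icc (1 / 2 : ℝ) 1 ∩ α ⁻¹' (β '' Icc 0 1))).exists_isLeast
    ⟨1, ⟨by norm_num, le_rfl⟩, 1, by simp, hβ.one.trans hα.one.symm⟩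
  have hsI : s ∈ Icc (0 : ℝ) 1 := ⟨hs.1, by linarith [hs.2]⟩
  have htI : t ∈ Icc (0 : ℝ) 1 := ⟨by linarith [ht.1], ht.2⟩
  have hs' : s < 1 / 2 := lt_of_le_of_ne hs.2 fun e => hmid ⟨u, hu, e ▸ hus⟩
  have hst : s < t := by linarith [ht.1]
  have huv : u ≠ v := fun e => hst.ne (hα.inj hsI htI (hus.symm.trans (e ▸ hvt)))
  have h1 := hα.sub hsI htI hst.ne
  have h2 := hβ.sub hu hv huv
  rw [hus, hvt] at h2
  obtain ⟨g, hg1, hg2⟩ := circle_of_two_arcs h1 h2 (by
    intro a ha b hb e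
    have hb' : u + b * (v - u) ∈ Icc (0 : ℝ) 1 :=
      ⟨by nlinarith [hu.1, hv.1, hb.1, hb.2], by nlinarith [hu.2, hv.2, hb.1, hb.2]⟩
    have hmem : s + a * (t - s) ∈ α ⁻¹' (β '' Icc 0 1) := ⟨_, hb', e.symm⟩
    rcases le_total (s + a * (t - s)) (1 / 2) with h' | h'
    · have := hsmax ⟨⟨by nlinarith [ha.1, hs.1], h'⟩, hmem⟩
      left; nlinarith [ha.1]
    · have := htmin ⟨⟨h', by nlinarith [ha.2, ht.2]⟩, hmem⟩
      right; nlinarith [ha.2])
  exact h g hg1 hg2

end Pool.Agent.Lib.MP_32448b_gt
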