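import Pool.Agent.Lib.MP_32448b_gt.SetLevel

set_option autoImplicit false

open Set Metric Topology Filter Function

namespace Pool.Agent.Lib.MP_32448b_gt

/-- A decomposition of the complement of `F` into subdendrites overlapping in cut points. -/
structure Pieces {E : Type} [MetricSpace E] (F Av : Set E) where
  ι : Type
  cnt : Countable ι
  Φ : ι → Set E
  C : Set E
  sd : ∀ i, SD (Φ i)
  cover : ∀ x, x ∉ F → ∃ i, x ∈ Φ i
  CF : ∀ c ∈ C, c ∉ F ∧ c ∉ Av
  locfin : ∀ x, x ∉ F → ∃ W ∈ 𝓝 x, (W ∩ C).Finite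
  uniq : ∀ x, x ∉ F → x ∉ C → ∀ i j, x ∈ Φ i → x ∈ Φ j → i = j
  two : ∀ x ∈ C, ∀ i j l, x ∈ Φ i → x ∈ Φ j → x ∈ Φ l → i = j ∨ j = l ∨ i = l
  nc : ∀ x ∈ C, ∀ i, x ∈ Φ i → IsPreconnected (Φ i \ {x})
  null : Null Φ
  dense : ∀ i, Φ i ⊆ closure (Φ i \ F)

variable {E : Type} [MetricSpace E] [Dend E]

/-- The trivial decomposition. -/
def Pieces.triv (Av : Set E) : Pieces (∅ : Set E) Av where
  ι := Unit
  cnt := inferInstance
  Φ := fun _ => univ
  C := ∅
  sd := fun _ => Dend.sd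
  cover := fun _ _ => ⟨(), mem_univ _⟩
  CF := fun _ h => h.elim
  locfin := fun _ _ => ⟨univ, univ_mem, by simp⟩
  uniq := fun _ _ _ _ _ _ _ => rfl
  two := fun _ h => h.elim
  nc := fun _ h => h.elim
  null := null_of_finite _
  dense := fun _ => by simp

theorem exists_local_nbhd {F C : Set E} (hF : IsClosed F) {c : E} (hc : c ∉ F)
    (hfin : ∃ W ∈ 𝓝 c, (W ∩ C).Finite) :
    ∃ M : Set E, IsOpen M ∧ c ∈ M ∧ IsPreconnected M ∧ ∀ w ∈ M, w ∉ F ∧ (w ∈ C → w = c) := by
  obtain ⟨W, hW, hf⟩ := hfin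
  have h1 : ((W ∩ C) \ {c})ᶜ ∈ 𝓝 c :=
    (hf.subset sdiff_subset).isClosed.isOpen_compl.mem_nhds fun h => h.2 rfl
  obtain ⟨M, hM1, hM2, hM3, hM4⟩ := locallyConnectedSpace_iff_subsets_isOpen_isConnected.1
    inferInstance c _ (inter_mem (inter_mem hW h1) (hF.isOpen_compl.mem_nhds hc))
  refine ⟨M, hM2, hM3, hM4.isPreconnected, fun w hw => ⟨(hM1 hw).2, fun hwC => ?_⟩⟩
  by_contra h
  exact (hM1 hw).1.2 ⟨⟨(hM1 hw).1.1, hwC⟩, h⟩

theorem exists_pieces {F Av C : Set E} (hF : IsClosed F) (hC : ∀ c ∈ C, c ∉ F ∧ c ∉ Av ∧ Ord2 c)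
    (hl : ∀ x, x ∉ F → ∃ W ∈ 𝓝 x, (W ∩ C).Finite) :
    ∃ P : Pieces F Av, P.C = C ∧ IsOpen (F ∪ C)ᶜ ∧
      ∀ i, ∃ x ∈ (F ∪ C)ᶜ, P.Φ i = closure (connectedComponentIn (F ∪ C)ᶜ x) := by
  set O := (F ∪ C)ᶜ with hOdef
  have hO : IsOpen O := by
    rw [isOpen_iff_mem_nhds]
    intro x hx
    have hxF : x ∉ F := fun h => hx (Or.inl h)
    obtain ⟨M, hM, hxM, -, H⟩ := exists_local_nbhd hF hxF (hl x hxF)
    filter_upwards [hM.mem_nhds hxM] with w hw
    rintro (h | h)
    · exact (H w hw).1 h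
    · exact hx (Or.inr ((H w hw).2 h ▸ h))
  let ι := {Ω : Set E // ∃ x ∈ O, Ω = connectedComponentIn O x}
  have hopen : ∀ i : ι, IsOpen i.1 := fun ⟨_, x, _, e⟩ => e ▸ hO.connectedComponentIn
  have hconn : ∀ i : ι, IsConnected i.1 := fun ⟨_, x, hx, e⟩ =>
    e ▸ isConnected_connectedComponentIn_iff.2 hx
  have hsub : ∀ i : ι, i.1 ⊆ O := by
    rintro ⟨_, x, hx, rfl⟩
    exact connectedComponentIn_subset _ _
  have heq : ∀ i : ι, ∀ w ∈ i.1, i.1 = connectedComponentIn O w := by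
    rintro ⟨_, x, hx, rfl⟩ w hw
    exact connectedComponentIn_eq hw
  have hcl : ∀ i : ι, ∀ w ∈ closure i.1, w ∈ O → w ∈ i.1 := by
    rintro ⟨_, x, hx, rfl⟩ w hw hwO
    exact mem_cc_of_mem_closure hw hwO
  have hext : ∀ i j : ι, ∀ K, IsPreconnected K → K ⊆ O → (K ∩ i.1).Nonempty →
      (K ∩ j.1).Nonempty → i = j := by
    rintro i j K hK hKO ⟨a, haK, ha⟩ ⟨b, hbK, hb⟩
    refine Subtype.ext ?_
    rw [heq i a ha, heq j b hb]
    exact connectedComponentIn_eq (hK.subset_connectedComponentIn haK hKO hbK)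
  have hdis : Pairwise (Disjoint on fun i : ι => i.1) := by
    intro i j hij
    rw [Function.onFun, Set.disjoint_left]
    intro w h1 h2
    exact hij (hext i j {w} isPreconnected_singleton (singleton_subset_iff.2 (hsub i h1))
      ⟨w, rfl, h1⟩ ⟨w, rfl, h2⟩)
  have hside : ∀ c ∈ C, ∀ U V : Set E, IsOpen U → IsOpen V → Disjoint U V → U ∪ V = {c}ᶜ →
      IsConnected U → ∃ K, IsPreconnected K ∧ K ⊆ O ∧ c ∈ closure K ∧
        ∀ i : ι, c ∈ closure i.1 → i.1 ⊆ U → (K ∩ i.1).Nonempty := by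
    intro c hc U V hU hV hUV huv hUc
    obtain ⟨M, hM, hcM, hMc, H⟩ := exists_local_nbhd hF (hC c hc).1 (hl c (hC c hc).1)
    refine ⟨M ∩ U, pre_inter hMc hUc.isPreconnected, ?_,
      hM.inter_closure ⟨hcM, mem_closure_side hU hV hUV huv hUc.nonempty⟩, fun i hi hiU => ?_⟩
    · rintro w ⟨hwM, hwU⟩ (h | h)
      · exact (H w hwM).1 h
      · have : w ∈ U ∪ V := Or.inl hwU
        rw [huv] at this
        exact this ((H w hwM).2 h)
    · obtain ⟨w, hwM, hw⟩ := mem_closure_iff.1 hi M hM hcM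
      exact ⟨w, ⟨hwM, hiU hw⟩, hw⟩
  refine ⟨{ ι := ι
            cnt := hdis.countable_of_isOpen_disjoint hopen fun i => (hconn i).nonempty
            Φ := fun i => closure i.1
            C := C
            sd := fun i => sd_of_conn isClosed_closure (hconn i).closure
            cover := ?_
            CF := fun c hc => ⟨(hC c hc).1, (hC c hc).2.1⟩
            locfin := hl
            uniq := ?_
            two := ?_
            nc := ?_
            null := (null_of_disjoint (fun i => (hconn i).isPreconnected) hdis).closure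
            dense := ?_ }, rfl, hO, ?_⟩
  · intro x hx
    by_cases hxC : x ∈ C
    · obtain ⟨U, V, hU, hV, hUV, huv, hUc, -⟩ := (hC x hxC).2.2
      obtain ⟨K, hK, hKO, hxK, -⟩ := hside x hxC U V hU hV hUV huv hUc
      obtain ⟨w, hw⟩ : K.Nonempty := closure_nonempty_iff.1 ⟨x, hxK⟩
      exact ⟨⟨connectedComponentIn O w, w, hKO hw, rfl⟩,
        closure_mono (hK.subset_connectedComponentIn hw hKO) hxK⟩
    · have hxO : x ∈ O := fun h => h.elim hx hxC
      exact ⟨⟨connectedComponentIn O x, x, hxO, rfl⟩, subset_closure (mem_connectedComponentIn hxO)⟩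
  · intro x hx hxC i j hi hj
    have hxO : x ∈ O := fun h => h.elim hx hxC
    exact hext i j {x} isPreconnected_singleton (singleton_subset_iff.2 hxO)
      ⟨x, rfl, hcl i x hi hxO⟩ ⟨x, rfl, hcl j x hj hxO⟩
  · intro c hc i j l hi hj hl'
    obtain ⟨U, V, hU, hV, hUV, huv, hUc, hVc⟩ := (hC c hc).2.2
    obtain ⟨K, hK, hKO, -, H⟩ := hside c hc U V hU hV hUV huv hUc
    obtain ⟨K', hK', hKO', -, H'⟩ := hside c hc V U hV hU hUV.symm (by rwa [union_comm]) hVc
    have hor : ∀ i : ι, i.1 ⊆ U ∨ i.1 ⊆ V := fun i =>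
      (hconn i).isPreconnected.subset_or_subset hU hV hUV (by
        rw [huv]
        rintro w hw rfl
        exact hsub i hw (Or.inr hc))
    have e1 : ∀ i j : ι, c ∈ closure i.1 → c ∈ closure j.1 → i.1 ⊆ U → j.1 ⊆ U → i = j :=
      fun i j hi hj h1 h2 => hext i j K hK hKO (H i hi h1) (H j hj h2)
    have e2 : ∀ i j : ι, c ∈ closure i.1 → c ∈ closure j.1 → i.1 ⊆ V → j.1 ⊆ V → i = j :=
      fun i j hi hj h1 h2 => hext i j K' hK' hKO' (H' i hi h1) (H' j hj h2)
    rcases hor i with a | a <;> rcases hor j with b | b <;> rcases hor l with d | d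
    · exact Or.inl (e1 _ _ hi hj a b)
    · exact Or.inl (e1 _ _ hi hj a b)
    · exact Or.inr (Or.inr (e1 _ _ hi hl' a d))
    · exact Or.inr (Or.inl (e2 _ _ hj hl' b d))
    · exact Or.inr (Or.inl (e1 _ _ hj hl' b d))
    · exact Or.inr (Or.inr (e2 _ _ hi hl' a d))
    · exact Or.inl (e2 _ _ hi hj a b)
    · exact Or.inl (e2 _ _ hi hj a b)
  · intro c hc i _
    refine (hconn i).isPreconnected.subset_closure (fun w hw => ⟨subset_closure hw, ?_⟩)
      sdiff_subset
    rintro rfl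
    exact hsub i hw (Or.inr hc)
  · intro i
    exact closure_mono fun w hw => ⟨subset_closure hw, fun h => hsub i hw (Or.inl h)⟩
  · rintro ⟨_, x, hx, rfl⟩
    exact ⟨x, hx, rfl⟩

theorem exists_chop {Av : Set E} (hAv : Av.Countable) {ε : ℝ} (hε : 0 < ε) :
    ∃ P : Pieces (∅ : Set E) Av, Finite P.ι ∧ P.C.Finite ∧ ∀ i, Small (P.Φ i) ε := by
  classical
  obtain ⟨C, hC, hC', H⟩ := exists_fin_cut (E := E) (half_pos hε) hAv
  obtain ⟨P, hPC, hO, hP⟩ := exists_pieces (F := ∅) (Av := Av) (C := C) isClosed_empty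
    (fun c hc => ⟨id, hC' c hc⟩) (fun x _ => ⟨univ, univ_mem, by simpa⟩)
  refine ⟨P, ?_, hPC ▸ hC, fun i => ?_⟩
  · rw [← finite_univ_iff]
    have h1 : ∀ c ∈ C, {i | c ∈ P.Φ i}.Finite := by
      intro c hc
      by_contra hinf
      obtain ⟨t, ht, hcard⟩ := Set.Infinite.exists_subset_card_eq hinf 3
      obtain ⟨i, j, l, hij, hil, hjl, rfl⟩ := Finset.card_eq_three.1 hcard
      rcases P.two c (hPC ▸ hc) i j l (ht (by simp)) (ht (by simp)) (ht (by simp)) with h | h | h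
      exacts [hij h, hjl h, hil h]
    have h2 : {i | Disjoint (P.Φ i) C}.Subsingleton := by
      have : ∀ i, Disjoint (P.Φ i) C → P.Φ i = univ := by
        intro i hi
        obtain ⟨x, hx, e⟩ := hP i
        have : P.Φ i = connectedComponentIn (∅ ∪ C)ᶜ x := by
          refine Subset.antisymm (fun w hw => ?_) (e ▸ subset_closure)
          exact mem_cc_of_mem_closure (e ▸ hw) fun h => h.elim id (Set.disjoint_left.1 hi hw)
        exact IsClopen.eq_univ ⟨(P.sd i).closed, this ▸ hO.connectedComponentIn⟩ (P.sd i).nonempty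
      intro i hi j hj
      obtain ⟨x, hx⟩ := (P.sd i).nonempty
      exact P.uniq x id (hPC ▸ Set.disjoint_left.1 hi hx) i j hx (this j hj ▸ mem_univ x)
    refine ((hC.biUnion h1).union h2.finite).subset fun i _ => ?_
    by_cases h : Disjoint (P.Φ i) C
    · exact Or.inr h
    · obtain ⟨c, h1, h2⟩ := not_disjoint_iff.1 h
      exact Or.inl (mem_biUnion h2 h1)
  · obtain ⟨x, hx, e⟩ := hP i
    rw [e]
    refine Small.closure (ε := ε / 2) (fun a ha b hb => ?_) (by linarith)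
    by_contra hcon
    obtain ⟨c, hc, hs⟩ := H a b (not_lt.1 hcon)
    exact connectedComponentIn_subset _ _ (hs.mem isPreconnected_connectedComponentIn
      (subset_univ _) ha hb).1 (Or.inr hc)

theorem exists_fingers {F Av : Set E} (hF : IsClosed F) (hne : F.Nonempty) (hAv : Av.Countable) :
    ∃ P : Pieces F Av, ∀ i, ∃ r, P.Φ i ∩ F = {r} := by
  classical
  let Inv : Set E → Prop := fun S => ∀ x ∈ Sᶜ, (connectedComponentIn Sᶜ x ∩ F).Nonempty
  let 𝓕 : Set (Set E) := {S | (∀ c ∈ S, c ∉ F ∧ c ∉ Av ∧ Ord2 c) ∧ ∀ S0 ⊆ S, S0.Finite → Inv S0}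
  have hInv0 : Inv ∅ := fun x _ => by
    rw [compl_empty, connectedComponentIn_univ, PreconnectedSpace.connectedComponent_eq_univ,
      univ_inter]
    exact hne
  obtain ⟨C, hC⟩ := zorn_subset 𝓕 (fun c hc hch => by
    refine ⟨⋃₀ c, ⟨fun x ⟨S, hS, hx⟩ => (hc hS).1 x hx, fun S0 hS0 hfin => ?_⟩,
      fun s hs => subset_sUnion_of_mem hs⟩
    rcases c.eq_empty_or_nonempty with rfl | hcne
    · obtain rfl : S0 = ∅ := by simpa using hS0
      exact hInv0
    · obtain ⟨S, hS, h⟩ := hch.directedOn.exists_mem_subset_of_finite_of_subset_sUnion hcne hfin hS0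
      exact (hc hS).2 S0 h hfin)
  obtain ⟨ρ, hρ⟩ := hne
  have hl : ∀ x, x ∉ F → ∃ W ∈ 𝓝 x, (W ∩ C).Finite := by
    intro p hp
    obtain ⟨N, hN, hpN, -, hNF, hfin⟩ := exists_nbhd (hF.isOpen_compl.mem_nhds hp)
    refine ⟨N, hN.mem_nhds hpN, ?_⟩
    by_contra hinf
    obtain ⟨t, ht, hcard⟩ := Set.Infinite.exists_subset_card_eq hinf (hfin.toFinset.card + 1)
    have hI : Inv t := hC.1.2 t (ht.trans inter_subset_right) t.finite_toSet
    have h1 : ∀ c ∈ t, ∃ (b : E) (D V : Set E), b ∈ frontier N ∧ IsOpen D ∧ IsOpen V ∧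
        Disjoint D V ∧ D ∪ V = {c}ᶜ ∧ IsConnected V ∧ ρ ∈ V ∧
        connectedComponentIn (t : Set E)ᶜ b ⊆ D ∧
        c ∈ closure (connectedComponentIn (t : Set E)ᶜ b) := by
      intro c hc
      obtain ⟨hcF, -, hc2⟩ := hC.1.1 c (ht hc).2
      obtain ⟨D, V, hD, hV, hDV, hdv, hDc, hVc, hρV⟩ := hc2.side (ρ := ρ) fun e => hcF (e ▸ hρ)
      obtain ⟨M, hM, hcM, hMc, H⟩ := exists_local_nbhd (F := Nᶜ) (C := t) hN.isClosed_compl
        (c := c) (fun h => h (ht hc).1) ⟨univ, univ_mem, by simp⟩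
      have hcl : c ∈ closure (M ∩ D) :=
        hM.inter_closure ⟨hcM, mem_closure_side hD hV hDV hdv hDc.nonempty⟩
      obtain ⟨w, hw⟩ : (M ∩ D).Nonempty := closure_nonempty_iff.1 ⟨c, hcl⟩
      have hMD : M ∩ D ⊆ (t : Set E)ᶜ := fun u hu h => by
        have : u ∈ D ∪ V := Or.inl hu.2
        rw [hdv] at this
        exact this ((H u hu.1).2 h)
      have hsub := (pre_inter hMc hDc.isPreconnected).subset_connectedComponentIn hw hMD
      obtain ⟨f, hf, hfF⟩ := hI w (hMD hw)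
      have hb : (connectedComponentIn (t : Set E)ᶜ w ∩ frontier N).Nonempty := by
        by_contra hcon
        have := isPreconnected_connectedComponentIn.subset_of_closure_inter_subset hN
          ⟨w, mem_connectedComponentIn (hMD hw), not_not.1 (H w hw.1).1⟩ (fun u hu => by
            by_contra hu'
            exact hcon ⟨u, hu.2, hN.frontier_eq ▸ ⟨hu.1, hu'⟩⟩)
        exact hNF (subset_closure (this hf)) hfF
      obtain ⟨b, hb1, hb2⟩ := hb
      refine ⟨b, D, V, hb2, hD, hV, hDV, hdv, hVc, hρV, ?_, ?_⟩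
      · rw [← connectedComponentIn_eq hb1]
        refine isPreconnected_connectedComponentIn.subset_left_of_subset_union hD hV hDV ?_
          ⟨w, mem_connectedComponentIn (hMD hw), hw.2⟩
        rw [hdv]
        rintro u hu rfl
        exact connectedComponentIn_subset _ _ hu hc
      · rw [← connectedComponentIn_eq hb1]
        exact closure_mono hsub hcl
    choose! b D V hb hD hV hDV hdv hVc hρV hsub hcl using h1
    obtain ⟨c, hc, c', hc', hne, he⟩ := Finset.exists_ne_map_eq_of_card_lt_of_maps_to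
      (s := t) (t := hfin.toFinset) (f := b) (by omega) (fun c hc => by simpa using hb c hc)
    have key : ∀ c ∈ t, ∀ c' ∈ t, c ≠ c' → b c = b c' → c' ∈ D c := by
      intro c hc c' hc' hne he
      have h1 : c' ∈ closure (D c) := closure_mono (hsub c hc) (he ▸ hcl c' hc')
      have h2 : c' ∈ D c ∪ V c := by rw [hdv c hc]; exact hne.symm
      exact h2.resolve_right fun h => Set.disjoint_left.1 ((hDV c hc).closure_left (hV c hc)) h1 h
    have h1 := key c hc c' hc' hne he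
    have h2 := key c' hc' c hc hne.symm he.symm
    have hpre : IsPreconnected (insert c (V c)) :=
      (hVc c hc).isPreconnected.subset_closure (subset_insert _ _) (insert_subset
        (mem_closure_side (hV c hc) (hD c hc) (hDV c hc).symm (by rw [union_comm, hdv c hc])
          (hVc c hc).nonempty) subset_closure)
    have := hpre.subset_left_of_subset_union (hD c' hc') (hV c' hc') (hDV c' hc') (by
      rw [hdv c' hc']
      rintro u (rfl | hu) e
      · exact hne e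
      · exact Set.disjoint_left.1 (hDV c hc) h1 (mem_singleton_iff.1 e ▸ hu)) ⟨c, mem_insert _ _, h2⟩
    exact Set.disjoint_left.1 (hDV c' hc') (this (Or.inr (hρV c hc))) (hρV c' hc')
  obtain ⟨P, hPC, hO, hP⟩ := exists_pieces hF hC.1.1 hl
  refine ⟨P, fun i => ?_⟩
  obtain ⟨x, hx, e⟩ := hP i
  set Ω := connectedComponentIn (F ∪ C)ᶜ x with hΩ
  have hΩs : Ω ⊆ (F ∪ C)ᶜ := connectedComponentIn_subset _ _
  have hex : (closure Ω ∩ F).Nonempty := by
    by_contra hcon
    have hF' : ∀ w ∈ closure Ω, w ∉ F := fun w hw h => hcon ⟨w, hw, h⟩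
    have hfin : (closure Ω ∩ C).Finite := by
      choose! W hW1 hW2 using hl
      obtain ⟨t, ht1, ht2⟩ := isClosed_closure.isCompact.elim_nhds_subcover W
        fun w hw => hW1 w (hF' w hw)
      refine (t.finite_toSet.biUnion fun w hw => hW2 w (hF' w (ht1 w hw))).subset ?_
      rintro u ⟨hu, huC⟩
      obtain ⟨w, hw, huw⟩ := mem_iUnion₂.1 (ht2 hu)
      exact mem_biUnion hw ⟨huw, huC⟩
    have hxS : x ∈ (closure Ω ∩ C)ᶜ := fun h => hx (Or.inr h.2)
    obtain ⟨f, hf, hfF⟩ := hC.1.2 _ inter_subset_right hfin x hxS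
    have := isPreconnected_connectedComponentIn.subset_of_closure_inter_subset
      (s := connectedComponentIn (closure Ω ∩ C)ᶜ x) (u := Ω) hO.connectedComponentIn
      ⟨x, mem_connectedComponentIn hxS, mem_connectedComponentIn hx⟩ (fun u hu =>
        mem_cc_of_mem_closure hu.1 fun h => h.elim (hF' u hu.1)
          fun h' => connectedComponentIn_subset _ _ hu.2 ⟨hu.1, h'⟩)
    exact hΩs (this hf) (Or.inl hfF)
  obtain ⟨r, hr⟩ := hex
  refine ⟨r, ?_⟩
  rw [e]
  refine eq_singleton_iff_unique_mem.2 ⟨hr, fun r' hr' => ?_⟩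
  by_contra hrr
  obtain ⟨c, hcA, hc2, hs⟩ := exists_cut hrr hAv
  have hpre : IsPreconnected (insert r' (insert r Ω)) :=
    isPreconnected_connectedComponentIn.subset_closure
      ((subset_insert _ _).trans (subset_insert _ _))
      (insert_subset hr'.1 (insert_subset hr.1 subset_closure))
  obtain ⟨hc, hc1, hc3⟩ := hs.mem hpre (subset_univ _) (Or.inl rfl) (Or.inr (Or.inl rfl))
  have hcΩ : c ∈ Ω := (hc.resolve_left hc1).resolve_left hc3
  have hcF : c ∉ F := fun h => hΩs hcΩ (Or.inl h)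
  have hcC : c ∉ C := fun h => hΩs hcΩ (Or.inr h)
  obtain ⟨U, V, hU, hV, hUV, huv, hUc, hVc, hrV⟩ := hc2.side (ρ := r) (Ne.symm hc3)
  have hr'U : r' ∈ U := by
    have : r' ∈ U ∪ V := by rw [huv]; exact Ne.symm hc1
    refine this.resolve_right fun h => ?_
    have h' : c ∈ U ∪ V := Or.inr (hs.mem hVc.isPreconnected (subset_univ _) h hrV).1
    rw [huv] at h'
    exact h' rfl
  have hmem : insert c C ∈ 𝓕 := by
    refine ⟨?_, fun S0 hS0 hfin y hy => ?_⟩
    · rintro u (rfl | hu)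
      · exact ⟨hcF, hcA, hc2⟩
      · exact hC.1.1 u hu
    have hS1 : S0 \ {c} ⊆ C := fun u hu => (hS0 hu.1).resolve_left hu.2
    obtain ⟨f, hf, hfF⟩ := hC.1.2 _ hS1 (hfin.subset sdiff_subset) y fun h => hy h.1
    set Ω1 := connectedComponentIn (S0 \ {c})ᶜ y
    have hΩ1 : Ω1 ⊆ (S0 \ {c})ᶜ := connectedComponentIn_subset _ _
    have hy1 : y ∈ Ω1 := mem_connectedComponentIn fun h => hy h.1
    by_cases hcΩ1 : c ∈ Ω1 ∧ c ∈ S0
    · have hΩΩ : Ω ⊆ Ω1 := by
        have := connectedComponentIn_eq hcΩ1.1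
        simp only [Ω1]
        rw [this]
        exact isPreconnected_connectedComponentIn.subset_connectedComponentIn hcΩ
          fun u hu h => hΩs hu (Or.inr (hS1 h))
      have hrr : ∀ u ∈ closure Ω ∩ F, u ∈ Ω1 := fun u hu =>
        mem_cc_of_mem_closure (closure_mono hΩΩ hu.1) fun h => (hC.1.1 u (hS1 h)).1 hu.2
      have hside : ∀ W : Set E, IsPreconnected W → W ⊆ {c}ᶜ → y ∈ W →
          Ω1 ∩ W ⊆ connectedComponentIn S0ᶜ y := fun W hW hWc hyW =>
        (pre_inter isPreconnected_connectedComponentIn hW).subset_connectedComponentIn ⟨hy1, hyW⟩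
          fun u hu h => hΩ1 hu.1 ⟨h, hWc hu.2⟩
      have : y ∈ U ∪ V := by
        rw [huv]
        rintro rfl
        exact hy hcΩ1.2
      rcases this with h | h
      · exact ⟨r', hside U hUc.isPreconnected (huv ▸ subset_union_left) h ⟨hrr r' hr', hr'U⟩, hr'.2⟩
      · exact ⟨r, hside V hVc.isPreconnected (huv ▸ subset_union_right) h ⟨hrr r hr, hrV⟩, hr.2⟩
    · refine ⟨f, isPreconnected_connectedComponentIn.subset_connectedComponentIn (F := S0ᶜ) hy1
        (fun u hu h => ?_) hf, hfF⟩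
      by_cases huc : u = c
      · exact hcΩ1 ⟨huc ▸ hu, huc ▸ h⟩
      · exact hΩ1 hu ⟨h, huc⟩
  exact hcC (hC.2 hmem (subset_insert _ _) (mem_insert _ _))

end Pool.Agent.Lib.MP_32448b_gt
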