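import Pool.Agent.Lib.MP_32448b_gt.Arc

set_option autoImplicit false

open Set Metric Topology Filter Function

namespace Pool.Agent.Lib.MP_32448b_gt

section General
variable {X : Type*} [TopologicalSpace X]

theorem mem_cc_of_mem_closure {O : Set X} {x w : X}
    (hw : w ∈ closure (connectedComponentIn O x)) (hwO : w ∈ O) : w ∈ connectedComponentIn O x := by
  have hx : x ∈ O := by
    by_contra hx
    rw [connectedComponentIn_eq_empty hx] at hw
    simp at hw
  have h1 : IsPreconnected (insert w (connectedComponentIn O x)) :=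
    isPreconnected_connectedComponentIn.subset_closure (subset_insert _ _)
      (insert_subset hw subset_closure)
  exact h1.subset_connectedComponentIn (Or.inr (mem_connectedComponentIn hx))
    (insert_subset hwO (connectedComponentIn_subset _ _)) (mem_insert _ _)

theorem isClosed_insert_cc [T1Space X] (z x : X) :
    IsClosed (insert z (connectedComponentIn {z}ᶜ x)) := by
  rw [← closure_subset_iff_isClosed, insert_eq, closure_union, closure_singleton]
  rintro w (hw | hw)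
  · exact Or.inl hw
  · by_cases h : w = z
    · exact Or.inl h
    · exact Or.inr (mem_cc_of_mem_closure hw h)

theorem sep_of_not_mem_cc [T1Space X] [LocallyConnectedSpace X] {z x y : X} (hx : x ≠ z)
    (hy : y ≠ z) (h : y ∉ connectedComponentIn {z}ᶜ x) : Sep univ z x y := by
  refine ⟨insert z (connectedComponentIn {z}ᶜ x), (connectedComponentIn {z}ᶜ x)ᶜ,
    isClosed_insert_cc z x, isOpen_compl_singleton.connectedComponentIn.isClosed_compl,
    fun w _ => ?_, fun w _ h1 h2 => h1.resolve_right h2,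
    fun h' => h' (mem_connectedComponentIn hx), fun h' => h'.elim hy h⟩
  by_cases hw : w ∈ connectedComponentIn {z}ᶜ x
  · exact Or.inl (Or.inr hw)
  · exact Or.inr hw

theorem mem_closure_side [PreconnectedSpace X] {c : X} {U V : Set X} (hU : IsOpen U) (hV : IsOpen V)
    (hUV : Disjoint U V) (h : U ∪ V = {c}ᶜ) (hne : U.Nonempty) : c ∈ closure U := by
  by_contra hc
  have hcl : IsClosed U := by
    rw [← closure_subset_iff_isClosed]
    intro w hw
    have hwc : w ∈ U ∪ V := by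
      rw [h]
      rintro rfl
      exact hc hw
    exact hwc.resolve_right fun hwV =>
      Set.disjoint_left.1 (hUV.closure_left hV) hw hwV
  have := IsClopen.eq_univ ⟨hcl, hU⟩ hne
  exact hc (subset_closure (this ▸ mem_univ c))

/-- A point whose complement has exactly two components. -/
def Ord2 (c : X) : Prop :=
  ∃ U V : Set X, IsOpen U ∧ IsOpen V ∧ Disjoint U V ∧ U ∪ V = {c}ᶜ ∧ IsConnected U ∧ IsConnected V

theorem Ord2.side {c ρ : X} (h : Ord2 c) (hρ : ρ ≠ c) :
    ∃ U V : Set X, IsOpen U ∧ IsOpen V ∧ Disjoint U V ∧ U ∪ V = {c}ᶜ ∧ IsConnected U ∧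
      IsConnected V ∧ ρ ∈ V := by
  obtain ⟨U, V, hU, hV, hUV, h, hUc, hVc⟩ := h
  have : ρ ∈ U ∪ V := by rw [h]; exact hρ
  rcases this with h' | h'
  · exact ⟨V, U, hV, hU, hUV.symm, by rwa [union_comm], hVc, hUc, h'⟩
  · exact ⟨U, V, hU, hV, hUV, h, hUc, hVc, h'⟩

end General

/-- A metric space that is a dendrite in the separation sense. -/
class Dend (E : Type*) [MetricSpace E] : Prop where
  sd : SD (univ : Set E)

variable {E : Type*} [MetricSpace E]

theorem SD.dend {T : Set E} (h : SD T) : Dend T := ⟨h.univ_subtype⟩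

variable [Dend E]

instance (priority := 100) Dend.compactSpace : CompactSpace E := ⟨Dend.sd.compact⟩

instance (priority := 100) Dend.connectedSpace : ConnectedSpace E :=
  connectedSpace_iff_univ.2 Dend.sd.conn

theorem Dend.sep {x y : E} (h : x ≠ y) : ∃ z, Sep univ z x y :=
  Dend.sd.sep x (mem_univ _) y (mem_univ _) h

theorem sd_of_conn {K : Set E} (hc : IsClosed K) (hK : IsConnected K) : SD K :=
  Dend.sd.subset (subset_univ _) hc.isCompact hK

instance (priority := 100) Dend.locallyConnectedSpace : LocallyConnectedSpace E := by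
  rw [locallyConnectedSpace_iff_connected_subsets]
  intro x W hW
  obtain ⟨W', hW'W, hW', hxW'⟩ := _root_.mem_nhds_iff.1 hW
  have h1 : ∀ y : E, ∃ (P Q : Set E) (z : E), IsClosed P ∧ IsClosed Q ∧ univ ⊆ P ∪ Q ∧
      (∀ w, w ∈ P → w ∈ Q → w = z) ∧ x ∉ Q ∧ (y ∉ W' → y ∉ P) := by
    intro y
    by_cases hy : y ∈ W'
    · exact ⟨univ, ∅, x, isClosed_univ, isClosed_empty, by simp, by simp, by simp, by simp [hy]⟩
    · obtain ⟨z, P, Q, hP, hQ, hPQ, hz, hx, hy'⟩ := Dend.sep (x := x) (y := y)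
        (fun e => hy (e ▸ hxW'))
      exact ⟨P, Q, z, hP, hQ, hPQ, fun w => hz w (mem_univ _), hx, fun _ => hy'⟩
  choose P Q z hP hQ hPQ hz hx hy using h1
  obtain ⟨t, -, ht⟩ := hW'.isClosed_compl.isCompact.elim_nhds_subcover (fun y => (P y)ᶜ)
    (fun y hy' => (hP y).isOpen_compl.mem_nhds (hy y hy'))
  refine ⟨⋂ y ∈ t, P y, ?_, ?_, ?_⟩
  · rw [biInter_finset_mem]
    intro y _
    filter_upwards [(hQ y).isOpen_compl.mem_nhds (hx y)] with w hw
    exact (hPQ y (mem_univ w)).resolve_right hw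
  · clear ht
    classical
    induction t using Finset.induction_on with
    | empty => simpa using isPreconnected_univ
    | insert a s _ ih =>
      rw [Finset.set_biInter_insert, inter_comm]
      exact pre_inter_side ih (hP a) (hQ a) ((subset_univ _).trans (hPQ a))
        (fun w _ => hz a w)
  · intro w hw
    by_contra hwW
    obtain ⟨y, hy1, hy2⟩ := mem_iUnion₂.1 (ht (show w ∈ W'ᶜ from fun h => hwW (hW'W h)))
    exact hy2 (mem_iInter₂.1 hw y hy1)

instance (priority := 100) Dend.locallyPathConnectedSpace : LocallyPathConnectedSpace E :=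
  lpc_of_peano

theorem exists_isArc {x y : E} (h : x ≠ y) : ∃ α : ℝ → E, IsArc α x y := by
  have : PathConnectedSpace E := PathConnectedSpace.of_locallyPathConnectedSpace
  obtain ⟨α, hα, -⟩ := exists_arc (joinedIn_univ.2 (PathConnectedSpace.joined x y)) h
  exact ⟨α, hα⟩

omit [Dend E] in
theorem IsArc.pre {α : ℝ → E} {x y : E} (hα : IsArc α x y) (a b : ℝ) :
    IsPreconnected (α '' Icc a b) :=
  isPreconnected_Icc.image α hα.cont.continuousOn

theorem IsArc.sep {α : ℝ → E} {x y : E} (hα : IsArc α x y) {t : ℝ} (ht : t ∈ Ioo (0 : ℝ) 1) :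
    Sep univ (α t) x y := by
  have hI : t ∈ Icc (0 : ℝ) 1 := Ioo_subset_Icc_self ht
  have hx : x ≠ α t := fun e => ht.1.ne (hα.inj (by simp) hI (hα.zero.trans e))
  have hy : y ≠ α t := fun e => ht.2.ne' (hα.inj (by simp) hI (hα.one.trans e))
  refine sep_of_not_mem_cc hx hy fun hcon => ?_
  have hO : IsOpen (connectedComponentIn {α t}ᶜ x) := isOpen_compl_singleton.connectedComponentIn
  have hp := hO.isConnected_iff_isPathConnected.1 (isConnected_connectedComponentIn_iff.2 hx)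
  obtain ⟨γ, hγ⟩ := hp.joinedIn x (mem_connectedComponentIn hx) y hcon
  have hK : IsClosed (range γ) := (isCompact_range γ.continuous).isClosed
  have htK : α t ∉ range γ := by
    rintro ⟨u, hu⟩
    exact connectedComponentIn_subset _ _ (hγ u) hu
  have hN : α ⁻¹' (range γ)ᶜ ∩ Ioo 0 1 ∈ 𝓝 t :=
    inter_mem (hα.cont.continuousAt.preimage_mem_nhds (hK.isOpen_compl.mem_nhds htK))
      (isOpen_Ioo.mem_nhds ht)
  obtain ⟨a, b, ⟨hat, htb⟩, hab⟩ := mem_nhds_iff_exists_Ioo_subset.1 hN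
  set a' := (a + t) / 2
  set b' := (t + b) / 2
  have hsub : Icc a' b' ⊆ Ioo a b := Icc_subset_Ioo (by simp only [a']; linarith)
    (by simp only [b']; linarith)
  have hab' : a' < b' := by simp only [a', b']; linarith
  have ha' := (hab (hsub ⟨le_rfl, hab'.le⟩)).2
  have hb' := (hab (hsub ⟨hab'.le, le_rfl⟩)).2
  obtain ⟨w, hw⟩ := Dend.sep (x := α a') (y := α b') fun e =>
    hab'.ne (hα.inj (Ioo_subset_Icc_self ha') (Ioo_subset_Icc_self hb') e)
  obtain ⟨⟨u, hu, rfl⟩, hua, hub⟩ := hw.mem (hα.pre a' b') (subset_univ _)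
    ⟨a', ⟨le_rfl, hab'.le⟩, rfl⟩ ⟨b', ⟨hab'.le, le_rfl⟩, rfl⟩
  have huI : u ∈ Icc (0 : ℝ) 1 := Ioo_subset_Icc_self (hab (hsub hu)).2
  have hpre : IsPreconnected ((α '' Icc 0 a' ∪ range γ) ∪ α '' Icc b' 1) := by
    refine IsPreconnected.union y (Or.inr ⟨1, γ.target⟩) ⟨1, ⟨hb'.2.le, le_rfl⟩, hα.one⟩ ?_
      (hα.pre _ _)
    exact IsPreconnected.union x ⟨0, ⟨le_rfl, ha'.1.le⟩, hα.zero⟩ ⟨0, γ.source⟩ (hα.pre _ _)
      (isPreconnected_range γ.continuous)
  obtain ⟨h, -, -⟩ := hw.mem hpre (subset_univ _) (Or.inl (Or.inl ⟨a', ⟨ha'.1.le, le_rfl⟩, rfl⟩))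
    (Or.inr ⟨b', ⟨le_rfl, hb'.2.le⟩, rfl⟩)
  rcases h with (⟨v, hv, hvu⟩ | h) | ⟨v, hv, hvu⟩
  · obtain rfl := hα.inj ⟨hv.1, hv.2.trans ha'.2.le⟩ huI hvu
    exact hua (by rw [le_antisymm hv.2 hu.1])
  · exact (hab (hsub hu)).1 h
  · obtain rfl := hα.inj ⟨hb'.1.le.trans hv.1, hv.2⟩ huI hvu
    exact hub (by rw [le_antisymm hu.2 hv.1])

theorem IsArc.subset {α : ℝ → E} {x y : E} (hα : IsArc α x y) {K : Set E} (hK : IsPreconnected K)
    (hx : x ∈ K) (hy : y ∈ K) : α '' Icc 0 1 ⊆ K := by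
  rintro _ ⟨t, ht, rfl⟩
  rcases ht.1.eq_or_lt with rfl | h0
  · rwa [hα.zero]
  rcases ht.2.eq_or_lt with rfl | h1
  · rwa [hα.one]
  exact ((hα.sep ⟨h0, h1⟩).mem hK (subset_univ _) hx hy).1

theorem pre_of_arcs {A : Set E}
    (h : ∀ x ∈ A, ∀ y ∈ A, ∀ α : ℝ → E, IsArc α x y → α '' Icc 0 1 ⊆ A) : IsPreconnected A := by
  refine isPreconnected_of_forall_pair fun x hx y hy => ?_
  by_cases hxy : x = y
  · exact ⟨{x}, by simpa, rfl, hxy.symm, isPreconnected_singleton⟩
  obtain ⟨α, hα⟩ := exists_isArc hxy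
  exact ⟨_, h x hx y hy α hα, ⟨0, by simp, hα.zero⟩, ⟨1, by simp, hα.one⟩, hα.pre _ _⟩

theorem pre_inter {A B : Set E} (hA : IsPreconnected A) (hB : IsPreconnected B) :
    IsPreconnected (A ∩ B) :=
  pre_of_arcs fun _ hx _ hy _ hα => subset_inter (hα.subset hA hx.1 hy.1) (hα.subset hB hx.2 hy.2)

theorem pre_iInter {ι : Sort*} {A : ι → Set E} (hA : ∀ i, IsPreconnected (A i)) :
    IsPreconnected (⋂ i, A i) :=
  pre_of_arcs fun _ hx _ hy _ hα => subset_iInter fun i =>
    hα.subset (hA i) (mem_iInter.1 hx i) (mem_iInter.1 hy i)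

theorem IsArc.countable_not_ord2 {α : ℝ → E} {x y : E} (hα : IsArc α x y) :
    {t ∈ Ioo (0 : ℝ) 1 | ¬ Ord2 (α t)}.Countable := by
  have h1 : ∀ t ∈ {t ∈ Ioo (0 : ℝ) 1 | ¬ Ord2 (α t)}, ∃ w, w ≠ α t ∧
      Disjoint (connectedComponentIn {α t}ᶜ w) (α '' Icc 0 1) := by
    rintro t ⟨ht, hno⟩
    have hI : t ∈ Icc (0 : ℝ) 1 := Ioo_subset_Icc_self ht
    have hx : x ≠ α t := fun e => ht.1.ne (hα.inj (by simp) hI (hα.zero.trans e))
    have hy : y ≠ α t := fun e => ht.2.ne' (hα.inj (by simp) hI (hα.one.trans e))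
    by_contra hcon
    push Not at hcon
    refine hno ⟨connectedComponentIn {α t}ᶜ x, connectedComponentIn {α t}ᶜ y,
      isOpen_compl_singleton.connectedComponentIn, isOpen_compl_singleton.connectedComponentIn,
      ?_, ?_, isConnected_connectedComponentIn_iff.2 hx, isConnected_connectedComponentIn_iff.2 hy⟩
    · rw [Set.disjoint_left]
      intro w h1 h2
      have : y ∈ connectedComponentIn {α t}ᶜ x := by
        rw [connectedComponentIn_eq h1, ← connectedComponentIn_eq h2]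
        exact mem_connectedComponentIn hy
      exact connectedComponentIn_subset _ _ ((hα.sep ht).mem isPreconnected_connectedComponentIn
        (subset_univ _) (mem_connectedComponentIn hx) this).1 rfl
    · refine (union_subset (connectedComponentIn_subset _ _)
        (connectedComponentIn_subset _ _)).antisymm fun w hw => ?_
      obtain ⟨_, h1, u, hu, rfl⟩ := not_disjoint_iff.1 (hcon w hw)
      have hw' : w ∈ connectedComponentIn {α t}ᶜ (α u) := by
        rw [← connectedComponentIn_eq h1]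
        exact mem_connectedComponentIn hw
      have hut : u ≠ t := fun e => connectedComponentIn_subset _ _ h1 (by simp [e])
      rcases lt_or_gt_of_ne hut with h | h
      · left
        have : α '' Icc 0 u ⊆ connectedComponentIn {α t}ᶜ x :=
          (hα.pre 0 u).subset_connectedComponentIn ⟨0, ⟨le_rfl, hu.1⟩, hα.zero⟩ (by
            rintro _ ⟨v, hv, rfl⟩ e
            have := hα.inj ⟨hv.1, hv.2.trans hu.2⟩ hI e
            linarith [hv.2])
        rwa [connectedComponentIn_eq (this ⟨u, ⟨hu.1, le_rfl⟩, rfl⟩)]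
      · right
        have : α '' Icc u 1 ⊆ connectedComponentIn {α t}ᶜ y :=
          (hα.pre u 1).subset_connectedComponentIn ⟨1, ⟨hu.2, le_rfl⟩, hα.one⟩ (by
            rintro _ ⟨v, hv, rfl⟩ e
            have := hα.inj ⟨hu.1.trans hv.1, hv.2⟩ hI e
            linarith [hv.1])
        rwa [connectedComponentIn_eq (this ⟨u, ⟨le_rfl, hu.2⟩, rfl⟩)]
  choose! w hw1 hw2 using h1
  refine Set.PairwiseDisjoint.countable_of_isOpen
    (s := fun t => connectedComponentIn {α t}ᶜ (w t)) ?_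
    (fun _ _ => isOpen_compl_singleton.connectedComponentIn)
    (fun t ht => ⟨w t, mem_connectedComponentIn (hw1 t ht)⟩)
  intro t ht s hs hts
  rw [Function.onFun, Set.disjoint_left]
  intro v h1 h2
  have htI : t ∈ Icc (0 : ℝ) 1 := Ioo_subset_Icc_self ht.1
  have hsI : s ∈ Icc (0 : ℝ) 1 := Ioo_subset_Icc_self hs.1
  have key : ∀ t ∈ {t ∈ Ioo (0 : ℝ) 1 | ¬ Ord2 (α t)}, ∀ s ∈ {t ∈ Ioo (0 : ℝ) 1 | ¬ Ord2 (α t)},
      v ∈ connectedComponentIn {α t}ᶜ (w t) → v ∈ connectedComponentIn {α s}ᶜ (w s) →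
      connectedComponentIn {α t}ᶜ (w t) ⊆ connectedComponentIn {α s}ᶜ (w s) := by
    intro t ht s hs h1 h2
    rw [connectedComponentIn_eq h2]
    refine isPreconnected_connectedComponentIn.subset_connectedComponentIn h1 ?_
    rintro u hu rfl
    exact Set.disjoint_left.1 (hw2 t ht) hu ⟨s, Ioo_subset_Icc_self hs.1, rfl⟩
  have heq := (key t ht s hs h1 h2).antisymm (key s hs t ht h2 h1)
  have hcl : IsClosed (connectedComponentIn {α t}ᶜ (w t)) := by
    rw [← closure_subset_iff_isClosed]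
    intro u hu
    by_cases hut : u = α t
    · rw [heq] at hu ⊢
      refine mem_cc_of_mem_closure hu fun e => hts (hα.inj htI hsI (hut.symm.trans e))
    · exact mem_cc_of_mem_closure hu hut
  have := IsClopen.eq_univ ⟨hcl, isOpen_compl_singleton.connectedComponentIn⟩ ⟨v, h1⟩
  exact connectedComponentIn_subset {α t}ᶜ (w t) (this ▸ mem_univ (α t)) rfl

theorem IsArc.exists_adm {α : ℝ → E} {x y : E} (hα : IsArc α x y) {Av : Set E}
    (hAv : Av.Countable) {a b : ℝ} (ha : 0 ≤ a) (hab : a < b) (hb : b ≤ 1) :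
    ∃ t ∈ Ioo a b, α t ∉ Av ∧ Ord2 (α t) := by
  by_contra hcon
  push Not at hcon
  have h1 : (Icc (0 : ℝ) 1 ∩ α ⁻¹' Av).Countable :=
    MapsTo.countable_of_injOn (f := α) (fun _ h => h.2) (hα.inj.mono inter_subset_left) hAv
  have h2 : (Ioo a b).Countable := by
    refine (h1.union hα.countable_not_ord2).mono fun t ht => ?_
    by_cases h : α t ∈ Av
    · exact Or.inl ⟨⟨by linarith [ht.1], by linarith [ht.2]⟩, h⟩
    · exact Or.inr ⟨⟨by linarith [ht.1], by linarith [ht.2]⟩, hcon t ht h⟩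
  exact absurd (Cardinal.Real.Ioo_countable_iff.1 h2) (not_le.2 hab)

theorem exists_cut {x y : E} (hxy : x ≠ y) {Av : Set E} (hAv : Av.Countable) :
    ∃ c, c ∉ Av ∧ Ord2 c ∧ Sep univ c x y := by
  obtain ⟨α, hα⟩ := exists_isArc hxy
  obtain ⟨t, ht, h1, h2⟩ := hα.exists_adm hAv le_rfl one_pos le_rfl
  exact ⟨α t, h1, h2, hα.sep ht⟩

theorem exists_fin_cut {ε : ℝ} (hε : 0 < ε) {Av : Set E} (hAv : Av.Countable) :
    ∃ C : Set E, C.Finite ∧ (∀ c ∈ C, c ∉ Av ∧ Ord2 c) ∧
      ∀ x y, ε ≤ dist x y → ∃ c ∈ C, Sep univ c x y := by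
  have h1 : ∀ p : E × E, ∃ (c : E) (N : Set (E × E)), ε ≤ dist p.1 p.2 →
      c ∉ Av ∧ Ord2 c ∧ N ∈ 𝓝 p ∧ ∀ q ∈ N, Sep univ c q.1 q.2 := by
    rintro ⟨x, y⟩
    by_cases h : ε ≤ dist x y
    · obtain ⟨c, h1, h2, P, Q, hP, hQ, hPQ, hz, hx, hy⟩ := exists_cut (x := x) (y := y)
        (dist_pos.1 (hε.trans_le h)) hAv
      exact ⟨c, Qᶜ ×ˢ Pᶜ, fun _ => ⟨h1, h2, prod_mem_nhds (hQ.isOpen_compl.mem_nhds hx)
        (hP.isOpen_compl.mem_nhds hy), fun q hq => ⟨P, Q, hP, hQ, hPQ, hz, hq.1, hq.2⟩⟩⟩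
    · exact ⟨x, ∅, fun h' => absurd h' h⟩
  choose c N H using h1
  obtain ⟨t, ht1, ht2⟩ := (isClosed_le continuous_const continuous_dist :
    IsClosed {p : E × E | ε ≤ dist p.1 p.2}).isCompact.elim_nhds_subcover N
    (fun p hp => (H p hp).2.2.1)
  refine ⟨c '' t, t.finite_toSet.image c, ?_, fun x y hxy => ?_⟩
  · rintro _ ⟨p, hp, rfl⟩
    exact ⟨(H p (ht1 p hp)).1, (H p (ht1 p hp)).2.1⟩
  · obtain ⟨p, hp, hq⟩ := mem_iUnion₂.1 (ht2 (show (x, y) ∈ {p : E × E | ε ≤ dist p.1 p.2} from hxy))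
    exact ⟨c p, ⟨p, hp, rfl⟩, (H p (ht1 p hp)).2.2.2 _ hq⟩

theorem null_of_disjoint {ι : Type*} {S : ι → Set E} (hS : ∀ i, IsPreconnected (S i))
    (hd : Pairwise (Disjoint on S)) : Null S := by
  intro ε hε
  obtain ⟨C, hC, -, H⟩ := exists_fin_cut (E := E) hε countable_empty
  have h1 : ∀ i ∈ {i | ¬ Small (S i) ε}, ∃ c ∈ C, c ∈ S i := by
    intro i hi
    simp only [Small, mem_ofPred_eq] at hi
    push Not at hi
    obtain ⟨x, hx, y, hy, hxy⟩ := hi
    obtain ⟨c, hc, hs⟩ := H x y hxy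
    exact ⟨c, hc, (hs.mem (hS i) (subset_univ _) hx hy).1⟩
  rcases isEmpty_or_nonempty ι with hι | hι
  · exact toFinite _
  have : Nonempty E := inferInstance
  choose! c hc1 hc2 using h1
  refine Finite.of_injOn (f := c) hc1 (fun i hi j hj hij => ?_) hC
  by_contra hne
  exact Set.disjoint_left.1 (hd hne) (hc2 i hi) (hij ▸ hc2 j hj)

theorem frontier_cc_subset {X : Type*} [TopologicalSpace X] [LocallyConnectedSpace X] {O : Set X}
    (hO : IsOpen O) (x : X) : frontier (connectedComponentIn O x) ⊆ Oᶜ := by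
  intro w hw hwO
  rw [hO.connectedComponentIn.frontier_eq] at hw
  exact hw.2 (mem_cc_of_mem_closure hw.1 hwO)

theorem exists_nbhd {x : E} {W : Set E} (hW : W ∈ 𝓝 x) :
    ∃ N : Set E, IsOpen N ∧ x ∈ N ∧ IsPreconnected N ∧ closure N ⊆ W ∧ (frontier N).Finite := by
  obtain ⟨ε, hε, hb⟩ := Metric.mem_nhds_iff.1 hW
  obtain ⟨C, hC, hC', H⟩ := exists_fin_cut (E := E) (half_pos hε) (countable_singleton x)
  have hx : x ∈ Cᶜ := fun h => (hC' x h).1 rfl
  refine ⟨connectedComponentIn Cᶜ x, hC.isClosed.isOpen_compl.connectedComponentIn,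
    mem_connectedComponentIn hx, isPreconnected_connectedComponentIn, ?_,
    hC.subset ((frontier_cc_subset hC.isClosed.isOpen_compl x).trans (compl_compl C).subset)⟩
  refine (closure_minimal (t := closedBall x (ε / 2)) (fun w hw => ?_) isClosed_closedBall).trans
    ((closedBall_subset_ball (by linarith)).trans hb)
  rw [mem_closedBall']
  by_contra hcon
  obtain ⟨c, hc, hs⟩ := H x w (not_le.1 hcon).le
  exact connectedComponentIn_subset _ _ (hs.mem isPreconnected_connectedComponentIn (subset_univ _)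
    (mem_connectedComponentIn hx) hw).1 hc

end Pool.Agent.Lib.MP_32448b_gt
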