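import Pool.Agent.Lib.MP_32448b_gt.HM

set_option autoImplicit false

open Set Metric Topology Filter Function

namespace Pool.Agent.Lib.MP_32448b_gt

theorem odd_dyadic {a b m m' : ℕ} (hm : m % 2 = 1) (hm' : m' % 2 = 1)
    (h : (m : ℝ) / 2 ^ a = m' / 2 ^ b) : a = b ∧ m = m' := by
  rw [div_eq_div_iff (by positivity) (by positivity)] at h
  have h1 : m * 2 ^ b = m' * 2 ^ a := by exact_mod_cast h
  have key : ∀ a b m m' : ℕ, m' % 2 = 1 → m * 2 ^ b = m' * 2 ^ a → b ≤ a := by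
    intro a b m m' h2 h3
    by_contra hlt
    obtain ⟨c, rfl⟩ := Nat.exists_eq_add_of_lt (not_le.1 hlt)
    have : m * 2 ^ c * 2 = m' := Nat.eq_of_mul_eq_mul_right (Nat.two_pow_pos a) (by
      rw [← h3]; ring)
    omega
  obtain rfl : a = b := le_antisymm (key b a m' m hm h1.symm) (key a b m m' hm' h1)
  exact ⟨rfl, Nat.eq_of_mul_eq_mul_right (Nat.two_pow_pos a) h1⟩

/-- The pairs of points of the unit interval that get identified. -/
def Pr (i : ℕ × ℕ) : Set unitInterval :=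
  {x | (i.2 % 8 = 1 ∨ i.2 % 8 = 3) ∧
    ((x : ℝ) = (i.2 : ℕ) / 2 ^ (i.1 + 3) ∨ (x : ℝ) = (i.2 + 4 : ℕ) / 2 ^ (i.1 + 3))}

theorem pr_finite (i : ℕ × ℕ) : (Pr i).Finite :=
  ((toFinite ({((i.2 : ℕ) : ℝ) / 2 ^ (i.1 + 3),
    ((i.2 + 4 : ℕ) : ℝ) / 2 ^ (i.1 + 3)} : Set ℝ)).preimage
    Subtype.val_injective.injOn).subset fun _ h => h.2

theorem pr_eq {i j : ℕ × ℕ} {x : unitInterval} (hi : x ∈ Pr i) (hj : x ∈ Pr j) : i = j := by
  obtain ⟨h1, h2 | h2⟩ := hi <;> obtain ⟨h3, h4 | h4⟩ := hj <;>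
    obtain ⟨h5, h6⟩ := odd_dyadic (by omega) (by omega) (h2.symm.trans h4) <;>
    exact Prod.ext (by omega) (by omega)

theorem pr_null : Null Pr := by
  intro ε hε
  obtain ⟨N, hN⟩ := exists_pow_lt_of_lt_one hε (show (1 / 2 : ℝ) < 1 by norm_num)
  refine ((finite_lt_nat N).prod (finite_le_nat (2 ^ (N + 3)))).subset fun i hi => ?_
  simp only [Small, mem_ofPred_eq, not_forall, not_lt] at hi
  obtain ⟨x, hx, y, hy, hxy⟩ := hi
  have hp : (0 : ℝ) < 2 ^ (i.1 + 3) := by positivity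
  have h1 : dist x y ≤ 4 / 2 ^ (i.1 + 3) := by
    have h0 : (0 : ℝ) ≤ 4 / 2 ^ (i.1 + 3) := by positivity
    rw [Subtype.dist_eq, Real.dist_eq, abs_le]
    rcases hx.2 with h | h <;> rcases hy.2 with h' | h' <;> rw [h, h'] <;>
      simp only [Nat.cast_add, Nat.cast_ofNat, add_div, sub_self] <;> constructor <;> linarith
  have h2 : i.1 < N := by
    by_contra hc
    have h3 : (1 / 2 : ℝ) ^ i.1 ≤ (1 / 2) ^ N :=
      pow_le_pow_of_le_one (by norm_num) (by norm_num) (not_lt.1 hc)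
    have h4 : (4 : ℝ) / 2 ^ (i.1 + 3) = (1 / 2) ^ i.1 / 2 := by
      rw [one_div, inv_pow, pow_add]
      field_simp
      norm_num
    have h5 : (0 : ℝ) < (1 / 2) ^ i.1 := by positivity
    linarith
  refine ⟨h2, ?_⟩
  have h3 : (i.2 : ℝ) ≤ 2 ^ (i.1 + 3) := by
    have := x.2.2
    rcases hx.2 with h | h <;> rw [h, div_le_one hp] at this
    · exact this
    · push_cast at this
      linarith
  have h4 : i.2 ≤ 2 ^ (i.1 + 3) := by exact_mod_cast h3
  exact h4.trans (Nat.pow_le_pow_right (by norm_num) (by omega))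

theorem exists_cross {u v : unitInterval} (h : u < v) :
    ∃ a c b d : unitInterval, u ≤ a ∧ a < c ∧ c < b ∧ b < d ∧ d ≤ v ∧
      (∃ i, a ∈ Pr i ∧ b ∈ Pr i) ∧ ∃ i, c ∈ Pr i ∧ d ∈ Pr i := by
  have h0 : (u : ℝ) < v := h
  obtain ⟨n, hn⟩ := pow_unbounded_of_one_lt (2 / ((v : ℝ) - u)) (show (1 : ℝ) < 2 by norm_num)
  rw [div_lt_iff₀ (by linarith)] at hn
  have hp : (0 : ℝ) < 2 ^ (n + 3) := by positivity
  have e : (2 : ℝ) ^ (n + 3) = 8 * 2 ^ n := by ring
  set j := ⌈(u : ℝ) * 2 ^ n⌉₊ with hj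
  have h1 : (u : ℝ) * 2 ^ n ≤ j := Nat.le_ceil _
  have h2 : (j : ℝ) < u * 2 ^ n + 1 := Nat.ceil_lt_add_one (mul_nonneg u.2.1 (by positivity))
  have hm : ∀ r : ℕ, r ≤ 8 → (u : ℝ) ≤ (8 * j + r : ℕ) / 2 ^ (n + 3) ∧
      ((8 * j + r : ℕ) : ℝ) / 2 ^ (n + 3) ≤ v := fun r hr => by
    have h3 : (r : ℝ) ≤ 8 := by exact_mod_cast hr
    have h4 : (0 : ℝ) ≤ r := by positivity
    rw [le_div_iff₀ hp, div_le_iff₀ hp, e]
    push_cast
    constructor <;> nlinarith
  let p : ∀ r : ℕ, r ≤ 8 → unitInterval := fun r hr =>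
    ⟨(8 * j + r : ℕ) / 2 ^ (n + 3), u.2.1.trans (hm r hr).1, (hm r hr).2.trans v.2.2⟩
  have hlt : ∀ r s hr hs, r < s → p r hr < p s hs := fun r s _ _ hrs =>
    div_lt_div_of_pos_right (by exact_mod_cast (by omega : 8 * j + r < 8 * j + s)) hp
  exact ⟨p 1 (by omega), p 3 (by omega), p 5 (by omega), p 7 (by omega), (hm 1 (by omega)).1,
    hlt 1 3 (by omega) (by omega) (by omega), hlt 3 5 (by omega) (by omega) (by omega),
    hlt 5 7 (by omega) (by omega) (by omega), (hm 7 (by omega)).2,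
    ⟨(n, 8 * j + 1), ⟨Or.inl (by omega), Or.inl rfl⟩, Or.inl (by omega), Or.inr rfl⟩,
    (n, 8 * j + 3), ⟨Or.inr (by omega), Or.inl rfl⟩, Or.inr (by omega), Or.inr rfl⟩

section Dim
variable {Y : Type*} [MetricSpace Y] [CompactSpace Y]

theorem dim_le_one {E : Set Y} (hE : E.Countable)
    (h : ∀ K : Set Y, IsClosed K → IsPreconnected K → K.Nontrivial → (K ∩ E).Nonempty) :
    HasSmallInductiveDimensionLE Y 1 := by
  refine .succ 1 {U | ∃ y r, r ∉ dist y '' E ∧ U = ball y r}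
    (TopologicalSpace.isTopologicalBasis_of_isOpen_of_nhds ?_ fun y U hy hU => ?_) ?_
  · rintro _ ⟨y, r, -, rfl⟩
    exact isOpen_ball
  · obtain ⟨ε, hε, hb⟩ := Metric.isOpen_iff.1 hU y hy
    obtain ⟨r, hr, hr'⟩ := ((hE.image (dist y)).dense_compl ℝ).exists_mem_open isOpen_Ioo
      (nonempty_Ioo.2 hε)
    exact ⟨_, ⟨y, r, hr, rfl⟩, mem_ball_self hr'.1, (ball_subset_ball hr'.2.le).trans hb⟩
  · rintro _ ⟨y, r, hr, rfl⟩
    have : CompactSpace (frontier (ball y r)) :=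
      isCompact_iff_compactSpace.1 isClosed_frontier.isCompact
    have : TotallyDisconnectedSpace (frontier (ball y r)) := by
      refine totallyDisconnectedSpace_subtype_iff.2 fun t ht hc => ?_
      by_contra hn
      obtain ⟨e, h1, h2⟩ := h _ isClosed_closure hc.closure
        ((not_subsingleton_iff.1 hn).mono subset_closure)
      exact hr ⟨e, h2, mem_sphere'.1
        (frontier_ball_subset_sphere (isClosed_frontier.closure_subset_iff.2 ht h1))⟩
    exact hasSmallInductiveDimensionLT_one_iff.2 isTopologicalBasis_isClopen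

omit [MetricSpace Y] [CompactSpace Y] in
theorem countable_of_hit {E : Set Y} (hE : E.Countable) {𝒜 : Set (Set Y)}
    (h : ∀ K ∈ 𝒜, (K ∩ E).Nonempty) (hd : 𝒜.PairwiseDisjoint id) : 𝒜.Countable := by
  choose e he using fun K : 𝒜 => h K K.2
  have := hE.to_subtype
  refine countable_coe_iff.1 (Injective.countable (f := fun K : 𝒜 => (⟨e K, (he K).2⟩ : E))
    fun K K' hK => Subtype.ext (hd.elim_set K.2 K'.2 (e K) (he K).1 ?_))
  rw [show e K = e K' from congrArg Subtype.val hK]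
  exact (he K').1

end Dim

theorem exists_example : ∃ (Y : Type) (_ : MetricSpace Y) (_ : CompactSpace Y)
    (q : unitInterval → Y) (E : Set Y), Continuous q ∧ Surjective q ∧
    (∀ y, (q ⁻¹' {y}).encard ≤ 2) ∧ E.Countable ∧
    (∀ K : Set Y, IsClosed K → IsPreconnected K → K.Nontrivial → (K ∩ E).Nonempty) ∧
    ∀ T : ℕ → Set Y, (∀ n, SD (T n)) → ⋃ n, T n ≠ univ := by
  obtain ⟨Y, _, _, q, hq, hs, he⟩ := exists_quot (B := Pr) (fun i => (pr_finite i).isClosed)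
    (fun i j hij => Set.disjoint_left.2 fun _ a b => hij (pr_eq a b)) pr_null
  have two : ∀ a b c, q a = q b → q a = q c → a = b ∨ a = c ∨ b = c := by
    intro a b c h1 h2
    rcases (he a b).1 h1 with h | ⟨i, a1, a2⟩
    · exact Or.inl h
    rcases (he a c).1 h2 with h | ⟨j, a3, a4⟩
    · exact Or.inr (Or.inl h)
    obtain rfl := pr_eq a1 a3
    simp only [Subtype.ext_iff]
    rcases a1.2 with h | h <;> rcases a2.2 with h' | h' <;> rcases a4.2 with h'' | h'' <;>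
      simp only [h, h', h'', true_or, or_true]
  refine ⟨Y, inferInstance, inferInstance, q, q '' ⋃ i, Pr i, hq, hs, fun y => ?_,
    (countable_iUnion fun i => (pr_finite i).countable).image q, fun K hK hc hn => ?_,
    fun T hT hU => ?_⟩
  · obtain ⟨a, rfl⟩ := hs y
    by_cases h : ∃ b, q a = q b ∧ a ≠ b
    · obtain ⟨b, h1, h2⟩ := h
      refine (encard_le_encard (t := {a, b}) fun c hc => ?_).trans (encard_pair h2).le
      rcases two a b c h1 (Eq.symm hc) with h | h | h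
      exacts [absurd h h2, Or.inl h.symm, Or.inr h.symm]
    · push Not at h
      refine (encard_le_encard (t := {a}) fun c hc => (h c (Eq.symm hc)).symm).trans ?_
      rw [encard_singleton]
      exact one_le_two
  · by_contra hne
    have hp : IsPreconnected (q ⁻¹' K) := isPreconnected_of_image (hK.preimage hq).isCompact
      hq.continuousOn (fun x hx y _ e => ((he x y).1 e).resolve_right fun ⟨i, h, _⟩ =>
        hne ⟨q x, hx, x, mem_iUnion.2 ⟨i, h⟩, rfl⟩) (by rwa [image_preimage_eq _ hs])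
    have key : ∀ u v, q u ∈ K → q v ∈ K → ¬ u < v := fun u v hu hv huv => by
      obtain ⟨a, c, b, d, h1, h2, h3, h4, h5, ⟨i, hi, -⟩, -⟩ := exists_cross huv
      exact hne ⟨q a, hp.Icc_subset hu hv ⟨h1, (h2.trans (h3.trans h4)).le.trans h5⟩, a,
        mem_iUnion.2 ⟨i, hi⟩, rfl⟩
    obtain ⟨x, hx, y, hy, hxy⟩ := hn
    obtain ⟨u, rfl⟩ := hs x
    obtain ⟨v, rfl⟩ := hs y
    exact hxy (congrArg q (le_antisymm (not_lt.1 (key v u hy hx)) (not_lt.1 (key u v hx hy))))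
  · obtain ⟨n, hn⟩ := nonempty_interior_of_iUnion_of_closed (f := fun n => q ⁻¹' T n)
      (fun n => (hT n).closed.preimage hq) (by rw [← preimage_iUnion, hU, preimage_univ])
    obtain ⟨u0, v0, h0, hsub⟩ := isOpen_interior.exists_Ioo_subset hn
    obtain ⟨u, hu, hu'⟩ := exists_between h0
    obtain ⟨v, huv, hv⟩ := exists_between hu'
    obtain ⟨a, c, b, d, h1, h2, h3, h4, h5, hab, hcd⟩ := exists_cross huv
    have eab := (he a b).2 (Or.inr hab)
    have ecd := (he c d).2 (Or.inr hcd)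
    have hin : ∀ s t, a ≤ s → t ≤ d → q '' Icc s t ⊆ T n := by
      rintro s t a1 a2 _ ⟨w, hw, rfl⟩
      exact interior_subset (s := q ⁻¹' T n) (hsub ⟨hu.trans_le (h1.trans (a1.trans hw.1)),
        (hw.2.trans (a2.trans h5)).trans_lt hv⟩)
    have hac : q a ≠ q c := fun e => by
      rcases two a b c eab e with h | h | h
      exacts [(h2.trans h3).ne h, h2.ne h, h3.ne' h]
    have had := (h2.trans (h3.trans h4)).le
    obtain ⟨z, hz⟩ := (hT n).sep (q a) (hin a d le_rfl le_rfl ⟨a, ⟨le_rfl, had⟩, rfl⟩) (q c)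
      (hin a d le_rfl le_rfl ⟨c, ⟨h2.le, (h3.trans h4).le⟩, rfl⟩) hac
    have hpre : ∀ s t, IsPreconnected (q '' Icc s t) := fun s t =>
      isPreconnected_Icc.image q hq.continuousOn
    obtain ⟨⟨s1, a1, rfl⟩, -, z2⟩ := hz.mem (hpre a c) (hin a c le_rfl (h3.trans h4).le)
      ⟨a, ⟨le_rfl, h2.le⟩, rfl⟩ ⟨c, ⟨h2.le, le_rfl⟩, rfl⟩
    obtain ⟨⟨s2, a2, e2⟩, z1, -⟩ := hz.mem (hpre c b) (hin c b h2.le h4.le)
      ⟨b, ⟨h3.le, le_rfl⟩, eab.symm⟩ ⟨c, ⟨le_rfl, h3.le⟩, rfl⟩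
    obtain ⟨⟨s3, a3, e3⟩, -, -⟩ := hz.mem (hpre b d) (hin b d (h2.trans h3).le le_rfl)
      ⟨b, ⟨le_rfl, h4.le⟩, eab.symm⟩ ⟨d, ⟨h4.le, le_rfl⟩, ecd.symm⟩
    have b1 : s1 < c := lt_of_le_of_ne a1.2 fun e => z2 (congrArg q e)
    have b2 : s2 < b := lt_of_le_of_ne a2.2 fun e => z1 (e2.symm.trans ((congrArg q e).trans eab.symm))
    rcases two s1 s2 s3 e2.symm e3.symm with h | h | h
    · exact (b1.trans_le a2.1).ne h
    · exact ((b1.trans h3).trans_le a3.1).ne h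
    · exact (b2.trans_le a3.1).ne h

end Pool.Agent.Lib.MP_32448b_gt
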