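import Pool.Agent.Lib.MP_32448b_gt.Tips

set_option autoImplicit false

open Set Metric Topology Filter Function

namespace Pool.Agent.Lib.MP_32448b_gt

/-- A dendrite together with a continuous map to `Y`. -/
structure Tile (Y : Type) [MetricSpace Y] : Type 1 where
  E : Type
  [inst : MetricSpace E]
  [dend : Dend E]
  g : E → Y
  cont : Continuous g

attribute [instance] Tile.inst Tile.dend

theorem pre_union_iUnion {X : Type*} [TopologicalSpace X] {ι : Sort*} {A : Set X} {H : ι → Set X}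
    (hA : IsPreconnected A) (hH : ∀ i, IsPreconnected (H i)) (hne : ∀ i, (H i ∩ A).Nonempty) :
    IsPreconnected (A ∪ ⋃ i, H i) := by
  rcases A.eq_empty_or_nonempty with rfl | ⟨a, ha⟩
  · have : IsEmpty ι := ⟨fun i => by simpa using hne i⟩
    simpa using isPreconnected_empty
  refine isPreconnected_of_forall a ?_
  rintro y (hy | hy)
  · exact ⟨A, subset_union_left, ha, hy, hA⟩
  · obtain ⟨i, hi⟩ := mem_iUnion.1 hy
    exact ⟨H i ∪ A, union_subset ((subset_iUnion _ i).trans subset_union_right) subset_union_left,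
      Or.inr ha, Or.inl hi, IsPreconnected.union' (hne i) (hH i) hA⟩

theorem exists_pi_metric {ι : Type} [Countable ι] (F : ι → Type) [∀ i, MetricSpace (F i)]
    [∀ i, CompactSpace (F i)] [DecidableEq ι] (e : ∀ i, F i) :
    ∃ (Z : Type) (_ : MetricSpace Z) (_ : CompactSpace Z) (ev : Z → ∀ i, F i) (z0 : Z)
      (u : ∀ i, F i → Z), Injective ev ∧ ev z0 = e ∧ (∀ i, Continuous (u i)) ∧
      (∀ i x, ev (u i x) = update e i x) ∧
      ∀ ε > 0, {i | ¬ ∀ x y : F i, dist (u i x) (u i y) < ε}.Finite := by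
  have := Encodable.ofCountable ι
  refine ⟨∀ i, F i, PiCountable.metricSpace, Pi.compactSpace, id, e, fun i x => update e i x,
    injective_id, rfl, fun i => continuous_const.update i continuous_id, fun _ _ => rfl,
    fun ε hε => ?_⟩
  obtain ⟨n, hn⟩ := exists_pow_lt_of_lt_one hε (show (2⁻¹ : ℝ) < 1 by norm_num)
  refine ((finite_lt_nat n).preimage (Encodable.encode_injective (α := ι)).injOn).subset ?_
  intro i hi
  by_contra hcon
  refine hi fun x y => ?_
  change ∑' j, min (2⁻¹ ^ Encodable.encode j) (dist (update e i x j) (update e i y j)) < ε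
  rw [tsum_eq_single i (fun j hj => by simp [update_of_ne hj])]
  refine (min_le_left _ _).trans_lt (lt_of_le_of_lt ?_ hn)
  exact pow_le_pow_of_le_one (by norm_num) (by norm_num) (not_lt.1 hcon)

variable {Y : Type} [MetricSpace Y]

theorem exists_glue (B : Tile Y) {ι : Type} [Countable ι] (H : ι → Tile Y) (e : ∀ i, (H i).E)
    (p : ι → B.E) (he : ∀ i, (H i).g (e i) = B.g (p i)) (hn : Null fun i => range (H i).g) :
    ∃ (T : Tile Y) (j0 : B.E → T.E) (j : ∀ i, (H i).E → T.E), Injective j0 ∧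
      (∀ i, Injective (j i)) ∧ (∀ x, T.g (j0 x) = B.g x) ∧ (∀ i x, T.g (j i x) = (H i).g x) ∧
      (∀ w, (∃ x, w = j0 x) ∨ ∃ i x, x ≠ e i ∧ w = j i x) ∧
      (∀ i x y, x ≠ e i → j i x ≠ j0 y) ∧
      (∀ i l x y, x ≠ e i → j i x = j l y → i = l) ∧
      (∀ x, (∀ i, p i ≠ x) → IsPreconnected ({x}ᶜ : Set B.E) → IsPreconnected ({j0 x}ᶜ : Set T.E)) ∧
      ∀ i x, x ≠ e i → IsPreconnected ({x}ᶜ : Set (H i).E) →
        IsPreconnected ({j i x}ᶜ : Set T.E) := by
  classical
  obtain ⟨Z, _, _, ev, z0, u, hev, hz0, hupd, hu, hsmall⟩ := exists_pi_metric (fun i => (H i).E) e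
  let k0 : B.E → B.E × Z := fun x => (x, z0)
  let k : ∀ i, (H i).E → B.E × Z := fun i x => (p i, u i x)
  have hk0 : Continuous k0 := continuous_id.prodMk continuous_const
  have hk : ∀ i, Continuous (k i) := fun i => continuous_const.prodMk (hupd i)
  have hk0i : Injective k0 := fun x y h => congrArg Prod.fst h
  have hki : ∀ i, Injective (k i) := fun i x y h => update_injective e i (by
    rw [← hu, ← hu]; exact congrArg (fun w => ev w.2) h)
  have hke : ∀ i, k i (e i) = k0 (p i) := fun i => Prod.ext rfl (hev (by simp [k, k0, hu, hz0]))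
  have hk1 : ∀ i x y, k i x = k0 y → x = e i := fun i x y h => by
    have := congrFun (congrArg (fun w => ev w.2) h) i
    simpa [k, k0, hu, hz0] using this
  have hk2 : ∀ i l x y, i ≠ l → k i x = k l y → x = e i := fun i l x y hil h => by
    have := congrFun (congrArg (fun w => ev w.2) h) i
    simpa [k, hu, update_of_ne hil] using this
  have hnull : Null fun i => range (k i) := fun ε hε => by
    refine (hsmall ε hε).subset fun i hi hs => hi ?_
    rintro _ ⟨x, rfl⟩ _ ⟨y, rfl⟩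
    simp only [k, Prod.dist_eq, dist_self]
    exact max_lt hε (hs x y)
  have hS : SD (range k0) := image_univ ▸ Dend.sd.image hk0.continuousOn hk0i.injOn
  have hH : ∀ i, SD (range (k i)) := fun i =>
    image_univ ▸ Dend.sd.image (hk i).continuousOn (hki i).injOn
  have hT : SD (range k0 ∪ ⋃ i, range (k i)) := by
    refine hS.hang hH (e := fun i => k0 (p i)) (fun i => ?_) ?_ hnull
    · refine eq_singleton_iff_unique_mem.2 ⟨⟨⟨e i, hke i⟩, p i, rfl⟩, ?_⟩
      rintro _ ⟨⟨x, rfl⟩, y, hy⟩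
      rw [hk1 i x y hy.symm, hke]
    · rintro i l hil _ ⟨⟨x, rfl⟩, y, hy⟩
      rw [hk2 i l x y hil hy.symm, hke]
      exact ⟨_, rfl⟩
  set T := range k0 ∪ ⋃ i, range (k i) with hTdef
  let G : B.E × Z → Y := fun w =>
    if h : ∃ i, ev w.2 i ≠ e i then (H h.choose).g (ev w.2 h.choose) else B.g w.1
  have hG0 : ∀ x, G (k0 x) = B.g x := fun x => by simp [G, k0, hz0]
  have hG : ∀ i x, G (k i x) = (H i).g x := fun i x => by
    by_cases hx : x = e i
    · rw [hx, hke, hG0, he]
    · have h : ∃ l, ev (k i x).2 l ≠ e l := ⟨i, by simpa [k, hu] using hx⟩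
      have h1 : h.choose = i := by
        by_contra hc
        exact h.choose_spec (by simp only [k, hu]; exact update_of_ne hc _ _)
      have h2 : ∀ l, l = i → (H l).g (ev (k i x).2 l) = (H i).g x := by
        rintro l rfl
        simp [k, hu]
      simp only [G, dif_pos h]
      exact h2 _ h1
  have hGc : ContinuousOn G T := by
    rw [continuousOn_iff_isClosed]
    intro C hC
    refine ⟨k0 '' (B.g ⁻¹' C) ∪ ⋃ i ∈ (univ : Set ι), k i '' ((H i).g ⁻¹' C), ?_, ?_⟩
    · have h0 : IsClosed (k0 '' (B.g ⁻¹' C)) :=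
        ((hC.preimage B.cont).isCompact.image hk0).isClosed
      rw [← closure_subset_iff_isClosed, closure_union, h0.closure_eq]
      rintro x (hx | hx)
      · exact Or.inl hx
      rcases mem_closure_iUnion_cases
        (fun i _ => ((hC.preimage (H i).cont).isCompact.image (hk i)).isClosed) hx with
        ⟨i, hi, h⟩ | h
      · exact Or.inr (mem_biUnion hi h)
      left
      have key : ∀ η > 0, ∃ a : B.E, dist x (k0 a) < η ∧ ∃ c ∈ C, dist (B.g a) c < η := by
        intro η hη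
        obtain ⟨i, -, hs, _, ⟨y, hy, rfl⟩, hxy⟩ :=
          h _ ((hnull _ (half_pos hη)).union (hn _ hη)) _ (half_pos hη)
        have h1 := not_not.1 (fun h => hs (Or.inl h)) _ ⟨y, rfl⟩ _ ⟨e i, rfl⟩
        have h2 := not_not.1 (fun h => hs (Or.inr h)) _ ⟨e i, rfl⟩ _ ⟨y, rfl⟩
        refine ⟨p i, ?_, _, hy, he i ▸ h2⟩
        rw [← hke]
        linarith [dist_triangle x (k i y) (k i (e i))]
      obtain ⟨a, rfl⟩ : x ∈ range k0 := hS.closed.closure_subset
        (Metric.mem_closure_iff.2 fun η hη => by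
          obtain ⟨a, ha, -⟩ := key η hη
          exact ⟨_, ⟨a, rfl⟩, ha⟩)
      refine ⟨a, hC.closure_subset (Metric.mem_closure_iff.2 fun η hη => ?_), rfl⟩
      obtain ⟨δ, hδ, Hδ⟩ := Metric.continuous_iff.1 B.cont a _ (half_pos hη)
      obtain ⟨b, hb, c, hc, hbc⟩ := key _ (lt_min hδ (half_pos hη))
      have h3 : dist b a < δ := by
        simp only [k0, Prod.dist_eq, dist_self] at hb
        rw [dist_comm]
        exact ((le_max_left _ _).trans_lt hb).trans_le (min_le_left _ _)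
      refine ⟨c, hc, ?_⟩
      linarith [Hδ b h3, dist_triangle_left (B.g a) c (B.g b), min_le_right δ (η / 2)]
    · ext w
      constructor
      · rintro ⟨h1, h2⟩
        refine ⟨?_, h2⟩
        rcases h2 with ⟨x, rfl⟩ | h2
        · exact Or.inl ⟨x, by simpa [hG0] using h1, rfl⟩
        · obtain ⟨i, x, rfl⟩ := mem_iUnion.1 h2
          exact Or.inr (mem_biUnion (mem_univ i) ⟨x, by simpa [hG] using h1, rfl⟩)
      · rintro ⟨⟨x, hx, rfl⟩ | h1, h2⟩
        · exact ⟨by simpa [hG0] using hx, h2⟩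
        · obtain ⟨i, -, x, hx, rfl⟩ := mem_iUnion₂.1 h1
          exact ⟨by simpa [hG] using hx, h2⟩
  have hcompl : ∀ w : T, ({w}ᶜ : Set T) = (↑) ⁻¹' (T \ {w.1}) := fun w => by
    ext u
    simp [Subtype.ext_iff]
  have := hT.dend
  refine ⟨⟨T, fun w => G w, hGc.domRestrict⟩, fun x => ⟨k0 x, Or.inl ⟨x, rfl⟩⟩,
    fun i x => ⟨k i x, Or.inr (mem_iUnion.2 ⟨i, x, rfl⟩)⟩,
    fun x y h => hk0i (congrArg Subtype.val h), fun i x y h => hki i (congrArg Subtype.val h),
    hG0, hG, ?_, fun i x y hx h => hx (hk1 i x y (congrArg Subtype.val h)),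
    fun i l x y hx h => ?_, fun x hx hpre => ?_, fun i x hx hpre => ?_⟩
  · rintro ⟨w, ⟨x, rfl⟩ | hw⟩
    · exact Or.inl ⟨x, rfl⟩
    · obtain ⟨i, x, rfl⟩ := mem_iUnion.1 hw
      by_cases hx : x = e i
      · exact Or.inl ⟨p i, Subtype.ext (hx ▸ hke i)⟩
      · exact Or.inr ⟨i, x, hx, rfl⟩
  · by_contra hil
    exact hx (hk2 i l x y hil (congrArg Subtype.val h))
  · rw [hcompl]
    refine pre_preimage_val ?_ sdiff_subset
    have h1 := pre_union_iUnion (hpre.image k0 hk0.continuousOn) (fun i => (hH i).pre)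
      (fun i => ⟨k0 (p i), ⟨e i, hke i⟩, p i, hx i, rfl⟩)
    suffices heq : T \ {k0 x} = k0 '' {x}ᶜ ∪ ⋃ i, range (k i) from heq ▸ h1
    ext w
    constructor
    · rintro ⟨⟨y, rfl⟩ | h, h'⟩
      · exact Or.inl ⟨y, fun e => h' (congrArg k0 e), rfl⟩
      · exact Or.inr h
    · rintro (⟨y, hy, rfl⟩ | h)
      · exact ⟨Or.inl ⟨y, rfl⟩, fun e => hy (hk0i e)⟩
      · refine ⟨Or.inr h, fun e' => ?_⟩
        obtain ⟨i, y, rfl⟩ := mem_iUnion.1 h
        obtain rfl := hk1 i y x e'
        exact hx i (hk0i ((hke i).symm.trans e'))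
  · rw [hcompl]
    refine pre_preimage_val ?_ sdiff_subset
    have h1 := pre_union_iUnion (ι := {l // l ≠ i}) (H := fun l => range (k l))
      (hS.pre.union (k0 (p i)) (t := k i '' {x}ᶜ) (mem_range_self _) ⟨e i, Ne.symm hx, hke i⟩
        (hpre.image (k i) (hk i).continuousOn))
      (fun l => (hH l).pre) (fun l => ⟨k0 (p l), ⟨e l, hke l⟩, Or.inl ⟨_, rfl⟩⟩)
    suffices heq : T \ {k i x} = (range k0 ∪ k i '' {x}ᶜ) ∪ ⋃ l : {l // l ≠ i}, range (k l) from
      heq ▸ h1
    ext w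
    constructor
    · rintro ⟨h | h, h'⟩
      · exact Or.inl (Or.inl h)
      · obtain ⟨l, y, rfl⟩ := mem_iUnion.1 h
        by_cases hl : l = i
        · subst hl
          exact Or.inl (Or.inr ⟨y, fun e => h' (congrArg (k l) e), rfl⟩)
        · exact Or.inr (mem_iUnion.2 ⟨⟨l, hl⟩, y, rfl⟩)
    · rintro ((⟨y, rfl⟩ | ⟨y, hy, rfl⟩) | h)
      · exact ⟨Or.inl ⟨y, rfl⟩, fun e' => hx (hk1 i x y (Eq.symm e'))⟩
      · exact ⟨Or.inr (mem_iUnion.2 ⟨i, y, rfl⟩), fun e' => hy (hki i e')⟩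
      · obtain ⟨l, y, rfl⟩ := mem_iUnion.1 h
        exact ⟨Or.inr (mem_iUnion.2 ⟨l, y, rfl⟩),
          fun e' => hx (hk2 i l x y (Ne.symm l.2) (Eq.symm e'))⟩

end Pool.Agent.Lib.MP_32448b_gt
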