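import Pool.Agent.Lib.MP_32448b_gt.Dend

set_option autoImplicit false

open Set Metric Topology Filter Function

namespace Pool.Agent.Lib.MP_32448b_gt

theorem exists_merge_map {α : Type*} {V : Set α} (hV : V.Finite) {E : Set (α × α)} (hE : E.Finite) :
    ∃ ψ : α → α, (∀ p ∈ E, ψ p.1 = ψ p.2) ∧ V.ncard ≤ (ψ '' V).ncard + E.ncard := by
  classical
  induction E, hE using Set.Finite.induction_on with
  | empty => exact ⟨id, by simp, by simp⟩
  | @insert p E hp hE ih =>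
    obtain ⟨ψ, h1, h2⟩ := ih
    refine ⟨fun x => if ψ x = ψ p.1 then ψ p.2 else ψ x, ?_, ?_⟩
    · rintro q (rfl | hq)
      · simp
      · simp only [h1 q hq]
    · rw [ncard_insert_of_notMem hp hE]
      have h3 : ψ '' V ⊆ insert (ψ p.1) ((fun x => if ψ x = ψ p.1 then ψ p.2 else ψ x) '' V) := by
        rintro _ ⟨x, hx, rfl⟩
        by_cases h : ψ x = ψ p.1
        · exact Or.inl h
        · exact Or.inr ⟨x, hx, by simp [h]⟩
      have h4 := (ncard_le_ncard h3 ((hV.image _).insert _)).trans (ncard_insert_le _ _)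
      omega

variable {X : Type} [MetricSpace X]

/-- `S` splits into at least `k` nonempty relatively clopen parts. -/
def Split (S : Set X) (k : ℕ) : Prop :=
  ∃ (α : Type) (φ : X → α), (φ '' S).Finite ∧ (∀ a, IsClosed (S ∩ φ ⁻¹' {a})) ∧ k ≤ (φ '' S).ncard

theorem isClosed_split_aux {α β : Type} {S : Set X} {φ : X → α} (h1 : (φ '' S).Finite)
    (h2 : ∀ a, IsClosed (S ∩ φ ⁻¹' {a})) (θ : α → β) (b : β) :
    IsClosed {x ∈ S | θ (φ x) = b} := by
  have : {x ∈ S | θ (φ x) = b} = ⋃ a ∈ φ '' S ∩ θ ⁻¹' {b}, S ∩ φ ⁻¹' {a} := by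
    ext x
    constructor
    · exact fun h => mem_biUnion (x := φ x) ⟨⟨x, h.1, rfl⟩, h.2⟩ ⟨h.1, rfl⟩
    · intro h
      obtain ⟨a, ha, h⟩ := mem_iUnion₂.1 h
      exact ⟨h.1, (mem_singleton_iff.1 h.2).symm ▸ ha.2⟩
  exact this ▸ (h1.subset inter_subset_left).isClosed_biUnion fun a _ => h2 a

theorem Split.union {S T : Set X} {k : ℕ} (hS : Split S k) (hT : Split T k)
    (hf : (S ∩ T).Finite) (hk : (S ∩ T).ncard ≤ k) : Split (S ∪ T) k := by
  classical
  obtain ⟨α, φ, a1, a2, a3⟩ := hS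
  obtain ⟨β, χ, b1, b2, b3⟩ := hT
  obtain ⟨ψ, h1, h2⟩ := exists_merge_map
    ((a1.image (Sum.inl : α → α ⊕ β)).union (b1.image Sum.inr))
    (hf.image fun x => ((Sum.inl (φ x) : α ⊕ β), (Sum.inr (χ x) : α ⊕ β)))
  set θ : X → α ⊕ β := fun x => if x ∈ S then ψ (Sum.inl (φ x)) else ψ (Sum.inr (χ x)) with hθ
  have e1 : ∀ x ∈ S, θ x = ψ (Sum.inl (φ x)) := fun x hx => by simp [hθ, hx]
  have e2 : ∀ x ∈ T, θ x = ψ (Sum.inr (χ x)) := fun x hx => by
    by_cases h : x ∈ S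
    · rw [e1 x h]
      exact h1 _ ⟨x, ⟨h, hx⟩, rfl⟩
    · simp [hθ, h]
  have e3 : θ '' (S ∪ T) = ψ '' (Sum.inl '' (φ '' S) ∪ Sum.inr '' (χ '' T)) := by
    rw [image_union, image_union, image_image, image_image, image_image, image_image,
      image_congr e1, image_congr e2]
  refine ⟨α ⊕ β, θ, e3 ▸ ((a1.image _).union (b1.image _)).image _, fun c => ?_, ?_⟩
  · have : (S ∪ T) ∩ θ ⁻¹' {c} =
        {x ∈ S | ψ (Sum.inl (φ x)) = c} ∪ {x ∈ T | ψ (Sum.inr (χ x)) = c} := by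
      ext x
      constructor
      · rintro ⟨h | h, h'⟩
        · exact Or.inl ⟨h, (e1 x h).symm.trans h'⟩
        · exact Or.inr ⟨h, (e2 x h).symm.trans h'⟩
      · rintro (h | h)
        · exact ⟨Or.inl h.1, (e1 x h.1).trans h.2⟩
        · exact ⟨Or.inr h.1, (e2 x h.1).trans h.2⟩
    exact this ▸ (isClosed_split_aux a1 a2 (fun a => ψ (Sum.inl a)) c).union
      (isClosed_split_aux b1 b2 (fun a => ψ (Sum.inr a)) c)
  · rw [e3]
    rw [ncard_union_eq (by simp [Set.disjoint_left]) (a1.image _) (b1.image _),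
      ncard_image_of_injective _ Sum.inl_injective,
      ncard_image_of_injective _ Sum.inr_injective] at h2
    have := ncard_image_le (f := fun x => ((Sum.inl (φ x) : α ⊕ β), (Sum.inr (χ x) : α ⊕ β))) hf
    omega

theorem Split.of_iInter [CompactSpace X] {ι : Type*} [Nonempty ι] {S : ι → Set X}
    (hd : Directed (· ⊇ ·) S) (hc : ∀ i, IsClosed (S i)) {k : ℕ} (h : Split (⋂ i, S i) k) :
    ∃ i, Split (S i) k := by
  classical
  obtain ⟨α, φ, a1, a2, a3⟩ := h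
  obtain ⟨l, hl, H⟩ := exists_sep_finite a1 (K := fun a => (⋂ i, S i) ∩ φ ⁻¹' {a})
    fun a _ => (a2 a).isCompact
  set U : α → Set X := fun a => thickening (l / 2) ((⋂ i, S i) ∩ φ ⁻¹' {a}) with hU
  have hUd : ∀ a b x, x ∈ U a → x ∈ U b → a = b := by
    intro a b x ha hb
    obtain ⟨u, hu, h1⟩ := mem_thickening_iff.1 ha
    obtain ⟨v, hv, h2⟩ := mem_thickening_iff.1 hb
    obtain ⟨w, h3, h4⟩ := H a ⟨u, hu.1, hu.2⟩ b ⟨v, hv.1, hv.2⟩ u hu v hv
      (by linarith [dist_triangle_left u v x])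
    exact (mem_singleton_iff.1 h3.2).symm.trans h4.2
  have hUs : ∀ x ∈ ⋂ i, S i, x ∈ U (φ x) := fun x hx =>
    self_subset_thickening (half_pos hl) _ ⟨hx, rfl⟩
  obtain ⟨i, hi⟩ := exists_subset_nhds_of_isCompact' hd (fun i => (hc i).isCompact) hc
    (U := ⋃ a, U a) fun x hx =>
      (isOpen_iUnion fun a => isOpen_thickening).mem_nhds (mem_iUnion.2 ⟨_, hUs x hx⟩)
  have h1 : ∀ x, ∃ a, x ∈ S i → x ∈ U a := fun x => by
    by_cases h : x ∈ S i
    · obtain ⟨a, ha⟩ := mem_iUnion.1 (hi h)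
      exact ⟨a, fun _ => ha⟩
    · exact ⟨φ x, fun h' => absurd h' h⟩
  choose χ hχ using h1
  have e : χ '' S i = φ '' ⋂ i, S i := by
    ext a
    constructor
    · rintro ⟨x, hx, rfl⟩
      obtain ⟨u, hu, -⟩ := mem_thickening_iff.1 (hχ x hx)
      exact ⟨u, hu.1, hu.2⟩
    · rintro ⟨x, hx, rfl⟩
      exact ⟨x, mem_iInter.1 hx i, hUd _ _ x (hχ x (mem_iInter.1 hx i)) (hUs x hx)⟩
  refine ⟨i, α, χ, e ▸ a1, fun a => ?_, e ▸ a3⟩
  have : S i ∩ χ ⁻¹' {a} = S i \ ⋃ b ∈ {b | b ≠ a}, U b := by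
    ext x
    constructor
    · rintro ⟨h1, h2⟩
      refine ⟨h1, fun h => ?_⟩
      obtain ⟨b, hb, h⟩ := mem_iUnion₂.1 h
      exact hb ((hUd _ _ x h (hχ x h1)).trans h2)
    · rintro ⟨h1, h2⟩
      exact ⟨h1, by_contra fun h => h2 (mem_biUnion (x := χ x) h (hχ x h1))⟩
  exact this ▸ (hc i).sdiff (isOpen_biUnion fun _ _ => isOpen_thickening)

theorem Split.le_one {S : Set X} (hS : IsPreconnected S) {k : ℕ} (h : Split S k) : k ≤ 1 := by
  obtain ⟨α, φ, a1, a2, a3⟩ := h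
  refine a3.trans ((ncard_le_one a1).2 ?_)
  rintro _ ⟨x, hx, rfl⟩ _ ⟨y, hy, rfl⟩
  by_contra hne
  obtain ⟨w, -, h1, h2⟩ := isPreconnected_closed_iff.1 hS _ _
    (isClosed_split_aux a1 a2 (fun a => a = φ x) True)
    (isClosed_split_aux a1 a2 (fun a => a = φ x) False) (fun w hw => by
      by_cases h : φ w = φ x
      · exact Or.inl ⟨hw, by simpa using h⟩
      · exact Or.inr ⟨hw, by simpa using h⟩) ⟨x, hx, hx, by simp⟩
    ⟨y, hy, hy, by simpa using Ne.symm hne⟩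
  exact h2.2.mp (h1.2.mpr trivial)

theorem gottschalk {Y : Type} [MetricSpace Y] [Dend Y] [CompactSpace X] [ConnectedSpace X]
    {f : X → Y} (hf : Continuous f) {k : ℕ} (hk : 1 < k) (h : ∀ y, (f ⁻¹' {y}).ncard = k) :
    False := by
  have hfin : ∀ y, (f ⁻¹' {y}).Finite := fun y => finite_of_ncard_ne_zero (by rw [h]; omega)
  obtain ⟨B, -, hB⟩ := zorn_superset_nonempty
    {B : Set Y | IsClosed B ∧ IsConnected B ∧ ¬ Split (f ⁻¹' B) k} (fun c hcS hc hne => by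
      have := hne.to_subtype
      have hd : Directed (· ⊇ ·) fun B : c => B.1 := fun F G => by
        rcases hc.total F.2 G.2 with h | h
        · exact ⟨F, subset_rfl, h⟩
        · exact ⟨G, h, subset_rfl⟩
      refine ⟨⋂ B : c, B.1, ⟨isClosed_iInter fun B => (hcS B.2).1,
        ⟨IsCompact.nonempty_iInter_of_directed_nonempty_isCompact_isClosed _ hd
          (fun B => (hcS B.2).2.1.nonempty) (fun B => (hcS B.2).1.isCompact) fun B => (hcS B.2).1,
        isPreconnected_iInter_directed hd (fun B => (hcS B.2).1.isCompact)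
          fun B => (hcS B.2).2.1.isPreconnected⟩, fun hs => ?_⟩,
        fun B hB => iInter_subset (fun B : c => B.1) ⟨B, hB⟩⟩
      rw [preimage_iInter] at hs
      obtain ⟨B, hB⟩ := Split.of_iInter (hd.mono_comp _ fun _ _ h => preimage_mono h)
        (fun B => (hcS B.2).1.preimage hf) hs
      exact (hcS B.2).2.2 hB) univ ⟨isClosed_univ, isConnected_univ, fun hs =>
        absurd (hs.le_one isPreconnected_univ) (by omega)⟩
  obtain ⟨hBc, hBn, hBs⟩ := hB.1
  refine hBs ?_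
  obtain ⟨x, hx⟩ := hBn.nonempty
  by_cases hsing : ∃ y ∈ B, x ≠ y
  · obtain ⟨y, hy, hxy⟩ := hsing
    obtain ⟨z, P, Q, hP, hQ, hPQ, hz, hxQ, hyP⟩ := Dend.sep hxy
    have key : ∀ {P Q : Set Y} {x y : Y}, IsClosed P → IsClosed Q → univ ⊆ P ∪ Q →
        (∀ w ∈ univ, w ∈ P → w ∈ Q → w = z) → x ∈ B → y ∈ B → x ∉ Q → y ∉ P →
        Split (f ⁻¹' (B ∩ P)) k := by
      intro P Q x y hP hQ hPQ hz hx hy hxQ hyP
      by_contra hcon
      exact hyP (hB.2 ⟨hBc.inter hP, ⟨⟨x, hx, (hPQ (mem_univ x)).resolve_right hxQ⟩,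
        pre_inter_side hBn.isPreconnected hP hQ ((subset_univ _).trans hPQ)
          fun w _ => hz w (mem_univ _)⟩, hcon⟩ inter_subset_left hy).2
    have hsub : f ⁻¹' (B ∩ P) ∩ f ⁻¹' (B ∩ Q) ⊆ f ⁻¹' {z} := fun w hw =>
      hz _ (mem_univ _) hw.1.2 hw.2.2
    have := (key hP hQ hPQ hz hx hy hxQ hyP).union
      (key hQ hP (by rwa [union_comm]) (fun w a b c => hz w a c b) hy hx hyP hxQ)
      ((hfin z).subset hsub) (h z ▸ ncard_le_ncard hsub (hfin z))
    rwa [← preimage_union, ← inter_union_distrib_left,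
      inter_eq_left.2 ((subset_univ _).trans hPQ)] at this
  · obtain rfl : B = {x} := eq_singleton_iff_unique_mem.2 ⟨hx, fun y hy =>
      by_contra fun h => hsing ⟨y, hy, Ne.symm h⟩⟩
    exact ⟨X, id, by simpa using hfin x, fun a => ((hfin x).subset inter_subset_left).isClosed,
      by simpa using (h x).ge⟩

end Pool.Agent.Lib.MP_32448b_gt
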