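import Pool.Agent.Lib.MP_32448b_gt.Main

set_option autoImplicit false

open Set Metric Topology Filter Function

namespace Pool.Agent.Lib.MP_32448b_gt

section Ext
variable {Y : Type*} [MetricSpace Y]

theorem exists_tight_path [CompactSpace Y] [PathConnectedSpace Y] (x y : Y) :
    ∃ γ : Path x y, ∀ ε, JoinedIn (ball x ε) x y → ∀ t, γ t ∈ ball x (2 * ε) := by
  by_cases hxy : x = y
  · subst hxy
    refine ⟨Path.refl x, fun ε h t => ?_⟩
    have h1 := pos_of_mem_ball h.source_mem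
    exact mem_ball_self (by linarith)
  set S := {ε : ℝ | JoinedIn (ball x ε) x y} with hS
  have hne : S.Nonempty := by
    obtain ⟨R, hR⟩ := (isCompact_univ (X := Y)).isBounded.subset_ball x
    exact ⟨R, (joinedIn_univ.2 (PathConnectedSpace.joined x y)).mono hR⟩
  have hlow : ∀ ε ∈ S, dist x y ≤ ε := fun ε h => (mem_ball'.1 (JoinedIn.target_mem h)).le
  have hpos : 0 < sInf S := (dist_pos.2 hxy).trans_le (le_csInf hne hlow)
  obtain ⟨e, ⟨γ, hγ⟩, he⟩ := exists_lt_of_csInf_lt hne (show sInf S < 2 * sInf S by linarith)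
  refine ⟨γ, fun ε h t => ball_subset_ball ?_ (hγ t)⟩
  have := csInf_le ⟨_, hlow⟩ (show ε ∈ S from h)
  linarith

/-- A map from a closed subset of the line into a Peano continuum extends to the line. -/
theorem exists_ext [CompactSpace Y] [ConnectedSpace Y] [LocallyConnectedSpace Y] {C : Set ℝ}
    (hC : IsClosed C) (hl : ∀ t, (C ∩ Iic t).Nonempty) (hr : ∀ t, (C ∩ Ici t).Nonempty)
    {f : ℝ → Y} (hf : ContinuousOn f C) : ∃ g : ℝ → Y, Continuous g ∧ EqOn g f C := by
  have := lpc_of_peano (X := Y)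
  have : PathConnectedSpace Y := PathConnectedSpace.of_locallyPathConnectedSpace
  choose γ hγ using exists_tight_path (Y := Y)
  set a : ℝ → ℝ := fun t => sSup (C ∩ Iic t) with ha
  set b : ℝ → ℝ := fun t => sInf (C ∩ Ici t) with hb
  have hba : ∀ t, BddAbove (C ∩ Iic t) := fun t => ⟨t, fun _ h => h.2⟩
  have hbb : ∀ t, BddBelow (C ∩ Ici t) := fun t => ⟨t, fun _ h => h.2⟩
  have haC : ∀ t, a t ∈ C ∩ Iic t := fun t => (hC.inter isClosed_Iic).csSup_mem (hl t) (hba t)
  have hbC : ∀ t, b t ∈ C ∩ Ici t := fun t => (hC.inter isClosed_Ici).csInf_mem (hr t) (hbb t)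
  have hale : ∀ t c, c ∈ C → c ≤ t → c ≤ a t := fun t c h1 h2 => le_csSup (hba t) ⟨h1, h2⟩
  have hble : ∀ t c, c ∈ C → t ≤ c → b t ≤ c := fun t c h1 h2 => csInf_le (hbb t) ⟨h1, h2⟩
  set g : ℝ → Y := fun t => (γ (f (a t)) (f (b t))).extend ((t - a t) / (b t - a t)) with hg
  have hgC : EqOn g f C := fun t ht => by
    have e : a t = t := le_antisymm (haC t).2 (hale t t ht le_rfl)
    simp only [hg]
    rw [show t - a t = 0 by rw [e, sub_self], zero_div, Path.extend_zero, e]
  have hgap : ∀ s, s ∉ C → ContinuousOn g (Icc (a s) (b s)) := by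
    intro s hs
    have h1 : a s < s := lt_of_le_of_ne (haC s).2 fun e => hs (e ▸ (haC s).1)
    have h2 : s < b s := lt_of_le_of_ne (hbC s).2 fun e => hs (e ▸ (hbC s).1)
    refine ContinuousOn.congr (f := fun t => (γ (f (a s)) (f (b s))).extend
      ((t - a s) / (b s - a s))) ((Path.continuous_extend _).comp (by fun_prop)).continuousOn ?_
    intro t ht
    rcases ht.1.eq_or_lt with e | h3
    · rw [← e, hgC (haC s).1]
      simp
    rcases ht.2.eq_or_lt with e | h4
    · rw [e, hgC (hbC s).1]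
      dsimp only
      rw [div_self (by linarith), Path.extend_one]
    have e1 : a t = a s := by
      refine le_antisymm ?_ (hale t _ (haC s).1 h3.le)
      rcases le_total (a t) s with h | h
      · exact hale s _ (haC t).1 h
      · exact absurd ((hble s _ (haC t).1 h).trans (haC t).2) (not_le.2 h4)
    have e2 : b t = b s := by
      refine le_antisymm (hble t _ (hbC s).1 h4.le) ?_
      rcases le_total s (b t) with h | h
      · exact hble s _ (hbC t).1 h
      · exact absurd ((hbC t).2.trans (hale s _ (hbC t).1 h)) (not_le.2 h3)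
    simp only [hg]
    rw [e1, e2]
  have hsmall : ∀ t ∈ C, ∀ ε > 0, ∃ η > 0, ∀ s, a s ∈ ball t η → b s ∈ ball t η →
      dist (g s) (g t) < ε := by
    intro t ht ε hε
    obtain ⟨δ, hδ, H⟩ := ulpc (X := Y) (show 0 < ε / 4 by linarith)
    obtain ⟨η, hη, H2⟩ := Metric.continuousWithinAt_iff.1 (hf t ht) (min (δ / 2) (ε / 2))
      (lt_min (half_pos hδ) (half_pos hε))
    refine ⟨η, hη, fun s h1 h2 => ?_⟩
    have h3 := H2 (haC s).1 h1
    have h4 := H2 (hbC s).1 h2
    rw [lt_min_iff] at h3 h4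
    have h5 := hγ _ _ _ (H (f (a s)) (f (b s)) (by
      linarith [dist_triangle_right (f (a s)) (f (b s)) (f t), h3.1, h4.1]))
    have h6 : g s ∈ ball (f (a s)) (2 * (ε / 4)) := h5 _
    rw [hgC ht]
    linarith [mem_ball.1 h6, dist_triangle (g s) (f (a s)) (f t), h3.2]
  refine ⟨g, continuous_iff_continuousAt.2 fun t => ?_, hgC⟩
  refine continuousAt_iff_continuous_left_right.2 ⟨?_, ?_⟩
  · by_cases h : ∃ u < t, ∀ c ∈ C, u < c → t ≤ c
    · obtain ⟨u, hu, h⟩ := h
      have hs : (u + t) / 2 ∉ C := fun h' => by linarith [h _ h' (by linarith)]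
      have h1 : a ((u + t) / 2) < t := (haC _).2.trans_lt (by linarith)
      have h2 : t ≤ b ((u + t) / 2) := h _ (hbC _).1 (lt_of_lt_of_le (by linarith) (hbC _).2)
      exact (hgap _ hs t ⟨h1.le, h2⟩).mono_of_mem_nhdsWithin
        (mem_of_superset (Icc_mem_nhdsLE h1) (Icc_subset_Icc_right h2))
    · push Not at h
      have ht : t ∈ C := hC.closure_subset (Metric.mem_closure_iff.2 fun ε hε => by
        obtain ⟨c, h1, h2, h3⟩ := h (t - ε) (by linarith)
        exact ⟨c, h1, by rw [Real.dist_eq, abs_lt]; constructor <;> linarith⟩)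
      refine Metric.tendsto_nhds.2 fun ε hε => ?_
      obtain ⟨η, hη, H⟩ := hsmall t ht ε hε
      obtain ⟨c, h1, h2, h3⟩ := h (t - η) (by linarith)
      filter_upwards [Icc_mem_nhdsLE h3] with s hs
      have h4 := hale s c h1 hs.1
      have h5 := hble s t ht hs.2
      have h6 : a s ≤ s := (haC s).2
      have h7 : s ≤ b s := (hbC s).2
      refine H s ?_ ?_ <;> rw [mem_ball, Real.dist_eq, abs_lt] <;> constructor <;> linarith
  · by_cases h : ∃ u > t, ∀ c ∈ C, c < u → c ≤ t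
    · obtain ⟨u, hu, h⟩ := h
      have hs : (u + t) / 2 ∉ C := fun h' => by linarith [h _ h' (by linarith)]
      have h1 : t < b ((u + t) / 2) := lt_of_lt_of_le (by linarith) (hbC _).2
      have h2 : a ((u + t) / 2) ≤ t := h _ (haC _).1 ((haC _).2.trans_lt (by linarith))
      exact (hgap _ hs t ⟨h2, h1.le⟩).mono_of_mem_nhdsWithin
        (mem_of_superset (Icc_mem_nhdsGE h1) (Icc_subset_Icc_left h2))
    · push Not at h
      have ht : t ∈ C := hC.closure_subset (Metric.mem_closure_iff.2 fun ε hε => by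
        obtain ⟨c, h1, h2, h3⟩ := h (t + ε) (by linarith)
        exact ⟨c, h1, by rw [Real.dist_eq, abs_lt]; constructor <;> linarith⟩)
      refine Metric.tendsto_nhds.2 fun ε hε => ?_
      obtain ⟨η, hη, H⟩ := hsmall t ht ε hε
      obtain ⟨c, h1, h2, h3⟩ := h (t + η) (by linarith)
      filter_upwards [Icc_mem_nhdsGE h3] with s hs
      have h4 := hale s t ht hs.1
      have h5 := hble s c h1 hs.2
      have h6 : a s ≤ s := (haC s).2
      have h7 : s ≤ b s := (hbC s).2
      refine H s ?_ ?_ <;> rw [mem_ball, Real.dist_eq, abs_lt] <;> constructor <;> linarith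

/-- The Hahn-Mazurkiewicz theorem. -/
theorem exists_surj_line [CompactSpace Y] [ConnectedSpace Y] [LocallyConnectedSpace Y] :
    ∃ g : ℝ → Y, Continuous g ∧ g '' Icc 0 1 = univ := by
  classical
  obtain ⟨f0, hf0, hs⟩ := exists_nat_bool_continuous_surjective_of_compact Y
  obtain ⟨y0⟩ : Nonempty Y := inferInstance
  let f : ℝ → Y := fun t =>
    if h : t ∈ cantorSet then f0 (cantorSetHomeomorphNatToBool ⟨t, h⟩) else y0
  have h1 : ContinuousOn f cantorSet := by
    rw [continuousOn_iff_continuous_domRestrict]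
    refine (hf0.comp cantorSetHomeomorphNatToBool.continuous).congr fun t => ?_
    simp [f, t.2]
  have h2 : ContinuousOn f (Iic (-1) ∪ Ici 2) := by
    refine (continuousOn_const (c := y0)).congr fun t ht => dif_neg fun h => ?_
    have := cantorSet_subset_unitInterval h
    rcases ht with ht | ht
    · linarith [mem_Iic.1 ht, this.1]
    · linarith [mem_Ici.1 ht, this.2]
  obtain ⟨g, hg, he⟩ := exists_ext (C := cantorSet ∪ (Iic (-1) ∪ Ici 2))
    (isClosed_cantorSet.union (isClosed_Iic.union isClosed_Ici))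
    (fun t => ⟨min t (-1), Or.inr (Or.inl (mem_Iic.2 (min_le_right _ _))),
      mem_Iic.2 (min_le_left _ _)⟩)
    (fun t => ⟨max t 2, Or.inr (Or.inr (mem_Ici.2 (le_max_right _ _))),
      mem_Ici.2 (le_max_left _ _)⟩)
    (h1.union_of_isClosed h2 isClosed_cantorSet (isClosed_Iic.union isClosed_Ici))
  refine ⟨g, hg, eq_univ_of_forall fun y => ?_⟩
  obtain ⟨x, rfl⟩ := hs y
  obtain ⟨t, rfl⟩ := cantorSetHomeomorphNatToBool.surjective x
  exact ⟨t, cantorSet_subset_unitInterval t.2, (he (Or.inl t.2)).trans (dif_pos t.2)⟩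

end Ext

variable {Y : Type} [MetricSpace Y]

theorem pcs_univ [CompactSpace Y] [ConnectedSpace Y] [LocallyConnectedSpace Y] :
    PCs (univ : Set Y) := by
  obtain ⟨g, hg, h⟩ := exists_surj_line (Y := Y)
  exact h ▸ ((sd_Icc zero_le_one).dim_image hg).pcs

theorem SD.nc {T : Set Y} (h : SD T) : NC T := by
  have := h.dend
  simpa using (nc_univ (Y := T)).image continuous_subtype_val Subtype.val_injective.injOn

theorem exists_adm_tile_of_cover [CompactSpace Y] [ConnectedSpace Y] (hM : PCs (univ : Set Y))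
    {T : ℕ → Set Y} (hT : ∀ n, SD (T n)) (hc : ⋃ n, T n = univ) :
    ∃ t : Tile Y, t.Adm ∧ Surjective t.g := by
  have hall : ∀ y : Y, Good y := by
    by_contra hcon
    set B := {y : Y | Good y}ᶜ with hBd
    have hB : IsClosed B := isOpen_good.isClosed_compl
    have hne : B.Nonempty := not_forall.1 hcon
    have := hne.to_subtype
    have : CompactSpace B := isCompact_iff_compactSpace.1 hB.isCompact
    obtain ⟨n, y, hy⟩ := nonempty_interior_of_iUnion_of_closed
      (f := fun n => ((↑) ⁻¹' T n : Set B))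
      (fun n => (hT n).closed.preimage continuous_subtype_val)
      (by rw [← preimage_iUnion, hc, preimage_univ])
    obtain ⟨r, hr, hb⟩ := Metric.mem_nhds_iff.1 (mem_interior_iff_mem_nhds.1 hy)
    exact y.2 (good_of_nc hM hB (fun y hy => not_not.1 hy) y.2 (half_pos hr)
      ((hT n).nc.subset (fun w hw => hb (a := ⟨w, hw.1⟩)
        ((mem_closedBall.1 hw.2).trans_lt (half_lt_self hr)))
        (hB.inter isClosed_closedBall).isCompact))
  obtain ⟨S, _, a1, a2⟩ := fin_cover isCompact_univ fun y _ => hall y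
  choose s hs using S.R_nonempty
  obtain ⟨y0⟩ : Nonempty Y := inferInstance
  obtain ⟨T, hT, h1, -⟩ := span_finite (sd_singleton y0) (subset_univ _) hM.ulpc isPreconnected_univ
    (finite_range s) (subset_univ _)
  obtain ⟨V, b1, b2, b3⟩ := a1.merge_tree (null_of_finite _) hT (fun y _ => S.lf_of_finite y)
    fun j => ⟨s j, hs j, h1 (Or.inr ⟨j, rfl⟩)⟩
  have hK : ∀ y, y ∈ V.K := fun y => b3 ▸ Or.inr (interior_subset (a2 (mem_univ y)))
  obtain ⟨j, -⟩ := mem_iUnion.1 (hK y0)
  refine ⟨V.t j, b2.tile j, fun y => ?_⟩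
  obtain ⟨i, hi⟩ := mem_iUnion.1 (hK y)
  rwa [Subsingleton.elim i j] at hi

/-- A space each of whose nonempty closed subsets has a relatively open piece inside a dendrite
is a countable union of dendrites. -/
theorem exists_cover_of_local [CompactSpace Y] [Nonempty Y]
    (h : ∀ B : Set Y, IsClosed B → B.Nonempty → ∃ y ∈ B, ∃ r > 0, ∃ T, SD T ∧ B ∩ ball y r ⊆ T) :
    ∃ T : ℕ → Set Y, (∀ n, SD (T n)) ∧ ⋃ n, T n = univ := by
  let P : Set Y → Prop := fun U => ∃ 𝒯 : Set (Set Y), 𝒯.Countable ∧ (∀ T ∈ 𝒯, SD T) ∧ U ⊆ ⋃₀ 𝒯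
  obtain ⟨𝒰, h1, h2, h3⟩ := TopologicalSpace.isOpen_sUnion_countable {U | IsOpen U ∧ P U}
    fun _ h => h.1
  have hP : P (⋃₀ {U | IsOpen U ∧ P U}) := by
    choose! 𝒯 a1 a2 a3 using fun U (hU : U ∈ 𝒰) => (h2 hU).2
    refine ⟨⋃ U ∈ 𝒰, 𝒯 U, h1.biUnion a1, fun T hT => ?_, ?_⟩
    · obtain ⟨U, hU, hT⟩ := mem_iUnion₂.1 hT
      exact a2 U hU T hT
    · rw [← h3]
      rintro x ⟨U, hU, hx⟩
      obtain ⟨T, hT, hx⟩ := a3 U hU hx
      exact ⟨T, mem_biUnion hU hT, hx⟩
  obtain ⟨𝒯, a1, a2, a3⟩ := hP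
  have hall : ∀ y, y ∈ ⋃₀ {U | IsOpen U ∧ P U} := by
    by_contra hcon
    obtain ⟨y, hy, r, hr, T, hT, hs⟩ := h (⋃₀ {U | IsOpen U ∧ P U})ᶜ
      (isOpen_sUnion fun _ h => h.1).isClosed_compl (not_forall.1 hcon)
    refine hy ⟨ball y r, ⟨isOpen_ball, insert T 𝒯, a1.insert _, ?_, fun w hw => ?_⟩,
      mem_ball_self hr⟩
    · rintro S (rfl | hS)
      exacts [hT, a2 S hS]
    · rw [sUnion_insert]
      by_cases hwU : w ∈ ⋃₀ {U | IsOpen U ∧ P U}
      · exact Or.inr (a3 hwU)
      · exact Or.inl (hs ⟨hwU, hw⟩)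
  obtain ⟨y0⟩ := ‹Nonempty Y›
  obtain ⟨T0, hT0, -⟩ := a3 (hall y0)
  obtain ⟨T, hT⟩ := a1.exists_eq_range ⟨T0, hT0⟩
  refine ⟨T, fun n => a2 _ (hT ▸ mem_range_self n), eq_univ_of_forall fun y => ?_⟩
  rw [← sUnion_range, ← hT]
  exact a3 (hall y)

theorem necessary [CompactSpace Y] {D : Type} [MetricSpace D] [Dend D] {f : D → Y}
    (hf : Continuous f) {k : ℕ} (hk : 1 < k) (h : ∀ y, (f ⁻¹' {y}).ncard = k) :
    LocallyConnectedSpace Y ∧ (∃ c : Circle → Y, Continuous c ∧ Injective c) ∧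
      ∃ T : ℕ → Set Y, (∀ n, SD (T n)) ∧ ⋃ n, T n = univ := by
  have hs : Surjective f := fun y =>
    nonempty_of_ncard_ne_zero (s := f ⁻¹' {y}) (by rw [h]; omega)
  have : ConnectedSpace Y := hs.connectedSpace hf
  have := (hf.isClosedMap.isQuotientMap hf hs).locallyPathConnectedSpace
  refine ⟨inferInstance, ?_, exists_cover_of_local fun B hB hne => ?_⟩
  · by_contra hc
    have : Dend Y := dend_of_no_circle fun g hg hi => hc ⟨g, hg, hi⟩
    exact gottschalk hf hk h
  · obtain ⟨y, hy, r, hr, hA⟩ := exists_nc_ball hf (by omega) h hB hne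
    obtain ⟨T, hT, hAT, -⟩ := span_nc ⟨pcs_univ, isConnected_univ, subset_univ _, hA⟩
    exact ⟨y, hy, r, hr, T, hT, (inter_subset_inter_right _ ball_subset_closedBall).trans hAT⟩

theorem sufficient [CompactSpace Y] [ConnectedSpace Y] [LocallyConnectedSpace Y]
    {c : Circle → Y} (hc : Continuous c) (hi : Injective c) {T : ℕ → Set Y} (hT : ∀ n, SD (T n))
    (hU : ⋃ n, T n = univ) {k : ℕ} (hk : 1 < k) :
    ∃ t : Tile Y, ∀ y, (t.g ⁻¹' {y}).ncard = k := by
  obtain ⟨t, ht, hs⟩ := exists_adm_tile_of_cover pcs_univ hT hU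
  have hi : ¬ Injective t.g := fun hj => by
    have : Dend Y := ⟨by
      simpa only [image_univ, hs.range_eq] using Dend.sd.image t.cont.continuousOn hj.injOn⟩
    exact no_circle c hc hi
  obtain ⟨T, hT⟩ := ht.exists_exact hs hi (k - 2)
  exact ⟨T, fun y => by rw [hT]; omega⟩

end Pool.Agent.Lib.MP_32448b_gt
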