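import Pool.Agent.Lib.MP_32448b_gt.Sys3
import Pool.Agent.Lib.MP_32448b_gt.Gott
import Pool.Agent.Lib.MP_32448b_gt.Conv

set_option autoImplicit false

open Set Metric Topology Filter Function

namespace Pool.Agent.Lib.MP_32448b_gt

theorem exists_exact {Y : Type} [MetricSpace Y] [CompactSpace Y] {D : Type} [MetricSpace D]
    [CompactSpace D] [ConnectedSpace D] [LocallyConnectedSpace D]
    (hD : ∀ g : Circle → D, Continuous g → ¬ Injective g) {f : D → Y} (hf : Continuous f) {k : ℕ}
    (hk : 1 < k) (h : ∀ y, (f ⁻¹' {y}).ncard = k) {m : ℕ} (hm : 1 < m) :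
    ∃ (X : Type) (_ : MetricSpace X) (_ : CompactSpace X) (_ : ConnectedSpace X)
      (_ : LocallyConnectedSpace X), (∀ g : Circle → X, Continuous g → ¬ Injective g) ∧
      ∃ g : X → Y, Continuous g ∧ ∀ y : Y, (g ⁻¹' {y}).ncard = m := by
  have := dend_of_no_circle hD
  obtain ⟨t, ht, hs⟩ := exists_adm_tile hf (by omega) h
  have hi : ¬ Injective t.g := fun hi => by
    have : Dend Y := ⟨by
      simpa only [image_univ, hs.range_eq] using Dend.sd.image t.cont.continuousOn hi.injOn⟩
    exact gottschalk hf hk h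
  obtain ⟨T, hT⟩ := ht.exists_exact hs hi (m - 2)
  exact ⟨T.E, inferInstance, inferInstance, inferInstance, inferInstance, no_circle, T.g, T.cont,
    fun y => by rw [hT]; omega⟩

end Pool.Agent.Lib.MP_32448b_gt
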