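import Pool.Agent.Lib.MP_32448b_gt.Blob

set_option autoImplicit false

open Set Metric Topology Filter Function

namespace Pool.Agent.Lib.MP_32448b_gt

variable {Y : Type} [MetricSpace Y] {Y' : Type} [MetricSpace Y']

theorem isClosed_conv {J : Type} {O g : J → Set Y} {C Z R : Set Y} (hn : Null O)
    (hl : ∀ η > 0, {j | ¬ O j ⊆ thickening η C}.Finite) (hC : IsClosed C) (hZ : IsClosed Z)
    (hR : IsClosed R) (hCR : C ∩ R ⊆ Z) {I : Set J} (hg : ∀ j ∈ I, IsClosed (g j))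
    (hgO : ∀ j ∈ I, g j ⊆ O j) (hOR : ∀ j ∈ I, (O j ∩ R).Nonempty) :
    IsClosed (Z ∪ ⋃ j ∈ I, g j) := by
  rw [← closure_subset_iff_isClosed, closure_union, hZ.closure_eq]
  rintro x (hx | hx)
  · exact Or.inl hx
  rcases mem_closure_iUnion_cases hg hx with ⟨i, hi, h⟩ | h
  · exact Or.inr (mem_biUnion hi h)
  refine Or.inl (hCR ⟨hC.closure_subset (Metric.mem_closure_iff.2 fun ε hε => ?_),
    hR.closure_subset (Metric.mem_closure_iff.2 fun ε hε => ?_)⟩)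
  · obtain ⟨i, hi, hs, y, hy, hxy⟩ := h _ (hl (ε / 2) (half_pos hε)) (ε / 2) (half_pos hε)
    obtain ⟨c, hc, hd⟩ := mem_thickening_iff.1 (not_not.1 hs (hgO i hi hy))
    exact ⟨c, hc, by linarith [dist_triangle x y c]⟩
  · obtain ⟨i, hi, hs, y, hy, hxy⟩ := h _ (hn (ε / 2) (half_pos hε)) (ε / 2) (half_pos hε)
    obtain ⟨a, ha, haR⟩ := hOR i hi
    have := not_not.1 hs y (hgO i hi hy) a ha
    exact ⟨a, haR, by linarith [dist_triangle x y a]⟩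

/-- Data describing a dendrite in a quotient with neighbourhoods of the collapsed points. -/
structure ND (Y Y' : Type) [MetricSpace Y] [MetricSpace Y'] where
  J : Type
  q : Y → Y'
  Δ : Set Y'
  s : J → Y'
  G : J → Set Y'
  O : J → Set Y'
  C : Set Y
  qc : Continuous q
  surj : Surjective q
  sd : SD Δ
  Go : ∀ j, IsOpen (G j)
  sG : ∀ j, s j ∈ Δ ∩ G j
  pre : ∀ j, IsPreconnected (Δ ∩ G j)
  fin : ∀ j, (closure (Δ ∩ G j) \ G j).Finite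
  Oo : ∀ j, IsOpen (O j)
  Od : Pairwise (Disjoint on O)
  GO : ∀ j, closure (Δ ∩ G j) ⊆ O j
  null : Null fun j => q ⁻¹' O j
  lim : ∀ η > 0, {j | ¬ q ⁻¹' O j ⊆ thickening η C}.Finite
  Cc : IsClosed C
  CX : C ⊆ q ⁻¹' (Δ \ ⋃ j, G j)
  inj : ∀ x y, q x = q y → q x ∉ range s → x = y

namespace ND

variable (D : ND Y Y')

/-- Closed neighbourhoods in the dendrite. -/
def N (j : D.J) : Set Y' := closure (D.Δ ∩ D.G j)

/-- The lifted remainder of the dendrite. -/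
def X : Set Y := D.q ⁻¹' (D.Δ \ ⋃ j, D.G j)

/-- The ports. -/
def π (j : D.J) : Set Y := D.q ⁻¹' (D.N j \ D.G j)

/-- Lifting of subsets of the dendrite. -/
def Λ (g : D.J → Set Y) (P : Set Y') : Set Y := (D.X ∩ D.q ⁻¹' P) ∪ ⋃ j ∈ {j | D.s j ∈ P}, g j

/-- Admissible fillings. -/
structure Fit (g : D.J → Set Y) : Prop where
  closed : ∀ j, IsClosed (g j)
  sub : ∀ j, g j ⊆ D.q ⁻¹' D.O j
  port : ∀ j, D.π j ⊆ g j
  inter : ∀ j, g j ∩ D.X ⊆ D.π j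

theorem N_sub (j : D.J) : D.N j ⊆ D.Δ := D.sd.closed.closure_subset_iff.2 inter_subset_left

theorem s_mem_N (j : D.J) : D.s j ∈ D.N j := subset_closure (D.sG j)

theorem N_pre (j : D.J) : IsPreconnected (D.N j) := (D.pre j).closure

theorem N_eq {i j : D.J} {w : Y'} (hi : w ∈ D.N i) (hj : w ∈ D.O j) : i = j := by
  by_contra h
  exact Set.disjoint_left.1 (D.Od h) (D.GO i hi) hj

theorem X_closed : IsClosed D.X := (D.sd.closed.sdiff (isOpen_iUnion D.Go)).preimage D.qc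

theorem X_inj {x y : Y} (hx : x ∈ D.X) (h : D.q x = D.q y) : x = y :=
  D.inj x y h fun ⟨j, hj⟩ => hx.2 (mem_iUnion.2 ⟨j, hj ▸ (D.sG j).2⟩)

theorem π_sub (j : D.J) : D.π j ⊆ D.X := fun x hx => ⟨D.N_sub j hx.1, fun h => by
  obtain ⟨i, hi⟩ := mem_iUnion.1 h
  obtain rfl := D.N_eq (subset_closure ⟨D.N_sub j hx.1, hi⟩ : D.q x ∈ D.N i) (D.GO j hx.1)
  exact hx.2 hi⟩

theorem π_fin (j : D.J) : (D.π j).Finite :=
  (D.fin j).preimage fun _ hx _ _ h => D.X_inj (D.π_sub j hx) h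

theorem mem_π {j : D.J} {x : Y} (hx : x ∈ D.X) (h : D.q x ∈ D.N j) : x ∈ D.π j :=
  ⟨h, fun h' => hx.2 (mem_iUnion.2 ⟨j, h'⟩)⟩

variable {D}

theorem Fit.eq {g : D.J → Set Y} (h : D.Fit g) {i j : D.J} {w : Y} (hi : w ∈ g i) (hj : w ∈ g j) :
    i = j := by
  by_contra hij
  exact Set.disjoint_left.1 (D.Od hij) (h.sub i hi) (h.sub j hj)

theorem Fit.isClosed_Λ {g : D.J → Set Y} (h : D.Fit g) {P : Set Y'} (hP : IsClosed P) :
    IsClosed (D.Λ g P) :=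
  isClosed_conv D.null D.lim D.Cc (D.X_closed.inter (hP.preimage D.qc)) (hP.preimage D.qc)
    (fun _ hx => ⟨D.CX hx.1, hx.2⟩) (fun j _ => h.closed j) (fun j _ => h.sub j) fun j hj => by
      obtain ⟨x, hx⟩ := D.surj (D.s j)
      exact ⟨x, show D.q x ∈ D.O j from hx ▸ D.GO j (D.s_mem_N j), show D.q x ∈ P from hx ▸ hj⟩

theorem Fit.isClosed {g : D.J → Set Y} (h : D.Fit g) : IsClosed (D.X ∪ ⋃ j, g j) := by
  simpa [Λ] using h.isClosed_Λ isClosed_univ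

theorem Fit.inter_Λ {g : D.J → Set Y} (h : D.Fit g) {P Q : Set Y'} {w : Y} (hP : w ∈ D.Λ g P)
    (hQ : w ∈ D.Λ g Q) : (w ∈ D.X ∧ D.q w ∈ P ∧ D.q w ∈ Q) ∨
      ∃ i, (D.s i ∈ P ∨ D.s i ∈ Q) ∧ (D.N i ∩ P).Nonempty ∧ (D.N i ∩ Q).Nonempty := by
  rcases hP with hP | hP <;> rcases hQ with hQ | hQ
  · exact Or.inl ⟨hP.1, hP.2, hQ.2⟩
  · obtain ⟨i, hi, hw⟩ := mem_iUnion₂.1 hQ
    exact Or.inr ⟨i, Or.inr hi, ⟨_, (h.inter i ⟨hw, hP.1⟩).1, hP.2⟩, _, D.s_mem_N i, hi⟩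
  · obtain ⟨i, hi, hw⟩ := mem_iUnion₂.1 hP
    exact Or.inr ⟨i, Or.inl hi, ⟨_, D.s_mem_N i, hi⟩, _, (h.inter i ⟨hw, hQ.1⟩).1, hQ.2⟩
  · obtain ⟨i, hi, hw⟩ := mem_iUnion₂.1 hP
    obtain ⟨j, hj, hw'⟩ := mem_iUnion₂.1 hQ
    obtain rfl := h.eq hw hw'
    exact Or.inr ⟨i, Or.inl hi, ⟨_, D.s_mem_N i, hi⟩, _, D.s_mem_N i, hj⟩

theorem Fit.pre [CompactSpace Y] {g : D.J → Set Y} (h : D.Fit g) (hc : ∀ j, IsConnected (g j)) :
    IsPreconnected (D.X ∪ ⋃ j, g j) := by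
  have huc := CompactSpace.uniformContinuous_of_continuous D.qc
  have hsub : ∀ j, D.O j ⊆ D.q '' (D.q ⁻¹' D.O j) := fun j => (image_preimage_eq _ D.surj).ge
  have hcl : ∀ P : Set Y, IsClosed P →
      IsClosed (D.q '' (D.X ∩ P) ∪ ⋃ j ∈ {j | g j ⊆ P}, D.N j) := by
    intro P hP
    refine isClosed_conv (O := D.O) (C := D.q '' D.C) (R := D.q '' P) ((D.null.image huc).mono hsub)
      (fun η hη => ?_) (D.Cc.isCompact.image D.qc).isClosed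
      ((D.X_closed.inter hP).isCompact.image D.qc).isClosed (hP.isCompact.image D.qc).isClosed ?_
      (fun _ _ => isClosed_closure) (fun j _ => D.GO j) fun j hj => ?_
    · obtain ⟨δ, hδ, H⟩ := Metric.uniformContinuous_iff.1 huc η hη
      refine (D.lim δ hδ).subset fun j hj hs => hj fun w hw => ?_
      obtain ⟨x, rfl⟩ := D.surj w
      obtain ⟨c, hc, hd⟩ := mem_thickening_iff.1 (hs hw)
      exact mem_thickening_iff.2 ⟨_, ⟨c, hc, rfl⟩, H hd⟩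
    · rintro _ ⟨⟨c, hc, rfl⟩, p, hp, e⟩
      obtain rfl := D.X_inj (D.CX hc) e.symm
      exact ⟨c, ⟨D.CX hc, hp⟩, rfl⟩
    · obtain ⟨x, hx⟩ := (hc j).nonempty
      exact ⟨D.q x, h.sub j hx, x, hj hx, rfl⟩
  rw [isPreconnected_closed_iff]
  intro P Q hP hQ hPQ ha hb
  by_contra hcon
  have hdis : ∀ w ∈ D.X ∪ ⋃ j, g j, w ∈ P → w ∈ Q → False := fun w h1 h2 h3 => hcon ⟨w, h1, h2, h3⟩
  have hg : ∀ j, g j ⊆ D.X ∪ ⋃ j, g j := fun j => (subset_iUnion g j).trans subset_union_right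
  have hor : ∀ j, g j ⊆ P ∨ g j ⊆ Q := fun j =>
    isPreconnected_iff_subset_of_disjoint_closed.1 (hc j).isPreconnected P Q hP hQ
      ((hg j).trans hPQ) (eq_empty_of_forall_notMem fun w hw => hdis w (hg j hw.1) hw.2.1 hw.2.2)
  have hne : ∀ P Q : Set Y, (∀ w ∈ D.X ∪ ⋃ j, g j, w ∈ P → w ∈ Q → False) →
      (∀ j, g j ⊆ P ∨ g j ⊆ Q) → ((D.X ∪ ⋃ j, g j) ∩ P).Nonempty →
      (D.Δ ∩ (D.q '' (D.X ∩ P) ∪ ⋃ j ∈ {j | g j ⊆ P}, D.N j)).Nonempty := by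
    rintro P Q h1 h2 ⟨a, ha | ha, haP⟩
    · exact ⟨D.q a, ha.1, Or.inl ⟨a, ⟨ha, haP⟩, rfl⟩⟩
    · obtain ⟨j, hj⟩ := mem_iUnion.1 ha
      exact ⟨D.s j, (D.sG j).1, Or.inr (mem_biUnion (x := j)
        ((h2 j).resolve_right fun h' => h1 a (hg j hj) haP (h' hj)) (D.s_mem_N j))⟩
  obtain ⟨w, -, h1, h2⟩ := isPreconnected_closed_iff.1 D.sd.pre _ _ (hcl P hP) (hcl Q hQ) (by
      intro w hw
      by_cases h' : w ∈ ⋃ j, D.G j
      · obtain ⟨j, hj⟩ := mem_iUnion.1 h'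
        rcases hor j with h'' | h''
        · exact Or.inl (Or.inr (mem_biUnion (x := j) h'' (subset_closure ⟨hw, hj⟩)))
        · exact Or.inr (Or.inr (mem_biUnion (x := j) h'' (subset_closure ⟨hw, hj⟩)))
      · obtain ⟨x, rfl⟩ := D.surj w
        rcases hPQ (Or.inl ⟨hw, h'⟩) with h'' | h''
        · exact Or.inl (Or.inl ⟨x, ⟨⟨hw, h'⟩, h''⟩, rfl⟩)
        · exact Or.inr (Or.inl ⟨x, ⟨⟨hw, h'⟩, h''⟩, rfl⟩))
    (hne P Q hdis hor ha) (hne Q P (fun w a b c => hdis w a c b) (fun j => (hor j).symm) hb)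
  rcases h1 with ⟨x, hx, rfl⟩ | h1 <;> rcases h2 with ⟨y, hy, e⟩ | h2
  · obtain rfl := D.X_inj hy.1 e
    exact hdis y (Or.inl hy.1) hx.2 hy.2
  · obtain ⟨j, hj, hw⟩ := mem_iUnion₂.1 h2
    exact hdis x (Or.inl hx.1) hx.2 (hj (h.port j (D.mem_π hx.1 hw)))
  · obtain ⟨j, hj, hw⟩ := mem_iUnion₂.1 h1
    exact hdis y (Or.inl hy.1) (hj (h.port j (D.mem_π hy.1 (e ▸ hw)))) hy.2
  · obtain ⟨i, hi, hw⟩ := mem_iUnion₂.1 h1
    obtain ⟨j, hj, hw'⟩ := mem_iUnion₂.1 h2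
    obtain rfl := D.N_eq hw (D.GO j hw')
    obtain ⟨x, hx⟩ := (hc i).nonempty
    exact hdis x (hg i hx) (hi hx) (hj hx)

theorem Fit.sep {g : D.J → Set Y} (h : D.Fit g) {x y : Y} (hx : x ∈ D.X ∪ ⋃ j, g j)
    (hy : y ∈ D.X ∪ ⋃ j, g j) (hxy : x ≠ y) (hj : ∀ j, x ∈ g j → y ∉ g j) :
    ∃ z, Sep (D.X ∪ ⋃ j, g j) z x y := by
  have hrep : ∀ x ∈ D.X ∪ ⋃ j, g j, ∃ x' ∈ D.Δ, (∀ j, x' ∈ D.N j → x ∈ g j) ∧
      ((x ∈ D.X ∧ x' = D.q x) ∨ (x ∉ D.X ∧ ∃ j, x ∈ g j ∧ x' = D.s j)) := by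
    intro x hx
    by_cases hX : x ∈ D.X
    · exact ⟨D.q x, hX.1, fun j hj => h.port j (D.mem_π hX hj), Or.inl ⟨hX, rfl⟩⟩
    · obtain ⟨i, hi⟩ := mem_iUnion.1 (hx.resolve_left hX)
      exact ⟨D.s i, (D.sG i).1, fun j hj => D.N_eq (D.s_mem_N i) (D.GO j hj) ▸ hi,
        Or.inr ⟨hX, i, hi, rfl⟩⟩
  obtain ⟨x', hx'Δ, hx1, hx2⟩ := hrep x hx
  obtain ⟨y', hy'Δ, hy1, hy2⟩ := hrep y hy
  have hne : x' ≠ y' := by
    rintro rfl
    rcases hx2 with ⟨a, e⟩ | ⟨-, i, a, e⟩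
    · rcases hy2 with ⟨-, e'⟩ | ⟨-, j, b, e'⟩
      · exact hxy (D.X_inj a (e.symm.trans e'))
      · exact hj j (hx1 j (e' ▸ D.s_mem_N j)) b
    · exact hj i a (hy1 i (e ▸ D.s_mem_N i))
  obtain ⟨α, hα, hαΔ, hsep, -⟩ := D.sd.exists_arc hx'Δ hy'Δ hne
  have hex : ∃ t ∈ Ioo (0 : ℝ) 1, ∀ j, α t ∉ D.N j := by
    by_contra hcon
    push Not at hcon
    obtain ⟨j, hj'⟩ := hcon (1 / 2) ⟨by norm_num, by norm_num⟩
    have h1 : α '' Ioo 0 1 ⊆ D.O j := by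
      refine (isPreconnected_Ioo.image α hα.cont.continuousOn).subset_left_of_subset_union
        (v := ⋃ i ∈ {i | i ≠ j}, D.O i) (D.Oo j) (isOpen_biUnion fun i _ => D.Oo i) ?_ ?_
        ⟨_, ⟨1 / 2, ⟨by norm_num, by norm_num⟩, rfl⟩, D.GO j hj'⟩
      · simp only [disjoint_iUnion_right]
        exact fun i hi => D.Od (Ne.symm hi)
      · rintro _ ⟨t, ht, rfl⟩
        obtain ⟨i, hi⟩ := hcon t ht
        by_cases hij : i = j
        · exact Or.inl (hij ▸ D.GO i hi)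
        · exact Or.inr (mem_biUnion (x := i) hij (D.GO i hi))
    have h2 : closure (Ioo (0 : ℝ) 1) ⊆ α ⁻¹' D.N j := by
      refine closure_minimal (fun t ht => ?_) (isClosed_closure.preimage hα.cont)
      obtain ⟨i, hi⟩ := hcon t ht
      exact D.N_eq hi (h1 ⟨t, ht, rfl⟩) ▸ hi
    rw [closure_Ioo zero_ne_one] at h2
    exact hj j (hx1 j (hα.zero ▸ h2 (by simp))) (hy1 j (hα.one ▸ h2 (by simp)))
  obtain ⟨t, ht, hz⟩ := hex
  obtain ⟨P, Q, hP, hQ, hPQ, hzz, hxQ, hyP⟩ := hsep t ht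
  obtain ⟨z, hqz⟩ := D.surj (α t)
  have hN : ∀ i, (D.N i ∩ P).Nonempty → (D.N i ∩ Q).Nonempty → False := fun i h1 h2 => by
    obtain ⟨w, hw, h3, h4⟩ := isPreconnected_closed_iff.1 (D.N_pre i) P Q hP hQ
      ((D.N_sub i).trans hPQ) h1 h2
    exact hz i (hzz w (D.N_sub i hw) h3 h4 ▸ hw)
  have hout : ∀ {P Q : Set Y'} {x : Y} {x' : Y'}, x' ∈ P → x' ∉ Q →
      (∀ i, (D.N i ∩ P).Nonempty → (D.N i ∩ Q).Nonempty → False) →
      ((x ∈ D.X ∧ x' = D.q x) ∨ (x ∉ D.X ∧ ∃ j, x ∈ g j ∧ x' = D.s j)) → x ∉ D.Λ g Q := by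
    rintro P Q x x' h1 h2 h3 h4 h5
    have h6 : x ∈ D.Λ g P := by
      rcases h4 with ⟨a, rfl⟩ | ⟨-, j, a, rfl⟩
      · exact Or.inl ⟨a, h1⟩
      · exact Or.inr (mem_biUnion (x := j) h1 a)
    rcases h.inter_Λ h6 h5 with ⟨a, -, b⟩ | ⟨i, -, a, b⟩
    · rcases h4 with ⟨-, rfl⟩ | ⟨c, -⟩
      · exact h2 b
      · exact c a
    · exact h3 i a b
  refine ⟨z, D.Λ g P, D.Λ g Q, h.isClosed_Λ hP, h.isClosed_Λ hQ, ?_, fun w _ h1 h2 => ?_,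
    hout ((hPQ hx'Δ).resolve_right hxQ) hxQ hN hx2,
    hout ((hPQ hy'Δ).resolve_left hyP) hyP (fun i a b => hN i b a) hy2⟩
  · rintro w (hw | hw)
    · exact (hPQ hw.1).imp (fun h => Or.inl ⟨hw, h⟩) fun h => Or.inl ⟨hw, h⟩
    · obtain ⟨j, hj⟩ := mem_iUnion.1 hw
      exact (hPQ (D.sG j).1).imp (fun h => Or.inr (mem_biUnion (x := j) h hj))
        fun h => Or.inr (mem_biUnion (x := j) h hj)
  · rcases h.inter_Λ h1 h2 with ⟨a, b, c⟩ | ⟨i, -, a, b⟩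
    · exact D.X_inj a ((hzz _ a.1 b c).trans hqz.symm)
    · exact (hN i a b).elim

theorem exists_branches (D : ND Y Y') (j : D.J) : ∃ R : Y' → Set Y',
    (∀ b, IsClosed (R b)) ∧ (∀ b ∈ D.N j \ D.G j, R b ∩ D.N j = {b}) ∧
    (∀ w ∈ D.Δ \ D.G j, ∃ b ∈ D.N j \ D.G j, w ∈ R b) ∧
    ∀ b ∈ D.N j \ D.G j, ∀ c ∈ D.N j \ D.G j, b ≠ c → Disjoint (R b) (R c) := by
  have hpre : ∀ b ∈ D.N j, IsPreconnected (insert b (D.Δ ∩ D.G j)) := fun b hb =>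
    (D.pre j).subset_closure (subset_insert _ _) (insert_subset hb subset_closure)
  have hR : ∀ b ∈ D.N j \ D.G j,
      (D.Δ \ connectedComponentIn (D.Δ \ {b}) (D.s j)) ∩ D.N j = {b} := by
    intro b hb
    refine eq_singleton_iff_unique_mem.2 ⟨⟨⟨D.N_sub j hb.1, fun h =>
      (connectedComponentIn_subset _ _ h).2 rfl⟩, hb.1⟩, fun c hc => ?_⟩
    by_contra hne
    refine hc.1.2 ((hpre c hc.2).subset_connectedComponentIn (F := D.Δ \ {b}) (Or.inr (D.sG j)) ?_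
      (mem_insert _ _))
    rintro u (rfl | hu)
    · exact ⟨hc.1.1, hne⟩
    · exact ⟨hu.1, fun (e : u = b) => hb.2 (e ▸ hu.2)⟩
  refine ⟨fun b => D.Δ \ connectedComponentIn (D.Δ \ {b}) (D.s j),
    fun b => D.sd.isClosed_diff_cc _ _, hR, fun w hw => ?_, fun b hb c hc hbc => ?_⟩
  · obtain ⟨α, hα, hαΔ, hsep, -⟩ := D.sd.exists_arc (D.sG j).1 hw.1
      (fun e => hw.2 (e ▸ (D.sG j).2))
    have : (α '' Icc 0 1 ∩ (D.N j \ D.G j)).Nonempty := by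
      obtain ⟨u, hu, h1, h2⟩ := isPreconnected_closed_iff.1 (hα.pre 0 1) (D.N j) (D.G j)ᶜ
        isClosed_closure (D.Go j).isClosed_compl (fun u hu => by
          by_cases h : u ∈ D.G j
          · exact Or.inl (subset_closure ⟨hαΔ hu, h⟩)
          · exact Or.inr h) ⟨_, ⟨0, by simp, hα.zero⟩, D.s_mem_N j⟩ ⟨_, ⟨1, by simp, hα.one⟩, hw.2⟩
      exact ⟨u, hu, h1, h2⟩
    obtain ⟨_, ⟨t, ht, rfl⟩, hb⟩ := this
    refine ⟨α t, hb, hw.1, fun hc => ?_⟩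
    rcases ht.1.eq_or_lt with rfl | h0
    · exact hb.2 (hα.zero ▸ (D.sG j).2)
    rcases ht.2.eq_or_lt with rfl | h1
    · exact (connectedComponentIn_subset _ _ hc).2 hα.one.symm
    have hs : D.s j ∈ D.Δ \ {α t} := ⟨(D.sG j).1, fun (e : D.s j = α t) => hb.2 (e ▸ (D.sG j).2)⟩
    exact (connectedComponentIn_subset _ _ ((hsep t ⟨h0, h1⟩).mem isPreconnected_connectedComponentIn
      ((connectedComponentIn_subset _ _).trans sdiff_subset) (mem_connectedComponentIn hs) hc).1).2 rfl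
  · have hb' : b ∈ (D.Δ \ connectedComponentIn (D.Δ \ {b}) (D.s j)) ∩ D.N j := (hR b hb).symm ▸ rfl
    rw [Set.disjoint_left]
    intro w h1 h2
    refine h2.2 (((D.sd.pre_diff_cc b (D.s j)).union b hb'.1 (mem_insert _ _)
      (hpre b hb.1)).subset_connectedComponentIn (F := D.Δ \ {c}) (Or.inr (Or.inr (D.sG j))) ?_
      (Or.inl h1))
    rintro u (hu | rfl | hu)
    · exact ⟨hu.1, fun (e : u = c) => hbc ((hR b hb).subset ⟨e ▸ hu, hc.1⟩).symm⟩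
    · exact ⟨D.N_sub j hb.1, hbc⟩
    · exact ⟨hu.1, fun (e : u = c) => hc.2 (e ▸ hu.2)⟩

theorem Fit.lift {g : D.J → Set Y} (h : D.Fit g) {j : D.J} {x y z : Y} (hx : x ∈ g j) (hy : y ∈ g j)
    (hs : Sep (g j) z x y) : Sep (D.X ∪ ⋃ j, g j) z x y := by
  obtain ⟨R, hR1, hR2, hR3, hR4⟩ := D.exists_branches j
  obtain ⟨P, Q, hP, hQ, hPQ, hz, hxQ, hyP⟩ := hs
  set P' := ⋃ b ∈ D.π j ∩ P, R (D.q b) with hP'
  set Q' := ⋃ b ∈ D.π j \ P, R (D.q b) with hQ'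
  have hPc : IsClosed P' := ((D.π_fin j).subset inter_subset_left).isClosed_biUnion fun _ _ => hR1 _
  have hQc : IsClosed Q' := ((D.π_fin j).subset sdiff_subset).isClosed_biUnion fun _ _ => hR1 _
  have hdis : ∀ w ∈ P', w ∉ Q' := by
    intro w h1 h2
    obtain ⟨b, hb, h1⟩ := mem_iUnion₂.1 h1
    obtain ⟨c, hc, h2⟩ := mem_iUnion₂.1 h2
    exact Set.disjoint_left.1 (hR4 _ hb.1 _ hc.1 fun e =>
      hc.2 (D.X_inj (D.π_sub j hb.1) e ▸ hb.2)) h1 h2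
  have hcov : ∀ w ∈ D.Δ \ D.G j, w ∈ P' ∪ Q' := by
    intro w hw
    obtain ⟨b, hb, h⟩ := hR3 w hw
    obtain ⟨b, rfl⟩ := D.surj b
    by_cases hbP : b ∈ P
    · exact Or.inl (mem_biUnion (x := b) ⟨hb, hbP⟩ h)
    · exact Or.inr (mem_biUnion (x := b) ⟨hb, hbP⟩ h)
  have hin : ∀ S ⊆ D.π j, ∀ w ∈ g j, w ∈ D.Λ g (⋃ b ∈ S, R (D.q b)) → w ∈ S := by
    rintro S hS w hw (h1 | h1)
    · obtain ⟨b, hb, h2⟩ := mem_iUnion₂.1 h1.2
      have := (hR2 _ (hS hb)).subset ⟨h2, (h.inter j ⟨hw, h1.1⟩).1⟩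
      exact D.X_inj h1.1 this ▸ hb
    · obtain ⟨i, hi, h2⟩ := mem_iUnion₂.1 h1
      obtain rfl := h.eq h2 hw
      obtain ⟨b, hb, h3⟩ := mem_iUnion₂.1 hi
      have : D.s i = D.q b := (hR2 _ (hS hb)).subset ⟨h3, D.s_mem_N i⟩
      exact absurd (this ▸ (D.sG i).2) (hS hb).2
  have hNi : ∀ i, i ≠ j → D.N i ⊆ D.Δ \ D.G j := fun i hij w hw => ⟨D.N_sub i hw, fun h' =>
    hij (D.N_eq hw (D.GO j (subset_closure ⟨D.N_sub i hw, h'⟩)))⟩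
  refine ⟨(P ∩ g j) ∪ D.Λ g P', (Q ∩ g j) ∪ D.Λ g Q', (hP.inter (h.closed j)).union
    (h.isClosed_Λ hPc), (hQ.inter (h.closed j)).union (h.isClosed_Λ hQc), ?_, ?_, ?_, ?_⟩
  · rintro w (hw | hw)
    · exact (hcov _ ⟨hw.1, fun h' => hw.2 (mem_iUnion.2 ⟨j, h'⟩)⟩).imp
        (fun h => Or.inr (Or.inl ⟨hw, h⟩)) fun h => Or.inr (Or.inl ⟨hw, h⟩)
    · obtain ⟨i, hi⟩ := mem_iUnion.1 hw
      by_cases hij : i = j
      · subst hij
        exact (hPQ hi).imp (fun h => Or.inl ⟨h, hi⟩) fun h => Or.inl ⟨h, hi⟩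
      · exact (hcov _ (hNi i hij (D.s_mem_N i))).imp
          (fun h => Or.inr (Or.inr (mem_biUnion (x := i) h hi)))
          fun h => Or.inr (Or.inr (mem_biUnion (x := i) h hi))
  · rintro w - (h1 | h1) (h2 | h2)
    · exact hz w h1.2 h1.1 h2.1
    · exact absurd h1.1 (hin _ sdiff_subset w h1.2 h2).2
    · exact hz w h2.2 (hin _ inter_subset_left w h2.2 h1).2 h2.1
    · rcases h.inter_Λ h1 h2 with ⟨-, b, c⟩ | ⟨i, hi, a, b⟩
      · exact absurd c (hdis _ b)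
      · have hij : i ≠ j := by
          rintro rfl
          have : ∀ S ⊆ D.π i, D.s i ∉ ⋃ b ∈ S, R (D.q b) := fun S hS h' => by
            obtain ⟨b, hb, h3⟩ := mem_iUnion₂.1 h'
            have : D.s i = D.q b := (hR2 _ (hS hb)).subset ⟨h3, D.s_mem_N i⟩
            exact absurd (this ▸ (D.sG i).2) (hS hb).2
          exact hi.elim (this _ inter_subset_left) (this _ sdiff_subset)
        obtain ⟨u, -, h3, h4⟩ := isPreconnected_closed_iff.1 (D.N_pre i) P' Q' hPc hQc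
          (fun w hw => hcov w (hNi i hij hw)) a b
        exact absurd h4 (hdis u h3)
  · rintro (h1 | h1)
    · exact hxQ h1.1
    · exact (hPQ hx).elim (hin _ sdiff_subset x hx h1).2 hxQ
  · rintro (h1 | h1)
    · exact hyP h1.1
    · exact hyP (hin _ inter_subset_left y hy h1).2

end ND

end Pool.Agent.Lib.MP_32448b_gt
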