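import Pool.Agent.Lib.MP_32448b_gt.Glue

set_option autoImplicit false

open Set Metric Topology Filter Function

namespace Pool.Agent.Lib.MP_32448b_gt

variable {Y : Type} [MetricSpace Y] {Y' : Type} [MetricSpace Y']

/-- Continuous image of a dendrite. -/
def Dim (S : Set Y) : Prop := ∃ t : Tile Y, range t.g = S

/-- Finite union of continuous images of dendrites. -/
def PCs (M : Set Y) : Prop := ∃ 𝒮 : Set (Set Y), 𝒮.Finite ∧ (∀ S ∈ 𝒮, Dim S) ∧ ⋃₀ 𝒮 = M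

/-- Uniform local path connectedness of a set. -/
def ULPC (M : Set Y) : Prop :=
  ∀ ε > 0, ∃ δ > 0, ∀ x ∈ M, ∀ y ∈ M, dist x y < δ → JoinedIn (M ∩ ball x ε) x y

/-- The tile given by a subdendrite of the source of a map. -/
def Tile.ofSD {E : Type} [MetricSpace E] {T : Set E} (h : SD T) (g : E → Y) (hg : Continuous g) :
    Tile Y :=
  @Tile.mk Y _ T inferInstance h.dend (fun x => g x) (hg.comp continuous_subtype_val)

theorem Tile.range_ofSD {E : Type} [MetricSpace E] {T : Set E} (h : SD T) (g : E → Y)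
    (hg : Continuous g) : range (Tile.ofSD h g hg).g = g '' T :=
  (image_eq_range g T).symm

theorem Dim.compact {S : Set Y} (h : Dim S) : IsCompact S := by
  obtain ⟨t, rfl⟩ := h
  exact isCompact_range t.cont

theorem Dim.isPathConnected {S : Set Y} (h : Dim S) : IsPathConnected S := by
  obtain ⟨t, rfl⟩ := h
  have : PathConnectedSpace t.E := PathConnectedSpace.of_locallyPathConnectedSpace
  exact isPathConnected_range t.cont

theorem SD.dim_image {E : Type} [MetricSpace E] {T : Set E} (h : SD T) {g : E → Y}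
    (hg : Continuous g) : Dim (g '' T) := ⟨_, Tile.range_ofSD h g hg⟩

theorem SD.dim {T : Set Y} (h : SD T) : Dim T := by simpa using h.dim_image continuous_id

theorem Dim.image {S : Set Y} (h : Dim S) {q : Y → Y'} (hq : Continuous q) : Dim (q '' S) := by
  obtain ⟨t, rfl⟩ := h
  exact ⟨⟨t.E, q ∘ t.g, hq.comp t.cont⟩, range_comp q t.g⟩

theorem Dim.pcs {S : Set Y} (h : Dim S) : PCs S :=
  ⟨{S}, finite_singleton _, by simpa, by simp⟩

theorem pcs_empty : PCs (∅ : Set Y) := ⟨∅, finite_empty, by simp, by simp⟩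

theorem PCs.union {A B : Set Y} (hA : PCs A) (hB : PCs B) : PCs (A ∪ B) := by
  obtain ⟨𝒮, h1, h2, rfl⟩ := hA
  obtain ⟨𝒯, h3, h4, rfl⟩ := hB
  exact ⟨𝒮 ∪ 𝒯, h1.union h3, fun S hS => hS.elim (h2 S) (h4 S), sUnion_union _ _⟩

theorem pcs_biUnion {ι : Type*} {I : Set ι} (hI : I.Finite) {A : ι → Set Y}
    (h : ∀ i ∈ I, PCs (A i)) : PCs (⋃ i ∈ I, A i) := by
  induction I, hI using Set.Finite.induction_on with
  | empty => simpa using pcs_empty
  | insert _ _ ih =>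
    rw [biUnion_insert]
    exact (h _ (mem_insert _ _)).union (ih fun i hi => h i (mem_insert_of_mem _ hi))

theorem PCs.compact {M : Set Y} (h : PCs M) : IsCompact M := by
  obtain ⟨𝒮, h1, h2, rfl⟩ := h
  exact h1.isCompact_sUnion fun S hS => (h2 S hS).compact

theorem PCs.image {M : Set Y} (h : PCs M) {q : Y → Y'} (hq : Continuous q) : PCs (q '' M) := by
  obtain ⟨𝒮, h1, h2, rfl⟩ := h
  rw [sUnion_eq_biUnion, image_iUnion₂]
  exact pcs_biUnion h1 fun S hS => ((h2 S hS).image hq).pcs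

theorem exists_dim_of_joinedIn {W : Set Y} {x y : Y} (h : JoinedIn W x y) :
    ∃ S, Dim S ∧ S ⊆ W ∧ x ∈ S ∧ y ∈ S := by
  obtain ⟨γ, hγ⟩ := h
  refine ⟨γ.extend '' Icc 0 1, (sd_Icc zero_le_one).dim_image γ.continuous_extend, ?_,
    ⟨0, by simp, γ.extend_zero⟩, ⟨1, by simp, γ.extend_one⟩⟩
  rintro _ ⟨t, ht, rfl⟩
  rw [γ.extend_apply ht]
  exact hγ _

theorem PCs.fine {M : Set Y} (h : PCs M) {ε : ℝ} (hε : 0 < ε) :
    ∃ 𝒮 : Set (Set Y), 𝒮.Finite ∧ (∀ S ∈ 𝒮, Dim S ∧ Small S ε) ∧ ⋃₀ 𝒮 = M := by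
  obtain ⟨𝒮, h1, h2, rfl⟩ := h
  have key : ∀ S ∈ 𝒮, ∃ 𝒯 : Set (Set Y), 𝒯.Finite ∧ (∀ S ∈ 𝒯, Dim S ∧ Small S ε) ∧ ⋃₀ 𝒯 = S := by
    intro S hS
    obtain ⟨t, rfl⟩ := h2 S hS
    obtain ⟨δ, hδ, H⟩ := Metric.uniformContinuous_iff.1
      (CompactSpace.uniformContinuous_of_continuous t.cont) ε hε
    obtain ⟨P, hP, -, hs⟩ := exists_chop (E := t.E) countable_empty hδ
    refine ⟨range fun i => t.g '' P.Φ i, finite_range _, ?_, ?_⟩
    · rintro _ ⟨i, rfl⟩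
      refine ⟨(P.sd i).dim_image t.cont, ?_⟩
      rintro _ ⟨x, hx, rfl⟩ _ ⟨y, hy, rfl⟩
      exact H (hs i x hx y hy)
    · rw [sUnion_range]
      refine Subset.antisymm (iUnion_subset fun i => image_subset_range _ _) ?_
      rintro _ ⟨x, rfl⟩
      obtain ⟨i, hi⟩ := P.cover x id
      exact mem_iUnion.2 ⟨i, x, hi, rfl⟩
  choose! 𝒯 h3 h4 h5 using key
  refine ⟨⋃ S ∈ 𝒮, 𝒯 S, h1.biUnion h3, fun S hS => ?_, ?_⟩
  · obtain ⟨S', hS', h⟩ := mem_iUnion₂.1 hS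
    exact h4 S' hS' S h
  · ext y
    constructor
    · rintro ⟨S, hS, hy⟩
      obtain ⟨S', hS', h⟩ := mem_iUnion₂.1 hS
      exact ⟨S', hS', h5 S' hS' ▸ ⟨S, h, hy⟩⟩
    · rintro ⟨S', hS', hy⟩
      rw [← h5 S' hS'] at hy
      obtain ⟨S, h, hy⟩ := hy
      exact ⟨S, mem_biUnion hS' h, hy⟩

theorem PCs.ulpc {M : Set Y} (h : PCs M) : ULPC M := by
  intro ε hε
  obtain ⟨𝒮, h1, h2, rfl⟩ := h.fine (half_pos hε)
  obtain ⟨l, hl, H⟩ := exists_sep_finite h1 (K := id) fun S hS => (h2 S hS).1.compact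
  refine ⟨l, hl, ?_⟩
  rintro x ⟨S, hS, hx⟩ y ⟨S', hS', hy⟩ hxy
  have hne := H S hS S' hS' x hx y hy hxy
  have hs := (h2 S hS).2.union (h2 S' hS').2 hne
  rw [add_halves] at hs
  refine (((h2 S hS).1.isPathConnected.union (h2 S' hS').1.isPathConnected hne).joinedIn x
    (Or.inl hx) y (Or.inr hy)).mono fun w hw => ⟨?_, mem_ball'.2 (hs x (Or.inl hx) w hw)⟩
  exact hw.elim (fun h => ⟨S, hS, h⟩) fun h => ⟨S', hS', h⟩

theorem ULPC.joinedIn {M : Set Y} (h : ULPC M) (hM : IsPreconnected M) {x y : Y} (hx : x ∈ M)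
    (hy : y ∈ M) : JoinedIn M x y := by
  obtain ⟨δ, hδ, H⟩ := h 1 one_pos
  refine hM.induction₂' (fun a b => JoinedIn M a b) ?_ (fun a b c _ _ _ h1 h2 => h1.trans h2) hx hy
  intro a ha
  filter_upwards [self_mem_nhdsWithin, mem_nhdsWithin_of_mem_nhds (ball_mem_nhds a hδ)]
    with b hb hab
  have := (H a ha b hb (mem_ball'.1 hab)).mono inter_subset_left
  exact ⟨this, this.symm⟩

end Pool.Agent.Lib.MP_32448b_gt
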