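import Pool.Agent.Lib.MP_32448b_gt.Basic

set_option autoImplicit false

open Set Metric Topology Filter Function

namespace Pool.Agent.Lib.MP_32448b_gt

theorem exists_seq_rec {α : Type*} (P : ℕ → α → Prop) (R : ℕ → α → α → Prop) (a0 : α)
    (h0 : P 0 a0) (hs : ∀ n a, P n a → ∃ b, P (n + 1) b ∧ R n a b) :
    ∃ f : ℕ → α, f 0 = a0 ∧ (∀ n, P n (f n)) ∧ ∀ n, R n (f n) (f (n + 1)) := by
  choose F hF1 hF2 using hs
  let g : ∀ n, {a // P n a} := fun n =>
    Nat.rec (motive := fun n => {a // P n a}) ⟨a0, h0⟩ (fun n a => ⟨F n a.1 a.2, hF1 n a.1 a.2⟩) n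
  exact ⟨fun n => (g n).1, rfl, fun n => (g n).2, fun n => hF2 n (g n).1 (g n).2⟩

variable {X : Type*} [MetricSpace X]

theorem ulc [CompactSpace X] [LocallyConnectedSpace X] {ε : ℝ} (hε : 0 < ε) :
    ∃ δ > 0, ∀ x y : X, dist x y < δ →
      ∃ K : Set X, IsPreconnected K ∧ x ∈ K ∧ y ∈ K ∧ K ⊆ ball x ε := by
  have h := fun z : X => locallyConnectedSpace_iff_subsets_isOpen_isConnected.1 ‹_› z
    (ball z (ε / 2)) (ball_mem_nhds z (by linarith))
  choose U hU1 hU2 hU3 hU4 using h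
  obtain ⟨δ, hδ, H⟩ := lebesgue_number_lemma_of_metric (isCompact_univ (X := X)) hU2
    (fun z _ => mem_iUnion.2 ⟨z, hU3 z⟩)
  refine ⟨δ, hδ, fun x y hxy => ?_⟩
  obtain ⟨z, hz⟩ := H x (mem_univ x)
  have hx : x ∈ U z := hz (mem_ball_self hδ)
  refine ⟨U z, (hU4 z).isPreconnected, hx, hz (mem_ball'.2 hxy), fun w hw => ?_⟩
  have h1 := mem_ball.1 (hU1 z hw)
  have h2 := mem_ball.1 (hU1 z hx)
  rw [mem_ball]
  linarith [dist_triangle_right w x z]

theorem exists_chain {K : Set X} (hK : IsPreconnected K) {x y : X} (hx : x ∈ K) (hy : y ∈ K)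
    {δ : ℝ} (hδ : 0 < δ) :
    ∃ (L : ℕ) (c : ℕ → X), c 0 = x ∧ (∀ r, L ≤ r → c r = y) ∧ (∀ r, c r ∈ K) ∧
      ∀ r, dist (c r) (c (r + 1)) < δ := by
  have h1 : Relation.ReflTransGen (fun a b => b ∈ K ∧ dist a b < δ) x y := by
    refine hK.induction₂' (fun a b => Relation.ReflTransGen (fun a b => b ∈ K ∧ dist a b < δ) a b)
      ?_ (fun a b c _ _ _ h1 h2 => h1.trans h2) hx hy
    intro a ha
    filter_upwards [self_mem_nhdsWithin, mem_nhdsWithin_of_mem_nhds (ball_mem_nhds a hδ)]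
      with b hb hab
    exact ⟨.single ⟨hb, mem_ball'.1 hab⟩, .single ⟨ha, mem_ball.1 hab⟩⟩
  clear hy
  induction h1 with
  | refl => exact ⟨0, fun _ => x, rfl, fun _ _ => rfl, fun _ => hx, fun _ => by simpa using hδ⟩
  | @tail b c _ hbc ih =>
    obtain ⟨L, f, h0, hL, hK', hd⟩ := ih
    refine ⟨L + 1, fun r => if r ≤ L then f r else c, by simp [h0], fun r hr => ?_, fun r => ?_,
      fun r => ?_⟩
    · simp [show ¬ r ≤ L by omega]
    · dsimp only
      split_ifs
      exacts [hK' r, hbc.1]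
    · dsimp only
      by_cases h1 : r + 1 ≤ L
      · simp [h1, show r ≤ L by omega, hd r]
      · by_cases h2 : r ≤ L
        · simp only [h1, h2, if_true, if_false]
          rw [hL r (by omega)]
          exact hbc.2
        · simpa [h1, h2] using hδ

theorem refine_chain {x y : X} {ε δ δ' : ℝ} (hε : 0 < ε) (hδ' : 0 < δ')
    (H : ∀ x y : X, dist x y < δ →
      ∃ K : Set X, IsPreconnected K ∧ x ∈ K ∧ y ∈ K ∧ K ⊆ ball x ε)
    (a : ℕ → X) (N : ℕ) (hN : 0 < N) (h0 : a 0 = x) (hy : ∀ r, N ≤ r → a r = y)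
    (hd : ∀ r, dist (a r) (a (r + 1)) < δ) :
    ∃ (L : ℕ) (b : ℕ → X), 0 < L ∧ b 0 = x ∧ (∀ r, N * L ≤ r → b r = y) ∧
      (∀ r, dist (b r) (b (r + 1)) < δ') ∧ ∀ r, dist (b r) (a (r / L)) < ε := by
  have h1 : ∀ i, ∃ (L : ℕ) (c : ℕ → X), c 0 = a i ∧ (∀ r, L ≤ r → c r = a (i + 1)) ∧
      (∀ r, c r ∈ ball (a i) ε) ∧ ∀ r, dist (c r) (c (r + 1)) < δ' := by
    intro i
    obtain ⟨K, hK, h1, h2, h3⟩ := H _ _ (hd i)
    obtain ⟨L, c, hc0, hcL, hcK, hcd⟩ := exists_chain hK h1 h2 hδ'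
    exact ⟨L, c, hc0, hcL, fun r => h3 (hcK r), hcd⟩
  choose L c hc0 hcL hcK hcd using h1
  set M := (Finset.range N).sup L + 1 with hM
  have hMpos : 0 < M := by omega
  have hLM : ∀ i < N, L i + 1 ≤ M := fun i hi => by
    have := Finset.le_sup (f := L) (Finset.mem_range.2 hi)
    omega
  refine ⟨M, fun r => if r / M < N then c (r / M) (r % M) else y, hMpos, by simp [hN, hc0, h0],
    fun r hr => ?_, fun r => ?_, fun r => ?_⟩
  · have : N ≤ r / M := (Nat.le_div_iff_mul_le hMpos).2 hr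
    simp [not_lt.2 this]
  · dsimp only
    by_cases h : r % M + 1 < M
    · have e1 : (r + 1) / M = r / M := by
        rw [Nat.succ_div, if_neg]
        · simp
        · intro hdv
          have := (Nat.dvd_iff_mod_eq_zero ..).1 hdv
          rw [Nat.add_mod, Nat.mod_eq_of_lt (show 1 < M by omega), Nat.mod_eq_of_lt h] at this
          omega
      have e2 : (r + 1) % M = r % M + 1 := by
        rw [Nat.add_mod, Nat.mod_eq_of_lt (show 1 < M by omega), Nat.mod_eq_of_lt h]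
      rw [e1, e2]
      split_ifs
      exacts [hcd _ _, by simpa using hδ']
    · have hr : r % M + 1 = M := by have := Nat.mod_lt r hMpos; omega
      have e0 : r + 1 = M * (r / M + 1) := by
        have := Nat.div_add_mod r M
        rw [mul_add, mul_one]; omega
      have e1 : (r + 1) / M = r / M + 1 := by rw [e0, Nat.mul_div_cancel_left _ hMpos]
      have e2 : (r + 1) % M = 0 := by rw [e0, Nat.mul_mod_right]
      rw [e1, e2]
      by_cases h2 : r / M < N
      · rw [if_pos h2, hcL _ _ (by have := hLM _ h2; omega)]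
        split_ifs with h3
        · rw [hc0]; simpa using hδ'
        · rw [hy _ (by omega)]; simpa using hδ'
      · rw [if_neg h2, if_neg (by omega)]; simpa using hδ'
  · dsimp only
    split_ifs with h
    · exact mem_ball.1 (hcK _ _)
    · rw [hy _ (by omega)]; simpa using hε

theorem ulpc [CompactSpace X] [LocallyConnectedSpace X] {ε : ℝ} (hε : 0 < ε) :
    ∃ δ > 0, ∀ x y : X, dist x y < δ → JoinedIn (ball x ε) x y := by
  set e : ℕ → ℝ := fun n => ε / 4 * (1 / 2) ^ n with he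
  have hepos : ∀ n, 0 < e n := fun n => by positivity
  have h1 : ∀ n, ∃ δ > 0, δ ≤ e n ∧ ∀ x y : X, dist x y < δ →
      ∃ K : Set X, IsPreconnected K ∧ x ∈ K ∧ y ∈ K ∧ K ⊆ ball x (e n) := by
    intro n
    obtain ⟨δ, hδ, H⟩ := ulc (X := X) (hepos n)
    exact ⟨min δ (e n), lt_min hδ (hepos n), min_le_right _ _,
      fun x y h => H x y (h.trans_le (min_le_left _ _))⟩
  choose δ hδ hδe H using h1
  refine ⟨δ 0, hδ 0, fun x y hxy => ?_⟩
  obtain ⟨f, hf0, hfP, hfR⟩ := exists_seq_rec (α := (ℕ → X) × ℕ)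
    (fun n p => 0 < p.2 ∧ p.1 0 = x ∧ (∀ r, p.2 ≤ r → p.1 r = y) ∧
      ∀ r, dist (p.1 r) (p.1 (r + 1)) < δ n)
    (fun n p q => ∃ L, 0 < L ∧ q.2 = p.2 * L ∧ ∀ r, dist (q.1 r) (p.1 (r / L)) < e n)
    (fun r => if r = 0 then x else y, 1)
    ⟨one_pos, rfl, fun r hr => by simp [show r ≠ 0 by omega], fun r => by
      by_cases h : r = 0
      · simpa [h] using hxy
      · simpa [h] using hδ 0⟩
    (by
      rintro n ⟨a, N⟩ ⟨hN, h0, hy, hd⟩
      obtain ⟨L, b, hL, hb0, hby, hbd, hba⟩ :=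
        refine_chain (hepos n) (hδ (n + 1)) (H n) a N hN h0 hy hd
      exact ⟨(b, N * L), ⟨Nat.mul_pos hN hL, hb0, hby, hbd⟩, L, hL, rfl, hba⟩)
  set γ : ℕ → ℝ → X := fun n t => (f n).1 ⌊((f n).2 : ℝ) * t⌋₊ with hγ
  have hstep : ∀ t n, dist (γ n t) (γ (n + 1) t) ≤ ε / 4 * (1 / 2) ^ n := by
    intro t n
    obtain ⟨L, hL, hN, hd⟩ := hfR n
    have hL' : (L : ℝ) ≠ 0 := by exact_mod_cast hL.ne'
    have := hd ⌊((f (n + 1)).2 : ℝ) * t⌋₊
    rw [← Nat.floor_div_natCast, hN] at this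
    have e1 : (((f n).2 * L : ℕ) : ℝ) * t / L = (f n).2 * t := by
      push_cast; field_simp
    rw [e1, dist_comm] at this
    simp only [hγ, hN]
    exact this.le
  have hlim : ∀ t, ∃ p, Tendsto (fun n => γ n t) atTop (𝓝 p) := fun t =>
    cauchySeq_tendsto_of_complete (cauchySeq_of_le_geometric (1 / 2) (ε / 4) (by norm_num)
      (hstep t))
  choose G hG using hlim
  have hdist : ∀ t n, dist (γ n t) (G t) ≤ 2 * e n := by
    intro t n
    have := dist_le_of_le_geometric_of_tendsto (1 / 2) (ε / 4) (by norm_num) (hstep t) (hG t) n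
    refine this.trans (le_of_eq ?_)
    simp only [he]; ring
  have hclose : ∀ (n : ℕ) (s t : ℝ), 0 ≤ s → s ≤ t → t - s < 1 / (f n).2 →
      dist (γ n s) (γ n t) < e n := by
    intro n s t hs hst h
    have hN : (0 : ℝ) < (f n).2 := by exact_mod_cast (hfP n).1
    have h1 : ⌊((f n).2 : ℝ) * s⌋₊ ≤ ⌊((f n).2 : ℝ) * t⌋₊ :=
      Nat.floor_le_floor (by gcongr)
    have h2 : ⌊((f n).2 : ℝ) * t⌋₊ ≤ ⌊((f n).2 : ℝ) * s⌋₊ + 1 := by
      rw [← Nat.floor_add_one (by positivity)]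
      refine Nat.floor_le_floor ?_
      rw [lt_div_iff₀ hN] at h
      nlinarith
    simp only [hγ]
    rcases h1.eq_or_lt with h3 | h3
    · rw [h3]; simpa using hepos n
    · rw [show ⌊((f n).2 : ℝ) * t⌋₊ = ⌊((f n).2 : ℝ) * s⌋₊ + 1 by omega]
      exact ((hfP n).2.2.2 _).trans_le (hδe n)
  have hcont : ContinuousOn G (Icc 0 1) := by
    rw [Metric.continuousOn_iff]
    intro t ht η hη
    obtain ⟨n, hn⟩ : ∃ n, 5 * e n < η := by
      obtain ⟨n, hn⟩ := exists_pow_lt_of_lt_one (show 0 < η / (5 * (ε / 4)) by positivity)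
        (show (1 / 2 : ℝ) < 1 by norm_num)
      refine ⟨n, ?_⟩
      rw [lt_div_iff₀ (by positivity)] at hn
      simp only [he]; linarith
    have hN : (0 : ℝ) < (f n).2 := by exact_mod_cast (hfP n).1
    refine ⟨1 / (f n).2, by positivity, fun s hs hst => ?_⟩
    have h3 : dist (γ n s) (γ n t) < e n := by
      rw [Real.dist_eq, abs_lt] at hst
      rcases le_total s t with h | h
      · exact hclose n s t hs.1 h (by linarith)
      · rw [dist_comm]; exact hclose n t s ht.1 h (by linarith)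
    have h4 := hdist s n
    have h5 := hdist t n
    linarith [dist_triangle4 (G s) (γ n s) (γ n t) (G t), dist_comm (G s) (γ n s)]
  have hG0 : G 0 = x := by
    refine tendsto_nhds_unique (hG 0) ?_
    simp only [hγ, mul_zero, Nat.floor_zero, (hfP _).2.1]
    exact tendsto_const_nhds
  have hG1 : G 1 = y := by
    refine tendsto_nhds_unique (hG 1) ?_
    have : ∀ n, γ n 1 = y := fun n => by
      simp only [hγ, mul_one, Nat.floor_natCast]
      exact (hfP n).2.2.1 _ le_rfl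
    simp only [this]
    exact tendsto_const_nhds
  refine JoinedIn.ofLine hcont hG0 hG1 ?_
  rintro _ ⟨t, -, rfl⟩
  have h6 := hdist t 0
  have h7 : dist (γ 0 t) x < e 0 := by
    simp only [hγ, hf0]
    split_ifs
    · simpa using hepos 0
    · rw [dist_comm]; exact hxy.trans_le (hδe 0)
  have h8 : e 0 = ε / 4 := by simp [he]
  rw [mem_ball]
  linarith [dist_triangle (G t) (γ 0 t) x, dist_comm (G t) (γ 0 t)]

theorem lpc_of_peano [CompactSpace X] [LocallyConnectedSpace X] : LocallyPathConnectedSpace X := by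
  rw [locallyPathConnectedSpace_iff_pathComponentIn_mem_nhds]
  intro x u hu hx
  obtain ⟨ε, hε, hb⟩ := Metric.isOpen_iff.1 hu x hx
  obtain ⟨δ, hδ, H⟩ := ulpc (X := X) hε
  filter_upwards [ball_mem_nhds x hδ] with y hy
  exact (H x y (mem_ball'.1 hy)).mono hb

end Pool.Agent.Lib.MP_32448b_gt
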