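import Pool.Agent.Lib.MP_32448b_gt.Span1

set_option autoImplicit false

open Set Metric Topology Filter Function

namespace Pool.Agent.Lib.MP_32448b_gt

variable {Y : Type} [MetricSpace Y]

theorem exists_quot_of_closed [CompactSpace Y] (r : Setoid Y)
    (h : ∀ F : Set Y, IsClosed F → IsClosed {x | ∃ y ∈ F, r x y}) :
    ∃ (Y' : Type) (_ : MetricSpace Y') (_ : CompactSpace Y') (q : Y → Y'), Continuous q ∧
      Surjective q ∧ ∀ x y, q x = q y ↔ r x y := by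
  let q : Y → Quotient r := Quotient.mk r
  have hq : Continuous q := continuous_quotient_mk'
  have hs : Surjective q := Quotient.mk_surjective
  have hr : ∀ x y, q x = q y ↔ r x y := fun x y => Quotient.eq
  have hcl : IsClosedMap q := by
    intro F hF
    rw [← isQuotientMap_quotient_mk'.isClosed_preimage]
    have : q ⁻¹' (q '' F) = {x | ∃ y ∈ F, r x y} := by
      ext x
      constructor
      · rintro ⟨y, hy, e⟩
        exact ⟨y, hy, (hr _ _).1 e.symm⟩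
      · rintro ⟨y, hy, e⟩
        exact ⟨y, hy, ((hr _ _).2 e).symm⟩
    exact this ▸ h F hF
  have hfib : ∀ a : Quotient r, IsClosed (q ⁻¹' {a}) := by
    intro a
    obtain ⟨x, rfl⟩ := hs a
    have := (hcl {x} isClosed_singleton).preimage hq
    rwa [image_singleton] at this
  have hmem : ∀ (a : Quotient r) (U : Set Y), a ∈ (q '' Uᶜ)ᶜ ↔ q ⁻¹' {a} ⊆ U := by
    intro a U
    constructor
    · intro ha x hx
      by_contra hU
      exact ha ⟨x, hU, hx⟩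
    · rintro ha ⟨x, hx, e⟩
      exact hx (ha e)
  have ht2 : T2Space (Quotient r) := by
    refine ⟨fun a b hab => ?_⟩
    obtain ⟨U, V, hU, hV, h1, h2, hUV⟩ := normal_separation (hfib a) (hfib b)
      ((disjoint_singleton.2 hab).preimage q)
    refine ⟨(q '' Uᶜ)ᶜ, (q '' Vᶜ)ᶜ, (hcl _ hU.isClosed_compl).isOpen_compl,
      (hcl _ hV.isClosed_compl).isOpen_compl, (hmem _ _).2 h1, (hmem _ _).2 h2, ?_⟩
    rw [Set.disjoint_left]
    intro c h3 h4
    obtain ⟨x, rfl⟩ := hs c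
    exact Set.disjoint_left.1 hUV ((hmem _ _).1 h3 rfl) ((hmem _ _).1 h4 rfl)
  have hsc : SecondCountableTopology (Quotient r) := by
    obtain ⟨b, hbc, -, hb⟩ := TopologicalSpace.exists_countable_basis Y
    have hB : TopologicalSpace.IsTopologicalBasis
        ((fun t : Set (Set Y) => (q '' (⋃₀ t)ᶜ)ᶜ) '' {t | t.Finite ∧ t ⊆ b}) := by
      refine TopologicalSpace.isTopologicalBasis_of_isOpen_of_nhds ?_ ?_
      · rintro _ ⟨t, ht, rfl⟩
        exact (hcl _ (isOpen_sUnion fun u hu => hb.isOpen (ht.2 hu)).isClosed_compl).isOpen_compl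
      · intro a U ha hU
        have h1 : ∀ x ∈ q ⁻¹' {a}, ∃ v ∈ b, x ∈ v ∧ v ⊆ q ⁻¹' U := fun x hx =>
          hb.exists_subset_of_mem_open (show q x ∈ U from mem_singleton_iff.1 hx ▸ ha)
            (hU.preimage hq)
        choose! v hv1 hv2 hv3 using h1
        obtain ⟨t, ht1, ht2⟩ := (hfib a).isCompact.elim_nhds_subcover v
          fun x hx => (hb.isOpen (hv1 x hx)).mem_nhds (hv2 x hx)
        refine ⟨_, ⟨v '' t, ⟨t.finite_toSet.image v, ?_⟩, rfl⟩, (hmem _ _).2 ?_, ?_⟩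
        · rintro _ ⟨x, hx, rfl⟩
          exact hv1 x (ht1 x hx)
        · rwa [sUnion_image]
        · intro c hc
          obtain ⟨x, rfl⟩ := hs c
          obtain ⟨_, ⟨y, hy, rfl⟩, hx⟩ := (hmem _ _).1 hc (rfl : x ∈ q ⁻¹' {q x})
          exact hv3 y (ht1 y hy) hx
    exact hB.secondCountableTopology ((countable_ofPred_finite_subset hbc).image _)
  have : CompactSpace (Quotient r) := ⟨hs.range_eq ▸ isCompact_range hq⟩
  let := TopologicalSpace.metrizableSpaceMetric (Quotient r)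
  exact ⟨Quotient r, inferInstance, inferInstance, q, hq, hs, hr⟩

theorem exists_quot [CompactSpace Y] {J : Type} {B : J → Set Y} (hB : ∀ j, IsClosed (B j))
    (hd : Pairwise (Disjoint on B)) (hn : Null B) :
    ∃ (Y' : Type) (_ : MetricSpace Y') (_ : CompactSpace Y') (q : Y → Y'), Continuous q ∧
      Surjective q ∧ ∀ x y, q x = q y ↔ x = y ∨ ∃ j, x ∈ B j ∧ y ∈ B j := by
  let r : Setoid Y := ⟨fun x y => x = y ∨ ∃ j, x ∈ B j ∧ y ∈ B j, fun _ => Or.inl rfl,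
    fun h => h.elim (fun e => Or.inl e.symm) fun ⟨j, h1, h2⟩ => Or.inr ⟨j, h2, h1⟩, by
      rintro x y z (rfl | ⟨i, h1, h2⟩) (rfl | ⟨j, h3, h4⟩)
      · exact Or.inl rfl
      · exact Or.inr ⟨j, h3, h4⟩
      · exact Or.inr ⟨i, h1, h2⟩
      · by_cases hij : i = j
        · exact Or.inr ⟨i, h1, hij ▸ h4⟩
        · exact absurd h3 (Set.disjoint_left.1 (hd hij) h2)⟩
  refine exists_quot_of_closed r fun F hF => ?_
  have h1 := isClosed_hang hn hF (I := {j | (B j ∩ F).Nonempty}) (fun j _ => hB j) fun _ h => h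
  suffices heq : {x | ∃ y ∈ F, r x y} = F ∪ ⋃ i ∈ {j | (B j ∩ F).Nonempty}, B i from heq ▸ h1
  ext x
  constructor
  · rintro ⟨y, hy, rfl | ⟨j, h1, h2⟩⟩
    · exact Or.inl hy
    · exact Or.inr (mem_biUnion (x := j) ⟨y, h2, hy⟩ h1)
  · rintro (h | h)
    · exact ⟨x, h, Or.inl rfl⟩
    · obtain ⟨j, ⟨y, h1, h2⟩, h3⟩ := mem_iUnion₂.1 h
      exact ⟨y, h2, Or.inr ⟨j, h3, h1⟩⟩

theorem exists_link {M : Set Y} (hM : ULPC M) (hMc : IsPreconnected M) (n : ℕ) :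
    ∀ (𝒮 : Set (Set Y)) (T : Set Y), 𝒮.Finite → 𝒮.ncard = n → SD T → T ⊆ M →
      (∀ S ∈ 𝒮, SD S ∧ S ⊆ M ∧ Disjoint S T) → 𝒮.PairwiseDisjoint id →
      ∃ T', SD T' ∧ T ∪ ⋃₀ 𝒮 ⊆ T' ∧ T' ⊆ M := by
  induction n with
  | zero =>
    intro 𝒮 T hf hn hT hTM _ _
    obtain rfl := (ncard_eq_zero hf).1 hn
    exact ⟨T, hT, by simp, hTM⟩
  | succ n ih =>
    intro 𝒮 T hf hn hT hTM h𝒮 hd
    obtain ⟨S0, hS0⟩ := nonempty_of_ncard_ne_zero (s := 𝒮) (by omega)
    obtain ⟨p, hp⟩ := hT.nonempty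
    obtain ⟨t, ht⟩ := (h𝒮 S0 hS0).1.nonempty
    have hR : IsClosed (⋃₀ 𝒮) := (hf.isCompact_sUnion fun S hS => (h𝒮 S hS).1.compact).isClosed
    have hTR : ∀ w ∈ T, w ∉ ⋃₀ 𝒮 := fun w hw ⟨S, hS, h⟩ =>
      Set.disjoint_left.1 (h𝒮 S hS).2.2 h hw
    obtain ⟨H, hH, hpH, hHM, e, he⟩ := exists_hit hR (hTR p hp) ⟨S0, hS0, ht⟩
      (hM.joinedIn hMc (hTM hp) ((h𝒮 S0 hS0).2.1 ht))
    have he' : e ∈ H ∩ ⋃₀ 𝒮 := he ▸ rfl
    obtain ⟨H', hH', heH, hH'H, e', he''⟩ := exists_hit hT.closed (fun h => hTR e h he'.2) hp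
      (hH.isPathConnected.joinedIn e he'.1 p hpH)
    obtain ⟨S, hS, heS⟩ := he'.2
    have h1 : SD (H' ∪ T) := hH'.wedge hT he''
    have h2 : SD ((H' ∪ T) ∪ S) := by
      refine h1.wedge (h𝒮 S hS).1 (e := e) (eq_singleton_iff_unique_mem.2 ⟨⟨Or.inl heH, heS⟩, ?_⟩)
      rintro w ⟨hw | hw, hwS⟩
      · exact he.subset ⟨hH'H hw, S, hS, hwS⟩
      · exact absurd ⟨S, hS, hwS⟩ (hTR w hw)
    obtain ⟨T', h3, h4, h5⟩ := ih (𝒮 \ {S}) _ (hf.subset sdiff_subset)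
      (by rw [ncard_sdiff_singleton_of_mem hS]; omega) h2
      (union_subset (union_subset (hH'H.trans hHM) hTM) (h𝒮 S hS).2.1)
      (fun S' hS' => ⟨(h𝒮 S' hS'.1).1, (h𝒮 S' hS'.1).2.1, by
        have hdis : Disjoint S' S := hd hS'.1 hS hS'.2
        rw [Set.disjoint_left]
        rintro w hw ((h | h) | h)
        · obtain rfl : w = e := he.subset ⟨hH'H h, S', hS'.1, hw⟩
          exact Set.disjoint_left.1 hdis hw heS
        · exact hTR w h ⟨S', hS'.1, hw⟩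
        · exact Set.disjoint_left.1 hdis hw h⟩) (hd.subset sdiff_subset)
    refine ⟨T', h3, Subset.trans ?_ h4, h5⟩
    rintro w (hw | ⟨S', hS', hw⟩)
    · exact Or.inl (Or.inl (Or.inr hw))
    · by_cases h : S' = S
      · exact Or.inl (Or.inr (h ▸ hw))
      · exact Or.inr ⟨S', ⟨hS', h⟩, hw⟩

theorem exists_link' {M : Set Y} (hM : ULPC M) (hMc : IsConnected M) {𝒮 : Set (Set Y)}
    (hf : 𝒮.Finite) (h𝒮 : ∀ S ∈ 𝒮, SD S ∧ S ⊆ M) (hd : 𝒮.PairwiseDisjoint id) :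
    ∃ T', SD T' ∧ ⋃₀ 𝒮 ⊆ T' ∧ T' ⊆ M := by
  rcases 𝒮.eq_empty_or_nonempty with rfl | ⟨S, hS⟩
  · obtain ⟨m, hm⟩ := hMc.nonempty
    exact ⟨{m}, sd_singleton m, by simp, by simpa⟩
  · obtain ⟨T', h1, h2, h3⟩ := exists_link hM hMc.isPreconnected _ (𝒮 \ {S}) S
      (hf.subset sdiff_subset) rfl (h𝒮 S hS).1 (h𝒮 S hS).2
      (fun S' hS' => ⟨(h𝒮 S' hS'.1).1, (h𝒮 S' hS'.1).2, hd hS'.1 hS hS'.2⟩) (hd.subset sdiff_subset)
    refine ⟨T', h1, Subset.trans ?_ h2, h3⟩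
    rintro w ⟨S', hS', hw⟩
    by_cases h : S' = S
    · exact Or.inl (h ▸ hw)
    · exact Or.inr ⟨S', ⟨hS', h⟩, hw⟩

/-- Compact sets whose subcontinua form a null family of dendrites. -/
structure NC (A : Set Y) : Prop where
  compact : IsCompact A
  sd : ∀ K ⊆ A, IsCompact K → IsConnected K → SD K
  hit : ∀ ε > 0, ∃ C : Set Y, C.Finite ∧
    ∀ K ⊆ A, IsCompact K → IsPreconnected K → ¬ Small K ε → (K ∩ C).Nonempty

theorem NC.subset {A A' : Set Y} (h : NC A) (hA : A' ⊆ A) (hc : IsCompact A') : NC A' :=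
  ⟨hc, fun K hK => h.sd K (hK.trans hA), fun ε hε => by
    obtain ⟨C, h1, h2⟩ := h.hit ε hε
    exact ⟨C, h1, fun K hK => h2 K (hK.trans hA)⟩⟩

theorem nc_univ [Dend Y] : NC (univ : Set Y) := by
  refine ⟨isCompact_univ, fun K _ h1 h2 => sd_of_conn h1.isClosed h2, fun ε hε => ?_⟩
  obtain ⟨C, hC, -, H⟩ := exists_fin_cut (E := Y) hε countable_empty
  refine ⟨C, hC, fun K _ _ hK hs => ?_⟩
  simp only [Small] at hs
  push Not at hs
  obtain ⟨x, hx, y, hy, hxy⟩ := hs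
  obtain ⟨c, hc, hsep⟩ := H x y hxy
  exact ⟨c, (hsep.mem hK (subset_univ _) hx hy).1, hc⟩

theorem NC.image {E : Type} [MetricSpace E] [CompactSpace E] {A : Set E} (h : NC A) {f : E → Y}
    (hf : Continuous f) (hi : InjOn f A) : NC (f '' A) := by
  have key : ∀ K ⊆ f '' A, IsCompact K → IsPreconnected K →
      IsCompact (A ∩ f ⁻¹' K) ∧ IsPreconnected (A ∩ f ⁻¹' K) ∧ f '' (A ∩ f ⁻¹' K) = K := by
    intro K hK h1 h2
    have e : f '' (A ∩ f ⁻¹' K) = K := by rw [image_inter_preimage, inter_eq_right.2 hK]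
    have hc := h.compact.inter_right (h1.isClosed.preimage hf)
    exact ⟨hc, isPreconnected_of_image hc hf.continuousOn (hi.mono inter_subset_left)
      (e.symm ▸ h2), e⟩
  refine ⟨h.compact.image hf, fun K hK h1 h2 => ?_, fun ε hε => ?_⟩
  · obtain ⟨a, b, c⟩ := key K hK h1 h2.isPreconnected
    rw [← c]
    exact (h.sd _ inter_subset_left a ⟨(c.symm ▸ h2.nonempty : (f '' _).Nonempty).of_image,
      b⟩).image hf.continuousOn (hi.mono inter_subset_left)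
  · obtain ⟨δ, hδ, H⟩ := Metric.uniformContinuous_iff.1
      (CompactSpace.uniformContinuous_of_continuous hf) ε hε
    obtain ⟨C, hC, H'⟩ := h.hit δ hδ
    refine ⟨f '' C, hC.image f, fun K hK h1 h2 hs => ?_⟩
    obtain ⟨a, b, c⟩ := key K hK h1 h2
    obtain ⟨x, hx, hxC⟩ := H' _ inter_subset_left a b fun hs' => hs (by
      rw [← c]
      rintro _ ⟨u, hu, rfl⟩ _ ⟨v, hv, rfl⟩
      exact H (hs' u hu v hv))
    exact ⟨f x, hx.2, x, hxC, rfl⟩

theorem NC.union_finite {A P : Set Y} (h : NC A) (hP : P.Finite) : NC (A ∪ P) := by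
  have key : ∀ K ⊆ A ∪ P, IsPreconnected K → K ⊆ A ∨ ∃ p, K = {p} := by
    intro K hK h2
    by_cases hA : K ⊆ A
    · exact Or.inl hA
    obtain ⟨p, hp, hpA⟩ := not_subset.1 hA
    refine Or.inr ⟨p, Subset.antisymm (fun w hw => ?_) (singleton_subset_iff.2 hp)⟩
    by_contra hne
    obtain ⟨u, -, rfl, hu⟩ := isPreconnected_closed_iff.1 h2 {p} (A ∪ (P \ {p})) isClosed_singleton
      (h.compact.isClosed.union (hP.subset sdiff_subset).isClosed) (fun u hu => by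
        by_cases h' : u = p
        · exact Or.inl h'
        · exact Or.inr ((hK hu).imp id fun h => ⟨h, h'⟩)) ⟨p, hp, rfl⟩
      ⟨w, hw, (hK hw).imp id fun h => ⟨h, hne⟩⟩
    exact hu.elim hpA fun h => h.2 rfl
  refine ⟨h.compact.union hP.isCompact, fun K hK h1 h2 => ?_, fun ε hε => ?_⟩
  · rcases key K hK h2.isPreconnected with h' | ⟨p, rfl⟩
    · exact h.sd K h' h1 h2
    · exact sd_singleton p
  · obtain ⟨C, hC, H⟩ := h.hit ε hε
    refine ⟨C, hC, fun K hK h1 h2 hs => ?_⟩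
    rcases key K hK h2 with h' | ⟨p, rfl⟩
    · exact H K h' h1 h2 hs
    · refine absurd ?_ hs
      rintro _ rfl _ rfl
      simpa using hε

end Pool.Agent.Lib.MP_32448b_gt
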