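import Pool.Agent.Lib.MP_32448b_gt.Dend

set_option autoImplicit false

open Set Metric Topology Filter Function

namespace Pool.Agent.Lib.MP_32448b_gt

variable {X : Type*} [MetricSpace X]

theorem pre_preimage_val {T A : Set X} (hA : IsPreconnected A) (hAT : A ⊆ T) :
    IsPreconnected ((↑) ⁻¹' A : Set T) := by
  rw [← IsInducing.subtypeVal.isPreconnected_image, Subtype.image_preimage_coe,
    inter_eq_right.2 hAT]
  exact hA

theorem SD.pre_inter {T A B : Set X} (h : SD T) (hA : IsPreconnected A) (hB : IsPreconnected B)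
    (hAT : A ⊆ T) (hBT : B ⊆ T) : IsPreconnected (A ∩ B) := by
  have := h.dend
  have h1 := (_root_.Pool.Agent.Lib.MP_32448b_gt.pre_inter (pre_preimage_val hA hAT)
    (pre_preimage_val hB hBT)).image _ continuous_subtype_val.continuousOn
  rwa [← preimage_inter, Subtype.image_preimage_coe,
    inter_eq_right.2 (inter_subset_left.trans hAT)] at h1

theorem SD.exists_arc {T : Set X} (h : SD T) {x y : X} (hx : x ∈ T) (hy : y ∈ T) (hxy : x ≠ y) :
    ∃ α : ℝ → X, IsArc α x y ∧ α '' Icc 0 1 ⊆ T ∧ (∀ t ∈ Ioo (0 : ℝ) 1, Sep T (α t) x y) ∧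
      ∀ K, IsPreconnected K → K ⊆ T → x ∈ K → y ∈ K → α '' Icc 0 1 ⊆ K := by
  have := h.dend
  obtain ⟨α, hα⟩ := exists_isArc (E := T) (x := ⟨x, hx⟩) (y := ⟨y, hy⟩)
    (fun e => hxy (congrArg Subtype.val e))
  refine ⟨fun t => α t, ⟨continuous_subtype_val.comp hα.cont,
    fun s hs t ht e => hα.inj hs ht (Subtype.ext e), by simp [hα.zero], by simp [hα.one]⟩, ?_,
    fun t ht => ?_, fun K hK hKT hxK hyK => ?_⟩
  · rintro _ ⟨t, -, rfl⟩
    exact (α t).2
  · have := (hα.sep ht).image isCompact_univ continuous_subtype_val.continuousOn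
      Subtype.val_injective.injOn (mem_univ _) (mem_univ _)
    simpa using this
  · rintro _ ⟨t, ht, rfl⟩
    exact hα.subset (pre_preimage_val hK hKT) hxK hyK ⟨t, ht, rfl⟩

theorem SD.ulc {T : Set X} (h : SD T) {ε : ℝ} (hε : 0 < ε) :
    ∃ δ > 0, ∀ x ∈ T, ∀ y ∈ T, dist x y < δ →
      ∃ K : Set X, IsPreconnected K ∧ x ∈ K ∧ y ∈ K ∧ K ⊆ T ∩ ball x ε := by
  have := h.dend
  obtain ⟨δ, hδ, H⟩ := _root_.Pool.Agent.Lib.MP_32448b_gt.ulc (X := T) hε
  refine ⟨δ, hδ, fun x hx y hy hxy => ?_⟩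
  obtain ⟨K, hK, h1, h2, h3⟩ := H ⟨x, hx⟩ ⟨y, hy⟩ hxy
  refine ⟨(↑) '' K, hK.image _ continuous_subtype_val.continuousOn, ⟨_, h1, rfl⟩, ⟨_, h2, rfl⟩, ?_⟩
  rintro _ ⟨w, hw, rfl⟩
  exact ⟨w.2, h3 hw⟩

theorem SD.isPathConnected {T : Set X} (h : SD T) : IsPathConnected T := by
  have := h.dend
  have : PathConnectedSpace T := PathConnectedSpace.of_locallyPathConnectedSpace
  exact isPathConnected_iff_pathConnectedSpace.2 this

theorem SD.exists_nbhd {T : Set X} (h : SD T) {x : X} (hx : x ∈ T) {W : Set X} (hW : W ∈ 𝓝 x) :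
    ∃ G : Set X, IsOpen G ∧ x ∈ G ∧ IsPreconnected (T ∩ G) ∧ closure (T ∩ G) ⊆ W ∧
      (closure (T ∩ G) \ G).Finite := by
  have := h.dend
  obtain ⟨N, hN, hxN, hNc, hNW, hfin⟩ := _root_.Pool.Agent.Lib.MP_32448b_gt.exists_nbhd (E := T)
    (x := ⟨x, hx⟩) (continuous_subtype_val.continuousAt.preimage_mem_nhds hW)
  obtain ⟨G, hG, rfl⟩ := isOpen_induced_iff.1 hN
  have hcl : closure (T ∩ G) = (↑) '' closure ((↑) ⁻¹' G : Set T) := by
    rw [← h.closed.isClosedEmbedding_subtypeVal.closure_image_eq, Subtype.image_preimage_coe]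
  refine ⟨G, hG, hxN, ?_, ?_, ?_⟩
  · simpa using hNc.image _ continuous_subtype_val.continuousOn
  · rw [hcl]
    rintro _ ⟨w, hw, rfl⟩
    exact hNW hw
  · refine (hfin.image (↑)).subset ?_
    rw [hcl, hN.frontier_eq]
    rintro _ ⟨⟨w, hw, rfl⟩, hw'⟩
    exact ⟨w, ⟨hw, hw'⟩, rfl⟩

theorem SD.isClosed_diff_cc {T : Set X} (h : SD T) (z x : X) :
    IsClosed (T \ connectedComponentIn (T \ {z}) x) := by
  rw [← closure_subset_iff_isClosed]
  intro w hw
  have hwT : w ∈ T := h.closed.closure_subset (closure_mono sdiff_subset hw)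
  refine ⟨hwT, fun hc => ?_⟩
  have hwz : w ≠ z := (connectedComponentIn_subset _ _ hc).2
  obtain ⟨δ, hδ, H⟩ := h.ulc (dist_pos.2 hwz)
  obtain ⟨y, hy, hwy⟩ := Metric.mem_closure_iff.1 hw δ hδ
  obtain ⟨K, hK, h1, h2, h3⟩ := H w hwT y hy.1 hwy
  refine hy.2 ?_
  rw [connectedComponentIn_eq hc]
  refine hK.subset_connectedComponentIn (F := T \ {z}) h1 (fun u hu => ⟨(h3 hu).1, ?_⟩) h2
  rintro rfl
  exact lt_irrefl _ (mem_ball'.1 (h3 hu).2)

theorem isClosed_insert_cc' {T : Set X} (h : IsClosed T) (z x : X) :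
    IsClosed (insert z (connectedComponentIn (T \ {z}) x)) := by
  rw [← closure_subset_iff_isClosed, insert_eq, closure_union, closure_singleton]
  rintro w (hw | hw)
  · exact Or.inl hw
  · by_cases h' : w = z
    · exact Or.inl h'
    · exact Or.inr (mem_cc_of_mem_closure hw ⟨h.closure_subset (closure_mono
        ((connectedComponentIn_subset _ _).trans sdiff_subset) hw), h'⟩)

theorem SD.pre_diff_cc {T : Set X} (h : SD T) (z x : X) :
    IsPreconnected (T \ connectedComponentIn (T \ {z}) x) := by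
  have := pre_inter_side (z := z) h.pre (h.isClosed_diff_cc z x) (isClosed_insert_cc' h.closed z x)
    (fun w hw => by
      by_cases h' : w ∈ connectedComponentIn (T \ {z}) x
      · exact Or.inr (Or.inr h')
      · exact Or.inl ⟨hw, h'⟩)
    (fun w _ h1 h2 => h2.resolve_right h1.2)
  rwa [inter_eq_right.2 sdiff_subset] at this

theorem SD.sep_of_not_mem_cc {T : Set X} (h : SD T) {z x y : X} (hx : x ∈ T \ {z}) (hy : y ≠ z)
    (hc : y ∉ connectedComponentIn (T \ {z}) x) : Sep T z x y :=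
  ⟨_, _, isClosed_insert_cc' h.closed z x, h.isClosed_diff_cc z x, fun w hw => by
      by_cases h' : w ∈ connectedComponentIn (T \ {z}) x
      · exact Or.inl (Or.inr h')
      · exact Or.inr ⟨hw, h'⟩,
    fun w _ h1 h2 => h1.resolve_right h2.2, fun h' => h'.2 (mem_connectedComponentIn hx),
    fun h' => h'.elim hy hc⟩

theorem Sep.wedge_in {W R : Set X} {e z x y : X} (hW : IsClosed W) (hR : IsClosed R)
    (hWR : W ∩ R ⊆ {e}) (he : e ∈ W) (hx : x ∈ W) (hy : y ∈ W) (h : Sep W z x y) :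
    Sep (W ∪ R) z x y := by
  have key : ∀ {P Q : Set X} {x y : X}, IsClosed P → IsClosed Q → W ⊆ P ∪ Q →
      (∀ w ∈ W, w ∈ P → w ∈ Q → w = z) → x ∉ Q → y ∉ P → y ∈ W → e ∈ P →
      Sep (W ∪ R) z x y := by
    intro P Q x y hP hQ hPQ hz hx hy hyW heP
    refine ⟨P ∪ R, Q ∩ W, hP.union hR, hQ.inter hW, ?_, ?_, fun h => hx h.1, ?_⟩
    · rintro w (hw | hw)
      · rcases hPQ hw with h | h
        · exact Or.inl (Or.inl h)
        · exact Or.inr ⟨h, hw⟩
      · exact Or.inl (Or.inr hw)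
    · rintro w - (h1 | h1) h2
      · exact hz w h2.2 h1 h2.1
      · obtain rfl := hWR ⟨h2.2, h1⟩
        exact hz w h2.2 heP h2.1
    · rintro (h | h)
      · exact hy h
      · obtain rfl := hWR ⟨hyW, h⟩
        exact hy heP
  obtain ⟨P, Q, hP, hQ, hPQ, hz, hxQ, hyP⟩ := h
  rcases hPQ he with h | h
  · exact key hP hQ hPQ hz hxQ hyP hy h
  · exact (key hQ hP (by rwa [union_comm]) (fun w hw h1 h2 => hz w hw h2 h1) hyP hxQ hx h).symm

theorem Sep.wedge_out {W R : Set X} {e z x y : X} (hW : IsClosed W) (hR : IsClosed R)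
    (hWR : W ∩ R ⊆ {e}) (hx : x ∈ W) (hxe : x ≠ e) (hy : y ∉ W) (h : Sep W z x e) :
    Sep (W ∪ R) z x y := by
  obtain ⟨P, Q, hP, hQ, hPQ, hz, hxQ, heP⟩ := h
  refine ⟨P ∩ W, Q ∪ R, hP.inter hW, hQ.union hR, ?_, ?_, ?_, fun h => hy h.2⟩
  · rintro w (hw | hw)
    · rcases hPQ hw with h | h
      · exact Or.inl ⟨h, hw⟩
      · exact Or.inr (Or.inl h)
    · exact Or.inr (Or.inr hw)
  · rintro w - h1 (h2 | h2)
    · exact hz w h1.2 h1.1 h2
    · obtain rfl := hWR ⟨h1.2, h2⟩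
      exact absurd h1.1 heP
  · rintro (h | h)
    · exact hxQ h
    · exact hxe (hWR ⟨hx, h⟩)

theorem SD.sep_wedge {W R : Set X} {e x y : X} (hW : SD W) (hR : IsClosed R)
    (hWR : W ∩ R ⊆ {e}) (he : e ∈ W) (hx : x ∈ W) (hxe : x ≠ e) (hxy : x ≠ y) :
    ∃ z, Sep (W ∪ R) z x y := by
  by_cases hy : y ∈ W
  · obtain ⟨z, hz⟩ := hW.sep x hx y hy hxy
    exact ⟨z, hz.wedge_in hW.closed hR hWR he hx hy⟩
  · obtain ⟨z, hz⟩ := hW.sep x hx e he hxe
    exact ⟨z, hz.wedge_out hW.closed hR hWR hx hxe hy⟩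

theorem SD.wedge {A B : Set X} {e : X} (hA : SD A) (hB : SD B) (h : A ∩ B = {e}) : SD (A ∪ B) := by
  have he : e ∈ A ∩ B := h ▸ rfl
  refine ⟨hA.compact.union hB.compact, hA.conn.union ⟨e, he⟩ hB.conn, ?_⟩
  have key : ∀ x ∈ A ∪ B, ∀ y, x ≠ e → x ≠ y → ∃ z, Sep (A ∪ B) z x y := by
    rintro x (hx | hx) y hxe hxy
    · exact hA.sep_wedge hB.closed h.subset he.1 hx hxe hxy
    · rw [union_comm]
      exact hB.sep_wedge hA.closed (inter_comm A B ▸ h.subset) he.2 hx hxe hxy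
  intro x hx y hy hxy
  by_cases hxe : x = e
  · obtain ⟨z, hz⟩ := key y hy x (fun e' => hxy (hxe.trans e'.symm)) (Ne.symm hxy)
    exact ⟨z, hz.symm⟩
  · exact key x hx y hxe hxy

theorem isClosed_hang {ι : Type*} {H : ι → Set X} (hn : Null H) {A : Set X} (hA : IsClosed A)
    {I : Set ι} (hH : ∀ i ∈ I, IsClosed (H i)) (he : ∀ i ∈ I, (H i ∩ A).Nonempty) :
    IsClosed (A ∪ ⋃ i ∈ I, H i) := by
  rw [← closure_subset_iff_isClosed, closure_union, hA.closure_eq]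
  rintro x (hx | hx)
  · exact Or.inl hx
  rcases mem_closure_iUnion_cases hH hx with ⟨i, hi, h⟩ | h
  · exact Or.inr (mem_biUnion hi h)
  left
  refine hA.closure_subset (Metric.mem_closure_iff.2 fun ε hε => ?_)
  obtain ⟨i, hi, hs, y, hy, hxy⟩ := h _ (hn (ε / 2) (half_pos hε)) (ε / 2) (half_pos hε)
  obtain ⟨a, ha, haA⟩ := he i hi
  have := not_not.1 hs y hy a ha
  exact ⟨a, haA, by linarith [dist_triangle x y a]⟩

theorem SD.hang [CompactSpace X] {ι : Type*} {S : Set X} (hS : SD S) {H : ι → Set X} {e : ι → X}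
    (hH : ∀ i, SD (H i)) (he : ∀ i, H i ∩ S = {e i}) (hd : ∀ i j, i ≠ j → H i ∩ H j ⊆ S)
    (hn : Null H) : SD (S ∪ ⋃ i, H i) := by
  have he' : ∀ i, e i ∈ H i ∩ S := fun i => he i ▸ rfl
  have hcl : ∀ I : Set ι, IsClosed (S ∪ ⋃ i ∈ I, H i) := fun I =>
    isClosed_hang hn hS.closed (fun i _ => (hH i).closed) (fun i _ => ⟨_, he' i⟩)
  obtain ⟨s0, hs0⟩ := hS.nonempty
  refine ⟨(by simpa using hcl univ : IsClosed _).isCompact, ⟨⟨s0, Or.inl hs0⟩, ?_⟩, ?_⟩
  · refine isPreconnected_of_forall s0 ?_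
    rintro y (hy | hy)
    · exact ⟨S, subset_union_left, hs0, hy, hS.pre⟩
    · obtain ⟨i, hi⟩ := mem_iUnion.1 hy
      exact ⟨S ∪ H i, union_subset_union_right _ (subset_iUnion _ i), Or.inl hs0, Or.inr hi,
        hS.pre.union (e i) (he' i).2 (he' i).1 (hH i).pre⟩
  have key : ∀ x ∈ S ∪ ⋃ i, H i, ∀ y, x ∉ S → x ≠ y → ∃ z, Sep (S ∪ ⋃ i, H i) z x y := by
    intro x hx y hxS hxy
    obtain ⟨i, hi⟩ := mem_iUnion.1 (hx.resolve_left hxS)
    obtain ⟨z, hz⟩ := (hH i).sep_wedge (hcl {i}ᶜ) (e := e i) (by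
      rintro w ⟨hw, hw' | hw'⟩
      · exact he i ▸ ⟨hw, hw'⟩
      · obtain ⟨j, hj, hwj⟩ := mem_iUnion₂.1 hw'
        exact he i ▸ ⟨hw, hd i j (Ne.symm hj) ⟨hw, hwj⟩⟩) (he' i).1 hi
      (fun h => hxS (h ▸ (he' i).2)) hxy
    refine ⟨z, hz.mono ?_⟩
    rintro w (hw | hw)
    · exact Or.inr (Or.inl hw)
    · obtain ⟨j, hj⟩ := mem_iUnion.1 hw
      by_cases hij : j = i
      · exact Or.inl (hij ▸ hj)
      · exact Or.inr (Or.inr (mem_biUnion hij hj))
  intro x hx y hy hxy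
  by_cases hxS : x ∈ S
  swap
  · exact key x hx y hxS hxy
  by_cases hyS : y ∈ S
  swap
  · obtain ⟨z, hz⟩ := key y hy x hyS (Ne.symm hxy)
    exact ⟨z, hz.symm⟩
  obtain ⟨z, P, Q, hP, hQ, hPQ, hz, hxQ, hyP⟩ := hS.sep x hxS y hyS hxy
  refine ⟨z, (P ∩ S) ∪ ⋃ i ∈ {i | e i ∈ P}, H i, (Q ∩ S) ∪ ⋃ i ∈ {i | e i ∉ P}, H i,
    isClosed_hang hn (hP.inter hS.closed) (fun i _ => (hH i).closed)
      (fun i hi => ⟨e i, (he' i).1, hi, (he' i).2⟩),
    isClosed_hang hn (hQ.inter hS.closed) (fun i _ => (hH i).closed)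
      (fun i hi => ⟨e i, (he' i).1, (hPQ (he' i).2).resolve_left hi, (he' i).2⟩), ?_, ?_, ?_, ?_⟩
  · rintro w (hw | hw)
    · rcases hPQ hw with h | h
      · exact Or.inl (Or.inl ⟨h, hw⟩)
      · exact Or.inr (Or.inl ⟨h, hw⟩)
    · obtain ⟨i, hi⟩ := mem_iUnion.1 hw
      by_cases h : e i ∈ P
      · exact Or.inl (Or.inr (mem_biUnion h hi))
      · exact Or.inr (Or.inr (mem_biUnion h hi))
  · rintro w - (h1 | h1) (h2 | h2)
    · exact hz w h1.2 h1.1 h2.1
    · obtain ⟨i, hi, hw⟩ := mem_iUnion₂.1 h2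
      obtain rfl : w = e i := (he i).subset ⟨hw, h1.2⟩
      exact absurd h1.1 hi
    · obtain ⟨i, hi, hw⟩ := mem_iUnion₂.1 h1
      obtain rfl : w = e i := (he i).subset ⟨hw, h2.2⟩
      exact hz _ h2.2 hi h2.1
    · obtain ⟨i, hi, hw⟩ := mem_iUnion₂.1 h1
      obtain ⟨j, hj, hw'⟩ := mem_iUnion₂.1 h2
      have hwS := hd i j (fun h => hj (h ▸ hi)) ⟨hw, hw'⟩
      have e1 : w = e i := (he i).subset ⟨hw, hwS⟩
      have e2 : w = e j := (he j).subset ⟨hw', hwS⟩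
      exact absurd (e2 ▸ e1 ▸ hi : e j ∈ P) hj
  · rintro (h | h)
    · exact hxQ h.1
    · obtain ⟨i, hi, hw⟩ := mem_iUnion₂.1 h
      obtain rfl : x = e i := (he i).subset ⟨hw, hxS⟩
      exact hxQ ((hPQ hxS).resolve_left hi)
  · rintro (h | h)
    · exact hyP h.1
    · obtain ⟨i, hi, hw⟩ := mem_iUnion₂.1 h
      obtain rfl : y = e i := (he i).subset ⟨hw, hyS⟩
      exact hyP hi

theorem sd_iUnion_limit [CompactSpace X] {T : Set X} {S : ℕ → Set X} (hS : ∀ n, SD (S n))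
    (hmono : Monotone S) (hT : T ⊆ S 0)
    (hH : ∀ ε > 0, ∃ N, ∀ n ≥ N, ∀ w ∈ S (n + 1) \ S n, ∃ K : Set X, IsPreconnected K ∧
      K ⊆ S (n + 1) ∧ w ∈ K ∧ (K ∩ T).Nonempty ∧ Small K ε) : SD (⋃ n, S n) := by
  have hlev : ∀ N, ∀ w ∈ ⋃ n, S n, w ∉ S N → ∃ n ≥ N, w ∈ S (n + 1) \ S n := by
    intro N w hw hwN
    obtain ⟨n, hn⟩ := mem_iUnion.1 hw
    induction n with
    | zero => exact absurd (hmono (Nat.zero_le N) hn) hwN
    | succ n ih =>
      by_cases h : w ∈ S n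
      · exact ih h
      · refine ⟨n, ?_, hn, h⟩
        by_contra hc
        exact hwN (hmono (by omega) hn)
  have hclose : ∀ (A : Set X) (z : X) (N : ℕ), A ⊆ ⋃ n, S n →
      (∀ m ≥ N, IsClosed (insert z (A ∩ S m))) →
      (∀ m K, IsPreconnected K → K ⊆ S m \ {z} → (K ∩ A).Nonempty → K ⊆ A) →
      IsClosed (insert z A) := by
    intro A z N hAS hA hK
    rw [← closure_subset_iff_isClosed, insert_eq, closure_union, closure_singleton]
    rintro x (hx | hx)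
    · exact Or.inl hx
    by_cases hxz : x = z
    · exact Or.inl hxz
    right
    by_contra hcon
    have hx0 : ∀ m ≥ N, ∃ η > 0, ∀ w ∈ A ∩ S m, η ≤ dist x w := by
      intro m hm
      have : x ∉ insert z (A ∩ S m) := fun h => h.elim hxz fun h' => hcon h'.1
      obtain ⟨η, hη, hb⟩ := Metric.isOpen_iff.1 (hA m hm).isOpen_compl x this
      refine ⟨η, hη, fun w hw => ?_⟩
      by_contra hc
      exact hb (mem_ball'.2 (not_le.1 hc)) (Or.inr hw)
    obtain ⟨η0, hη0, h0⟩ := hx0 N le_rfl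
    have hd := dist_pos.2 hxz
    set ε := min η0 (dist x z) / 2 with hε
    have hεpos : 0 < ε := half_pos (lt_min hη0 hd)
    have hε1 : 2 * ε ≤ η0 := by rw [hε]; linarith [min_le_left η0 (dist x z)]
    have hε2 : 2 * ε ≤ dist x z := by rw [hε]; linarith [min_le_right η0 (dist x z)]
    obtain ⟨N', hN'⟩ := hH ε hεpos
    obtain ⟨η, hη, h1⟩ := hx0 (max N N') (le_max_left _ _)
    obtain ⟨w, hw, hxw⟩ := Metric.mem_closure_iff.1 hx (min η ε) (lt_min hη hεpos)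
    have hwN : w ∉ S (max N N') := fun h => by
      linarith [h1 w ⟨hw, h⟩, min_le_left η ε]
    obtain ⟨n, hn, hwn⟩ := hlev _ w (hAS hw) hwN
    obtain ⟨K, hKp, hKS, hwK, ⟨t, htK, htT⟩, hKs⟩ := hN' n ((le_max_right _ _).trans hn) w hwn
    have hKx : ∀ u ∈ K, dist x u < 2 * ε := fun u hu => by
      linarith [hKs w hwK u hu, dist_triangle x w u, min_le_right η ε]
    have hKA := hK (n + 1) K hKp (fun u hu => ⟨hKS hu, fun e => by
      have := hKx u hu
      rw [mem_singleton_iff.1 e] at this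
      linarith⟩) ⟨w, hwK, hw⟩
    linarith [h0 t ⟨hKA htK, hmono (Nat.zero_le N) (hT htT)⟩, hKx t htK]
  obtain ⟨s0, hs0⟩ := (hS 0).nonempty
  have hcl : IsClosed (⋃ n, S n) := by
    have := hclose (⋃ n, S n) s0 0 subset_rfl (fun m _ => by
      rw [inter_eq_right.2 (subset_iUnion _ m), insert_eq_of_mem (hmono (Nat.zero_le m) hs0)]
      exact (hS m).closed) (fun m K _ hK _ => hK.trans (sdiff_subset.trans (subset_iUnion _ m)))
    rwa [insert_eq_of_mem (mem_iUnion.2 ⟨0, hs0⟩)] at this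
  refine ⟨hcl.isCompact, ⟨⟨s0, mem_iUnion.2 ⟨0, hs0⟩⟩, isPreconnected_iUnion
    ⟨s0, mem_iInter.2 fun n => hmono (Nat.zero_le n) hs0⟩ fun n => (hS n).pre⟩, ?_⟩
  intro x hx y hy hxy
  obtain ⟨N, hxN, hyN⟩ : ∃ N, x ∈ S N ∧ y ∈ S N := by
    obtain ⟨n, hn⟩ := mem_iUnion.1 hx
    obtain ⟨m, hm⟩ := mem_iUnion.1 hy
    exact ⟨max n m, hmono (le_max_left _ _) hn, hmono (le_max_right _ _) hm⟩
  obtain ⟨z, hz⟩ := (hS N).sep x hxN y hyN hxy
  obtain ⟨-, hzx, hzy⟩ := hz.mem (hS N).pre subset_rfl hxN hyN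
  set U := ⋃ n, connectedComponentIn (S n \ {z}) x with hU
  have hUS : U ⊆ ⋃ n, S n :=
    iUnion_mono fun n => (connectedComponentIn_subset _ _).trans sdiff_subset
  have hF1 : ∀ m ≥ N, U ∩ S m = connectedComponentIn (S m \ {z}) x := by
    intro m hm
    refine Subset.antisymm ?_ (subset_inter (subset_iUnion
      (fun n => connectedComponentIn (S n \ {z}) x) m)
      ((connectedComponentIn_subset _ _).trans sdiff_subset))
    rintro w ⟨hw, hwm⟩
    obtain ⟨n, hn⟩ := mem_iUnion.1 hw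
    rcases le_total n m with h | h
    · exact connectedComponentIn_mono x (sdiff_subset_sdiff_left (hmono h)) hn
    · have hxn : x ∈ S n \ {z} := ⟨hmono (hm.trans h) hxN, hzx.symm⟩
      refine ((hS n).pre_inter isPreconnected_connectedComponentIn (hS m).pre
        ((connectedComponentIn_subset _ _).trans sdiff_subset)
        (hmono h)).subset_connectedComponentIn (F := S m \ {z})
        ⟨mem_connectedComponentIn hxn, hmono hm hxN⟩
        (fun u hu => ⟨hu.2, (connectedComponentIn_subset _ _ hu.1).2⟩) ⟨hn, hwm⟩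
  have hF2 : ∀ m K, IsPreconnected K → K ⊆ S m \ {z} → (K ∩ U).Nonempty → K ⊆ U := by
    rintro m K hK hKS ⟨w, hwK, hw⟩
    obtain ⟨n, hn⟩ := mem_iUnion.1 hw
    have h1 := connectedComponentIn_mono x
      (sdiff_subset_sdiff_left (t := {z}) (hmono (le_max_left n m))) hn
    refine Subset.trans ?_ (subset_iUnion (fun n => connectedComponentIn (S n \ {z}) x) (max n m))
    rw [connectedComponentIn_eq h1]
    exact hK.subset_connectedComponentIn hwK
      (hKS.trans (sdiff_subset_sdiff_left (hmono (le_max_right n m))))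
  refine ⟨z, insert z U, insert z ((⋃ n, S n) \ U), ?_, ?_, ?_, ?_, ?_, ?_⟩
  · refine hclose U z N hUS (fun m hm => ?_) hF2
    rw [hF1 m hm]
    exact isClosed_insert_cc' (hS m).closed z x
  · refine hclose _ z N sdiff_subset (fun m hm => ?_) ?_
    · have : ((⋃ n, S n) \ U) ∩ S m = S m \ connectedComponentIn (S m \ {z}) x := by
        rw [← hF1 m hm]
        ext w
        constructor
        · exact fun h => ⟨h.2, fun h' => h.1.2 h'.1⟩
        · exact fun h => ⟨⟨mem_iUnion.2 ⟨m, h.1⟩, fun h' => h.2 ⟨h', h.1⟩⟩, h.1⟩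
      rw [this, insert_eq]
      exact isClosed_singleton.union ((hS m).isClosed_diff_cc z x)
    · rintro m K hK hKS ⟨w, hwK, hw⟩ u hu
      exact ⟨mem_iUnion.2 ⟨m, (hKS hu).1⟩, fun h => hw.2 (hF2 m K hK hKS ⟨u, hu, h⟩ hwK)⟩
  · intro w hw
    by_cases h : w ∈ U
    · exact Or.inl (Or.inr h)
    · exact Or.inr (Or.inr ⟨hw, h⟩)
  · rintro w - (h1 | h1) (h2 | h2)
    exacts [h1, h1, h2, absurd h1 h2.2]
  · rintro (h | h)
    · exact hzx h.symm
    · exact h.2 (mem_iUnion.2 ⟨N, mem_connectedComponentIn ⟨hxN, hzx.symm⟩⟩)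
  · rintro (h | h)
    · exact hzy h.symm
    · have : y ∈ connectedComponentIn (S N \ {z}) x := hF1 N le_rfl ▸ ⟨h, hyN⟩
      exact (connectedComponentIn_subset _ _ (hz.mem isPreconnected_connectedComponentIn
        ((connectedComponentIn_subset _ _).trans sdiff_subset)
        (mem_connectedComponentIn ⟨hxN, hzx.symm⟩) this).1).2 rfl

end Pool.Agent.Lib.MP_32448b_gt
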