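import Pool.Agent.Lib.MP_32448b_gt.PC

set_option autoImplicit false

open Set Metric Topology Filter Function

namespace Pool.Agent.Lib.MP_32448b_gt

variable {Y : Type} [MetricSpace Y]

theorem sub_step {S M : Set Y} (hS : SD S) {P : Set Y} (hP : P.Finite) (cell : Y → Set Y)
    (h1 : ∀ p ∈ P, ∃ t ∈ S, JoinedIn (M ∩ cell p) p t)
    (h2 : ∀ p ∈ P, ∀ q ∈ P, (cell p ∩ cell q).Nonempty → cell p = cell q) :
    ∃ S', SD S' ∧ S ∪ P ⊆ S' ∧ S' ⊆ S ∪ M ∧ ∀ w ∈ S' \ S, ∃ p ∈ P, ∃ K, IsPreconnected K ∧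
      K ⊆ S' ∩ cell p ∧ w ∈ K ∧ (K ∩ S).Nonempty := by
  induction P, hP using Set.Finite.induction_on with
  | empty => exact ⟨S, hS, by simp, subset_union_left, fun w hw => absurd hw.1 hw.2⟩
  | @insert p P _ _ ih =>
    obtain ⟨S', hS', hsub, hM, H⟩ := ih (fun q hq => h1 q (mem_insert_of_mem _ hq))
      (fun q hq r hr => h2 q (mem_insert_of_mem _ hq) r (mem_insert_of_mem _ hr))
    by_cases hp : p ∈ S'
    · refine ⟨S', hS', ?_, hM, fun w hw => ?_⟩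
      · rw [union_insert]
        exact insert_subset hp hsub
      · obtain ⟨q, hq, h⟩ := H w hw
        exact ⟨q, mem_insert_of_mem _ hq, h⟩
    obtain ⟨t, ht, hj⟩ := h1 p (mem_insert _ _)
    obtain ⟨A, hA, hpA, hAW, e, he⟩ := exists_hit hS'.closed hp (hsub (Or.inl ht)) hj
    have he' : e ∈ A ∩ S' := he ▸ rfl
    refine ⟨A ∪ S', hA.wedge hS' he, ?_,
      union_subset (hAW.trans (inter_subset_left.trans subset_union_right)) hM, ?_⟩
    · rw [union_insert]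
      exact insert_subset (Or.inl hpA) (hsub.trans subset_union_right)
    · have hold : ∀ w ∈ S' \ S, ∃ q ∈ insert p P, ∃ K, IsPreconnected K ∧
          K ⊆ (A ∪ S') ∩ cell q ∧ w ∈ K ∧ (K ∩ S).Nonempty := fun w hw => by
        obtain ⟨q, hq, K, h1, h2, h3⟩ := H w hw
        exact ⟨q, mem_insert_of_mem _ hq, K, h1,
          h2.trans (inter_subset_inter_left _ subset_union_right), h3⟩
      rintro w ⟨hw | hw, hwS⟩
      · have hAc : A ⊆ (A ∪ S') ∩ cell p :=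
          subset_inter subset_union_left (hAW.trans inter_subset_right)
        by_cases heS : e ∈ S
        · exact ⟨p, mem_insert _ _, A, hA.pre, hAc, hw, e, he'.1, heS⟩
        · obtain ⟨q, hq, K, hK, hKs, heK, hne⟩ := hold e ⟨he'.2, heS⟩
          have := h2 p (mem_insert _ _) q hq ⟨e, (hAc he'.1).2, (hKs heK).2⟩
          exact ⟨p, mem_insert _ _, A ∪ K, hA.pre.union e he'.1 heK hK,
            union_subset hAc (this ▸ hKs), Or.inl hw,
            hne.mono (inter_subset_inter_left _ subset_union_right)⟩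
      · exact hold w ⟨hw, hwS⟩

theorem span_finite {S M : Set Y} (hS : SD S) (hSM : S ⊆ M) (hM : ULPC M) (hMc : IsPreconnected M)
    {P : Set Y} (hP : P.Finite) (hPM : P ⊆ M) : ∃ S', SD S' ∧ S ∪ P ⊆ S' ∧ S' ⊆ M := by
  obtain ⟨t, ht⟩ := hS.nonempty
  obtain ⟨S', h1, h2, h3, -⟩ := sub_step (M := M) hS hP (fun _ => univ)
    (fun p hp => ⟨t, ht, by simpa using hM.joinedIn hMc (hPM hp) (hSM ht)⟩) (fun _ _ _ _ _ => rfl)
  exact ⟨S', h1, h2, h3.trans (union_subset hSM subset_rfl)⟩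

theorem exists_cells {T : Set Y} (hT : SD T) {ε : ℝ} (hε : 0 < ε) :
    ∃ l > 0, ∃ (col : Y → Prop) (V : Y → Set Y), (∀ t ∈ T, ball t l ⊆ V t ∧ Small (V t) ε) ∧
      ∀ t ∈ T, ∀ s ∈ T, (col t ↔ col s) → (V t ∩ V s).Nonempty → V t = V s := by
  classical
  have := hT.dend
  obtain ⟨P, hP, hC, hs⟩ := exists_chop (E := T) countable_empty (show 0 < ε / 2 by linarith)
  obtain ⟨r, hr, hrC⟩ := exists_sep_finite hC (K := fun c : T => {(c : Y)})
    fun _ _ => isCompact_singleton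
  set ρ := min (r / 2) (ε / 2) with hρ
  have hρ0 : 0 < ρ := lt_min (half_pos hr) (half_pos hε)
  let K : P.ι → Set Y := fun i => (↑) '' P.Φ i \ ⋃ c ∈ P.C, ball (c : Y) (ρ / 2)
  have hK : ∀ i, IsCompact (K i) := fun i =>
    ((P.sd i).compact.image continuous_subtype_val).diff (isOpen_biUnion fun _ _ => isOpen_ball)
  obtain ⟨m, hm, hmK⟩ := exists_sep_finite (finite_univ (α := P.ι)) fun i _ => hK i
  set μ := min (m / 2) (ε / 4) with hμ
  have hμ0 : 0 < μ := lt_min (half_pos hm) (by linarith)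
  have h1 : ∀ t ∈ T, ∃ V : Set Y, ball t (min (ρ / 2) μ) ⊆ V ∧
      (((∃ c ∈ P.C, dist t c < ρ / 2) ∧ ∃ c ∈ P.C, V = ball (c : Y) ρ) ∨
        ((¬ ∃ c ∈ P.C, dist t c < ρ / 2) ∧ ∃ i, V = thickening μ (K i))) := by
    intro t ht
    by_cases h : ∃ c ∈ P.C, dist t c < ρ / 2
    · obtain ⟨c, hc, hd⟩ := h
      refine ⟨ball c ρ, fun w hw => ?_, Or.inl ⟨⟨c, hc, hd⟩, c, hc, rfl⟩⟩
      have := (mem_ball.1 hw).trans_le (min_le_left _ _)
      rw [mem_ball]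
      linarith [dist_triangle w t c]
    · obtain ⟨i, hi⟩ := P.cover ⟨t, ht⟩ id
      refine ⟨thickening μ (K i), fun w hw => ?_, Or.inr ⟨h, i, rfl⟩⟩
      refine mem_thickening_iff.2 ⟨t, ⟨⟨_, hi, rfl⟩, fun h' => ?_⟩,
        (mem_ball.1 hw).trans_le (min_le_right _ _)⟩
      obtain ⟨c, hc, hd⟩ := mem_iUnion₂.1 h'
      exact h ⟨c, hc, hd⟩
  choose! V hV1 hV2 using h1
  refine ⟨min (ρ / 2) μ, lt_min (half_pos hρ0) hμ0, fun t => ∃ c ∈ P.C, dist t c < ρ / 2, V,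
    fun t ht => ⟨hV1 t ht, ?_⟩, fun t ht s hs hcol ⟨w, hw1, hw2⟩ => ?_⟩
  · rcases hV2 t ht with ⟨-, c, -, e⟩ | ⟨-, i, e⟩
    · rw [e]
      exact (small_ball _ _).le (by linarith [min_le_right (r / 2) (ε / 2)])
    · rw [e]
      intro a ha b hb
      obtain ⟨_, ⟨⟨a', ha', rfl⟩, -⟩, h1⟩ := mem_thickening_iff.1 ha
      obtain ⟨_, ⟨⟨b', hb', rfl⟩, -⟩, h2⟩ := mem_thickening_iff.1 hb
      have h3 : dist (a' : Y) b' < ε / 2 := hs i a' ha' b' hb'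
      linarith [dist_triangle4 a a' b' b, dist_comm b (b' : Y), min_le_right (m / 2) (ε / 4)]
  · rcases hV2 t ht with ⟨a1, c, hc, e⟩ | ⟨a1, i, e⟩ <;>
      rcases hV2 s hs with ⟨b1, d, hd, f⟩ | ⟨b1, j, f⟩
    · rw [e] at hw1
      rw [f] at hw2
      have h1 := mem_ball.1 hw1
      have h2 := mem_ball.1 hw2
      obtain ⟨u, hu1, hu2⟩ := hrC c hc d hd _ rfl _ rfl (by
        linarith [dist_triangle_left (c : Y) d w, min_le_left (r / 2) (ε / 2)])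
      rw [e, f, ← mem_singleton_iff.1 hu1, ← mem_singleton_iff.1 hu2]
    · exact absurd (hcol.1 a1) b1
    · exact absurd (hcol.2 b1) a1
    · rw [e] at hw1
      rw [f] at hw2
      obtain ⟨a, ha, h1⟩ := mem_thickening_iff.1 hw1
      obtain ⟨b, hb, h2⟩ := mem_thickening_iff.1 hw2
      obtain ⟨u, ⟨⟨u', hu', rfl⟩, hu1⟩, ⟨u'', hu'', e'⟩, -⟩ := hmK i (mem_univ _) j (mem_univ _)
        a ha b hb (by linarith [dist_triangle_left a b w, min_le_left (m / 2) (ε / 4)])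
      obtain rfl := Subtype.ext e'
      rw [e, f, P.uniq u'' id (fun h => hu1 (mem_biUnion h (mem_ball_self (half_pos hρ0)))) i j
        hu' hu'']

/-- The extension certificate used in the spanning construction. -/
def Cert (M T A : Set Y) (δ η : ℝ) : Prop :=
  ∀ P : Set Y, P.Finite → P ⊆ M → (∀ p ∈ P, infDist p T < δ) →
    ∃ A', SD A' ∧ A ∪ P ⊆ A' ∧ A' ⊆ M ∧ ∀ w ∈ A' \ A, ∃ K, IsPreconnected K ∧ K ⊆ A' ∧ w ∈ K ∧
      (K ∩ T).Nonempty ∧ Small K η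

theorem exists_cert {M T A : Set Y} (hM : ULPC M) (hT : SD T) (hA : SD A) (hTA : T ⊆ A)
    (hAM : A ⊆ M) {η : ℝ} (hη : 0 < η) : ∃ δ > 0, Cert M T A δ η := by
  obtain ⟨ε1, hε1, hulc⟩ := hA.ulc (show 0 < η / 4 by linarith)
  set ε := min (ε1 / 2) (η / 4) with hε
  have hε0 : 0 < ε := lt_min (half_pos hε1) (by linarith)
  have hεa : ε ≤ ε1 / 2 := min_le_left _ _
  have hεb : ε ≤ η / 4 := min_le_right _ _
  obtain ⟨l, hl, col, V, hV, hVc⟩ := exists_cells hT hε0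
  obtain ⟨δ, hδ, hj⟩ := hM (l / 2) (half_pos hl)
  refine ⟨min δ (l / 2), lt_min hδ (half_pos hl), fun P hP hPM hPd => ?_⟩
  have h1 : ∀ p ∈ P, ∃ t ∈ T, JoinedIn (M ∩ V t) p t := by
    intro p hp
    obtain ⟨t, ht, hd⟩ := (infDist_lt_iff hT.nonempty).1 (hPd p hp)
    refine ⟨t, ht, (hj p (hPM hp) t (hAM (hTA ht)) (hd.trans_le (min_le_left _ _))).mono
      (inter_subset_inter_right _ (Subset.trans (fun w hw => ?_) (hV t ht).1))⟩
    have := mem_ball.1 hw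
    rw [mem_ball]
    linarith [dist_triangle w p t, min_le_right δ (l / 2)]
  choose! τ hτ1 hτ2 using h1
  obtain ⟨S1, hS1, a1, b1, c1⟩ := sub_step (M := M) hA (hP.subset (sep_subset P fun p => col (τ p)))
    (fun p => V (τ p)) (fun p hp => ⟨τ p, hTA (hτ1 p hp.1), hτ2 p hp.1⟩)
    (fun p hp q hq => hVc _ (hτ1 p hp.1) _ (hτ1 q hq.1) (iff_of_true hp.2 hq.2))
  obtain ⟨S2, hS2, a2, b2, c2⟩ := sub_step (M := M) hS1
    (hP.subset (sep_subset P fun p => ¬ col (τ p)))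
    (fun p => V (τ p)) (fun p hp => ⟨τ p, a1 (Or.inl (hTA (hτ1 p hp.1))), hτ2 p hp.1⟩)
    (fun p hp q hq => hVc _ (hτ1 p hp.1) _ (hτ1 q hq.1) (iff_of_false hp.2 hq.2))
  have hS12 : S1 ⊆ S2 := subset_union_left.trans a2
  have hAS1 : A ⊆ S1 := subset_union_left.trans a1
  have hτV : ∀ p ∈ P, τ p ∈ V (τ p) := fun p hp => (hV _ (hτ1 p hp)).1 (mem_ball_self hl)
  have key0 : ∀ w ∈ A, ∀ t ∈ T, dist w t < ε1 → ∃ K, IsPreconnected K ∧ K ⊆ A ∧ w ∈ K ∧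
      (K ∩ T).Nonempty ∧ Small K (η / 2) := by
    intro w hw t ht hd
    obtain ⟨K, hK, h1, h2, h3⟩ := hulc w hw t (hTA ht) hd
    exact ⟨K, hK, h3.trans inter_subset_left, h1, ⟨t, h2, ht⟩,
      ((small_ball _ _).mono (h3.trans inter_subset_right)).le (by linarith)⟩
  have key1 : ∀ w ∈ S1, ∀ t ∈ T, dist w t < ε → ∃ K, IsPreconnected K ∧ K ⊆ S1 ∧ w ∈ K ∧
      (K ∩ T).Nonempty ∧ Small K (ε + η / 2) := by
    intro w hw t ht hd
    by_cases hwA : w ∈ A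
    · obtain ⟨K, h1, h2, h3, h4, h5⟩ := key0 w hwA t ht (by linarith)
      exact ⟨K, h1, h2.trans hAS1, h3, h4, h5.le (by linarith)⟩
    · obtain ⟨p, hp, K, hK, hKs, hwK, e, heK, heA⟩ := c1 w ⟨hw, hwA⟩
      have hsm := (hV _ (hτ1 p hp.1)).2
      obtain ⟨K', h1, h2, h3, h4, h5⟩ := key0 e heA (τ p) (hτ1 p hp.1)
        (by linarith [hsm e (hKs heK).2 _ (hτV p hp.1)])
      exact ⟨K ∪ K', hK.union e heK h3 h1,
        union_subset (hKs.trans inter_subset_left) (h2.trans hAS1), Or.inl hwK,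
        h4.mono (inter_subset_inter_left _ subset_union_right),
        (hsm.mono (hKs.trans inter_subset_right)).union h5 ⟨e, heK, h3⟩⟩
  refine ⟨S2, hS2, union_subset (hAS1.trans hS12) fun p hp => ?_,
    b2.trans (union_subset (b1.trans (union_subset hAM subset_rfl)) subset_rfl), ?_⟩
  · by_cases h : col (τ p)
    · exact hS12 (a1 (Or.inr ⟨hp, h⟩))
    · exact a2 (Or.inr ⟨hp, h⟩)
  rintro w ⟨hw, hwA⟩
  by_cases hw1 : w ∈ S1
  · obtain ⟨p, hp, K, -, hKs, hwK, -⟩ := c1 w ⟨hw1, hwA⟩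
    obtain ⟨K, h1, h2, h3, h4, h5⟩ := key1 w hw1 (τ p) (hτ1 p hp.1)
      ((hV _ (hτ1 p hp.1)).2 w (hKs hwK).2 _ (hτV p hp.1))
    exact ⟨K, h1, h2.trans hS12, h3, h4, h5.le (by linarith)⟩
  · obtain ⟨p, hp, K, hK, hKs, hwK, e, heK, heA⟩ := c2 w ⟨hw, hw1⟩
    have hsm := (hV _ (hτ1 p hp.1)).2
    obtain ⟨K', h1, h2, h3, h4, h5⟩ := key1 e heA (τ p) (hτ1 p hp.1)
      (hsm e (hKs heK).2 _ (hτV p hp.1))
    exact ⟨K ∪ K', hK.union e heK h3 h1,
      union_subset (hKs.trans inter_subset_left) (h2.trans hS12), Or.inl hwK,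
      h4.mono (inter_subset_inter_left _ subset_union_right),
      ((hsm.mono (hKs.trans inter_subset_right)).union h5 ⟨e, heK, h3⟩).le (by linarith)⟩

theorem merge_embedded [CompactSpace Y] {A B P : Set Y} (hA : SD A) (hB : SD B)
    (hne : (A ∩ B).Nonempty) (hPB : P ⊆ B) (hPc : P.Countable)
    (hl : ∀ x, x ∉ A → ∃ W ∈ 𝓝 x, (W ∩ P).Finite) :
    ∃ T', SD T' ∧ A ∪ P ⊆ T' ∧ T' ⊆ A ∪ B := by
  have := hB.dend
  obtain ⟨Q, hQ⟩ := exists_fingers (E := B) (F := (↑) ⁻¹' A) (Av := (↑) ⁻¹' P)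
    (hA.closed.preimage continuous_subtype_val) (by
      obtain ⟨x, h1, h2⟩ := hne
      exact ⟨⟨x, h2⟩, h1⟩) (hPc.preimage Subtype.val_injective)
  choose r hr using hQ
  have hr' : ∀ i, r i ∈ Q.Φ i ∩ (↑) ⁻¹' A := fun i => hr i ▸ rfl
  let seg : B → B → Set B := fun x y => ⋂ K : {K : Set B // IsPreconnected K ∧ x ∈ K ∧ y ∈ K}, K.1
  have hseg1 : ∀ x y, IsPreconnected (seg x y) := fun x y => pre_iInter fun K => K.2.1
  have hseg2 : ∀ x y K, IsPreconnected K → x ∈ K → y ∈ K → seg x y ⊆ K := fun x y K h1 h2 h3 =>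
    iInter_subset (fun K : {K : Set B // IsPreconnected K ∧ x ∈ K ∧ y ∈ K} => K.1) ⟨K, h1, h2, h3⟩
  have hseg3 : ∀ x y, x ∈ seg x y := fun x y => mem_iInter.2 fun K => K.2.2.1
  have hseg4 : ∀ x y, y ∈ seg x y := fun x y => mem_iInter.2 fun K => K.2.2.2
  have hseg5 : ∀ x y, IsClosed (seg x y) := by
    intro x y
    by_cases hxy : x = y
    · have : seg x y = {x} := Subset.antisymm (hseg2 x y _ isPreconnected_singleton rfl hxy.symm)
        (singleton_subset_iff.2 (hseg3 x y))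
      exact this ▸ isClosed_singleton
    · obtain ⟨α, hα⟩ := exists_isArc hxy
      have : seg x y = α '' Icc 0 1 := Subset.antisymm (hseg2 x y _ (hα.pre _ _)
        ⟨0, by simp, hα.zero⟩ ⟨1, by simp, hα.one⟩) (hα.subset (hseg1 x y) (hseg3 x y) (hseg4 x y))
      exact this ▸ (isCompact_Icc.image hα.cont).isClosed
  let H : Q.ι → Set B := fun i => {r i} ∪ ⋃ p : {p : B // p ∈ Q.Φ i ∧ p.1 ∈ P}, seg (r i) p
  have hHΦ : ∀ i, H i ⊆ Q.Φ i := fun i => union_subset (singleton_subset_iff.2 (hr' i).1)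
    (iUnion_subset fun p => hseg2 _ _ _ (Q.sd i).pre (hr' i).1 p.2.1)
  have hHc : ∀ i, IsClosed (H i) := by
    intro i
    rw [← closure_subset_iff_isClosed]
    intro u hu
    by_cases hur : u = r i
    · exact Or.inl hur
    obtain ⟨N, hN, hrN, hNp, hNu, -⟩ := exists_nbhd (x := r i)
      (isOpen_compl_singleton.mem_nhds (Ne.symm hur))
    have hfin : {p : B | p ∈ Q.Φ i \ N ∧ p.1 ∈ P}.Finite := by
      have h1 : ∀ x ∈ Q.Φ i \ N, ∃ W ∈ 𝓝 x, (W ∩ (↑) ⁻¹' P).Finite := by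
        intro x hx
        obtain ⟨W, hW, hf⟩ := hl x fun h => hx.2 (((hr i).subset ⟨hx.1, h⟩ : x = r i) ▸ hrN)
        exact ⟨(↑) ⁻¹' W, continuous_subtype_val.continuousAt.preimage_mem_nhds hW,
          by rw [← preimage_inter]; exact hf.preimage Subtype.val_injective.injOn⟩
      choose! W hW1 hW2 using h1
      obtain ⟨t, ht1, ht2⟩ := ((Q.sd i).compact.diff hN).elim_nhds_subcover W hW1
      refine (t.finite_toSet.biUnion fun w hw => hW2 w (ht1 w hw)).subset ?_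
      rintro p ⟨hp, hpP⟩
      obtain ⟨w, hw, h⟩ := mem_iUnion₂.1 (ht2 hp)
      exact mem_biUnion hw ⟨h, hpP⟩
    have hsub : H i ⊆ closure N ∪ ⋃ p ∈ {p : B | p ∈ Q.Φ i \ N ∧ p.1 ∈ P}, seg (r i) p := by
      rintro w (rfl | hw)
      · exact Or.inl (subset_closure hrN)
      · obtain ⟨p, hp⟩ := mem_iUnion.1 hw
        by_cases h : p.1 ∈ N
        · exact Or.inl (subset_closure (hseg2 _ _ _ hNp hrN h hp))
        · exact Or.inr (mem_biUnion (x := p.1) ⟨⟨p.2.1, h⟩, p.2.2⟩ hp)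
    rcases closure_minimal hsub (isClosed_closure.union
      (hfin.isClosed_biUnion fun p _ => hseg5 _ _)) hu with h | h
    · exact absurd rfl (hNu h)
    · obtain ⟨p, hp, h⟩ := mem_iUnion₂.1 h
      exact Or.inr (mem_iUnion.2 ⟨⟨p, hp.1.1, hp.2⟩, h⟩)
  have hH : ∀ i, SD (H i) := fun i => sd_of_conn (hHc i) ⟨⟨r i, Or.inl rfl⟩,
    pre_union_iUnion isPreconnected_singleton (fun p => hseg1 _ _) fun p => ⟨r i, hseg3 _ _, rfl⟩⟩
  refine ⟨A ∪ ⋃ i, (↑) '' H i, hA.hang (e := fun i => r i)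
    (fun i => (hH i).image continuous_subtype_val.continuousOn Subtype.val_injective.injOn)
    (fun i => ?_) ?_ ((Q.null.mono hHΦ).image uniformContinuous_subtype_val), ?_, ?_⟩
  · refine eq_singleton_iff_unique_mem.2 ⟨⟨⟨r i, Or.inl rfl, rfl⟩, (hr' i).2⟩, ?_⟩
    rintro _ ⟨⟨x, hx, rfl⟩, hxA⟩
    rw [((hr i).subset ⟨hHΦ i hx, hxA⟩ : x = r i)]
  · rintro i j hij _ ⟨⟨x, hx, rfl⟩, y, hy, e⟩
    obtain rfl := Subtype.ext e
    by_contra hxA
    have hC : y ∈ Q.C := by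
      by_contra h
      exact hij (Q.uniq y hxA h i j (hHΦ i hx) (hHΦ j hy))
    have hyr : r i ≠ y := fun e => hxA (e ▸ (hr' i).2)
    rcases hx with hx | hx
    · exact hyr hx.symm
    · obtain ⟨p, hp⟩ := mem_iUnion.1 hx
      exact (hseg2 _ _ _ (Q.nc y hC i (hHΦ i (Or.inr hx))) ⟨(hr' i).1, hyr⟩
        ⟨p.2.1, fun e => (Q.CF y hC).2 (mem_singleton_iff.1 e ▸ p.2.2)⟩ hp).2 rfl
  · refine union_subset subset_union_left fun p hp => ?_
    by_cases h : p ∈ A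
    · exact Or.inl h
    · obtain ⟨i, hi⟩ := Q.cover ⟨p, hPB hp⟩ h
      exact Or.inr (mem_iUnion.2 ⟨i, ⟨p, hPB hp⟩,
        Or.inr (mem_iUnion.2 ⟨⟨⟨p, hPB hp⟩, hi, hp⟩, hseg4 _ _⟩), rfl⟩)
  · refine union_subset_union_right _ (iUnion_subset fun i => ?_)
    rintro _ ⟨x, -, rfl⟩
    exact x.2

theorem span_seq [CompactSpace Y] {M T P : Set Y} (hM : ULPC M) (hMc : IsPreconnected M)
    (hT : SD T) (hTM : T ⊆ M) (hPM : P ⊆ M) (hP : ∀ ε > 0, {p ∈ P | ε ≤ infDist p T}.Finite) :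
    ∃ T', SD T' ∧ T ∪ P ⊆ T' ∧ T' ⊆ M := by
  obtain ⟨δ0, hδ0, hc0⟩ := exists_cert hM hT hT subset_rfl hTM (Nat.one_div_pos_of_nat (n := 0))
  obtain ⟨B0, hB0, hB0a, hB0b⟩ := span_finite hT hTM hM hMc (hP δ0 hδ0)
    ((sep_subset _ _).trans hPM)
  obtain ⟨f, hf0, hfP, hfR⟩ := exists_seq_rec (α := Set Y × Set Y × ℝ)
    (fun n s => SD s.1 ∧ SD s.2.1 ∧ T ⊆ s.1 ∧ T ⊆ s.2.1 ∧ s.1 ⊆ M ∧ s.2.1 ⊆ M ∧ 0 < s.2.2 ∧
      Cert M T s.1 s.2.2 (1 / (n + 1)) ∧ {p ∈ P | s.2.2 ≤ infDist p T} ⊆ s.1 ∪ s.2.1)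
    (fun n s s' => s'.1 = s.2.1 ∧ s.1 ⊆ s'.2.1 ∧ s'.2.2 ≤ 1 / (n + 1) ∧
      ∀ w ∈ s'.2.1 \ s.1, ∃ K, IsPreconnected K ∧ K ⊆ s'.2.1 ∧ w ∈ K ∧
        (K ∩ T).Nonempty ∧ Small K (1 / (n + 1)))
    (T, B0, δ0) ⟨hT, hB0, subset_rfl, subset_union_left.trans hB0a, hTM, hB0b, hδ0, hc0,
      (subset_union_right.trans hB0a).trans subset_union_right⟩
    (by
      rintro n ⟨A, B, δ⟩ ⟨hA, hB, hTA, hTB, hAM, hBM, hδ, hc, hcov⟩
      obtain ⟨δ1, hδ1, hc1⟩ := exists_cert hM hT hB hTB hBM (Nat.one_div_pos_of_nat (n := n + 1))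
      have hδ' : 0 < min δ1 (1 / ((n : ℝ) + 1)) := lt_min hδ1 Nat.one_div_pos_of_nat
      obtain ⟨A', hA', h1, h2, h3⟩ := hc {p ∈ P | min δ1 (1 / ((n : ℝ) + 1)) ≤ infDist p T ∧
        infDist p T < δ} ((hP _ hδ').subset fun p hp => ⟨hp.1, hp.2.1⟩)
        ((sep_subset _ _).trans hPM) (fun p hp => hp.2.2)
      refine ⟨(B, A', min δ1 (1 / ((n : ℝ) + 1))), ⟨hB, hA', hTB,
        hTA.trans (subset_union_left.trans h1), hBM, h2, hδ',
        fun P' a b c => hc1 P' a b fun p hp => (c p hp).trans_le (min_le_left _ _), ?_⟩,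
        rfl, subset_union_left.trans h1, min_le_right _ _, h3⟩
      intro p hp
      by_cases h : infDist p T < δ
      · exact Or.inr (h1 (Or.inr ⟨hp.1, hp.2, h⟩))
      · rcases hcov ⟨hp.1, not_lt.1 h⟩ with h' | h'
        · exact Or.inr (h1 (Or.inl h'))
        · exact Or.inl h')
  have hlim : ∀ c : ℕ, SD (⋃ k, (f (2 * k + c)).1) := by
    intro c
    have hstep : ∀ k, (f (2 * (k + 1) + c)).1 = (f (2 * k + c + 1)).2.1 := fun k => by
      rw [show 2 * (k + 1) + c = 2 * k + c + 1 + 1 by ring]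
      exact (hfR _).1
    refine sd_iUnion_limit (T := T) (fun k => (hfP _).1) (monotone_nat_of_le_succ fun k => ?_)
      (hfP _).2.2.1 fun ε hε => ?_
    · rw [hstep]
      exact (hfR _).2.1
    · obtain ⟨N, hN⟩ := exists_nat_one_div_lt hε
      refine ⟨N, fun k hk w hw => ?_⟩
      rw [hstep] at hw ⊢
      obtain ⟨K, h1, h2, h3, h4, h5⟩ := (hfR _).2.2.2 w hw
      refine ⟨K, h1, h2, h3, h4, h5.le (le_trans ?_ hN.le)⟩
      exact Nat.one_div_le_one_div (by omega)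
  have hTc : ∀ c : ℕ, T ⊆ ⋃ k, (f (2 * k + c)).1 := fun c =>
    (hfP _).2.2.1.trans (subset_iUnion (fun k => (f (2 * k + c)).1) 0)
  have hcnt : (P \ T).Countable := by
    refine (countable_iUnion fun n : ℕ => (hP _ (Nat.one_div_pos_of_nat (n := n))).countable).mono ?_
    rintro p ⟨hp, hpT⟩
    obtain ⟨n, hn⟩ := exists_nat_one_div_lt ((hT.closed.notMem_iff_infDist_pos hT.nonempty).1 hpT)
    exact mem_iUnion.2 ⟨n, hp, hn.le⟩
  obtain ⟨t0, ht0⟩ := hT.nonempty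
  obtain ⟨T', h1, h2, h3⟩ := merge_embedded (P := (P \ T) ∩ ⋃ k, (f (2 * k + 1)).1) (hlim 0)
    (hlim 1) ⟨t0, hTc 0 ht0, hTc 1 ht0⟩ inter_subset_right (hcnt.mono inter_subset_left) (by
      intro x hx
      have hd := (hT.closed.notMem_iff_infDist_pos hT.nonempty).1 fun h => hx (hTc 0 h)
      refine ⟨ball x (infDist x T / 2), ball_mem_nhds x (half_pos hd),
        (hP _ (half_pos hd)).subset ?_⟩
      rintro p ⟨hp1, hp2⟩
      refine ⟨hp2.1.1, ?_⟩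
      linarith [infDist_le_infDist_add_dist (x := x) (y := p) (s := T), mem_ball'.1 hp1])
  have hall : ∀ n, (f n).1 ⊆ (⋃ k, (f (2 * k + 0)).1) ∪ ⋃ k, (f (2 * k + 1)).1 := by
    intro n
    obtain ⟨k, rfl | rfl⟩ := Nat.even_or_odd' n
    · exact (subset_iUnion (fun k => (f (2 * k + 0)).1) k).trans subset_union_left
    · exact (subset_iUnion (fun k => (f (2 * k + 1)).1) k).trans subset_union_right
  refine ⟨T', h1, union_subset ((hTc 0).trans (subset_union_left.trans h2)) fun p hp => ?_,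
    h3.trans (union_subset (iUnion_subset fun k => (hfP _).2.2.2.2.1)
      (iUnion_subset fun k => (hfP _).2.2.2.2.1))⟩
  by_cases hpT : p ∈ T
  · exact h2 (Or.inl (hTc 0 hpT))
  obtain ⟨n, hn⟩ := exists_nat_one_div_lt ((hT.closed.notMem_iff_infDist_pos hT.nonempty).1 hpT)
  have h4 := (hfP (n + 1)).2.2.2.2.2.2.2.2 ⟨hp, (hfR n).2.2.1.trans hn.le⟩
  rw [← (hfR (n + 1)).1] at h4
  rcases h4.elim (fun h => hall _ h) (fun h => hall _ h) with h | h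
  · exact h2 (Or.inl h)
  · exact h2 (Or.inr ⟨⟨hp, hpT⟩, h⟩)

end Pool.Agent.Lib.MP_32448b_gt
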