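import Pool.Agent.Lib.MP_32448b_gt.Node

set_option autoImplicit false

open Set Metric Topology Filter Function

namespace Pool.Agent.Lib.MP_32448b_gt

variable {Y : Type} [MetricSpace Y]

/-- One step of the spanning construction. -/
structure Step (Y : Type) where
  J : Type
  X : Set Y
  M : J → Set Y
  A : J → Set Y

/-- A node of the spanning construction. -/
def GoodNode (M A : Set Y) : Prop := PCs M ∧ IsConnected M ∧ A ⊆ M ∧ NC A

/-- The properties of one step. -/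
structure Step.Ok (s : Step Y) (M A : Set Y) (ε : ℝ) : Prop where
  good : ∀ j, GoodNode (s.M j) (s.A j)
  small : ∀ j, Small (s.M j) ε
  sub : ∀ j, s.M j ⊆ M
  XM : s.X ⊆ M
  cover : A ⊆ s.X ∪ ⋃ j, s.A j
  disj : Pairwise (Disjoint on s.M)
  fill : ∀ g : s.J → Set Y, (∀ j, IsClosed (g j) ∧ IsConnected (g j) ∧ s.A j ⊆ g j ∧ g j ⊆ s.M j) →
    IsClosed (s.X ∪ ⋃ j, g j) ∧ IsConnected (s.X ∪ ⋃ j, g j) ∧
    (∀ x ∈ s.X ∪ ⋃ j, g j, ∀ y ∈ s.X ∪ ⋃ j, g j, x ≠ y → (∀ j, x ∈ g j → y ∉ g j) →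
      ∃ z, Sep (s.X ∪ ⋃ j, g j) z x y) ∧
    ∀ j x y z, x ∈ g j → y ∈ g j → Sep (g j) z x y → Sep (s.X ∪ ⋃ j, g j) z x y

theorem exists_step [CompactSpace Y] {M A : Set Y} (h : GoodNode M A) {ε : ℝ} (hε : 0 < ε) :
    ∃ s : Step Y, s.Ok M A ε := by
  obtain ⟨hM, hMc, hAM, hA⟩ := h
  obtain ⟨𝒞, J, B, O, h1, h2, h3, h4, h5, h6, h7, h8⟩ := exists_blobs hM hAM hA hε
  have hBO : ∀ j, B j ⊆ O j := fun j => (h4 j).2.2.2.1
  have hOj : ∀ i j w, w ∈ O i → w ∈ O j → i = j := fun i j w hi hj =>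
    by_contra fun hij => Set.disjoint_left.1 (h5 hij) hi hj
  obtain ⟨Y', _, _, q, hq, hqs, hqe⟩ := exists_quot (B := B) (fun j => (h4 j).1.compact.isClosed)
    (fun i j hij => (h5 hij).mono (hBO i) (hBO j)) (h7.mono hBO)
  have huc := CompactSpace.uniformContinuous_of_continuous hq
  choose m hm using fun j => (h4 j).2.1.nonempty
  set s : J → Y' := fun j => q (m j) with hs
  have hsB : ∀ j x, q x = s j ↔ x ∈ B j := fun j x => by
    rw [hqe]
    constructor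
    · rintro (rfl | ⟨i, a, b⟩)
      · exact hm j
      · exact hOj i j _ (hBO i b) (hBO j (hm j)) ▸ a
    · exact fun h => Or.inr ⟨j, h, hm j⟩
  have hinj : ∀ x y, q x = q y → q x ∉ range s → x = y := fun x y e hx =>
    ((hqe x y).1 e).resolve_right fun ⟨j, a, _⟩ => hx ⟨j, ((hsB j x).2 a).symm⟩
  have hsat : ∀ (U : Set Y) (j : J), B j ⊆ U → U ⊆ O j → ∀ x, q x ∈ (q '' Uᶜ)ᶜ ↔ x ∈ U := by
    intro U j a b x
    constructor
    · exact fun h => by_contra fun h' => h ⟨x, h', rfl⟩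
    · rintro hx ⟨y, hy, e⟩
      rcases (hqe y x).1 e with rfl | ⟨i, c, d⟩
      · exact hy hx
      · exact hy (a (hOj i j x (hBO i d) (b hx) ▸ c))
  have hopen : ∀ U : Set Y, IsOpen U → IsOpen (q '' Uᶜ)ᶜ := fun U hU =>
    (hU.isClosed_compl.isCompact.image hq).isClosed.isOpen_compl
  set C := ⋃₀ 𝒞 with hC
  have hCO : ∀ j, ∀ c ∈ C, c ∉ O j := fun j c hc => Set.disjoint_right.1 (h4 j).2.2.2.2.2.2.2.1 hc
  have hCs : ∀ c ∈ C, q c ∉ range s := by
    rintro c hc ⟨j, e⟩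
    exact hCO j c hc (hBO j ((hsB j c).1 e.symm))
  have hM' := (hM.image hq).ulpc
  have hMc' := hMc.image q hq.continuousOn
  obtain ⟨T0, hT0, hT0a, hT0b⟩ := exists_link' hM' hMc' (𝒮 := image q '' 𝒞) (h1.image _) (by
    rintro _ ⟨K, hK, rfl⟩
    exact ⟨(h2 K hK).1.image hq.continuousOn fun x hx y _ e => hinj x y e (hCs x ⟨K, hK, hx⟩),
      image_mono ((h2 K hK).2.trans hAM)⟩) (by
    rintro _ ⟨K, hK, rfl⟩ _ ⟨K', hK', rfl⟩ hne
    rw [Function.onFun, Set.disjoint_left]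
    rintro _ ⟨x, hx, rfl⟩ ⟨y, hy, e⟩
    obtain rfl := hinj x y e.symm (hCs x ⟨K, hK, hx⟩)
    exact Set.disjoint_left.1 (h3 hK hK' fun e => hne (e ▸ rfl)) hx hy)
  have hCT : ∀ c ∈ C, q c ∈ T0 := fun c ⟨K, hK, hc⟩ => hT0a ⟨_, ⟨K, hK, rfl⟩, c, hc, rfl⟩
  obtain ⟨Δ, hΔ, hΔa, hΔb⟩ := span_seq (P := range s) hM' hMc'.isPreconnected hT0 hT0b (by
    rintro _ ⟨j, rfl⟩
    exact ⟨m j, (h4 j).2.2.1 (hm j), rfl⟩) (by
    intro η hη
    obtain ⟨δ, hδ, H⟩ := Metric.uniformContinuous_iff.1 huc η hη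
    refine ((h8 δ hδ).image s).subset ?_
    rintro _ ⟨⟨j, rfl⟩, hj⟩
    refine ⟨j, fun hsub => ?_, rfl⟩
    obtain ⟨c, hc, hd⟩ := mem_thickening_iff.1 (hsub (hBO j (hm j)))
    exact absurd ((infDist_le_dist_of_mem (hCT c hc)).trans_lt (H hd)) (not_lt.2 hj))
  have hO' : ∀ j x, q x ∈ (q '' (O j)ᶜ)ᶜ ↔ x ∈ O j := fun j => hsat _ j (hBO j) subset_rfl
  choose G hG1 hG2 hG3 hG4 hG5 using fun j => hΔ.exists_nbhd (hΔa (Or.inr ⟨j, rfl⟩))
    ((hopen _ (h4 j).2.2.2.2.1).mem_nhds ((hO' j _).2 (hBO j (hm j))))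
  have hpre : ∀ j, q ⁻¹' (q '' (O j)ᶜ)ᶜ = O j := fun j => Set.ext (hO' j)
  let D : ND Y Y' :=
    { J := J, q := q, Δ := Δ, s := s, G := G, O := fun j => (q '' (O j)ᶜ)ᶜ, C := C, qc := hq
      surj := hqs, sd := hΔ, Go := hG1, sG := fun j => ⟨hΔa (Or.inr ⟨j, rfl⟩), hG2 j⟩
      pre := hG3, fin := hG5, Oo := fun j => hopen _ (h4 j).2.2.2.2.1
      Od := fun i j hij => by
        rw [Function.onFun, Set.disjoint_left]
        intro w hi hj
        obtain ⟨x, rfl⟩ := hqs w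
        exact hij (hOj i j x ((hO' i x).1 hi) ((hO' j x).1 hj))
      GO := hG4
      null := by simpa only [hpre] using h7
      lim := by simpa only [hpre] using h8
      Cc := (h1.isCompact_sUnion fun K hK => (h2 K hK).1.compact).isClosed
      CX := fun c hc => ⟨hΔa (Or.inl (hCT c hc)), fun h => by
        obtain ⟨j, hj⟩ := mem_iUnion.1 h
        exact hCO j c hc ((hO' j c).1 (hG4 j (subset_closure ⟨hΔa (Or.inl (hCT c hc)), hj⟩)))⟩
      inj := hinj }
  have hΔM : ∀ x, q x ∈ Δ → q x ∉ range s → x ∈ M := fun x hx hx' => by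
    obtain ⟨y, hy, e⟩ := hΔb hx
    exact hinj x y e.symm hx' ▸ hy
  have hBX : ∀ j, ∀ x ∈ B j, x ∉ D.X := fun j x hx hX =>
    hX.2 (mem_iUnion.2 ⟨j, show q x ∈ G j from (hsB j x).2 hx ▸ hG2 j⟩)
  have hport : ∀ j, ∀ b ∈ D.π j, ∃ H : Set Y, PCs H ∧ IsPreconnected H ∧ H ⊆ M ∩ O j ∧ b ∈ H ∧
      (H ∩ B j).Nonempty ∧ H ∩ D.X ⊆ {b} := by
    intro j b hb
    obtain ⟨r, hr, hrU⟩ := (h4 j).1.compact.exists_thickening_subset_open
      ((h4 j).2.2.2.2.1.sdiff D.X_closed) fun x hx => ⟨hBO j hx, hBX j x hx⟩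
    obtain ⟨δ, hδ, hj⟩ := hM.ulpc _ (half_pos hr)
    have hρ : 0 < min δ (r / 2) := lt_min hδ (half_pos hr)
    obtain ⟨α, hα, hαΔ, -, hαK⟩ := hΔ.exists_arc (D.N_sub j hb.1) (D.sG j).1
      fun (e : q b = s j) => hb.2 (show q b ∈ G j from e ▸ hG2 j)
    have hαN := hαK (insert (q b) (Δ ∩ G j)) ((hG3 j).subset_closure (subset_insert _ _)
      (insert_subset hb.1 subset_closure)) (insert_subset (D.N_sub j hb.1) inter_subset_left)
      (mem_insert _ _) (Or.inr (D.sG j))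
    have hU : thickening (min δ (r / 2)) (B j) ⊆ O j :=
      ((thickening_mono ((min_le_right _ _).trans (by linarith)) _).trans hrU).trans sdiff_subset
    have hsU := hsat _ j (self_subset_thickening hρ _) hU
    have hnh : α ⁻¹' (q '' (thickening (min δ (r / 2)) (B j))ᶜ)ᶜ ∈ 𝓝 (1 : ℝ) :=
      hα.cont.continuousAt.preimage_mem_nhds ((hopen _ isOpen_thickening).mem_nhds
        (hα.one ▸ (hsU _).2 (self_subset_thickening hρ _ (hm j))))
    obtain ⟨t, ht1, ht⟩ : ∃ t ∈ α ⁻¹' (q '' (thickening (min δ (r / 2)) (B j))ᶜ)ᶜ,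
        t ∈ Ioo (0 : ℝ) 1 := by
      have : (1 : ℝ) ∈ closure (Ioo (0 : ℝ) 1) := by rw [closure_Ioo zero_ne_one]; simp
      exact mem_closure_iff_nhds.1 this _ hnh
    have hsub : α '' Icc 0 t ⊆ α '' Icc 0 1 := image_mono (Icc_subset_Icc_right ht.2.le)
    have hN : ∀ w ∈ α '' Icc 0 t, w ∈ D.N j := fun w hw =>
      (hαN (hsub hw)).elim (fun e => e ▸ hb.1) fun h => subset_closure h
    have hns : ∀ w ∈ α '' Icc 0 t, w ∉ range s := by
      rintro w hw ⟨i, e⟩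
      obtain rfl := D.N_eq (D.s_mem_N i) (D.GO j (e ▸ hN w hw : s i ∈ D.N j))
      obtain ⟨u, hu, rfl⟩ := hw
      have := hα.inj ⟨hu.1, hu.2.trans ht.2.le⟩ (by simp) (e.symm.trans hα.one.symm)
      linarith [hu.2, ht.2]
    have hL : SD (q ⁻¹' (α '' Icc 0 t)) := by
      refine SD.of_image (((isCompact_Icc.image hα.cont).isClosed.preimage hq).isCompact)
        hq.continuousOn (fun x hx y _ e => hinj x y e (hns _ hx)) ?_
      rw [image_preimage_eq _ hqs]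
      exact hα.sd le_rfl ht.1.le ht.2.le
    have hLM : q ⁻¹' (α '' Icc 0 t) ⊆ M ∩ O j := fun x hx =>
      ⟨hΔM x (hαΔ (hsub hx)) (hns _ hx), (hO' j x).1 (D.GO j (hN _ hx))⟩
    obtain ⟨x, hx⟩ := hqs (α t)
    have hxL : x ∈ q ⁻¹' (α '' Icc 0 t) := ⟨t, ⟨ht.1.le, le_rfl⟩, hx.symm⟩
    obtain ⟨y, hy, hd⟩ := mem_thickening_iff.1 ((hsU x).1 (hx ▸ ht1))
    obtain ⟨S, hS, hSW, hxS, hyS⟩ := exists_dim_of_joinedIn (hj x (hLM hxL).1 y ((h4 j).2.2.1 hy)
      (hd.trans_le (min_le_left _ _)))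
    have hSU : S ⊆ O j \ D.X := fun w hw => hrU (mem_thickening_iff.2 ⟨y, hy, by
      linarith [mem_ball.1 (hSW hw).2, dist_triangle w x y, min_le_right δ (r / 2)]⟩)
    refine ⟨q ⁻¹' (α '' Icc 0 t) ∪ S, hL.dim.pcs.union hS.pcs,
      hL.pre.union x hxL hxS hS.isPathConnected.isConnected.isPreconnected,
      union_subset hLM fun w hw => ⟨(hSW hw).1, (hSU hw).1⟩,
      Or.inl ⟨0, ⟨le_rfl, ht.1.le⟩, hα.zero⟩, ⟨y, Or.inr hyS, hy⟩, ?_⟩
    rintro w ⟨hw | hw, hwX⟩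
    · rcases hαN (hsub hw) with e | h
      · exact D.X_inj hwX e
      · exact absurd (mem_iUnion.2 ⟨j, h.2⟩) hwX.2
    · exact absurd hwX (hSU hw).2
  choose! H hH1 hH2 hH3 hH4 hH5 hH6 using hport
  have hM'O : ∀ j, B j ∪ ⋃ b ∈ D.π j, H j b ⊆ M ∩ O j := fun j =>
    union_subset (subset_inter (h4 j).2.2.1 (hBO j)) (iUnion₂_subset (hH3 j))
  refine ⟨⟨J, D.X, fun j => B j ∪ ⋃ b ∈ D.π j, H j b, fun j => (A ∩ B j) ∪ D.π j⟩,
    fun j => ⟨(h4 j).1.union (pcs_biUnion (D.π_fin j) (hH1 j)),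
      ⟨⟨m j, Or.inl (hm j)⟩, ?_⟩, union_subset (inter_subset_right.trans subset_union_left)
        fun b hb => Or.inr (mem_biUnion hb (hH4 j b hb)),
      (hA.subset inter_subset_left
        (hA.compact.inter_right (h4 j).1.compact.isClosed)).union_finite (D.π_fin j)⟩,
    fun j => (h4 j).2.2.2.2.2.2.2.2.mono ((hM'O j).trans inter_subset_right),
    fun j => (hM'O j).trans inter_subset_left,
    fun x hx => hΔM x hx.1 fun ⟨j, e⟩ => hBX j x ((hsB j x).1 e.symm) hx, fun a ha => ?_,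
    fun i j hij => (h5 hij).mono ((hM'O i).trans inter_subset_right)
      ((hM'O j).trans inter_subset_right), fun g hg => ?_⟩
  · dsimp only
    rw [biUnion_eq_iUnion]
    exact pre_union_iUnion (h4 j).2.1.isPreconnected (fun b => hH2 j b b.2) fun b => hH5 j b b.2
  · rcases h6 ha with h | h
    · exact Or.inl (D.CX h)
    · obtain ⟨j, hj⟩ := mem_iUnion.1 h
      exact Or.inr (mem_iUnion.2 ⟨j, Or.inl ⟨ha, hj⟩⟩)
  · have hfit : D.Fit g := by
      refine ⟨fun j => (hg j).1, fun j x hx => (hO' j x).2 (hM'O j ((hg j).2.2.2 hx)).2,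
        fun j => subset_union_right.trans (hg j).2.2.1, ?_⟩
      rintro j x ⟨hx, hX⟩
      rcases (hg j).2.2.2 hx with h | h
      · exact absurd hX (hBX j x h)
      · obtain ⟨b, hb, h⟩ := mem_iUnion₂.1 h
        exact (hH6 j b hb ⟨h, hX⟩ : x = b) ▸ hb
    refine ⟨hfit.isClosed, ⟨?_, hfit.pre fun j => (hg j).2.1⟩,
      fun x hx y hy hxy hj => hfit.sep hx hy hxy hj, fun j x y z hx hy hs => hfit.lift hx hy hs⟩
    obtain ⟨w, hw⟩ := hΔ.nonempty
    by_cases h : w ∈ ⋃ j, G j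
    · obtain ⟨j, -⟩ := mem_iUnion.1 h
      obtain ⟨x, hx⟩ := (hg j).2.1.nonempty
      exact ⟨x, Or.inr (mem_iUnion.2 ⟨j, hx⟩)⟩
    · obtain ⟨x, rfl⟩ := hqs w
      exact ⟨x, Or.inl ⟨hw, h⟩⟩

/-- The approximations of the spanning dendrite. -/
def approx (F : Set Y → Set Y → ℕ → Step Y) : ℕ → ℕ → Set Y → Set Y → Set Y
  | 0, _, M, _ => M
  | k + 1, n, M, A => (F M A n).X ∪ ⋃ j, approx F k (n + 1) ((F M A n).M j) ((F M A n).A j)

theorem span_nc [CompactSpace Y] {M A : Set Y} (h : GoodNode M A) :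
    ∃ T, SD T ∧ A ⊆ T ∧ T ⊆ M := by
  have : Nonempty (Step Y) := ⟨⟨Unit, ∅, fun _ => ∅, fun _ => ∅⟩⟩
  have h0 : ∀ M A : Set Y, ∀ n : ℕ, GoodNode M A → ∃ s : Step Y, s.Ok M A (1 / (n + 1)) :=
    fun M A n h => exists_step h Nat.one_div_pos_of_nat
  choose! F hF using h0
  have h1 : ∀ k n M A, GoodNode M A → IsClosed (approx F k n M A) ∧
      IsConnected (approx F k n M A) ∧ A ⊆ approx F k n M A ∧ approx F k n M A ⊆ M := by
    intro k
    induction k with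
    | zero => exact fun n M A h => ⟨h.1.compact.isClosed, h.2.1, h.2.2.1, subset_rfl⟩
    | succ k ih =>
      intro n M A h
      have hs := hF M A n h
      obtain ⟨a, b, -⟩ := hs.fill _ fun j => ih (n + 1) _ _ (hs.good j)
      exact ⟨a, b, hs.cover.trans (union_subset_union_right _
        (iUnion_mono fun j => (ih (n + 1) _ _ (hs.good j)).2.2.1)), union_subset hs.XM
        (iUnion_subset fun j => (ih (n + 1) _ _ (hs.good j)).2.2.2.trans (hs.sub j))⟩
  have h2 : ∀ k n M A, GoodNode M A → approx F (k + 1) n M A ⊆ approx F k n M A := by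
    intro k
    induction k with
    | zero => exact fun n M A h => (h1 1 n M A h).2.2.2
    | succ k ih =>
      exact fun n M A h => union_subset_union_right _
        (iUnion_mono fun j => ih (n + 1) _ _ ((hF M A n h).good j))
  have h3 : ∀ n M A, GoodNode M A → IsClosed (⋂ k, approx F k n M A) ∧
      IsConnected (⋂ k, approx F k n M A) ∧ A ⊆ (⋂ k, approx F k n M A) ∧
      (⋂ k, approx F k n M A) ⊆ M := by
    intro n M A h
    have hd : Directed (· ⊇ ·) fun k => approx F k n M A :=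
      (antitone_nat_of_succ_le fun k => h2 k n M A h).directed_ge
    exact ⟨isClosed_iInter fun k => (h1 k n M A h).1,
      ⟨IsCompact.nonempty_iInter_of_directed_nonempty_isCompact_isClosed _ hd
        (fun k => (h1 k n M A h).2.1.nonempty) (fun k => (h1 k n M A h).1.isCompact)
        fun k => (h1 k n M A h).1,
      isPreconnected_iInter_directed hd (fun k => (h1 k n M A h).1.isCompact)
        fun k => (h1 k n M A h).2.1.isPreconnected⟩,
      subset_iInter fun k => (h1 k n M A h).2.2.1, iInter_subset (fun k => approx F k n M A) 0⟩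
  have h4 : ∀ n M A, GoodNode M A → ⋂ k, approx F k n M A =
      (F M A n).X ∪ ⋃ j, ⋂ k, approx F k (n + 1) ((F M A n).M j) ((F M A n).A j) := by
    intro n M A h
    have hs := hF M A n h
    ext w
    constructor
    · intro hw
      by_cases hX : w ∈ (F M A n).X
      · exact Or.inl hX
      have key : ∀ k, ∃ j, w ∈ approx F k (n + 1) ((F M A n).M j) ((F M A n).A j) := fun k =>
        mem_iUnion.1 ((mem_iInter.1 hw (k + 1)).resolve_left hX)
      obtain ⟨j, hj⟩ := key 0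
      refine Or.inr (mem_iUnion.2 ⟨j, mem_iInter.2 fun k => ?_⟩)
      obtain ⟨i, hi⟩ := key k
      obtain rfl : i = j := by_contra fun hij =>
        Set.disjoint_left.1 (hs.disj hij) ((h1 k _ _ _ (hs.good i)).2.2.2 hi) hj
      exact hi
    · intro hw
      refine mem_iInter.2 fun k => h2 k n M A h ?_
      exact hw.imp id fun h' => iUnion_mono (fun j => iInter_subset _ k) h'
  have h5 : ∀ d n M A, GoodNode M A → ∀ x ∈ ⋂ k, approx F k n M A, ∀ y ∈ ⋂ k, approx F k n M A,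
      1 / (((n + d : ℕ) : ℝ) + 1) ≤ dist x y → ∃ z, Sep (⋂ k, approx F k n M A) z x y := by
    intro d
    induction d with
    | zero =>
      intro n M A h x hx y hy hxy
      have hs := hF M A n h
      rw [h4 n M A h] at hx hy ⊢
      refine (hs.fill _ fun j => h3 (n + 1) _ _ (hs.good j)).2.2.1 x hx y hy
        (dist_pos.1 (Nat.one_div_pos_of_nat.trans_le hxy)) fun j a b => ?_
      exact absurd (hs.small j x ((h3 _ _ _ (hs.good j)).2.2.2 a) y ((h3 _ _ _ (hs.good j)).2.2.2 b))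
        (not_lt.2 hxy)
    | succ d ih =>
      intro n M A h x hx y hy hxy
      have hs := hF M A n h
      rw [h4 n M A h] at hx hy ⊢
      obtain ⟨-, -, a, b⟩ := hs.fill _ fun j => h3 (n + 1) _ _ (hs.good j)
      by_cases hj : ∃ j, x ∈ (⋂ k, approx F k (n + 1) ((F M A n).M j) ((F M A n).A j)) ∧
          y ∈ ⋂ k, approx F k (n + 1) ((F M A n).M j) ((F M A n).A j)
      · obtain ⟨j, c, e⟩ := hj
        obtain ⟨z, hz⟩ := ih (n + 1) _ _ (hs.good j) x c y e (by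
          rwa [show n + 1 + d = n + (d + 1) by ring])
        exact ⟨z, b j x y z c e hz⟩
      · exact a x hx y hy (dist_pos.1 (Nat.one_div_pos_of_nat.trans_le hxy))
          fun j c e => hj ⟨j, c, e⟩
  obtain ⟨a, b, c, d⟩ := h3 0 M A h
  refine ⟨_, ⟨a.isCompact, b, fun x hx y hy hxy => ?_⟩, c, d⟩
  obtain ⟨n, hn⟩ := exists_nat_one_div_lt (dist_pos.2 hxy)
  exact h5 n 0 M A h x hx y hy (by simpa using hn.le)

end Pool.Agent.Lib.MP_32448b_gt
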