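import Pool.Agent.Lib.MP_32448b_gt.Add

set_option autoImplicit false

open Set Metric Topology Filter Function

namespace Pool.Agent.Lib.MP_32448b_gt

variable {Y : Type} [MetricSpace Y]

/-- A countable system of tiles. -/
structure Sys (Y : Type) [MetricSpace Y] : Type 1 where
  J : Type
  [cnt : Countable J]
  t : J → Tile Y

attribute [instance] Sys.cnt

theorem pre_compl_subtype {E : Type*} [MetricSpace E] {T : Set E} {w : T}
    (h : IsPreconnected (T \ {w.1})) : IsPreconnected ({w}ᶜ : Set T) := by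
  have hcompl : ({w}ᶜ : Set T) = (↑) ⁻¹' (T \ {w.1}) := by
    ext u
    simp [Subtype.ext_iff]
  exact hcompl ▸ pre_preimage_val h sdiff_subset

namespace Sys

/-- Points of the system. -/
def P (S : Sys Y) : Type := Σ j, (S.t j).E

/-- The total map. -/
def G (S : Sys Y) (p : S.P) : Y := (S.t p.1).g p.2

/-- The range of a tile. -/
def R (S : Sys Y) (j : S.J) : Set Y := range (S.t j).g

/-- The range of the system. -/
def K (S : Sys Y) : Set Y := ⋃ j, S.R j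

/-- Double points. -/
def dbl (S : Sys Y) : Set Y := {y | ∃ p q, p ≠ q ∧ S.G p = y ∧ S.G q = y}

/-- Non-cut points. -/
def NCut (S : Sys Y) (p : S.P) : Prop := IsPreconnected ({p.2}ᶜ : Set (S.t p.1).E)

/-- Admissibility outside `A`. -/
structure AdmOff (S : Sys Y) (A : Set Y) : Prop where
  two : ∀ p q r, S.G p ∉ A → S.G p = S.G q → S.G q = S.G r → p = q ∨ q = r ∨ p = r
  nc : ∀ p q, S.G p ∉ A → p ≠ q → S.G p = S.G q → S.NCut p
  pf : PF (S.dbl \ A)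

/-- Admissibility. -/
structure Adm (S : Sys Y) : Prop where
  two : ∀ p q r, S.G p = S.G q → S.G q = S.G r → p = q ∨ q = r ∨ p = r
  nc : ∀ p q, p ≠ q → S.G p = S.G q → S.NCut p
  pf : PF S.dbl

/-- Local finiteness at a point. -/
def LF (S : Sys Y) (y : Y) : Prop := ∃ W ∈ 𝓝 y, {j | (S.R j ∩ W).Nonempty}.Finite

theorem AdmOff.adm {S : Sys Y} (h : S.AdmOff ∅) : S.Adm :=
  ⟨fun p q r => h.two p q r id, fun p q => h.nc p q id, by simpa using h.pf⟩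

theorem R_compact (S : Sys Y) (j : S.J) : IsCompact (S.R j) := isCompact_range (S.t j).cont

theorem R_nonempty (S : Sys Y) (j : S.J) : (S.R j).Nonempty := range_nonempty _

theorem R_sub (S : Sys Y) (j : S.J) : S.R j ⊆ S.K := subset_iUnion S.R j

theorem G_mem (S : Sys Y) (p : S.P) : S.G p ∈ S.R p.1 := ⟨p.2, rfl⟩

theorem mem_K {S : Sys Y} {y : Y} : y ∈ S.K ↔ ∃ p, S.G p = y :=
  ⟨fun h => by
    obtain ⟨j, x, hx⟩ := mem_iUnion.1 h
    exact ⟨⟨j, x⟩, hx⟩, fun ⟨p, hp⟩ => hp ▸ S.R_sub _ (S.G_mem p)⟩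

theorem dbl_sub (S : Sys Y) : S.dbl ⊆ S.K := fun _ ⟨p, _, _, h, _⟩ => mem_K.2 ⟨p, h⟩

theorem lf_of_finite (S : Sys Y) [Finite S.J] (y : Y) : S.LF y := ⟨univ, univ_mem, toFinite _⟩

theorem K_compact (S : Sys Y) [Finite S.J] : IsCompact S.K := isCompact_iUnion S.R_compact

theorem mk_inj {S : Sys Y} {j : S.J} {x y : (S.t j).E} (h : (⟨j, x⟩ : S.P) = ⟨j, y⟩) : x = y :=
  eq_of_heq (Sigma.mk.inj h).2

theorem Adm.tile {S : Sys Y} (h : S.Adm) (j : S.J) : (S.t j).Adm := by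
  refine ⟨fun p q r h1 h2 => ?_, fun p q h1 h2 => h.nc ⟨j, p⟩ ⟨j, q⟩ (fun e => h1 (mk_inj e)) h2,
    h.pf.mono fun y ⟨p, q, h1, h2, h3⟩ => ⟨⟨j, p⟩, ⟨j, q⟩, fun e => h1 (mk_inj e), h2, h3⟩⟩
  exact (h.two ⟨j, p⟩ ⟨j, q⟩ ⟨j, r⟩ h1 h2).imp mk_inj (Or.imp mk_inj mk_inj)

theorem Adm.fib_finite {S : Sys Y} (h : S.Adm) (j : S.J) (y : Y) :
    ((S.t j).g ⁻¹' {y}).Finite := by
  classical
  by_contra hinf
  obtain ⟨t, ht, hcard⟩ := Set.Infinite.exists_subset_card_eq hinf 3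
  obtain ⟨a, b, c, hab, hac, hbc, rfl⟩ := Finset.card_eq_three.1 hcard
  have ha : (S.t j).g a = y := ht (by simp)
  have hb : (S.t j).g b = y := ht (by simp)
  have hc : (S.t j).g c = y := ht (by simp)
  rcases (h.tile j).two a b c (ha.trans hb.symm) (hb.trans hc.symm) with e | e | e
  exacts [hab e, hbc e, hac e]

theorem Adm.av_countable [CompactSpace Y] {S : Sys Y} (h : S.Adm) (j : S.J) :
    ((S.t j).g ⁻¹' S.dbl).Countable :=
  (h.pf.preimage (S.t j).cont (h.fib_finite j)).countable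

theorem Adm.of_map {S T : Sys Y} (h : S.Adm) (φ : T.P → S.P) (hφ : Injective φ)
    (hG : ∀ p, S.G (φ p) = T.G p) (hn : ∀ p, S.NCut (φ p) → T.NCut p) : T.Adm := by
  refine ⟨fun p q r h1 h2 => ?_, fun p q h1 h2 => hn p (h.nc _ (φ q) (hφ.ne h1) (by simpa [hG])),
    h.pf.mono fun y ⟨p, q, h1, h2, h3⟩ => ⟨φ p, φ q, hφ.ne h1, by simpa [hG], by simpa [hG]⟩⟩
  exact (h.two (φ p) (φ q) (φ r) (by simpa [hG]) (by simpa [hG])).imp (@hφ _ _)
    (Or.imp (@hφ _ _) (@hφ _ _))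

/-- A subsystem. -/
def restrict (S : Sys Y) (I : Set S.J) : Sys Y := ⟨I, fun i => S.t i⟩

theorem Adm.restrict {S : Sys Y} (h : S.Adm) (I : Set S.J) : (S.restrict I).Adm := by
  refine h.of_map (fun p => ⟨p.1.1, p.2⟩) ?_ (fun _ => rfl) fun _ h => h
  rintro ⟨⟨i, hi⟩, x⟩ ⟨⟨j, hj⟩, y⟩ e
  obtain rfl : i = j := congrArg Sigma.fst e
  obtain rfl : x = y := mk_inj (S := S) e
  rfl

/-- The system with one embedded tile. -/
def single {T : Set Y} (h : SD T) : Sys Y := ⟨Unit, fun _ => Tile.ofSD h id continuous_id⟩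

theorem single_R {T : Set Y} (h : SD T) (j : (single h).J) : (single h).R j = T :=
  (Tile.range_ofSD h id continuous_id).trans (image_id T)

theorem single_K {T : Set Y} (h : SD T) : (single h).K = T := by
  simp only [K, single_R]
  exact iUnion_const (ι := Unit) T

theorem single_inj {T : Set Y} (h : SD T) : Injective (single h).G := by
  rintro ⟨⟨⟩, x⟩ ⟨⟨⟩, y⟩ e
  obtain rfl : x = y := Subtype.ext e
  rfl

theorem single_dbl {T : Set Y} (h : SD T) : (single h).dbl = ∅ :=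
  eq_empty_of_forall_notMem fun _ ⟨_, _, h1, h2, h3⟩ => h1 (single_inj h (h2.trans h3.symm))

theorem single_adm {T : Set Y} (h : SD T) : (single h).Adm :=
  ⟨fun _ _ _ e _ => Or.inl (single_inj h e), fun _ _ h1 e => absurd (single_inj h e) h1,
    single_dbl h ▸ pf_empty⟩

/-- The disjoint sum of a sequence of systems. -/
def sigma (S : ℕ → Sys Y) : Sys Y := ⟨Σ n, (S n).J, fun p => (S p.1).t p.2⟩

theorem sigma_K (S : ℕ → Sys Y) : (sigma S).K = ⋃ n, (S n).K := iUnion_sigma _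

theorem sigma_adm {S : ℕ → Sys Y} (h : ∀ n, (S n).Adm) {U : ℕ → Set Y} (hU : ∀ n, IsOpen (U n))
    (hK : ∀ n, (S n).K ⊆ U n) (hd : Pairwise (Disjoint on U)) :
    (sigma S).Adm ∧ (sigma S).dbl ⊆ ⋃ n, (S n).dbl := by
  have h1 : ∀ n m y, y ∈ U n → y ∈ U m → n = m := fun n m y a b =>
    by_contra fun hne => Set.disjoint_left.1 (hd hne) a b
  have h2 : ∀ p q : (sigma S).P, (sigma S).G p = (sigma S).G q → p.1.1 = q.1.1 := fun p q e =>
    h1 _ _ _ (hK _ ((S p.1.1).R_sub _ ((S p.1.1).G_mem ⟨p.1.2, p.2⟩)))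
      (hK _ ((S q.1.1).R_sub _ (show (sigma S).G p ∈ _ from
        e ▸ (S q.1.1).G_mem ⟨q.1.2, q.2⟩)))
  have h3 : ∀ {n} {p q : (S n).P}, p = q →
      (⟨⟨n, p.1⟩, p.2⟩ : (sigma S).P) = ⟨⟨n, q.1⟩, q.2⟩ := fun e => e ▸ rfl
  have h4 : (sigma S).dbl ⊆ ⋃ n, (S n).dbl := by
    rintro y ⟨⟨⟨n, i⟩, x⟩, ⟨⟨m, j⟩, x'⟩, a, b, c⟩
    obtain rfl : n = m := h2 _ _ (b.trans c.symm)
    exact mem_iUnion.2 ⟨n, ⟨i, x⟩, ⟨j, x'⟩, fun e => a (h3 e), b, c⟩
  refine ⟨⟨?_, ?_, (pf_iUnion (fun n => (h n).pf) hU (fun n => (S n).dbl_sub.trans (hK n))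
    fun y => Set.Subsingleton.finite fun n a m b => h1 n m y a b).mono h4⟩, h4⟩
  · rintro ⟨⟨n, i⟩, x⟩ ⟨⟨m, j⟩, x'⟩ ⟨⟨l, k⟩, x''⟩ a b
    obtain rfl : n = m := h2 _ _ a
    obtain rfl : n = l := h2 _ _ b
    exact ((h n).two ⟨i, x⟩ ⟨j, x'⟩ ⟨k, x''⟩ a b).imp h3 (Or.imp h3 h3)
  · rintro ⟨⟨n, i⟩, x⟩ ⟨⟨m, j⟩, x'⟩ a b
    obtain rfl : n = m := h2 _ _ b
    exact (h n).nc ⟨i, x⟩ ⟨j, x'⟩ (fun e => a (h3 e)) b

/-- Refinement of a system by decompositions of its tiles. -/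
def refine (S : Sys Y) {F Av : ∀ j, Set (S.t j).E} (Q : ∀ j, Pieces (F j) (Av j)) : Sys Y :=
  @Sys.mk Y _ (Σ j, (Q j).ι) (by have := fun j => (Q j).cnt; infer_instance)
    fun i => Tile.ofSD ((Q i.1).sd i.2) (S.t i.1).g (S.t i.1).cont

theorem refine_R (S : Sys Y) {F Av : ∀ j, Set (S.t j).E} (Q : ∀ j, Pieces (F j) (Av j))
    (i : (S.refine Q).J) : (S.refine Q).R i = (S.t i.1).g '' (Q i.1).Φ i.2 :=
  Tile.range_ofSD ((Q i.1).sd i.2) _ (S.t i.1).cont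

theorem refine_cover (S : Sys Y) {A : Set Y} {Av : ∀ j, Set (S.t j).E}
    (Q : ∀ j, Pieces ((S.t j).g ⁻¹' A) (Av j)) : S.K \ A ⊆ (S.refine Q).K := by
  rintro y ⟨h1, h2⟩
  obtain ⟨⟨j, x⟩, rfl⟩ := mem_K.1 h1
  obtain ⟨i, hi⟩ := (Q j).cover x h2
  exact mem_K.2 ⟨⟨⟨j, i⟩, ⟨x, hi⟩⟩, rfl⟩

theorem refine_null (S : Sys Y) (hn : Null S.R) {F Av : ∀ j, Set (S.t j).E}
    (Q : ∀ j, Pieces (F j) (Av j)) : Null (S.refine Q).R := by
  intro ε hε
  have h1 : ∀ j, {i | ¬ Small ((S.t j).g '' (Q j).Φ i) ε}.Finite := fun j =>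
    (Q j).null.image (CompactSpace.uniformContinuous_of_continuous (S.t j).cont) ε hε
  refine ((hn ε hε).biUnion fun j _ => (h1 j).image (Sigma.mk j)).subset ?_
  rintro ⟨j, i⟩ hi
  replace hi : ¬ Small ((S.t j).g '' (Q j).Φ i) ε := refine_R S Q ⟨j, i⟩ ▸ hi
  exact mem_biUnion (x := j) (fun h => hi (h.mono (image_subset_range _ _))) ⟨i, hi, rfl⟩

theorem Adm.refine {S : Sys Y} (h : S.Adm) {A : Set Y} (hl : ∀ y ∈ S.K \ A, S.LF y)
    (Q : ∀ j, Pieces ((S.t j).g ⁻¹' A) ((S.t j).g ⁻¹' S.dbl)) : (S.refine Q).AdmOff A := by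
  let φ : (S.refine Q).P → S.P := fun p => ⟨p.1.1, p.2.1⟩
  have hG : ∀ p, S.G (φ p) = (S.refine Q).G p := fun _ => rfl
  have h1 : ∀ p q : (S.refine Q).P, (S.refine Q).G p ∉ A → φ p = φ q →
      p.2.1 ∉ (Q p.1.1).C → p = q := by
    rintro ⟨⟨j, i⟩, x, hx⟩ ⟨⟨j', i'⟩, x', hx'⟩ hA e hC
    obtain rfl : j = j' := congrArg Sigma.fst e
    obtain rfl : x = x' := mk_inj e
    obtain rfl := (Q j).uniq x hA hC i i' hx hx'
    rfl
  have h2 : ∀ p q : (S.refine Q).P, (S.refine Q).G p = (S.refine Q).G q →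
      p.2.1 ∈ (Q p.1.1).C → φ p = φ q := fun p q e hC =>
    by_contra fun hne => ((Q p.1.1).CF _ hC).2 ⟨φ p, φ q, hne, rfl, e.symm⟩
  have h3 : ∀ p q : (S.refine Q).P, φ p = φ q → p.2.1 ∈ (Q p.1.1).C → q.2.1 ∈ (Q q.1.1).C := by
    rintro ⟨⟨j, i⟩, x, hx⟩ ⟨⟨j', i'⟩, x', hx'⟩ e hC
    obtain rfl : j = j' := congrArg Sigma.fst e
    obtain rfl : x = x' := mk_inj e
    exact hC
  refine ⟨fun p q r hA a b => ?_, fun p q hA hne a => ?_, ?_⟩
  · by_cases hC : p.2.1 ∈ (Q p.1.1).C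
    · have e1 := h2 p q a hC
      have e2 := h2 p r (a.trans b) hC
      obtain ⟨⟨j, i⟩, x, hx⟩ := p
      obtain ⟨⟨j', i'⟩, x', hx'⟩ := q
      obtain ⟨⟨j'', i''⟩, x'', hx''⟩ := r
      obtain rfl : j = j' := congrArg Sigma.fst e1
      obtain rfl : x = x' := mk_inj e1
      obtain rfl : j = j'' := congrArg Sigma.fst e2
      obtain rfl : x = x'' := mk_inj e2
      rcases (Q j).two x hC i i' i'' hx hx' hx'' with rfl | rfl | rfl
      exacts [Or.inl rfl, Or.inr (Or.inl rfl), Or.inr (Or.inr rfl)]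
    · rcases h.two (φ p) (φ q) (φ r) a b with e | e | e
      · exact Or.inl (h1 p q hA e hC)
      · exact Or.inr (Or.inl (h1 q r (a ▸ hA) e fun h' => hC (h3 q p (h2 q p a.symm h') h')))
      · exact Or.inr (Or.inr (h1 p r hA e hC))
  · refine pre_compl_subtype (T := (Q p.1.1).Φ p.1.2) (w := p.2) ?_
    by_cases hC : p.2.1 ∈ (Q p.1.1).C
    · exact (Q p.1.1).nc _ hC _ p.2.2
    · exact pre_inter ((Q p.1.1).sd _).pre (h.nc (φ p) (φ q) (fun e => hne (h1 p q hA e hC)) a)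
  · refine (h.pf.union (pf_of_discrete (C := ⋃ j, (S.t j).g '' (Q j).C) ?_)).mono ?_
    · intro c hc
      obtain ⟨j0, x0, hx0, rfl⟩ := mem_iUnion.1 hc
      have hA : (S.t j0).g x0 ∉ A := ((Q j0).CF _ hx0).1
      obtain ⟨W, hW, hf⟩ := hl _ ⟨S.R_sub j0 ⟨x0, rfl⟩, hA⟩
      have key : ∀ j, ∃ V ∈ 𝓝 ((S.t j0).g x0), (V ∩ (S.t j).g '' (Q j).C).Finite := by
        intro j
        have h4 : ∀ x ∈ (S.t j).g ⁻¹' {(S.t j0).g x0}, ∃ W ∈ 𝓝 x, (W ∩ (Q j).C).Finite :=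
          fun x hx => (Q j).locfin x fun h' => hA (mem_singleton_iff.1 hx ▸ h')
        choose! V hV1 hV2 using h4
        refine ⟨((S.t j).g '' (⋃ x ∈ (S.t j).g ⁻¹' {(S.t j0).g x0}, interior (V x))ᶜ)ᶜ,
          ((isOpen_biUnion fun _ _ => isOpen_interior).isClosed_compl.isCompact.image
            (S.t j).cont).isClosed.isOpen_compl.mem_nhds ?_,
          (((h.fib_finite j _).biUnion hV2).image (S.t j).g).subset ?_⟩
        · rintro ⟨x, hx, e⟩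
          exact hx (mem_biUnion (x := x) e (mem_interior_iff_mem_nhds.2 (hV1 x e)))
        · rintro _ ⟨h5, x, hx, rfl⟩
          obtain ⟨u, hu, h6⟩ := mem_iUnion₂.1 (by_contra fun h' => h5 ⟨x, h', rfl⟩)
          exact ⟨x, mem_biUnion hu ⟨interior_subset h6, hx⟩, rfl⟩
      choose V hV1 hV2 using key
      refine ⟨W ∩ ⋂ j ∈ {j | (S.R j ∩ W).Nonempty}, V j,
        inter_mem hW ((biInter_mem hf).2 fun j _ => hV1 j), (hf.biUnion fun j _ => hV2 j).subset ?_⟩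
      rintro y ⟨⟨h5, h6⟩, h7⟩
      obtain ⟨j, hj⟩ := mem_iUnion.1 h7
      have h8 : (S.R j ∩ W).Nonempty := ⟨y, image_subset_range _ _ hj, h5⟩
      exact mem_biUnion (x := j) h8 ⟨mem_iInter₂.1 h6 j h8, hj⟩
    · rintro y ⟨⟨p, q, a, rfl, b⟩, hA⟩
      by_cases hC : p.2.1 ∈ (Q p.1.1).C
      · exact Or.inr (mem_iUnion.2 ⟨p.1.1, p.2.1, hC, rfl⟩)
      · exact Or.inl ⟨φ p, φ q, fun e => a (h1 p q hA e hC), rfl, b⟩

end Sys

end Pool.Agent.Lib.MP_32448b_gt
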