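import Pool.Agent.Lib.MP_32448b_gt.Sys1

set_option autoImplicit false

open Set Metric Topology Filter Function

namespace Pool.Agent.Lib.MP_32448b_gt

variable {Y : Type} [MetricSpace Y]

namespace Sys

theorem Adm.chop [CompactSpace Y] {S : Sys Y} [Finite S.J] (h : S.Adm) {ε : ℝ} (hε : 0 < ε) :
    ∃ T : Sys Y, Finite T.J ∧ T.Adm ∧ T.K = S.K ∧ ∀ i, Small (T.R i) ε := by
  have h1 : ∀ j, ∃ Q : Pieces ((S.t j).g ⁻¹' ∅) ((S.t j).g ⁻¹' S.dbl), Finite Q.ι ∧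
      ∀ i, Small ((S.t j).g '' Q.Φ i) ε := by
    intro j
    obtain ⟨δ, hδ, H⟩ := Metric.uniformContinuous_iff.1
      (CompactSpace.uniformContinuous_of_continuous (S.t j).cont) ε hε
    obtain ⟨Q, h1, -, h2⟩ := exists_chop (h.av_countable j) hδ
    refine ⟨Q, h1, fun i => ?_⟩
    rintro _ ⟨x, hx, rfl⟩ _ ⟨y, hy, rfl⟩
    exact H (h2 i x hx y hy)
  choose Q hQ1 hQ2 using h1
  refine ⟨S.refine Q, inferInstanceAs (Finite (Σ j, (Q j).ι)),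
    (h.refine (fun y _ => S.lf_of_finite y) Q).adm, Subset.antisymm (iUnion_subset fun i => ?_)
      (by simpa using S.refine_cover Q), fun i => refine_R S Q i ▸ hQ2 _ _⟩
  rw [refine_R]
  exact (image_subset_range _ _).trans (S.R_sub _)

theorem Adm.finger [CompactSpace Y] {S : Sys Y} (h : S.Adm) (hn : Null S.R) {A : Set Y}
    (hl : ∀ y ∈ S.K \ A, S.LF y) (hc : ∀ j, IsClosed ((S.t j).g ⁻¹' A)) :
    ∃ (T : Sys Y) (κ : T.J → S.J), T.AdmOff A ∧ Null T.R ∧ S.K \ A ⊆ T.K ∧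
      (∀ i, T.R i ⊆ S.R (κ i)) ∧ ∀ i, (Disjoint (S.R (κ i)) A ∧ ∀ i', κ i' = κ i → i' = i) ∨
        ∃ r, (∀ x, (T.t i).g x ∈ A ↔ x = r) ∧ (T.t i).g r ∈ closure Aᶜ := by
  have h1 : ∀ j, ∃ Q : Pieces ((S.t j).g ⁻¹' A) ((S.t j).g ⁻¹' S.dbl),
      (Disjoint (S.R j) A ∧ Subsingleton Q.ι) ∨ ∀ i, ∃ r, Q.Φ i ∩ (S.t j).g ⁻¹' A = {r} := by
    intro j
    rcases ((S.t j).g ⁻¹' A).eq_empty_or_nonempty with he | hne
    · have hd : Disjoint (S.R j) A := by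
        rw [Set.disjoint_left]
        rintro _ ⟨x, rfl⟩ hx
        exact (he ▸ hx : x ∈ (∅ : Set _))
      rw [he]
      exact ⟨Pieces.triv _, Or.inl ⟨hd, inferInstanceAs (Subsingleton Unit)⟩⟩
    · obtain ⟨Q, hQ⟩ := exists_fingers (hc j) hne (h.av_countable j)
      exact ⟨Q, Or.inr hQ⟩
  choose Q hQ using h1
  refine ⟨S.refine Q, fun i => i.1, h.refine hl Q, S.refine_null hn Q, S.refine_cover Q,
    fun i => refine_R S Q i ▸ image_subset_range _ _, ?_⟩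
  rintro ⟨j, i⟩
  rcases hQ j with ⟨h1, h2⟩ | h1
  · refine Or.inl ⟨h1, ?_⟩
    rintro ⟨j', i'⟩ e
    obtain rfl : j' = j := e
    rw [Subsingleton.elim i i']
  · obtain ⟨r, hr⟩ := h1 i
    have hr' : r ∈ (Q j).Φ i ∩ (S.t j).g ⁻¹' A := hr ▸ rfl
    refine Or.inr ⟨⟨r, hr'.1⟩, fun x => ⟨fun hx => Subtype.ext (hr.subset ⟨x.2, hx⟩),
      fun e => e ▸ hr'.2⟩, ?_⟩
    exact closure_mono (by rintro _ ⟨x, hx, rfl⟩; exact hx.2)
      (image_closure_subset_closure_image (S.t j).cont ⟨r, (Q j).dense i hr'.1, rfl⟩)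

theorem Adm.attach {S S' : Sys Y} (h : S.Adm) (hd : S.dbl ⊆ interior S.K) (h' : S'.AdmOff S.K)
    (hn : Null S'.R) (fr : S'.J → Prop) (h1 : ∀ i, fr i → Disjoint (S'.R i) S.K)
    (h2 : ∀ i, ¬ fr i → ∃ r, (∀ x, (S'.t i).g x ∈ S.K ↔ x = r) ∧ (S'.t i).g r ∈ closure S.Kᶜ) :
    ∃ (T : Sys Y) (τ : T.J → S.J ⊕ S'.J), Injective τ ∧ T.Adm ∧ T.K = S.K ∪ S'.K ∧
      (∀ l j, τ l = Sum.inl j → T.R l ⊆ S.R j ∪ ⋃ i ∈ {i | (S'.R i ∩ S.R j).Nonempty}, S'.R i) ∧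
      ∀ l i, τ l = Sum.inr i → fr i ∧ T.R l ⊆ S'.R i := by
  classical
  choose r hr1 hr2 using fun i : {i // ¬ fr i} => h2 i.1 i.2
  have h3 : ∀ i : {i // ¬ fr i}, ∃ j, ∃ x : (S.t j).E, (S'.t i).g (r i) = (S.t j).g x := by
    intro i
    obtain ⟨p, hp⟩ := mem_K.1 ((hr1 i (r i)).2 rfl)
    exact ⟨p.1, p.2, hp.symm⟩
  choose a ha using h3
  have h4 : ∀ j, ∀ i : {i // a i = j}, ∃ x : (S.t j).E, (S'.t i.1).g (r i) = (S.t j).g x := by
    rintro j ⟨i, rfl⟩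
    exact ha i
  choose p hp using h4
  choose T j0 jj a1 a2 a3 a4 a5 a6 a7 a8 a9 using fun j => exists_glue (S.t j)
    (ι := {i // a i = j}) (fun i => S'.t i.1) (fun i => r i) (p j) (hp j)
    (hn.comp_inj (Subtype.val_injective.comp Subtype.val_injective))
  let U : Sys Y := ⟨S.J ⊕ {i // fr i}, Sum.elim T fun i => S'.t i⟩
  let e1 : S.P → U.P := fun q => ⟨Sum.inl q.1, j0 q.1 q.2⟩
  let e2 : ∀ q : S'.P, U.P := fun q => if hq : fr q.1 then ⟨Sum.inr ⟨q.1, hq⟩, q.2⟩ else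
    ⟨Sum.inl (a ⟨q.1, hq⟩), jj _ ⟨⟨q.1, hq⟩, rfl⟩ q.2⟩
  have p2 : ∀ (q : S'.P) (hq : fr q.1), e2 q = ⟨Sum.inr ⟨q.1, hq⟩, q.2⟩ := fun q hq => dif_pos hq
  have q2 : ∀ (q : S'.P) (hq : ¬ fr q.1),
      e2 q = ⟨Sum.inl (a ⟨q.1, hq⟩), jj _ ⟨⟨q.1, hq⟩, rfl⟩ q.2⟩ := fun q hq => dif_neg hq
  have g1 : ∀ q, U.G (e1 q) = S.G q := fun q => a3 _ _
  have g2 : ∀ q, U.G (e2 q) = S'.G q := fun q => by
    by_cases hq : fr q.1
    · rw [p2 q hq]
      rfl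
    · rw [q2 q hq]
      exact a4 _ ⟨⟨q.1, hq⟩, rfl⟩ _
  have n1 : ∀ q, S.G q ∈ interior S.K → S.NCut q → U.NCut (e1 q) := fun q hq hn =>
    a8 _ _ (fun i e => by
      have := hr2 i.1
      rw [hp, e, closure_compl] at this
      exact this hq) hn
  have n2 : ∀ q, S'.G q ∉ S.K → S'.NCut q → U.NCut (e2 q) := fun q hK hn => by
    by_cases hq : fr q.1
    · rw [p2 q hq]
      exact hn
    · rw [q2 q hq]
      exact a9 _ ⟨⟨q.1, hq⟩, rfl⟩ _ (fun e => hK ((hr1 ⟨q.1, hq⟩ _).2 e)) hn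
  have hcov : ∀ w : U.P, (∃ q, w = e1 q) ∨ ∃ q, S'.G q ∉ S.K ∧ w = e2 q := by
    rintro ⟨j | i, x⟩
    · rcases a5 j x with ⟨y, rfl⟩ | ⟨⟨i, rfl⟩, y, hy, rfl⟩
      · exact Or.inl ⟨⟨j, y⟩, rfl⟩
      · exact Or.inr ⟨⟨i.1, y⟩, fun hK => hy ((hr1 i y).1 hK), (q2 ⟨i.1, y⟩ i.2).symm⟩
    · exact Or.inr ⟨⟨i.1, x⟩, Set.disjoint_left.1 (h1 i.1 i.2) ⟨x, rfl⟩, (p2 ⟨i.1, x⟩ i.2).symm⟩
  have hK : ∀ q : S.P, S.G q ∈ S.K := fun q => mem_K.2 ⟨q, rfl⟩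
  refine ⟨U, Sum.map id Subtype.val, Injective.sumMap injective_id Subtype.val_injective,
    ⟨fun u v w a b => ?_, fun u v a b => ?_, (h.pf.union h'.pf).mono ?_⟩, ?_, ?_, ?_⟩
  · rcases hcov u with ⟨u, rfl⟩ | ⟨u, hu, rfl⟩ <;> rcases hcov v with ⟨v, rfl⟩ | ⟨v, hv, rfl⟩ <;>
      rcases hcov w with ⟨w, rfl⟩ | ⟨w, hw, rfl⟩ <;> simp only [g1, g2] at a b
    · exact (h.two u v w a b).imp (congrArg e1) (Or.imp (congrArg e1) (congrArg e1))
    · exact absurd (b ▸ hK v) hw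
    · exact absurd (a ▸ hK u) hv
    · exact absurd (a ▸ hK u) hv
    · exact absurd (a ▸ hK v) hu
    · exact absurd (a ▸ hK v) hu
    · exact absurd (b ▸ hK w) hv
    · exact (h'.two u v w hu a b).imp (congrArg e2) (Or.imp (congrArg e2) (congrArg e2))
  · rcases hcov u with ⟨u, rfl⟩ | ⟨u, hu, rfl⟩ <;> rcases hcov v with ⟨v, rfl⟩ | ⟨v, hv, rfl⟩ <;>
      simp only [g1, g2] at b
    · have hne : u ≠ v := fun e => a (congrArg e1 e)
      exact n1 u (hd ⟨u, v, hne, rfl, b.symm⟩) (h.nc u v hne b)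
    · exact absurd (b ▸ hK u) hv
    · exact absurd (b ▸ hK v) hu
    · exact n2 u hu (h'.nc u v hu (fun e => a (congrArg e2 e)) b)
  · rintro y ⟨u, v, a, b, c⟩
    rcases hcov u with ⟨u, rfl⟩ | ⟨u, hu, rfl⟩ <;> rcases hcov v with ⟨v, rfl⟩ | ⟨v, hv, rfl⟩ <;>
      simp only [g1, g2] at b c
    · exact Or.inl ⟨u, v, fun e => a (congrArg e1 e), b, c⟩
    · exact absurd (c.symm ▸ b ▸ hK u) hv
    · exact absurd (b.symm ▸ c ▸ hK v) hu
    · exact Or.inr ⟨⟨u, v, fun e => a (congrArg e2 e), b, c⟩, b ▸ hu⟩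
  · ext y
    constructor
    · intro hy
      obtain ⟨w, rfl⟩ := mem_K.1 hy
      rcases hcov w with ⟨q, rfl⟩ | ⟨q, -, rfl⟩
      · exact Or.inl (g1 q ▸ hK q)
      · exact Or.inr (mem_K.2 ⟨q, (g2 q).symm⟩)
    · rintro (hy | hy) <;> obtain ⟨q, rfl⟩ := mem_K.1 hy
      · exact mem_K.2 ⟨_, g1 q⟩
      · exact mem_K.2 ⟨_, g2 q⟩
  · rintro (j | i) j' e
    · obtain rfl : j = j' := Sum.inl_injective e
      rintro _ ⟨x, rfl⟩
      rcases a5 j x with ⟨y, rfl⟩ | ⟨i, y, -, rfl⟩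
      · exact Or.inl ⟨y, (a3 _ _).symm⟩
      · exact Or.inr (mem_biUnion (x := i.1.1) ⟨_, ⟨r i, rfl⟩, p j i, (hp j i).symm⟩
          ⟨y, (a4 _ _ _).symm⟩)
    · exact absurd e (by simp)
  · rintro (j | i) i' e
    · exact absurd e (by simp)
    · obtain rfl : i.1 = i' := Sum.inr_injective e
      exact ⟨i.2, subset_rfl⟩

theorem Adm.merge [CompactSpace Y] {S S' : Sys Y} (h : S.Adm) (hd : S.dbl ⊆ interior S.K)
    (h' : S'.Adm) (hn : Null S'.R) (hl : ∀ y ∈ S'.K \ S.K, S'.LF y)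
    (hc : ∀ j, IsClosed ((S'.t j).g ⁻¹' S.K)) :
    ∃ (T : Sys Y) (τ : T.J → S.J ⊕ S'.J), Injective τ ∧ T.Adm ∧ T.K = S.K ∪ S'.K ∧
      (∀ l j, τ l = Sum.inl j → T.R l ⊆ S.R j ∪ ⋃ i ∈ {i | (S'.R i ∩ S.R j).Nonempty}, S'.R i) ∧
      ∀ l i, τ l = Sum.inr i → Disjoint (S'.R i) S.K ∧ T.R l ⊆ S'.R i := by
  obtain ⟨V, κ, a1, a2, a3, a4, a5⟩ := h'.finger hn hl hc
  obtain ⟨T, τ, b1, b2, b3, b4, b5⟩ := h.attach hd a1 a2
    (fun i => Disjoint (S'.R (κ i)) S.K ∧ ∀ i', κ i' = κ i → i' = i)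
    (fun i hi => hi.1.mono_left (a4 i)) fun i hi => (a5 i).resolve_left hi
  refine ⟨T, Sum.map id κ ∘ τ, fun l m e => b1 ?_, b2, ?_, fun l j e => ?_, fun l i e => ?_⟩
  · simp only [comp_apply] at e
    rcases hl : τ l with j | i <;> rcases hm : τ m with j' | i' <;> rw [hl, hm] at e
    · exact congrArg _ (Sum.inl_injective e)
    · exact absurd e (by simp)
    · exact absurd e (by simp)
    · exact congrArg _ ((b5 m i' hm).1.2 i (Sum.inr_injective e))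
  · rw [b3]
    refine Subset.antisymm (union_subset_union_right _ (iUnion_subset fun i =>
      (a4 i).trans (S'.R_sub _))) (union_subset subset_union_left fun y hy => ?_)
    by_cases hK : y ∈ S.K
    · exact Or.inl hK
    · exact Or.inr (a3 ⟨hy, hK⟩)
  · simp only [comp_apply] at e
    rcases hl : τ l with j' | i <;> rw [hl] at e
    · obtain rfl : j' = j := Sum.inl_injective e
      refine (b4 l j' hl).trans (union_subset_union_right _ (iUnion₂_subset fun i hi => ?_))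
      exact (a4 i).trans (subset_biUnion_of_mem (u := S'.R) (x := κ i)
        (Set.Nonempty.mono (inter_subset_inter_left _ (a4 i)) hi))
    · exact absurd e (by simp)
  · simp only [comp_apply] at e
    rcases hl : τ l with j' | i' <;> rw [hl] at e
    · exact absurd e (by simp)
    · obtain rfl : κ i' = i := Sum.inr_injective e
      exact ⟨(b5 l i' hl).1.1, (b5 l i' hl).2.trans (a4 i')⟩

theorem Adm.merge_tree [CompactSpace Y] {S : Sys Y} (h : S.Adm) (hn : Null S.R) {T : Set Y}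
    (hT : SD T) (hl : ∀ y ∈ S.K \ T, S.LF y) (hm : ∀ j, (S.R j ∩ T).Nonempty) :
    ∃ V : Sys Y, Subsingleton V.J ∧ V.Adm ∧ V.K = T ∪ S.K := by
  obtain ⟨V, τ, a1, a2, a3, -, a5⟩ := (single_adm hT).merge (by simp [single_dbl]) h hn
    (by rwa [single_K]) fun j => by rw [single_K]; exact hT.closed.preimage (S.t j).cont
  rw [single_K] at a3 a5
  refine ⟨V, ⟨fun l m => a1 ?_⟩, a2, a3⟩
  have key : ∀ l, τ l = Sum.inl () := fun l => by
    rcases hl : τ l with j | i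
    · rfl
    · exact absurd (a5 l i hl).1 (not_disjoint_iff_nonempty_inter.2 (hm i))
  rw [key, key]

theorem Adm.select [CompactSpace Y] {S : Sys Y} [Finite S.J] (h : S.Adm) {Q U : Set Y}
    (hQ : IsCompact Q) (hU : IsOpen U) (hQU : Q ⊆ U) (hQK : Q ⊆ interior S.K) {ε : ℝ} (hε : 0 < ε) :
    ∃ T : Sys Y, Finite T.J ∧ T.Adm ∧ Q ⊆ interior T.K ∧ T.K ⊆ U ∧ T.dbl ⊆ interior T.K ∧
      ∀ i, Small (T.R i) ε := by
  obtain ⟨r, hr, hrU⟩ := hQ.exists_thickening_subset_open (hU.inter isOpen_interior)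
    (subset_inter hQU hQK)
  obtain ⟨V, _, a1, a2, a3⟩ := h.chop (lt_min hr hε)
  set I := {i | (V.R i ∩ Q).Nonempty} with hI
  have hsub : (V.restrict I).K ⊆ U ∩ interior S.K := by
    refine Subset.trans (iUnion_subset ?_) hrU
    rintro ⟨i, y, hy, hyQ⟩ w hw
    exact mem_thickening_iff.2 ⟨y, hyQ, (a3 i w hw y hy).trans_le (min_le_left _ _)⟩
  have key : ∀ y ∈ interior S.K, (∀ i, y ∈ V.R i → i ∈ I) → y ∈ interior (V.restrict I).K := by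
    intro y hy hi
    rw [mem_interior_iff_mem_nhds] at hy ⊢
    have hcl : IsClosed (⋃ i ∈ Iᶜ, V.R i) :=
      (toFinite _).isClosed_biUnion fun i _ => (V.R_compact i).isClosed
    filter_upwards [hy, hcl.isOpen_compl.mem_nhds fun h' => by
      obtain ⟨i, h1, h2⟩ := mem_iUnion₂.1 h'
      exact h1 (hi i h2)] with w h1 h2
    obtain ⟨i, hi⟩ := mem_iUnion.1 (a2.symm ▸ h1 : w ∈ V.K)
    exact mem_iUnion.2 ⟨⟨i, by_contra fun h' => h2 (mem_biUnion (x := i) h' hi)⟩, hi⟩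
  refine ⟨V.restrict I, inferInstanceAs (Finite I), a1.restrict I,
    fun y hy => key y (hQK hy) fun i hi => ⟨y, hi, hy⟩, hsub.trans inter_subset_left,
    fun y hy => key y (hsub ((V.restrict I).dbl_sub hy)).2 ?_,
    fun i => (a3 i.1).le (min_le_right _ _)⟩
  obtain ⟨⟨⟨i, hi⟩, x⟩, ⟨⟨j, hj⟩, x'⟩, hne, b, c⟩ := hy
  rintro l ⟨z, hz⟩
  rcases a1.two ⟨i, x⟩ ⟨j, x'⟩ ⟨l, z⟩ (b.trans c.symm) (c.trans hz.symm) with e | e | e
  · obtain rfl : i = j := congrArg Sigma.fst e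
    obtain rfl : x = x' := mk_inj (S := V) e
    exact absurd rfl hne
  · obtain rfl : j = l := congrArg Sigma.fst e
    exact hj
  · obtain rfl : i = l := congrArg Sigma.fst e
    exact hi

end Sys

end Pool.Agent.Lib.MP_32448b_gt
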