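import Pool.Agent.Lib.MP_32448b_gt.Sys2
import Pool.Agent.Lib.MP_32448b_gt.Span2

set_option autoImplicit false

open Set Metric Topology Filter Function

namespace Pool.Agent.Lib.MP_32448b_gt

variable {Y : Type} [MetricSpace Y]

/-- Points having a neighbourhood covered by a finite admissible system. -/
def Good (y : Y) : Prop := ∃ S : Sys Y, Finite S.J ∧ S.Adm ∧ y ∈ interior S.K

theorem isOpen_good : IsOpen {y : Y | Good y} := by
  rw [isOpen_iff_mem_nhds]
  rintro y ⟨S, h1, h2, h3⟩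
  filter_upwards [isOpen_interior.mem_nhds h3] with w hw
  exact ⟨S, h1, h2, hw⟩

theorem fin_cover [CompactSpace Y] {Q : Set Y} (hQ : IsCompact Q) (h : ∀ y ∈ Q, Good y) :
    ∃ S : Sys Y, Finite S.J ∧ S.Adm ∧ Q ⊆ interior S.K := by
  suffices H : ∃ S : Sys Y, Finite S.J ∧ S.Adm ∧ closure Q ⊆ interior S.K by
    obtain ⟨S, h1, h2, h3⟩ := H
    exact ⟨S, h1, h2, subset_closure.trans h3⟩
  refine hQ.induction_on
    (p := fun s => ∃ S : Sys Y, Finite S.J ∧ S.Adm ∧ closure s ⊆ interior S.K) ?_ ?_ ?_ ?_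
  · exact ⟨⟨Empty, Empty.elim⟩, inferInstanceAs (Finite Empty),
      ⟨fun p => p.1.elim, fun p => p.1.elim, pf_empty.mono fun _ ⟨p, _⟩ => p.1.elim⟩, by simp⟩
  · rintro s t hst ⟨S, h1, h2, h3⟩
    exact ⟨S, h1, h2, (closure_mono hst).trans h3⟩
  · rintro s t ⟨S, h1, h2, h3⟩ ⟨S', h4, h5, h6⟩
    obtain ⟨V, _, a1, a2, -, a3, -⟩ := h2.select isClosed_closure.isCompact isOpen_univ
      (subset_univ _) h3 one_pos
    obtain ⟨T, τ, b1, b2, b3, -⟩ := a1.merge a3 h5 (null_of_finite _) (fun y _ => S'.lf_of_finite y)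
      fun j => V.K_compact.isClosed.preimage (S'.t j).cont
    refine ⟨T, Finite.of_injective τ b1, b2, ?_⟩
    rw [closure_union, b3]
    exact union_subset (a2.trans (interior_mono subset_union_left))
      (h6.trans (interior_mono subset_union_right))
  · intro y hy
    obtain ⟨S, h1, h2, h3⟩ := h y hy
    obtain ⟨W, hW, hc, hs⟩ := exists_mem_nhds_isClosed_subset (isOpen_interior.mem_nhds h3)
    exact ⟨W, mem_nhdsWithin_of_mem_nhds hW, S, h1, h2, hc.closure_subset.trans hs⟩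

theorem exists_shells {B : Set Y} (hB : IsClosed B) (hne : B.Nonempty) :
    ∃ Q U : ℕ → Set Y, (∀ n, IsClosed (Q n) ∧ IsOpen (U n) ∧ Q n ⊆ U n ∧ U n ⊆ Bᶜ) ∧
      Bᶜ ⊆ ⋃ n, Q n ∧ (∀ n m y, y ∈ U n → y ∈ U m → n ≤ m + 1) ∧
      ∀ y, y ∉ B → ∃ W ∈ 𝓝 y, {n | (U n ∩ W).Nonempty}.Finite := by
  have hd := continuous_infDist_pt B
  refine ⟨fun n => {y | n * infDist y B ≤ 1 ∧ 1 ≤ (n + 1) * infDist y B},
    fun n => {y | (n - 1 / 2) * infDist y B < 1 ∧ 1 < (n + 3 / 2) * infDist y B},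
    fun n => ⟨(isClosed_le (continuous_const.mul hd) continuous_const).inter
      (isClosed_le continuous_const (continuous_const.mul hd)),
      (isOpen_lt (continuous_const.mul hd) continuous_const).inter
      (isOpen_lt continuous_const (continuous_const.mul hd)), fun y hy => ?_, fun y hy h => ?_⟩,
    fun y hy => ?_, fun n m y h1 h2 => ?_, fun y hy => ?_⟩
  · have h0 : 0 < infDist y B := by
      by_contra h
      have h1 := hy.2
      rw [le_antisymm (not_lt.1 h) infDist_nonneg] at h1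
      linarith
    exact ⟨by linarith [hy.1], by linarith [hy.2]⟩
  · have h1 := hy.2
    rw [infDist_zero_of_mem h] at h1
    linarith
  · have h0 := (hB.notMem_iff_infDist_pos hne).1 hy
    refine mem_iUnion.2 ⟨⌊1 / infDist y B⌋₊, ?_, ?_⟩
    · exact (le_div_iff₀ h0).1 (Nat.floor_le (by positivity))
    · exact (div_le_iff₀ h0).1 (Nat.lt_floor_add_one _).le
  · by_contra h
    have h3 : (m : ℝ) + 2 ≤ n := by exact_mod_cast (by omega : m + 2 ≤ n)
    nlinarith [h1.1, h2.2, infDist_nonneg (x := y) (s := B)]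
  · have h0 := (hB.notMem_iff_infDist_pos hne).1 hy
    refine ⟨{w | infDist y B / 2 < infDist w B},
      (isOpen_lt continuous_const hd).mem_nhds (half_lt_self h0), ?_⟩
    obtain ⟨N, hN⟩ := exists_nat_gt (2 / infDist y B + 1)
    refine (finite_lt_nat N).subset ?_
    rintro n ⟨w, h1, h2⟩
    by_contra h
    have h3 : (N : ℝ) ≤ n := by exact_mod_cast not_lt.1 h
    have h4 : 2 < (n - 1) * infDist y B := (div_lt_iff₀ h0).1 (by linarith)
    have h5 : infDist y B / 2 < infDist w B := h2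
    have h6 : (0 : ℝ) < n - 1 := by
      have : 0 < 2 / infDist y B := by positivity
      linarith
    nlinarith [h1.1]

namespace Sys

theorem finite_of_compact {S : Sys Y} {Z : Set Y} (hZ : IsCompact Z) (h : ∀ y ∈ Z, S.LF y) :
    {j | (S.R j ∩ Z).Nonempty}.Finite := by
  choose! W hW1 hW2 using h
  obtain ⟨t, ht1, ht2⟩ := hZ.elim_nhds_subcover W hW1
  refine (t.finite_toSet.biUnion fun y hy => hW2 y (ht1 y hy)).subset ?_
  rintro j ⟨w, h1, h2⟩
  obtain ⟨y, hy, h⟩ := mem_iUnion₂.1 (ht2 h2)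
  exact mem_biUnion hy ⟨w, h1, h⟩

theorem sigma_finite {S : ℕ → Sys Y} (h : ∀ n, Finite (S n).J) {F : Set ℕ} (hF : F.Finite) :
    {p : (sigma S).J | p.1 ∈ F}.Finite := by
  refine (hF.biUnion fun n _ => finite_range (Sigma.mk (β := fun n => (S n).J) n)).subset ?_
  rintro ⟨n, j⟩ hp
  exact mem_biUnion (x := n) hp ⟨j, rfl⟩

theorem Adm.merge' [CompactSpace Y] {S S' : Sys Y} (h : S.Adm) (hd : S.dbl ⊆ interior S.K)
    (h' : S'.Adm) (hn' : Null S'.R) (hl : ∀ y ∈ S'.K \ S.K, S'.LF y)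
    (hc : ∀ j, IsClosed ((S'.t j).g ⁻¹' S.K)) (hn : Null S.R)
    (hf : ∀ i, {j | (S'.R i ∩ S.R j).Nonempty}.Finite) :
    ∃ T : Sys Y, T.Adm ∧ T.K = S.K ∪ S'.K ∧ Null T.R ∧ ∀ y, S.LF y → S'.LF y → T.LF y := by
  obtain ⟨T, τ, a1, a2, a3, a4, a5⟩ := h.merge hd h' hn' hl hc
  have key : ∀ (p : Set Y → Prop) (F : Set S.J) (F' : Set S'.J), F.Finite → F'.Finite →
      (∀ l j, τ l = Sum.inl j → j ∉ F → (∀ i, (S'.R i ∩ S.R j).Nonempty → i ∉ F') → p (T.R l)) →
      (∀ l i, τ l = Sum.inr i → i ∉ F' → p (T.R l)) → {l | ¬ p (T.R l)}.Finite := by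
    intro p F F' hF hF' h1 h2
    refine ((((hF.union (hF'.biUnion fun i _ => hf i)).image Sum.inl).union
      (hF'.image Sum.inr)).preimage a1.injOn).subset fun l hl => ?_
    by_contra hcon
    refine hl ?_
    rcases e : τ l with j | i
    · refine h1 l j e (fun h => hcon (Or.inl ⟨j, Or.inl h, e.symm⟩)) fun i hi h =>
        hcon (Or.inl ⟨j, Or.inr (mem_biUnion h hi), e.symm⟩)
    · exact h2 l i e fun h => hcon (Or.inr ⟨i, h, e.symm⟩)
  refine ⟨T, a2, a3, fun ε hε => ?_, ?_⟩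
  · have hε' : 0 < ε / 3 := by linarith
    refine key (fun A => Small A ε) _ _ (hn _ hε') (hn' _ hε') (fun l j e h1 h2 => ?_)
      fun l i e h1 => ((not_not.1 h1).mono (a5 l i e).2).le (by linarith)
    have h3 : ∀ x ∈ T.R l, ∃ a ∈ S.R j, dist x a < ε / 3 := by
      intro x hx
      rcases a4 l j e hx with h | h
      · exact ⟨x, h, by simpa using hε⟩
      · obtain ⟨i, ⟨a, b1, b2⟩, h⟩ := mem_iUnion₂.1 h
        exact ⟨a, b2, not_not.1 (h2 i ⟨a, b1, b2⟩) x h a b1⟩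
    intro x hx y hy
    obtain ⟨a, ha, h4⟩ := h3 x hx
    obtain ⟨b, hb, h5⟩ := h3 y hy
    linarith [not_not.1 h1 a ha b hb, dist_triangle4 x a b y, dist_comm y b]
  · rintro y ⟨W, hW, h1⟩ ⟨W', hW', h2⟩
    refine ⟨W ∩ W', inter_mem hW hW', ?_⟩
    have := key (fun A => ¬ (A ∩ (W ∩ W')).Nonempty) _ _ h1 h2 (by
      rintro l j e h3 h4 ⟨w, h5, h6⟩
      rcases a4 l j e h5 with h | h
      · exact h3 ⟨w, h, h6.1⟩
      · obtain ⟨i, hi, h⟩ := mem_iUnion₂.1 h
        exact h4 i hi ⟨w, h, h6.2⟩) (by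
      rintro l i e h3 ⟨w, h5, h6⟩
      exact h3 ⟨w, (a5 l i e).2 h5, h6.2⟩)
    simpa only [not_not] using this

end Sys

theorem exists_tiling [CompactSpace Y] {B : Set Y} (hB : IsClosed B) (hne : B.Nonempty)
    (h : ∀ y, y ∉ B → Good y) :
    ∃ T : Sys Y, T.Adm ∧ T.K = Bᶜ ∧ Null T.R ∧ ∀ y, y ∉ B → T.LF y := by
  obtain ⟨Q, U, h1, h2, h3, h4⟩ := exists_shells hB hne
  have h5 : ∀ n : ℕ, ∃ T : Sys Y, Finite T.J ∧ T.Adm ∧ Q n ⊆ interior T.K ∧ T.K ⊆ U n ∧
      T.dbl ⊆ interior T.K ∧ ∀ i, Small (T.R i) (1 / (n + 1)) := by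
    intro n
    obtain ⟨S, _, a1, a2⟩ := fin_cover (h1 n).1.isCompact
      fun y hy => h y ((h1 n).2.2.2 ((h1 n).2.2.1 hy))
    exact a1.select (h1 n).1.isCompact (h1 n).2.1 (h1 n).2.2.1 a2 Nat.one_div_pos_of_nat
  choose S s1 s2 s3 s4 s5 s6 using h5
  have hR : ∀ c (p : (Sys.sigma fun k => S (2 * k + c)).J),
      (Sys.sigma fun k => S (2 * k + c)).R p ⊆ U (2 * p.1 + c) := fun c p =>
    ((S _).R_sub p.2).trans (s4 _)
  have key : ∀ c, (Sys.sigma fun k => S (2 * k + c)).Adm ∧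
      (Sys.sigma fun k => S (2 * k + c)).dbl ⊆ interior (Sys.sigma fun k => S (2 * k + c)).K ∧
      Null (Sys.sigma fun k => S (2 * k + c)).R ∧
      (∀ y, y ∉ B → (Sys.sigma fun k => S (2 * k + c)).LF y) ∧
      (Sys.sigma fun k => S (2 * k + c)).K ⊆ Bᶜ := by
    intro c
    obtain ⟨a1, a2⟩ := Sys.sigma_adm (S := fun k => S (2 * k + c)) (fun k => s2 _)
      (U := fun k => U (2 * k + c)) (fun k => (h1 _).2.1) (fun k => s4 _) (fun n m hnm => by
        rw [Function.onFun, Set.disjoint_left]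
        intro y a b
        have := h3 _ _ y a b
        have := h3 _ _ y b a
        omega)
    refine ⟨a1, a2.trans (iUnion_subset fun k => (s5 _).trans (interior_mono ?_)),
      fun ε hε => ?_, fun y hy => ?_, iUnion_subset fun p => (hR c p).trans (h1 _).2.2.2⟩
    · rw [Sys.sigma_K]
      exact subset_iUnion (fun k => (S (2 * k + c)).K) k
    · obtain ⟨N, hN⟩ := exists_nat_one_div_lt hε
      refine (Sys.sigma_finite (fun k => s1 _) (finite_lt_nat N)).subset fun p hp => ?_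
      by_contra hcon
      have h6 : N ≤ 2 * p.1 + c := by
        have : ¬ p.1 < N := hcon
        omega
      exact hp ((s6 _ p.2).le ((Nat.one_div_le_one_div h6).trans hN.le))
    · obtain ⟨W, hW, hf⟩ := h4 y hy
      refine ⟨W, hW, (Sys.sigma_finite (fun k => s1 _) (hf.preimage (f := fun k => 2 * k + c)
        fun a _ b _ e => by simpa using e)).subset fun p hp => ?_⟩
      exact Set.Nonempty.mono (inter_subset_inter_left _ (hR c p)) hp
  obtain ⟨a1, a2, a3, a4, a5⟩ := key 0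
  obtain ⟨b1, -, b3, b4, b5⟩ := key 1
  have hf : ∀ i, {j | ((Sys.sigma fun k => S (2 * k + 1)).R i ∩
      (Sys.sigma fun k => S (2 * k + 0)).R j).Nonempty}.Finite := fun i =>
    (Sys.finite_of_compact (Sys.R_compact _ i) fun y hy => a4 y (b5 (Sys.R_sub _ i hy))).subset
      fun j ⟨w, a, b⟩ => ⟨w, b, a⟩
  obtain ⟨T, c1, c2, c3, c4⟩ := a1.merge' a2 b1 b3 (fun y hy => b4 y (b5 hy.1)) (fun i => by
    have := ((hf i).isClosed_biUnion fun j _ => (Sys.R_compact _ j).isClosed).preimage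
      ((Sys.sigma fun k => S (2 * k + 1)).t i).cont
    convert this using 1
    ext x
    constructor
    · intro hx
      obtain ⟨j, hj⟩ := mem_iUnion.1 hx
      exact mem_biUnion (x := j) ⟨_, ⟨x, rfl⟩, hj⟩ hj
    · intro hx
      obtain ⟨j, -, hj⟩ := mem_iUnion₂.1 hx
      exact mem_iUnion.2 ⟨j, hj⟩) a3 hf
  refine ⟨T, c1, ?_, c3, fun y hy => c4 y (a4 y hy) (b4 y hy)⟩
  rw [c2]
  refine Subset.antisymm (union_subset a5 b5) fun y hy => ?_
  obtain ⟨n, hn⟩ := mem_iUnion.1 (h2 hy)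
  have := interior_subset (s3 n hn)
  rw [Sys.sigma_K, Sys.sigma_K]
  obtain ⟨k, rfl | rfl⟩ := Nat.even_or_odd' n
  · exact Or.inl (mem_iUnion.2 ⟨k, this⟩)
  · exact Or.inr (mem_iUnion.2 ⟨k, this⟩)

theorem good_of_nc [CompactSpace Y] [ConnectedSpace Y] (hM : PCs (univ : Set Y)) {B : Set Y}
    (hB : IsClosed B) (h : ∀ y, y ∉ B → Good y) {y : Y} (hy : y ∈ B) {r : ℝ} (hr : 0 < r)
    (hA : NC (B ∩ closedBall y r)) : Good y := by
  obtain ⟨S, a1, a2, a3, a4⟩ := exists_tiling hB ⟨y, hy⟩ h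
  obtain ⟨T, hT, hAT, -⟩ := span_nc ⟨hM, isConnected_univ, subset_univ _, hA⟩
  set I := {j | (S.R j ∩ closedBall y r).Nonempty} with hI
  choose s hs using fun j : I => j.2
  obtain ⟨T', hT', h1, -⟩ := span_seq (P := range s) hM.ulpc isPreconnected_univ hT (subset_univ _)
    (subset_univ _) (by
      intro ε hε
      have hf := Sys.finite_of_compact (S := S) (Z := closedBall y r ∩ {w | ε ≤ infDist w T})
        (isClosed_closedBall.inter (isClosed_le continuous_const (continuous_infDist_pt T))).isCompact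
        fun w hw => a4 w fun hwB => by
          have h2 : ε ≤ infDist w T := hw.2
          rw [infDist_zero_of_mem (hAT ⟨hwB, hw.1⟩)] at h2
          linarith
      refine ((hf.preimage (Subtype.val_injective (p := (· ∈ I))).injOn).image s).subset ?_
      rintro _ ⟨⟨j, rfl⟩, hj⟩
      exact ⟨j, ⟨s j, (hs j).1, (hs j).2, hj⟩, rfl⟩)
  obtain ⟨V, b1, b2, b3⟩ := (a1.restrict I).merge_tree (a3.comp_inj Subtype.val_injective) hT'
    (fun w hw => by
      obtain ⟨j, hj⟩ := mem_iUnion.1 hw.1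
      obtain ⟨W, hW, hf⟩ := a4 w (a2 ▸ S.R_sub _ hj : w ∈ Bᶜ)
      exact ⟨W, hW, (hf.preimage (Subtype.val_injective (p := (· ∈ I))).injOn).subset
        fun _ h => h⟩)
    fun j => ⟨s j, (hs j).1, h1 (Or.inr ⟨j, rfl⟩)⟩
  refine ⟨V, Finite.of_subsingleton, b2, mem_interior_iff_mem_nhds.2
    (mem_of_superset (closedBall_mem_nhds y hr) fun w hw => ?_)⟩
  rw [b3]
  by_cases hwB : w ∈ B
  · exact Or.inl (h1 (Or.inl (hAT ⟨hwB, hw⟩)))
  · obtain ⟨j, hj⟩ := mem_iUnion.1 (a2.symm ▸ hwB : w ∈ S.K)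
    exact Or.inr (mem_iUnion.2 ⟨⟨j, w, hj, hw⟩, hj⟩)

theorem exists_nc_ball [CompactSpace Y] {D : Type} [MetricSpace D] [Dend D] {f : D → Y}
    (hf : Continuous f) {k : ℕ} (hk : 0 < k) (h : ∀ y, (f ⁻¹' {y}).ncard = k) {B : Set Y}
    (hB : IsClosed B) (hne : B.Nonempty) : ∃ y ∈ B, ∃ r > 0, NC (B ∩ closedBall y r) := by
  have hfin : ∀ y, (f ⁻¹' {y}).Finite := fun y => finite_of_ncard_ne_zero (by rw [h]; omega)
  let F : ℕ → Set Y := fun n => Prod.fst '' {p : Y × (Fin k → D) | (∀ i, f (p.2 i) = p.1) ∧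
    ∀ i j, i ≠ j → 1 / ((n : ℝ) + 1) ≤ dist (p.2 i) (p.2 j)}
  have hFc : ∀ n, IsClosed (F n) := by
    intro n
    refine (IsClosed.isCompact ?_).image continuous_fst |>.isClosed
    simp only [ofPred_and, ofPred_forall]
    exact (isClosed_iInter fun i => isClosed_eq (by fun_prop) continuous_fst).inter
      (isClosed_iInter fun i => isClosed_iInter fun j => isClosed_iInter fun _ =>
        isClosed_le continuous_const (by fun_prop))
  have hF1 : ∀ n, ∀ a b, f a ∈ F n → f a = f b → a ≠ b → 1 / ((n : ℝ) + 1) ≤ dist a b := by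
    rintro n a b ⟨⟨y, u⟩, ⟨h1, h2⟩, e⟩ hab hne
    have hu : Injective u := fun i j e => by_contra fun hij => by
      have : 1 / ((n : ℝ) + 1) ≤ dist (u i) (u j) := h2 i j hij
      rw [e, dist_self] at this
      exact absurd this (not_le.2 Nat.one_div_pos_of_nat)
    have : range u = f ⁻¹' {y} := eq_of_subset_of_ncard_le (by rintro _ ⟨i, rfl⟩; exact h1 i)
      (by rw [h, ← image_univ, ncard_image_of_injective _ hu, ncard_univ]; simp) (hfin y)
    obtain ⟨i, rfl⟩ : a ∈ range u := this ▸ (Eq.symm e : f a = y)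
    obtain ⟨j, rfl⟩ : b ∈ range u := this ▸ (hab.symm.trans (Eq.symm e) : f b = y)
    exact h2 i j fun e => hne (congrArg u e)
  have hF2 : ∀ y, ∃ n, y ∈ F n := by
    intro y
    have := (hfin y).to_subtype
    let e := Finite.equivFinOfCardEq (α := f ⁻¹' {y}) (h y)
    obtain ⟨l, hl, H⟩ := exists_sep_finite (hfin y) (K := fun a => {a}) fun _ _ => isCompact_singleton
    obtain ⟨n, hn⟩ := exists_nat_one_div_lt hl
    refine ⟨n, (y, fun i => e.symm i), ⟨fun i => (e.symm i).2, fun i j hij => ?_⟩, rfl⟩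
    by_contra hcon
    obtain ⟨w, h1, h2⟩ := H _ (e.symm i).2 _ (e.symm j).2 _ rfl _ rfl ((not_le.1 hcon).trans hn)
    exact hij (e.symm.injective (Subtype.ext ((mem_singleton_iff.1 h1).symm.trans h2)))
  obtain ⟨E, hE, hd⟩ := TopologicalSpace.exists_countable_dense D
  have := hE.to_subtype
  let C : ℕ × E → Set Y := fun p => f '' (closedBall p.2.1 (1 / (p.1 + 1) / 3) ∩ f ⁻¹' F p.1)
  have hC : ∀ p, NC (C p) := fun p => (nc_univ.subset (subset_univ _)
    (isClosed_closedBall.inter ((hFc _).preimage hf)).isCompact).image hf fun a ha b hb e =>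
      by_contra fun hne => by
        have h1 := hF1 _ a b ha.2 e hne
        have h2 := mem_closedBall.1 ha.1
        have h3 := mem_closedBall.1 hb.1
        linarith [dist_triangle_right a b p.2.1, Nat.one_div_pos_of_nat (α := ℝ) (n := p.1)]
  have := hne.to_subtype
  have : CompactSpace B := isCompact_iff_compactSpace.1 hB.isCompact
  obtain ⟨p, y, hy⟩ := nonempty_interior_of_iUnion_of_closed (f := fun p => ((↑) ⁻¹' C p : Set B))
    (fun p => (hC p).compact.isClosed.preimage continuous_subtype_val) (by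
      refine eq_univ_of_forall fun y => ?_
      obtain ⟨n, hn⟩ := hF2 y
      obtain ⟨x, hx⟩ := nonempty_of_ncard_ne_zero (s := f ⁻¹' {y.1}) (by rw [h]; omega)
      obtain ⟨q, hq, hd⟩ := hd.exists_dist_lt x (ε := 1 / ((n : ℝ) + 1) / 3)
        (by linarith [Nat.one_div_pos_of_nat (α := ℝ) (n := n)])
      exact mem_iUnion.2 ⟨(n, ⟨q, hq⟩), x, ⟨hd.le, show f x ∈ F n from
        mem_singleton_iff.1 hx ▸ hn⟩, hx⟩)
  obtain ⟨r, hr, hb⟩ := Metric.mem_nhds_iff.1 (mem_interior_iff_mem_nhds.1 hy)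
  exact ⟨y, y.2, r / 2, half_pos hr, (hC p).subset (fun w hw => hb (a := ⟨w, hw.1⟩)
    ((mem_closedBall.1 hw.2).trans_lt (half_lt_self hr))) (hB.inter isClosed_closedBall).isCompact⟩

theorem exists_adm_tile [CompactSpace Y] {D : Type} [MetricSpace D] [Dend D] {f : D → Y}
    (hf : Continuous f) {k : ℕ} (hk : 0 < k) (h : ∀ y, (f ⁻¹' {y}).ncard = k) :
    ∃ t : Tile Y, t.Adm ∧ Surjective t.g := by
  have hs : Surjective f := fun y =>
    nonempty_of_ncard_ne_zero (s := f ⁻¹' {y}) (by rw [h]; omega)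
  have : ConnectedSpace Y := hs.connectedSpace hf
  have hM : PCs (univ : Set Y) := Dim.pcs ⟨⟨D, f, hf⟩, hs.range_eq⟩
  have hall : ∀ y : Y, Good y := by
    by_contra hcon
    obtain ⟨y, hy, r, hr, hA⟩ := exists_nc_ball hf hk h isOpen_good.isClosed_compl
      (not_forall.1 hcon)
    exact hy (good_of_nc hM isOpen_good.isClosed_compl (fun y hy => not_not.1 hy) hy hr hA)
  obtain ⟨S, _, a1, a2⟩ := fin_cover isCompact_univ fun y _ => hall y
  choose s hs using S.R_nonempty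
  obtain ⟨y0⟩ : Nonempty Y := inferInstance
  obtain ⟨T, hT, h1, -⟩ := span_finite (sd_singleton y0) (subset_univ _) hM.ulpc isPreconnected_univ
    (finite_range s) (subset_univ _)
  obtain ⟨V, b1, b2, b3⟩ := a1.merge_tree (null_of_finite _) hT (fun y _ => S.lf_of_finite y)
    fun j => ⟨s j, hs j, h1 (Or.inr ⟨j, rfl⟩)⟩
  have hK : ∀ y, y ∈ V.K := fun y => b3 ▸ Or.inr (interior_subset (a2 (mem_univ y)))
  obtain ⟨j, -⟩ := mem_iUnion.1 (hK y0)
  refine ⟨V.t j, b2.tile j, fun y => ?_⟩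
  obtain ⟨i, hi⟩ := mem_iUnion.1 (hK y)
  rwa [Subsingleton.elim i j] at hi

end Pool.Agent.Lib.MP_32448b_gt
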