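import Pool.Agent.Lib.MP_32448b_gt.Cut

set_option autoImplicit false

open Set Metric Topology Filter Function

namespace Pool.Agent.Lib.MP_32448b_gt

section PF
variable {X : Type*} [MetricSpace X] {Y : Type*} [MetricSpace Y]

/-- The points of `Z` have a point-finite system of neighbourhoods. -/
def PF (Z : Set X) : Prop :=
  ∃ N : X → Set X, (∀ z ∈ Z, N z ∈ 𝓝 z) ∧ ∀ y, {z ∈ Z | y ∈ N z}.Finite

theorem PF.mono {Z Z' : Set X} (h : PF Z) (hZ : Z' ⊆ Z) : PF Z' := by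
  obtain ⟨N, h1, h2⟩ := h
  exact ⟨N, fun z hz => h1 z (hZ hz), fun y => (h2 y).subset fun z hz => ⟨hZ hz.1, hz.2⟩⟩

theorem PF.union {Z Z' : Set X} (h : PF Z) (h' : PF Z') : PF (Z ∪ Z') := by
  classical
  obtain ⟨N, h1, h2⟩ := h
  obtain ⟨N', h1', h2'⟩ := h'
  refine ⟨fun z => if z ∈ Z then N z else N' z, fun z hz => ?_, fun y => ?_⟩
  · by_cases h : z ∈ Z
    · simpa [h] using h1 z h
    · simpa [h] using h1' z (hz.resolve_left h)
  · refine ((h2 y).union (h2' y)).subset fun z hz => ?_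
    by_cases h : z ∈ Z
    · exact Or.inl ⟨h, by simpa [h] using hz.2⟩
    · exact Or.inr ⟨hz.1.resolve_left h, by simpa [h] using hz.2⟩

theorem PF.countable [TopologicalSpace.SeparableSpace X] {Z : Set X} (h : PF Z) : Z.Countable := by
  obtain ⟨N, h1, h2⟩ := h
  obtain ⟨D, hD, hd⟩ := TopologicalSpace.exists_countable_dense X
  refine (hD.biUnion fun y _ => (h2 y).countable).mono fun z hz => ?_
  obtain ⟨y, hy1, hy2⟩ := hd.inter_nhds_nonempty (h1 z hz)
  exact mem_biUnion hy1 ⟨hz, hy2⟩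

theorem pf_of_discrete {C : Set X} (h : ∀ c ∈ C, ∃ W ∈ 𝓝 c, (W ∩ C).Finite) : PF C := by
  have h1 : ∀ c ∈ C, ∃ r > 0, ∀ c' ∈ C, dist c c' < r → c' = c := by
    intro c hc
    obtain ⟨W, hW, hf⟩ := h c hc
    have h1 : ((W ∩ C) \ {c})ᶜ ∈ 𝓝 c :=
      (hf.subset sdiff_subset).isClosed.isOpen_compl.mem_nhds fun h => h.2 rfl
    obtain ⟨r, hr, hb⟩ := Metric.mem_nhds_iff.1 (inter_mem hW h1)
    refine ⟨r, hr, fun c' hc' hd => ?_⟩
    by_contra hne
    have := hb (mem_ball'.2 hd)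
    exact this.2 ⟨⟨this.1, hc'⟩, hne⟩
  choose! r hr H using h1
  refine ⟨fun c => ball c (r c / 2), fun c hc => ball_mem_nhds c (half_pos (hr c hc)),
    fun y => Set.Subsingleton.finite ?_⟩
  rintro c ⟨hc, h1⟩ c' ⟨hc', h2⟩
  have h1 := mem_ball.1 h1
  have h2 := mem_ball.1 h2
  have := dist_triangle_left c c' y
  rcases le_total (r c) (r c') with h | h
  · exact H c' hc' c hc (by rw [dist_comm]; linarith)
  · exact (H c hc c' hc' (by linarith)).symm

theorem pf_empty : PF (∅ : Set X) := pf_of_discrete fun _ h => h.elim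

theorem pf_iUnion {ι : Type*} {Z U : ι → Set X} (hZ : ∀ n, PF (Z n)) (hU : ∀ n, IsOpen (U n))
    (hZU : ∀ n, Z n ⊆ U n) (hf : ∀ y, {n | y ∈ U n}.Finite) : PF (⋃ n, Z n) := by
  choose N h1 h2 using hZ
  have h3 : ∀ z ∈ ⋃ n, Z n, ∃ n, z ∈ Z n := fun z hz => mem_iUnion.1 hz
  rcases isEmpty_or_nonempty ι with hι | hι
  · simpa using pf_empty
  choose! n hn using h3
  refine ⟨fun z => N (n z) z ∩ U (n z), fun z hz =>
    inter_mem (h1 _ z (hn z hz)) ((hU _).mem_nhds (hZU _ (hn z hz))), fun y => ?_⟩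
  refine ((hf y).biUnion fun m _ => h2 m y).subset fun z hz => ?_
  exact mem_biUnion hz.2.2 ⟨hn z hz.1, hz.2.1⟩

theorem PF.preimage {Z : Set Y} (h : PF Z) {g : X → Y} (hg : Continuous g)
    (hfin : ∀ y, (g ⁻¹' {y}).Finite) : PF (g ⁻¹' Z) := by
  obtain ⟨N, h1, h2⟩ := h
  refine ⟨fun p => g ⁻¹' N (g p), fun p hp => hg.continuousAt.preimage_mem_nhds (h1 _ hp),
    fun y => ((h2 (g y)).biUnion fun z _ => hfin z).subset fun p hp => ?_⟩
  exact mem_biUnion (x := g p) ⟨hp.1, hp.2⟩ rfl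

end PF

variable {E : Type} [MetricSpace E] [Dend E]

/-- Points separated from the root `ρ` by `c`. -/
def desc (ρ c : E) : Set E := (insert c (connectedComponentIn {c}ᶜ ρ))ᶜ

omit [Dend E] in
theorem isOpen_desc (ρ c : E) : IsOpen (desc ρ c) := (isClosed_insert_cc c ρ).isOpen_compl

omit [Dend E] in
theorem not_mem_desc (ρ c : E) : c ∉ desc ρ c := fun h => h (mem_insert _ _)

omit [Dend E] in
theorem root_not_mem_desc (ρ c : E) : ρ ∉ desc ρ c := fun h => by
  by_cases h' : ρ = c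
  · exact h (Or.inl h')
  · exact h (Or.inr (mem_connectedComponentIn h'))

omit [Dend E] in
theorem insert_desc (ρ c : E) : insert c (desc ρ c) = (connectedComponentIn {c}ᶜ ρ)ᶜ := by
  ext w
  constructor
  · rintro (rfl | h) h'
    · exact connectedComponentIn_subset _ _ h' rfl
    · exact h (Or.inr h')
  · intro h
    by_cases h' : w = c
    · exact Or.inl h'
    · exact Or.inr fun h'' => h''.elim h' h

theorem pre_compl_desc (ρ c : E) : IsPreconnected (desc ρ c)ᶜ := by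
  have := pre_inter_side (z := c) isPreconnected_univ (isClosed_insert_cc c ρ)
    (isOpen_compl_singleton.connectedComponentIn (F := {c}ᶜ) (x := ρ)).isClosed_compl
    (fun w _ => by
      by_cases h : w ∈ connectedComponentIn {c}ᶜ ρ
      · exact Or.inl (Or.inr h)
      · exact Or.inr h)
    (fun w _ h1 h2 => h1.resolve_right h2)
  rwa [desc, compl_compl, ← univ_inter (insert c _)]

theorem pre_insert_desc (ρ c : E) : IsPreconnected (insert c (desc ρ c)) := by
  have := pre_inter_side (z := c) isPreconnected_univ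
    (isOpen_compl_singleton.connectedComponentIn (F := {c}ᶜ) (x := ρ)).isClosed_compl
    (isClosed_insert_cc c ρ)
    (fun w _ => by
      by_cases h : w ∈ connectedComponentIn {c}ᶜ ρ
      · exact Or.inr (Or.inr h)
      · exact Or.inl h)
    (fun w _ h1 h2 => h2.resolve_right h1)
  rwa [insert_desc, ← univ_inter (connectedComponentIn _ _)ᶜ]

omit [Dend E] in
theorem pre_desc {ρ c : E} (hρ : ρ ≠ c) (h : Ord2 c) : IsPreconnected (desc ρ c) := by
  obtain ⟨U, V, hU, hV, hUV, huv, hUc, hVc, hρV⟩ := h.side hρ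
  have h1 : connectedComponentIn {c}ᶜ ρ = V :=
    Subset.antisymm (isPreconnected_connectedComponentIn.subset_right_of_subset_union hU hV hUV
      (huv ▸ connectedComponentIn_subset _ _) ⟨ρ, mem_connectedComponentIn hρ, hρV⟩)
      (hVc.isPreconnected.subset_connectedComponentIn hρV (huv ▸ subset_union_right))
  have : desc ρ c = U := by
    rw [desc, h1]
    ext w
    constructor
    · intro hw
      have : w ∈ U ∪ V := by rw [huv]; exact fun e => hw (Or.inl e)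
      exact this.resolve_right fun h => hw (Or.inr h)
    · rintro hw (rfl | h)
      · exact (huv ▸ (Or.inl hw : w ∈ U ∪ V) : w ∈ ({w}ᶜ : Set E)) rfl
      · exact Set.disjoint_left.1 hUV hw h
  rw [this]
  exact hUc.isPreconnected

theorem desc_subset {ρ c c' : E} (h : c' ∈ desc ρ c) : desc ρ c' ⊆ desc ρ c := by
  intro x hx
  by_contra hcon
  exact hx (Or.inr ((pre_compl_desc ρ c).subset_connectedComponentIn (root_not_mem_desc ρ c)
    (fun u hu (e : u = c') => hu (e ▸ h)) hcon))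

theorem desc_or {ρ c c' x : E} (hne : c ≠ c') (h : x ∈ desc ρ c) (h' : x ∈ desc ρ c') :
    c' ∈ desc ρ c ∨ c ∈ desc ρ c' := by
  by_contra hcon
  push Not at hcon
  have h1 : c ∈ connectedComponentIn {c'}ᶜ ρ := (not_not.1 hcon.2).resolve_left hne
  refine h' (Or.inr ?_)
  rw [connectedComponentIn_eq h1]
  refine (pre_insert_desc ρ c).subset_connectedComponentIn (F := {c'}ᶜ) (mem_insert _ _) ?_
    (Or.inr h)
  rintro u (rfl | hu) e
  · exact hne e
  · exact hcon.1 (mem_singleton_iff.1 e ▸ hu)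

theorem exists_tip {ρ z : E} (hne : ρ ≠ z) (hz : IsPreconnected ({z}ᶜ : Set E)) {W : Set E}
    (hW : W ∈ 𝓝 z) : ∃ c, ρ ≠ c ∧ Ord2 c ∧ z ∈ desc ρ c ∧ insert c (desc ρ c) ⊆ W := by
  have hp : IsPathConnected ({z}ᶜ : Set E) :=
    isOpen_compl_singleton.isConnected_iff_isPathConnected.1 ⟨⟨ρ, hne⟩, hz⟩
  have h1 : ∀ w, w ≠ z → ∃ K : Set E, IsClosed K ∧ IsPreconnected K ∧ ρ ∈ K ∧ K ∈ 𝓝 w ∧ z ∉ K := by
    intro w hw
    obtain ⟨γ, hγ⟩ := hp.joinedIn ρ hne w hw
    obtain ⟨N, hN, hwN, hNc, hNz, -⟩ := exists_nbhd (isOpen_compl_singleton.mem_nhds hw)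
    refine ⟨range γ ∪ closure N, (isCompact_range γ.continuous).isClosed.union isClosed_closure,
      (isPreconnected_range γ.continuous).union w ⟨1, γ.target⟩ (subset_closure hwN) hNc.closure,
      Or.inl ⟨0, γ.source⟩, mem_of_superset (hN.mem_nhds hwN)
        (subset_closure.trans subset_union_right), ?_⟩
    rintro (⟨t, ht⟩ | h)
    · exact hγ t ht
    · exact hNz h rfl
  choose! K hK1 hK2 hK3 hK4 hK5 using h1
  have hzW : z ∈ interior W := mem_interior_iff_mem_nhds.2 hW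
  have hF : ∀ w ∈ (interior W)ᶜ, w ≠ z := fun w hw e => hw (e ▸ hzW)
  obtain ⟨t, ht1, ht2⟩ := isOpen_interior.isClosed_compl.isCompact.elim_nhds_subcover K
    fun w hw => hK4 w (hF w hw)
  set L := K ρ ∪ ⋃ w ∈ t, K w with hL
  have hLc : IsClosed L := (hK1 ρ hne).union
    (t.finite_toSet.isClosed_biUnion fun w hw => hK1 w (hF w (ht1 w hw)))
  have hLp : IsPreconnected L := by
    refine isPreconnected_of_forall ρ ?_
    rintro y (hy | hy)
    · exact ⟨K ρ, subset_union_left, hK3 ρ hne, hy, hK2 ρ hne⟩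
    · obtain ⟨w, hw, hyw⟩ := mem_iUnion₂.1 hy
      exact ⟨K w, (subset_biUnion_of_mem (u := K) hw).trans subset_union_right,
        hK3 w (hF w (ht1 w hw)), hyw, hK2 w (hF w (ht1 w hw))⟩
  have hzL : z ∉ L := by
    rintro (h | h)
    · exact hK5 ρ hne h
    · obtain ⟨w, hw, hzw⟩ := mem_iUnion₂.1 h
      exact hK5 w (hF w (ht1 w hw)) hzw
  obtain ⟨α, hα⟩ := exists_isArc hne
  have h2 : α ⁻¹' Lᶜ ∈ 𝓝 (1 : ℝ) :=
    hα.cont.continuousAt.preimage_mem_nhds (hLc.isOpen_compl.mem_nhds (hα.one ▸ hzL))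
  obtain ⟨a, b, ⟨ha, hb⟩, hab⟩ := mem_nhds_iff_exists_Ioo_subset.1 h2
  obtain ⟨s, hs, -, hs2⟩ := hα.exists_adm countable_empty (a := max a 0) (b := 1) (le_max_right _ _)
    (max_lt ha one_pos) le_rfl
  have hs' : s ∈ Ioo (0 : ℝ) 1 := ⟨(le_max_right _ _).trans_lt hs.1, hs.2⟩
  have hsL : α s ∉ L := hab ⟨(le_max_left _ _).trans_lt hs.1, hs.2.trans hb⟩
  have hsep := hα.sep hs'
  obtain ⟨-, h3, h4⟩ := hsep.mem isPreconnected_univ subset_rfl (mem_univ _) (mem_univ _)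
  refine ⟨α s, h3.symm, hs2, ?_, ?_⟩
  · rintro (h | h)
    · exact h4 h.symm
    · exact connectedComponentIn_subset _ _ (hsep.mem isPreconnected_connectedComponentIn
        (subset_univ _) (mem_connectedComponentIn h3.symm) h).1 rfl
  · rw [insert_desc]
    intro w hw
    by_contra hwW
    refine hw (hLp.subset_connectedComponentIn (F := {α s}ᶜ) (Or.inl (hK3 ρ hne))
      (fun u hu e => hsL (mem_singleton_iff.1 e ▸ hu)) (Or.inr (ht2 fun h => hwW ?_)))
    exact interior_subset h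

theorem exists_teeth {Z : Set E} (hne : Z.Nonempty)
    (hnc : ∀ z ∈ Z, IsPreconnected ({z}ᶜ : Set E)) (hpf : PF Z) :
    ∃ (ι : Type) (_ : Countable ι) (P : ι → Set E) (e : ι → E), (∀ i, SD (P i)) ∧
      (∀ i, e i ∈ P i) ∧ Null P ∧ (∀ x, x ∉ Z → ∃ i, x ∈ P i ∧ x ≠ e i) ∧
      (∀ i, ∀ x ∈ P i, x ≠ e i → x ∉ Z) ∧
      ∀ i j x, x ∈ P i → x ≠ e i → x ∈ P j → x ≠ e j → i = j := by
  obtain ⟨ρ, hρ⟩ := hne
  have hZc := hpf.countable
  obtain ⟨N, hN1, hN2⟩ := hpf
  have h1 : ∀ z ∈ Z \ {ρ}, ∀ n : ℕ, ∃ c, ρ ≠ c ∧ Ord2 c ∧ z ∈ desc ρ c ∧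
      insert c (desc ρ c) ⊆ N z ∩ ball z (1 / (n + 1)) := fun z hz n =>
    exists_tip (Ne.symm hz.2) (hnc z hz.1)
      (inter_mem (hN1 z hz.1) (ball_mem_nhds z Nat.one_div_pos_of_nat))
  choose! c hc1 hc2 hc3 hc4 using h1
  set S : Set E := ⋃ z ∈ Z \ {ρ}, range (c z) with hS
  have hSc : S.Countable := (hZc.mono sdiff_subset).biUnion fun z _ => countable_range _
  have hS' : ∀ a ∈ S, ∃ z ∈ Z \ {ρ}, ∃ n, c z n = a := fun a ha => by
    obtain ⟨z, hz, n, hn⟩ := mem_iUnion₂.1 ha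
    exact ⟨z, hz, n, hn⟩
  have hSm : ∀ z ∈ Z \ {ρ}, ∀ n, c z n ∈ S := fun z hz n => mem_biUnion hz ⟨n, rfl⟩
  have hfin : ∀ x, x ∉ Z → {a ∈ S | x ∈ desc ρ a}.Finite := by
    intro x hx
    have h2 : ∀ z ∈ {z ∈ Z | x ∈ N z}, {n : ℕ | dist x z < 1 / (n + 1)}.Finite := by
      intro z hz
      obtain ⟨m, hm⟩ := exists_nat_one_div_lt (dist_pos.2 (fun e => hx (e ▸ hz.1) : x ≠ z))
      refine (finite_lt_nat m).subset fun n hn => ?_
      by_contra hcon
      have : (1 : ℝ) / (n + 1) ≤ 1 / (m + 1) := Nat.one_div_le_one_div (not_lt.1 hcon)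
      exact absurd (hm.trans hn) (not_lt.2 this)
    refine ((hN2 x).biUnion fun z hz => (h2 z hz).image (c z)).subset ?_
    rintro a ⟨ha, hxa⟩
    obtain ⟨z, hz, n, rfl⟩ := hS' a ha
    have := hc4 z hz n (Or.inr hxa)
    exact mem_biUnion (x := z) ⟨hz.1, this.1⟩ ⟨n, this.2, rfl⟩
  let R : E → Set E := fun a => ⋂ a' : {a' // a' ∈ S ∧ a' ∈ desc ρ a}, (desc ρ a')ᶜ
  let P : Option S → Set E := fun o => o.elim (⋂ a : S, (desc ρ a)ᶜ)
    fun a => insert a.1 (desc ρ a) ∩ R a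
  let e : Option S → E := fun o => o.elim ρ fun a => a.1
  have hRc : ∀ a, IsClosed (R a) := fun a => isClosed_iInter fun _ => (isOpen_desc _ _).isClosed_compl
  have hRp : ∀ a, IsPreconnected (R a) := fun a => pre_iInter fun _ => pre_compl_desc _ _
  have he : ∀ i, e i ∈ P i := by
    rintro (_ | a)
    · exact mem_iInter.2 fun a => root_not_mem_desc _ _
    · exact ⟨mem_insert _ _, mem_iInter.2 fun a' h => not_mem_desc _ _ (desc_subset a'.2.2 h)⟩
  have huniq : ∀ i j x, x ∈ P i → x ≠ e i → x ∈ P j → x ≠ e j → i = j := by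
    rintro (_ | a) (_ | b) x h1 h2 h3 h4
    · rfl
    · exact absurd (h3.1.resolve_left h4) (mem_iInter.1 h1 b)
    · exact absurd (h1.1.resolve_left h2) (mem_iInter.1 h3 a)
    · by_contra hab
      have hab' : a.1 ≠ b.1 := fun e => hab (congrArg some (Subtype.ext e))
      rcases desc_or hab' (h1.1.resolve_left h2) (h3.1.resolve_left h4) with h | h
      · exact mem_iInter.1 h1.2 ⟨b.1, b.2, h⟩ (h3.1.resolve_left h4)
      · exact mem_iInter.1 h3.2 ⟨a.1, a.2, h⟩ (h1.1.resolve_left h2)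
  have := hSc.to_subtype
  refine ⟨Option S, inferInstance, P, e, ?_, he, ?_, ?_, ?_, huniq⟩
  · rintro (_ | a)
    · exact sd_of_conn (isClosed_iInter fun _ => (isOpen_desc _ _).isClosed_compl)
        ⟨⟨_, he none⟩, pre_iInter fun _ => pre_compl_desc _ _⟩
    · refine sd_of_conn (IsClosed.inter ?_ (hRc _))
        ⟨⟨_, he (some a)⟩, pre_inter (pre_insert_desc _ _) (hRp _)⟩
      rw [insert_desc]
      exact isOpen_compl_singleton.connectedComponentIn.isClosed_compl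
  · have h2 : Null fun a : S => closure (desc ρ a ∩ R a) := by
      refine (null_of_disjoint (fun a => pre_inter ?_ (hRp _)) ?_).closure
      · obtain ⟨z, hz, n, h⟩ := hS' a a.2
        exact pre_desc (h ▸ hc1 z hz n) (h ▸ hc2 z hz n)
      · intro a b hab
        rw [Function.onFun, Set.disjoint_left]
        intro x h1 h2
        exact hab (Option.some_injective _ (huniq (some a) (some b) x ⟨Or.inr h1.1, h1.2⟩
          (fun (e : x = a.1) => not_mem_desc _ _ (e ▸ h1.1 : a.1 ∈ desc ρ a)) ⟨Or.inr h2.1, h2.2⟩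
          (fun (e : x = b.1) => not_mem_desc _ _ (e ▸ h2.1 : b.1 ∈ desc ρ b))))
    intro ε hε
    refine (((h2 ε hε).image some).union (finite_singleton none)).subset ?_
    rintro (_ | a) ha
    · exact Or.inr rfl
    · refine Or.inl ⟨a, fun hs => ha ?_, rfl⟩
      have hpre : IsPreconnected (P (some a)) := pre_inter (pre_insert_desc _ _) (hRp _)
      by_cases hsing : (desc ρ a ∩ R a).Nonempty
      · refine hs.mono ?_
        rintro w ⟨rfl | hw, hw'⟩
        · by_contra hcon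
          obtain ⟨u, hu⟩ := hsing
          obtain ⟨v, hv, hv1, hv2⟩ := isPreconnected_closed_iff.1 hpre {a.1}
            (closure (desc ρ a ∩ R a)) isClosed_singleton isClosed_closure
            (fun v hv => hv.1.imp id fun h => subset_closure ⟨h, hv.2⟩) ⟨a.1, he (some a), rfl⟩
            ⟨u, ⟨Or.inr hu.1, hu.2⟩, subset_closure hu⟩
          exact hcon (mem_singleton_iff.1 hv1 ▸ hv2)
        · exact subset_closure ⟨hw, hw'⟩
      · rintro x ⟨rfl | hx, hx'⟩ y ⟨rfl | hy, hy'⟩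
        · simpa using hε
        · exact absurd ⟨_, hy, hy'⟩ hsing
        · exact absurd ⟨_, hx, hx'⟩ hsing
        · exact absurd ⟨_, hx, hx'⟩ hsing
  · intro x hx
    rcases {a ∈ S | x ∈ desc ρ a}.eq_empty_or_nonempty with h | h
    · refine ⟨none, mem_iInter.2 fun a ha => ?_, fun e => hx (e ▸ hρ)⟩
      exact (h ▸ ⟨a.2, ha⟩ : a.1 ∈ (∅ : Set E))
    · obtain ⟨a, ha, hmin⟩ := (hfin x hx).exists_minimalFor (desc ρ) _ h
      refine ⟨some ⟨a, ha.1⟩, ⟨Or.inr ha.2, mem_iInter.2 fun a' h' => ?_⟩,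
        fun (e : x = a) => not_mem_desc _ _ (e ▸ ha.2 : a ∈ desc ρ a)⟩
      exact not_mem_desc _ _ (hmin ⟨a'.2.1, h'⟩ (desc_subset a'.2.2) a'.2.2)
  · rintro (_ | a) x h1 h2 hx
    · exact mem_iInter.1 h1 ⟨_, hSm x ⟨hx, h2⟩ 0⟩ (hc3 x ⟨hx, h2⟩ 0)
    · have hxa := h1.1.resolve_left h2
      have hxρ : x ∈ Z \ {ρ} := ⟨hx, fun e => root_not_mem_desc ρ a.1 (mem_singleton_iff.1 e ▸ hxa)⟩
      obtain ⟨r, hr, hb⟩ := Metric.isOpen_iff.1 (isOpen_desc ρ a) x hxa
      obtain ⟨n, hn⟩ := exists_nat_one_div_lt hr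
      exact mem_iInter.1 h1.2 ⟨c x n, hSm x hxρ n,
        hb (ball_subset_ball hn.le (hc4 x hxρ n (mem_insert _ _)).2)⟩ (hc3 x hxρ n)

end Pool.Agent.Lib.MP_32448b_gt
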